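import Mathlib

set_option autoImplicit false

/-!
# Diagram groups: the universal group of a semigroup presentation

`Pres A` is a semigroup presentation over the alphabet `A`; `Edge P` are the (positive) edges
of the Squier complex; `U P` is the group generated by all edges subject to all squares.
-/

namespace H540DG

/-- A semigroup presentation: a set of pairs of nonempty words. -/
structure Pres (A : Type) where
  rels : Set (List A × List A)
  ne : ∀ r ∈ rels, r.1 ≠ [] ∧ r.2 ≠ []

variable {A : Type}

/-- Positive edges of the Squier complex: the edge `(a, u = v, c)` joins `auc` and `avc`. -/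
@[ext] structure Edge (P : Pres A) where
  a : List A
  r : P.rels
  c : List A

variable {P : Pres A}

/-- left side of the relation -/
abbrev Edge.u (e : Edge P) : List A := e.r.1.1
/-- right side of the relation -/
abbrev Edge.v (e : Edge P) : List A := e.r.1.2

/-- source -/
def Edge.src (e : Edge P) : List A := e.a ++ (e.r.1.1 ++ e.c)
/-- target -/
def Edge.tgt (e : Edge P) : List A := e.a ++ (e.r.1.2 ++ e.c)

/-- the square relations -/
def sqRel (P : Pres A) : Set (FreeGroup (Edge P)) :=
  {w | ∃ (a b c : List A) (r s : P.rels),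
    w = FreeGroup.of (⟨a, r, b ++ (s.1.1 ++ c)⟩ : Edge P) *
        FreeGroup.of (⟨a ++ (r.1.2 ++ b), s, c⟩ : Edge P) *
      (FreeGroup.of (⟨a ++ (r.1.1 ++ b), s, c⟩ : Edge P) *
        FreeGroup.of (⟨a, r, b ++ (s.1.2 ++ c)⟩ : Edge P))⁻¹}

/-- the universal group -/
abbrev U (P : Pres A) := PresentedGroup (sqRel P)

/-- generator -/
def gen (e : Edge P) : U P := PresentedGroup.of e

theorem gen_sq (a b c : List A) (r s : P.rels) :
    gen (⟨a, r, b ++ (s.1.1 ++ c)⟩ : Edge P) * gen ⟨a ++ (r.1.2 ++ b), s, c⟩ =
      gen ⟨a ++ (r.1.1 ++ b), s, c⟩ * gen ⟨a, r, b ++ (s.1.2 ++ c)⟩ := by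
  rw [← mul_inv_eq_one]
  have := PresentedGroup.one_of_mem (rels := sqRel P) (x := FreeGroup.of (⟨a, r, b ++ (s.1.1 ++ c)⟩ : Edge P) *
        FreeGroup.of (⟨a ++ (r.1.2 ++ b), s, c⟩ : Edge P) *
      (FreeGroup.of (⟨a ++ (r.1.1 ++ b), s, c⟩ : Edge P) *
        FreeGroup.of (⟨a, r, b ++ (s.1.2 ++ c)⟩ : Edge P))⁻¹) ⟨a, b, c, r, s, rfl⟩
  simpa [gen, PresentedGroup.of] using this

/-- compatibility with squares -/
def SqCompat {G : Type*} [Group G] (f : Edge P → G) : Prop :=
  ∀ (a b c : List A) (r s : P.rels),
    f ⟨a, r, b ++ (s.1.1 ++ c)⟩ * f ⟨a ++ (r.1.2 ++ b), s, c⟩ =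
      f ⟨a ++ (r.1.1 ++ b), s, c⟩ * f ⟨a, r, b ++ (s.1.2 ++ c)⟩

/-- universal property -/
def liftU {G : Type*} [Group G] (f : Edge P → G) (h : SqCompat f) : U P →* G :=
  PresentedGroup.toGroup (f := f) (by
    rintro w ⟨a, b, c, r, s, rfl⟩
    have := h a b c r s
    simp only [map_mul, map_inv, FreeGroup.lift_apply_of]
    rw [mul_inv_eq_one]; exact this)

@[simp] theorem liftU_gen {G : Type*} [Group G] (f : Edge P → G) (h : SqCompat f) (e : Edge P) :
    liftU f h (gen e) = f e := PresentedGroup.toGroup.of _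

/-- induction principle -/
theorem U_induction {C : U P → Prop} (h1 : C 1) (hm : ∀ g e, C g → C (g * gen e))
    (hi : ∀ g e, C g → C (g * (gen e)⁻¹)) (g : U P) : C g := by
  have key : ∀ x : FreeGroup (Edge P), ∀ g, C g → C (g * PresentedGroup.mk (sqRel P) x) := by
    intro x
    induction x using FreeGroup.induction_on with
    | C1 => intro g hg; simpa using hg
    | of e => intro g hg; exact hm g e hg
    | inv_of e _ =>
      intro g hg
      have := hi g e hg
      simpa [gen, PresentedGroup.of] using this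
    | mul x y hx hy =>
      intro g hg
      have := hy _ (hx _ hg)
      simpa [mul_assoc] using this
  obtain ⟨x, rfl⟩ := PresentedGroup.mk_surjective (sqRel P) g
  have := key x 1 h1
  simpa using this

/-- The permutation of `U × M` attached to an edge by a cochain. -/
def intPerm {M : Type*} [AddCommGroup M] (δ : U P → Edge P → M) (e : Edge P) :
    Equiv.Perm (U P × M) where
  toFun x := (x.1 * gen e, x.2 + δ x.1 e)
  invFun x := (x.1 * (gen e)⁻¹, x.2 - δ (x.1 * (gen e)⁻¹) e)
  left_inv x := by simp
  right_inv x := by simp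

/-- integration of cochains -/
theorem integrate {M : Type*} [AddCommGroup M] (δ : U P → Edge P → M)
    (h1 : ∀ g a b c r s, δ g ⟨a, r, b ++ (s.1.1 ++ c)⟩ =
      δ (g * gen ⟨a ++ (r.1.1 ++ b), s, c⟩) ⟨a, r, b ++ (s.1.2 ++ c)⟩)
    (h2 : ∀ g a b c r s, δ g ⟨a ++ (r.1.1 ++ b), s, c⟩ =
      δ (g * gen ⟨a, r, b ++ (s.1.1 ++ c)⟩) ⟨a ++ (r.1.2 ++ b), s, c⟩) :
    ∃ F : U P → M, F 1 = 0 ∧ ∀ g e, F (g * gen e) = F g + δ g e := by
  have hc : SqCompat (fun e => MulOpposite.op (intPerm δ e)) := by
    intro a b c r s
    apply MulOpposite.unop_injective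
    ext1 x
    simp only [MulOpposite.unop_mul, MulOpposite.unop_op, Equiv.Perm.mul_apply, intPerm,
      Equiv.coe_fn_mk]
    refine Prod.ext ?_ ?_
    · simp only [mul_assoc]; rw [gen_sq]
    · simp only
      rw [h1 x.1 a b c r s, h2 x.1 a b c r s]
      abel
  set T := liftU _ hc with hT
  have hfst : ∀ g : U P, ∀ x : U P × M, ((T g).unop x).1 = x.1 * g := by
    intro g
    induction g using U_induction with
    | h1 => intro x; simp
    | hm g e ih =>
      intro x
      rw [map_mul, hT, liftU_gen, ← hT]
      simp only [MulOpposite.unop_mul, MulOpposite.unop_op, Equiv.Perm.mul_apply, intPerm,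
        Equiv.coe_fn_mk, ih, mul_assoc]
    | hi g e ih =>
      intro x
      rw [map_mul, map_inv, hT, liftU_gen, ← hT]
      simp only [MulOpposite.unop_mul, MulOpposite.unop_op, MulOpposite.unop_inv,
        Equiv.Perm.mul_apply]
      change ((intPerm δ e).symm _).1 = _
      simp only [intPerm, Equiv.coe_fn_symm_mk, ih, mul_assoc]
  refine ⟨fun g => ((T g).unop (1, 0)).2, by simp, ?_⟩
  intro g e
  beta_reduce
  rw [map_mul, hT, liftU_gen, ← hT]
  simp only [MulOpposite.unop_mul, MulOpposite.unop_op, Equiv.Perm.mul_apply]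
  simp only [intPerm, Equiv.coe_fn_mk, hfst, one_mul]

/-- whiskering of edges -/
def wE (x y : List A) (e : Edge P) : Edge P := ⟨x ++ e.a, e.r, e.c ++ y⟩

/-- whiskering -/
def wh (x y : List A) : U P →* U P :=
  liftU (fun e => gen (wE x y e)) (by
    intro a b c r s
    have := gen_sq (P := P) (x ++ a) b (c ++ y) r s
    simpa [wE, List.append_assoc] using this)

@[simp] theorem wh_gen (x y : List A) (e : Edge P) : wh x y (gen e) = gen (wE x y e) :=
  liftU_gen _ _ _

/-- the piecewise linear map with `[n, n+k] → [n, n+l]` -/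
def pl (n k l : ℕ) (x : ℚ) : ℚ :=
  if x ≤ n then x else if x ≤ n + k then n + (x - n) * l / k else x + l - k

theorem pl_inv (n k l : ℕ) (hk : 0 < k) (hl : 0 < l) (x : ℚ) : pl n l k (pl n k l x) = x := by
  have hk' : (0 : ℚ) < k := by exact_mod_cast hk
  have hl' : (0 : ℚ) < l := by exact_mod_cast hl
  unfold pl
  by_cases h1 : x ≤ n
  · simp [h1]
  · push Not at h1
    by_cases h2 : x ≤ n + k
    · have h3 : (n : ℚ) < n + (x - n) * l / k := by
        have : 0 < (x - n) * l / k := by
          apply div_pos _ hk'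
          exact mul_pos (by linarith) hl'
        linarith
      have h4 : (n : ℚ) + (x - n) * l / k ≤ n + l := by
        have : (x - n) * l / k ≤ l := by
          rw [div_le_iff₀ hk']
          nlinarith
        linarith
      rw [if_neg (not_le.2 h1), if_pos h2, if_neg (not_le.2 h3), if_pos h4]
      field_simp
      ring
    · push Not at h2
      have h3 : (n : ℚ) + l < x + l - k := by linarith
      rw [if_neg (not_le.2 h1), if_neg (not_le.2 h2), if_neg (not_le.2 (by linarith)),
        if_neg (not_le.2 h3)]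
      ring

theorem pl_mono (n k l : ℕ) (hk : 0 < k) (hl : 0 < l) : StrictMono (pl n k l) := by
  have hk' : (0 : ℚ) < k := by exact_mod_cast hk
  have hl' : (0 : ℚ) < l := by exact_mod_cast hl
  intro x y hxy
  unfold pl
  by_cases h1 : y ≤ n
  · rw [if_pos h1, if_pos (le_trans hxy.le h1)]; exact hxy
  · push Not at h1
    rw [if_neg (not_le.2 h1)]
    by_cases h2 : x ≤ n
    · rw [if_pos h2]
      by_cases h3 : y ≤ n + k
      · rw [if_pos h3]
        have : 0 < (y - n) * l / k := by
          apply div_pos _ hk'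
          exact mul_pos (by linarith) hl'
        linarith
      · rw [if_neg h3]
        push Not at h3
        linarith
    · rw [if_neg h2]
      push Not at h2
      by_cases h3 : y ≤ n + k
      · rw [if_pos h3, if_pos (by linarith)]
        have : (x - n) * l / k < (y - n) * l / k := by
          apply (div_lt_div_iff_of_pos_right hk').2
          apply mul_lt_mul_of_pos_right _ hl'
          linarith
        linarith
      · rw [if_neg h3]
        push Not at h3
        by_cases h4 : x ≤ n + k
        · rw [if_pos h4]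
          have : (x - n) * l / k ≤ l := by
            rw [div_le_iff₀ hk']
            nlinarith
          linarith
        · rw [if_neg h4]
          linarith

/-- the order isomorphism -/
def plIso (n k l : ℕ) (hk : 0 < k) (hl : 0 < l) : ℚ ≃o ℚ :=
  (pl_mono n k l hk hl).orderIsoOfRightInverse _ (pl n l k) (pl_inv n l k hl hk)

@[simp] theorem plIso_apply (n k l : ℕ) (hk : 0 < k) (hl : 0 < l) (x : ℚ) :
    plIso n k l hk hl x = pl n k l x := rfl

theorem lenpos_u (r : P.rels) : 0 < r.1.1.length :=
  List.length_pos_of_ne_nil (P.ne _ r.2).1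
theorem lenpos_v (r : P.rels) : 0 < r.1.2.length :=
  List.length_pos_of_ne_nil (P.ne _ r.2).2

/-- commutation of disjoint piecewise linear maps -/
theorem pl_comm (n k l m k' l' : ℕ) (hk : 0 < k) (hl : 0 < l) (hk' : 0 < k')
    (hl' : 0 < l') (x : ℚ) :
    pl n l k (pl (n + (l + m)) l' k' x) = pl (n + (k + m)) l' k' (pl n l k x) := by
  have h1 : (0 : ℚ) < k := by exact_mod_cast hk
  have h2 : (0 : ℚ) < l := by exact_mod_cast hl
  have h1' : (0 : ℚ) < k' := by exact_mod_cast hk'
  have h2' : (0 : ℚ) < l' := by exact_mod_cast hl'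
  have h3 : (0 : ℚ) ≤ m := by positivity
  by_cases c1 : x ≤ n
  · have e1 : pl (n + (l + m)) l' k' x = x := by
      unfold pl; rw [if_pos]; push_cast; linarith
    have e2 : pl n l k x = x := by
      unfold pl; rw [if_pos c1]
    have e3 : pl (n + (k + m)) l' k' x = x := by
      unfold pl; rw [if_pos]; push_cast; linarith
    rw [e1, e2, e3]
  push Not at c1
  by_cases c2 : x ≤ n + l
  · have e1 : pl (n + (l + m)) l' k' x = x := by
      unfold pl; rw [if_pos]; push_cast; linarith
    have e2 : pl n l k x ≤ n + k := by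
      unfold pl; rw [if_neg (not_le.2 c1), if_pos c2]
      have : (x - n) * k / l ≤ k := by
        rw [div_le_iff₀ h2]
        nlinarith
      linarith
    have e3 : pl (n + (k + m)) l' k' (pl n l k x) = pl n l k x := by
      generalize pl n l k x = z at *
      unfold pl; rw [if_pos]; push_cast; linarith
    rw [e1, e3]
  push Not at c2
  have e2 : pl n l k x = x + k - l := by
    unfold pl; rw [if_neg (not_le.2 c1), if_neg (not_le.2 c2)]
  rw [e2]
  have e4 : (n : ℚ) + l < pl (n + (l + m)) l' k' x := by
    by_cases c3 : x ≤ n + (l + m)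
    · unfold pl; rw [if_pos (by push_cast; exact c3)]; exact c2
    · push Not at c3
      have := pl_mono (n + (l + m)) l' k' hl' hk' c3
      have h5 : pl (n + (l + m)) l' k' ((n : ℚ) + (l + m)) = n + (l + m) := by
        unfold pl; rw [if_pos]; push_cast; exact le_rfl
      rw [h5] at this
      linarith
  have e5 : pl n l k (pl (n + (l + m)) l' k' x) = pl (n + (l + m)) l' k' x + k - l := by
    generalize pl (n + (l + m)) l' k' x = z at *
    unfold pl; rw [if_neg (not_le.2 (by linarith)), if_neg (not_le.2 e4)]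
  rw [e5]
  unfold pl
  push_cast
  by_cases c3 : x ≤ n + (l + m)
  · have c3' : x + (k : ℚ) - l ≤ n + (k + m) := by linarith
    rw [if_pos c3, if_pos c3']
  · have c3' : ¬ (x + (k : ℚ) - l ≤ n + (k + m)) := by
      intro h; apply c3; linarith
    rw [if_neg c3, if_neg c3']
    by_cases c4 : x ≤ n + (l + m) + l'
    · have c4' : x + (k : ℚ) - l ≤ n + (k + m) + l' := by linarith
      rw [if_pos c4, if_pos c4']
      field_simp
      ring
    · have c4' : ¬ (x + (k : ℚ) - l ≤ n + (k + m) + l') := by
        intro h; apply c4; linarith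
      rw [if_neg c4, if_neg c4']
      ring

/-- the piecewise linear map of an edge -/
def thE (e : Edge P) : ℚ ≃o ℚ :=
  plIso e.a.length e.r.1.2.length e.r.1.1.length (lenpos_v _) (lenpos_u _)

theorem thE_compat : SqCompat (thE (P := P)) := by
  intro a b c r s
  ext x
  simp only [thE, RelIso.mul_apply, plIso_apply, List.length_append]
  exact pl_comm _ _ _ _ _ _ (lenpos_u _) (lenpos_v _) (lenpos_u _) (lenpos_v _) _

/-- the piecewise linear representation -/
def th : U P →* (ℚ ≃o ℚ) := liftU thE thE_compat

theorem th_gen (e : Edge P) (x : ℚ) :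
    th (gen e) x = pl e.a.length e.r.1.2.length e.r.1.1.length x := by
  unfold th; rw [liftU_gen]; rfl

end H540DG
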