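import Pool.Agent.H540R3.DG9

set_option autoImplicit false

/-!
# The diagram group as the fundamental group of the Squier complex
-/

namespace H540DG

variable {A : Type} {P : Pres A}

/-- The side of the relation `r` which is replaced, for the orientation `σ`. -/
def lhs (r : P.rels) (σ : Bool) : List A := if σ then r.1.1 else r.1.2

/-- The side of the relation `r` which replaces it, for the orientation `σ`. -/
def rhs (r : P.rels) (σ : Bool) : List A := if σ then r.1.2 else r.1.1

/-- Elementary homotopies of edge paths in the Squier complex: deletion of a backtrack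
`x x⁻¹`, and replacement of one half of the boundary of a square with the other half. -/
inductive Elem (P : Pres A) : List (OE P) → List (OE P) → Prop
  | back (L M : List (OE P)) (x : OE P) : Elem P (L ++ x :: x.inv :: M) (L ++ M)
  | square (L M : List (OE P)) (a b c : List A) (r s : P.rels) (σ τ : Bool) :
      Elem P
        (L ++ ⟨a, r, σ, b ++ (lhs s τ ++ c)⟩ :: ⟨a ++ (rhs r σ ++ b), s, τ, c⟩ :: M)
        (L ++ ⟨a ++ (lhs r σ ++ b), s, τ, c⟩ :: ⟨a, r, σ, b ++ (rhs s τ ++ c)⟩ :: M)

/-- Closed edge paths at `w`. -/
def Loop (P : Pres A) (w : List A) : Type := {L : List (OE P) // IsPath w L w}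

/-- The diagram group `D(P, w) = π₁(S(P), w)`: closed edge paths at `w` in the Squier complex,
modulo the equivalence relation generated by elementary homotopies. -/
def DiagramGroup (P : Pres A) (w : List A) : Type :=
  Quot (fun L M : Loop P w => Elem P L.1 M.1)

/-- reversed path -/
def revp (L : List (OE P)) : List (OE P) := (L.map OE.inv).reverse

theorem revp_append (L M : List (OE P)) : revp (L ++ M) = revp M ++ revp L := by
  simp [revp]

theorem revp_cons (x : OE P) (L : List (OE P)) : revp (x :: L) = revp L ++ [x.inv] := by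
  simp [revp]

theorem inv_inv_oe (x : OE P) : x.inv.inv = x := by
  rcases x with ⟨a, r, s, c⟩
  simp [OE.inv]

theorem revp_revp (L : List (OE P)) : revp (revp L) = L := by
  induction L with
  | nil => rfl
  | cons x L ih =>
    rw [revp_cons, revp_append, ih]
    change [x.inv.inv] ++ L = x :: L
    rw [inv_inv_oe]; rfl

theorem isPath_revp {L : List (OE P)} : ∀ {W W' : List A}, IsPath W L W' →
    IsPath W' (revp L) W := by
  induction L with
  | nil => intro W W' h; exact Eq.symm h
  | cons x L ih =>
    intro W W' h
    obtain ⟨rfl, h2⟩ := h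
    rw [revp_cons]
    exact (ih h2).append ⟨(inv_src x).symm, inv_tgt x⟩

theorem Elem.append_left {L M : List (OE P)} (N : List (OE P)) (h : Elem P L M) :
    Elem P (N ++ L) (N ++ M) := by
  cases h with
  | back L' M' x =>
    have := Elem.back (N ++ L') M' x
    simpa only [List.append_assoc] using this
  | square L' M' a b c r s σ τ =>
    have := Elem.square (N ++ L') M' a b c r s σ τ
    simpa only [List.append_assoc] using this

theorem Elem.append_right {L M : List (OE P)} (N : List (OE P)) (h : Elem P L M) :
    Elem P (L ++ N) (M ++ N) := by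
  cases h with
  | back L' M' x =>
    have := Elem.back L' (M' ++ N) x
    simpa only [List.append_assoc, List.cons_append] using this
  | square L' M' a b c r s σ τ =>
    have := Elem.square L' (M' ++ N) a b c r s σ τ
    simpa only [List.append_assoc, List.cons_append] using this

theorem lhs_not (r : P.rels) (σ : Bool) : lhs r (!σ) = rhs r σ := by cases σ <;> rfl
theorem rhs_not (r : P.rels) (σ : Bool) : rhs r (!σ) = lhs r σ := by cases σ <;> rfl

theorem Elem.revp {L M : List (OE P)} (h : Elem P L M) :
    Elem P (revp L) (revp M) ∨ Elem P (revp M) (revp L) := by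
  cases h with
  | back L' M' x =>
    left
    have := Elem.back (H540DG.revp M') (H540DG.revp L') x
    simpa only [revp_append, revp_cons, inv_inv_oe, List.append_assoc, List.cons_append,
      List.nil_append] using this
  | square L' M' a b c r s σ τ =>
    right
    have := Elem.square (H540DG.revp M') (H540DG.revp L') a b c r s (!σ) (!τ)
    simp only [lhs_not, rhs_not] at this
    simpa only [revp_append, revp_cons, OE.inv, List.append_assoc, List.cons_append,
      List.nil_append] using this

/-- class of a loop -/
def cls {w : List A} (L : List (OE P)) (h : IsPath w L w) : DiagramGroup P w :=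
  Quot.mk _ ⟨L, h⟩

theorem cls_eq {w : List A} {L M : List (OE P)} {h : IsPath w L w} {h' : IsPath w M w}
    (e : Elem P L M) : cls L h = cls M h' := Quot.sound e

theorem cls_congr {w : List A} {L M : List (OE P)} {h : IsPath w L w} {h' : IsPath w M w}
    (e : L = M) : cls L h = cls M h' := by subst e; rfl

/-- insertion of `T⁻¹ T` -/
theorem cls_ins {w : List A} (T : List (OE P)) : ∀ {W0 W' : List A} (_ : IsPath W0 T W')
    (N M : List (OE P)) (h1 : IsPath w N W') (h2 : IsPath W' M w)
    (h : IsPath w (N ++ (revp T ++ (T ++ M))) w), cls _ h = cls _ (h1.append h2) := by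
  induction T with
  | nil =>
    intro W0 W' _ N M h1 h2 h
    exact cls_congr (by simp [revp])
  | cons x T ih =>
    intro W0 W' hT N M h1 h2 h
    obtain ⟨rfl, hT⟩ := hT
    have h3 : IsPath w (N ++ (revp T ++ (T ++ M))) w :=
      h1.append ((isPath_revp hT).append (hT.append h2))
    rw [← ih hT N M h1 h2 h3]
    apply cls_eq
    have := Elem.back (P := P) (N ++ revp T) (T ++ M) x.inv
    rw [inv_inv_oe] at this
    simpa only [revp_cons, List.append_assoc, List.cons_append, List.nil_append] using this

instance (P : Pres A) (w : List A) : Group (DiagramGroup P w) where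
  mul := Quot.map₂ (fun L M => ⟨L.1 ++ M.1, L.2.append M.2⟩)
    (fun L _ _ h => h.append_left L.1) (fun _ _ M h => h.append_right M.1)
  one := cls [] rfl
  inv := Quot.lift (fun L => cls (revp L.1) (isPath_revp L.2)) (by
    intro L M h
    rcases h.revp with h | h
    · exact cls_eq h
    · exact (cls_eq h).symm)
  mul_assoc x y z := by
    induction x using Quot.ind
    induction y using Quot.ind
    induction z using Quot.ind
    exact cls_congr (List.append_assoc _ _ _)
  one_mul x := by
    induction x using Quot.ind
    rfl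
  mul_one x := by
    induction x using Quot.ind
    exact cls_congr (List.append_nil _)
  inv_mul_cancel x := by
    induction x using Quot.ind with
    | mk L =>
      have h := cls_ins (w := w) L.1 L.2 [] [] rfl rfl
        ((isPath_revp L.2).append (L.2.append rfl))
      refine Eq.trans ?_ h
      exact cls_congr (by simp)

theorem cls_mul {w : List A} {L M : List (OE P)} (h : IsPath w L w) (h' : IsPath w M w) :
    cls L h * cls M h' = cls (L ++ M) (h.append h') := rfl

theorem cls_one {w : List A} : (1 : DiagramGroup P w) = cls [] rfl := rfl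

theorem pv_elem {L M : List (OE P)} (h : Elem P L M) : pv L = pv M := by
  cases h with
  | back L' M' x => simp [inv_val]
  | square L' M' a b c r s σ τ =>
    have := osq (P := P) a b c r s σ τ
    simp only [pv_append, pv_cons]
    have h2 : (⟨a, r, σ, b ++ (lhs s τ ++ c)⟩ : OE P).val *
        (⟨a ++ (rhs r σ ++ b), s, τ, c⟩ : OE P).val =
      (⟨a ++ (lhs r σ ++ b), s, τ, c⟩ : OE P).val *
        (⟨a, r, σ, b ++ (rhs s τ ++ c)⟩ : OE P).val := this
    rw [← mul_assoc (OE.val _) (OE.val _) (pv M'), h2, mul_assoc]

/-- comparison with the subgroup of the universal group -/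
def toDg (P : Pres A) (w : List A) : DiagramGroup P w →* Dg P w where
  toFun := Quot.lift (fun L => ⟨pv L.1, ⟨L.1, L.2, rfl⟩⟩) (by
    intro L M h
    apply Subtype.ext
    exact pv_elem h)
  map_one' := rfl
  map_mul' x y := by
    induction x using Quot.ind
    induction y using Quot.ind
    apply Subtype.ext
    exact pv_append _ _

theorem toDg_surjective (P : Pres A) (w : List A) : Function.Surjective (toDg P w) := by
  rintro ⟨g, L, hL, rfl⟩
  exact ⟨cls L hL, rfl⟩

section retraction

variable (P) (w : List A)

/-- reachable words -/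
def Reach (W : List A) : Prop := ∃ L : List (OE P), IsPath w L W

open Classical in
/-- chosen paths -/
noncomputable def tree (W : List A) : List (OE P) :=
  if W = w then [] else if h : Reach P w W then h.choose else []

variable {P w}

theorem isPath_tree {W : List A} (h : Reach P w W) : IsPath w (tree P w W) W := by
  unfold tree
  by_cases h1 : W = w
  · rw [if_pos h1]; exact h1.symm
  · rw [if_neg h1, dif_pos h]
    exact h.choose_spec

theorem tree_self : tree P w w = [] := by
  unfold tree
  rw [if_pos rfl]

theorem reach_path {W W' : List A} {L : List (OE P)} (h : IsPath W L W') :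
    Reach P w W ↔ Reach P w W' :=
  ⟨fun ⟨M, hM⟩ => ⟨_, hM.append h⟩, fun ⟨M, hM⟩ => ⟨_, hM.append (isPath_revp h)⟩⟩

/-- the loop obtained from a path by adding the chosen paths -/
noncomputable def rp {W W' : List A} (L : List (OE P)) (h : IsPath W L W')
    (hW : Reach P w W) : DiagramGroup P w :=
  cls (tree P w W ++ (L ++ revp (tree P w W')))
    ((isPath_tree hW).append (h.append (isPath_revp (isPath_tree ((reach_path h).1 hW)))))

theorem rp_mul {W W' W'' : List A} {L M : List (OE P)} (h : IsPath W L W')
    (h' : IsPath W' M W'') (hW : Reach P w W) (hW' : Reach P w W') :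
    rp L h hW * rp M h' hW' = rp (L ++ M) (h.append h') hW := by
  unfold rp
  rw [cls_mul]
  have hW'' := (reach_path h').1 hW'
  have h1 := cls_ins (w := w) (tree P w W') (isPath_tree hW') (tree P w W ++ L)
    (M ++ revp (tree P w W''))
    ((isPath_tree hW).append h) (h'.append (isPath_revp (isPath_tree hW'')))
    (((isPath_tree hW).append h).append ((isPath_revp (isPath_tree hW')).append
      ((isPath_tree hW').append (h'.append (isPath_revp (isPath_tree hW''))))))
  refine Eq.trans (cls_congr ?_) (h1.trans (cls_congr ?_))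
  · simp only [List.append_assoc]
  · simp only [List.append_assoc]

theorem rp_elem {W W' : List A} {L M : List (OE P)} (h : IsPath W L W')
    (h' : IsPath W M W') (hW : Reach P w W) (e : Elem P L M) : rp L h hW = rp M h' hW :=
  cls_eq ((e.append_right _).append_left _)

theorem rp_congr {W W' W1 W1' : List A} {L : List (OE P)} {M : List (OE P)} (h : IsPath W L W')
    (h' : IsPath W1 M W1') (hW : Reach P w W) (hW1 : Reach P w W1) (e : L = M) (e1 : W = W1)
    (e2 : W' = W1') : rp L h hW = rp M h' hW1 := by
  subst e e1 e2; rfl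

theorem rp_nil {W : List A} (hW : Reach P w W) :
    rp (W := W) (W' := W) ([] : List (OE P)) rfl hW = 1 := by
  unfold rp
  have h1 := cls_ins (w := w) (revp (tree P w W)) (isPath_revp (isPath_tree hW)) [] [] rfl rfl
    (by
      rw [revp_revp]
      exact (isPath_tree hW).append ((isPath_revp (isPath_tree hW)).append rfl))
  refine Eq.trans (cls_congr ?_) h1
  rw [revp_revp]; simp

theorem isPath_oe (x : OE P) : IsPath x.src [x] x.tgt := ⟨rfl, rfl⟩

open Classical in
/-- retraction on generators -/
noncomputable def retE (w : List A) (e : Edge P) : DiagramGroup P w :=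
  if h : Reach P w e.src then
    rp [(⟨e.a, e.r, true, e.c⟩ : OE P)] (isPath_oe (⟨e.a, e.r, true, e.c⟩ : OE P)) h else 1

theorem retE_compat (w : List A) : SqCompat (retE (P := P) w) := by
  intro a b c r s
  -- the two halves of the boundary of the square
  set x : OE P := ⟨a, r, true, b ++ (s.1.1 ++ c)⟩ with hx
  set y : OE P := ⟨a ++ (r.1.2 ++ b), s, true, c⟩ with hy
  set z : OE P := ⟨a ++ (r.1.1 ++ b), s, true, c⟩ with hz
  set t : OE P := ⟨a, r, true, b ++ (s.1.2 ++ c)⟩ with ht
  have exy : x.tgt = y.src := by simp [hx, hy, OE.tgt, OE.src, OE.top, OE.bot]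
  have ezt : z.tgt = t.src := by simp [hz, ht, OE.tgt, OE.src, OE.top, OE.bot]
  have exz : x.src = z.src := by simp [hx, hz, OE.src, OE.top]
  have eyt : y.tgt = t.tgt := by simp [hy, ht, OE.tgt, OE.bot]
  have hxy : IsPath x.src [x, y] y.tgt := ⟨rfl, exy, rfl⟩
  have hzt : IsPath x.src [z, t] y.tgt := ⟨exz, ezt, eyt.symm⟩
  unfold retE
  by_cases h : Reach P w x.src
  · have h1 : Reach P w x.tgt := (reach_path (isPath_oe x)).1 h
    have h2 : Reach P w y.src := exy ▸ h1
    have h3 : Reach P w z.src := exz ▸ h
    have h4 : Reach P w z.tgt := (reach_path (isPath_oe z)).1 h3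
    have h5 : Reach P w t.src := ezt ▸ h4
    have g1 : Reach P w (⟨a, r, b ++ (s.1.1 ++ c)⟩ : Edge P).src := h
    have g2 : Reach P w (⟨a ++ (r.1.2 ++ b), s, c⟩ : Edge P).src := h2
    have g3 : Reach P w (⟨a ++ (r.1.1 ++ b), s, c⟩ : Edge P).src := h3
    have g4 : Reach P w (⟨a, r, b ++ (s.1.2 ++ c)⟩ : Edge P).src := h5
    rw [dif_pos g1, dif_pos g2, dif_pos g3, dif_pos g4]
    change rp [x] (isPath_oe x) h * rp [y] (isPath_oe y) h2 =
      rp [z] (isPath_oe z) h3 * rp [t] (isPath_oe t) h5
    have hx1 : IsPath x.src [x] y.src := ⟨rfl, exy⟩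
    have hz1 : IsPath x.src [z] t.src := ⟨exz, ezt⟩
    have e1 : rp [x] (isPath_oe x) h = rp [x] hx1 h := rp_congr _ _ _ _ rfl rfl exy
    have e2 : rp [z] (isPath_oe z) h3 = rp [z] hz1 h := rp_congr _ _ _ _ rfl exz.symm ezt
    have e3 := rp_mul hx1 (isPath_oe y) h h2
    have e4 := rp_mul hz1 (isPath_oe t) h h5
    have e5 : rp ([x] ++ [y]) (hx1.append (isPath_oe y)) h = rp [x, y] hxy h :=
      rp_congr _ _ _ _ rfl rfl rfl
    have e6 : rp ([z] ++ [t]) (hz1.append (isPath_oe t)) h = rp [z, t] hzt h :=
      rp_congr _ _ _ _ rfl rfl eyt.symm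
    have e7 : rp [x, y] hxy h = rp [z, t] hzt h :=
      rp_elem _ _ _ (Elem.square [] [] a b c r s true true)
    rw [e1, e2]
    exact e3.trans (e5.trans (e7.trans (e6.symm.trans e4.symm)))
  · have g1 : ¬ Reach P w (⟨a, r, b ++ (s.1.1 ++ c)⟩ : Edge P).src := h
    have g2 : ¬ Reach P w (⟨a ++ (r.1.2 ++ b), s, c⟩ : Edge P).src := fun h2 =>
      h ((reach_path (isPath_oe x)).2 (exy ▸ h2))
    have g3 : ¬ Reach P w (⟨a ++ (r.1.1 ++ b), s, c⟩ : Edge P).src := fun h3 => h (exz ▸ h3)
    have g4 : ¬ Reach P w (⟨a, r, b ++ (s.1.2 ++ c)⟩ : Edge P).src := fun h4 => by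
      apply h
      have : Reach P w z.src := (reach_path (isPath_oe z)).2 (ezt ▸ h4)
      exact exz ▸ this
    rw [dif_neg g1, dif_neg g2, dif_neg g3, dif_neg g4]

/-- the retraction -/
noncomputable def ret (w : List A) : U P →* DiagramGroup P w := liftU (retE w) (retE_compat w)

theorem ret_val {x : OE P} (h : Reach P w x.src) : ret w x.val = rp [x] (isPath_oe x) h := by
  rcases x with ⟨a, r, s, c⟩
  cases s
  · set x : OE P := ⟨a, r, false, c⟩ with hx
    have h1 : Reach P w (⟨a, r, c⟩ : Edge P).src :=
      (reach_path (isPath_oe (⟨a, r, false, c⟩ : OE P))).1 h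
    have h2 : ret w (gen ⟨a, r, c⟩) = rp [x.inv] (isPath_oe x.inv) h1 := by
      unfold ret
      rw [liftU_gen]
      unfold retE
      rw [dif_pos h1]
      rfl
    rw [val_f, map_inv, h2, inv_eq_iff_mul_eq_one]
    have hp : IsPath x.inv.src [x.inv] x.src := ⟨rfl, inv_tgt x⟩
    have e1 : rp [x.inv] (isPath_oe x.inv) h1 = rp [x.inv] hp h1 :=
      rp_congr _ _ _ _ rfl rfl (inv_tgt x)
    rw [e1, rp_mul hp (isPath_oe x) h1 h]
    have hp2 : IsPath x.inv.src ([x.inv] ++ [x]) x.inv.src := ⟨rfl, inv_tgt x, (inv_src x).symm⟩
    have e2 : rp ([x.inv] ++ [x]) (hp.append (isPath_oe x)) h1 = rp ([x.inv] ++ [x]) hp2 h1 :=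
      rp_congr _ _ _ _ rfl rfl (inv_src x).symm
    rw [e2, ← rp_nil h1]
    apply rp_elem
    have := Elem.back (P := P) [] [] x.inv
    rw [inv_inv_oe] at this
    exact this
  · unfold ret
    rw [val_t, liftU_gen]
    unfold retE
    have h1 : Reach P w (⟨a, r, c⟩ : Edge P).src := h
    rw [dif_pos h1]

theorem ret_pv (L : List (OE P)) : ∀ {W W' : List A} (h : IsPath W L W') (hW : Reach P w W),
    ret w (pv L) = rp L h hW := by
  induction L with
  | nil =>
    intro W W' h hW
    have h' : W = W' := h
    subst h'
    rw [pv_nil, map_one, rp_nil]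
  | cons x L ih =>
    intro W W' h hW
    obtain ⟨rfl, h2⟩ := h
    have h3 : Reach P w x.tgt := (reach_path (isPath_oe x)).1 hW
    rw [pv_cons, map_mul, ih h2 h3, ret_val hW, rp_mul]
    rfl

theorem ret_loop {L : List (OE P)} (h : IsPath w L w) : ret w (pv L) = cls L h := by
  rw [ret_pv L h ⟨[], rfl⟩]
  unfold rp
  apply cls_congr
  rw [tree_self]
  simp [revp]

end retraction

theorem toDg_injective (P : Pres A) (w : List A) : Function.Injective (toDg P w) := by
  intro x y h
  induction x using Quot.ind with
  | mk L =>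
    induction y using Quot.ind with
    | mk M =>
      have h1 : pv L.1 = pv M.1 := congrArg Subtype.val h
      have h2 := ret_loop L.2
      have h3 := ret_loop M.2
      rw [h1, h3] at h2
      exact h2.symm

/-- the two models of the diagram group agree -/
noncomputable def dgEquiv (P : Pres A) (w : List A) : DiagramGroup P w ≃* Dg P w :=
  MulEquiv.ofBijective (toDg P w) ⟨toDg_injective P w, toDg_surjective P w⟩

end H540DG
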