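import Pool.Agent.H540R3.DG1

set_option autoImplicit false

namespace H540DG

variable {A : Type} {P : Pres A}

/-- Oriented edges of the Squier complex: `s = true` means that `u` is replaced with `v`. -/
@[ext] structure OE (P : Pres A) where
  a : List A
  r : P.rels
  s : Bool
  c : List A

namespace OE
/-- the word which is replaced -/
def top (x : OE P) : List A := if x.s then x.r.1.1 else x.r.1.2
/-- the word replacing it -/
def bot (x : OE P) : List A := if x.s then x.r.1.2 else x.r.1.1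
/-- initial vertex -/
def src (x : OE P) : List A := x.a ++ (x.top ++ x.c)
/-- terminal vertex -/
def tgt (x : OE P) : List A := x.a ++ (x.bot ++ x.c)
/-- the inverse edge -/
def inv (x : OE P) : OE P := ⟨x.a, x.r, !x.s, x.c⟩
/-- underlying positive edge -/
def edge (x : OE P) : Edge P := ⟨x.a, x.r, x.c⟩
/-- value in the universal group -/
def val (x : OE P) : U P := if x.s then gen x.edge else (gen x.edge)⁻¹
/-- whiskering -/
def w (p q : List A) (x : OE P) : OE P := ⟨p ++ x.a, x.r, x.s, x.c ++ q⟩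
end OE

@[simp] theorem top_t (a c : List A) (r : P.rels) : (⟨a, r, true, c⟩ : OE P).top = r.1.1 := rfl
@[simp] theorem bot_t (a c : List A) (r : P.rels) : (⟨a, r, true, c⟩ : OE P).bot = r.1.2 := rfl
@[simp] theorem top_f (a c : List A) (r : P.rels) : (⟨a, r, false, c⟩ : OE P).top = r.1.2 := rfl
@[simp] theorem bot_f (a c : List A) (r : P.rels) : (⟨a, r, false, c⟩ : OE P).bot = r.1.1 := rfl
@[simp] theorem val_t (a c : List A) (r : P.rels) :
    (⟨a, r, true, c⟩ : OE P).val = gen ⟨a, r, c⟩ := rfl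
@[simp] theorem val_f (a c : List A) (r : P.rels) :
    (⟨a, r, false, c⟩ : OE P).val = (gen ⟨a, r, c⟩)⁻¹ := rfl

theorem top_pos (x : OE P) : 0 < x.top.length := by
  rcases x with ⟨a, r, s, c⟩
  cases s
  · exact lenpos_v r
  · exact lenpos_u r

theorem bot_pos (x : OE P) : 0 < x.bot.length := by
  rcases x with ⟨a, r, s, c⟩
  cases s
  · exact lenpos_u r
  · exact lenpos_v r

theorem inv_val (x : OE P) : x.inv.val = x.val⁻¹ := by
  rcases x with ⟨a, r, s, c⟩
  cases s <;> simp [OE.inv]

theorem inv_src (x : OE P) : x.inv.src = x.tgt := by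
  rcases x with ⟨a, r, s, c⟩
  cases s <;> rfl

theorem inv_tgt (x : OE P) : x.inv.tgt = x.src := by
  rcases x with ⟨a, r, s, c⟩
  cases s <;> rfl

/-- general squares -/
theorem osq (a b c : List A) (r s : P.rels) (σ τ : Bool) :
    (⟨a, r, σ, b ++ ((⟨[], s, τ, []⟩ : OE P).top ++ c)⟩ : OE P).val *
      (⟨a ++ ((⟨[], r, σ, []⟩ : OE P).bot ++ b), s, τ, c⟩ : OE P).val =
    (⟨a ++ ((⟨[], r, σ, []⟩ : OE P).top ++ b), s, τ, c⟩ : OE P).val *
      (⟨a, r, σ, b ++ ((⟨[], s, τ, []⟩ : OE P).bot ++ c)⟩ : OE P).val := by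
  have h := gen_sq (P := P) a b c r s
  cases σ <;> cases τ <;> simp only [top_t, top_f, bot_t, bot_f, val_t, val_f]
  · have := congrArg (fun z => z⁻¹) h
    simp only [mul_inv_rev] at this
    exact this.symm
  · rw [inv_mul_eq_iff_eq_mul, ← mul_assoc, eq_mul_inv_iff_mul_eq]
    exact h.symm
  · rw [mul_inv_eq_iff_eq_mul, mul_assoc, eq_inv_mul_iff_mul_eq]
    exact h.symm
  · exact h

theorem top_eq (x : OE P) : (⟨[], x.r, x.s, []⟩ : OE P).top = x.top := rfl
theorem bot_eq (x : OE P) : (⟨[], x.r, x.s, []⟩ : OE P).bot = x.bot := rfl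

/-- paths in the Squier complex -/
def IsPath : List A → List (OE P) → List A → Prop
  | W, [], W' => W = W'
  | W, x :: L, W' => W = x.src ∧ IsPath x.tgt L W'

/-- value of a path in the universal group -/
def pv (L : List (OE P)) : U P := (L.map OE.val).prod

@[simp] theorem pv_nil : pv ([] : List (OE P)) = 1 := rfl
@[simp] theorem pv_cons (x : OE P) (L : List (OE P)) : pv (x :: L) = x.val * pv L := by
  simp [pv]
@[simp] theorem pv_append (L M : List (OE P)) : pv (L ++ M) = pv L * pv M := by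
  simp [pv]

theorem IsPath.append {L M : List (OE P)} : ∀ {W W' W'' : List A},
    IsPath W L W' → IsPath W' M W'' → IsPath W (L ++ M) W'' := by
  induction L with
  | nil => intro W W' W'' h1 h2; cases h1; exact h2
  | cons x L ih => intro W W' W'' h1 h2; exact ⟨h1.1, ih h1.2 h2⟩

theorem IsPath.split {L M : List (OE P)} : ∀ {W W'' : List A},
    IsPath W (L ++ M) W'' → ∃ W', IsPath W L W' ∧ IsPath W' M W'' := by
  induction L with
  | nil => intro W W'' h; exact ⟨W, rfl, h⟩
  | cons x L ih =>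
    intro W W'' h
    obtain ⟨W', h1, h2⟩ := ih h.2
    exact ⟨W', ⟨h.1, h1⟩, h2⟩

/-- the elements of the universal group represented by paths -/
def Pi (W : List A) (g : U P) (W' : List A) : Prop := ∃ L, IsPath W L W' ∧ pv L = g

theorem Pi.refl (W : List A) : Pi W (1 : U P) W := ⟨[], rfl, rfl⟩

theorem Pi.trans {W W' W'' : List A} {g h : U P} (h1 : Pi W g W') (h2 : Pi W' h W'') :
    Pi W (g * h) W'' := by
  obtain ⟨L, h1, rfl⟩ := h1
  obtain ⟨M, h2, rfl⟩ := h2
  exact ⟨L ++ M, h1.append h2, by simp⟩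

theorem Pi.oe (x : OE P) : Pi x.src x.val x.tgt := ⟨[x], ⟨rfl, rfl⟩, by simp⟩

theorem Pi.gen (e : Edge P) : Pi e.src (gen e) e.tgt := Pi.oe (⟨e.a, e.r, true, e.c⟩ : OE P)

theorem Pi.symm {W W' : List A} {g : U P} (h : Pi W g W') : Pi W' g⁻¹ W := by
  obtain ⟨L, h1, rfl⟩ := h
  induction L generalizing W with
  | nil => cases h1; simpa using Pi.refl _
  | cons x L ih =>
    obtain ⟨rfl, h2⟩ := h1
    have h3 := ih h2
    have h4 := Pi.oe x.inv
    rw [inv_src, inv_tgt, inv_val] at h4
    have := h3.trans h4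
    simpa using this

/-- induction on paths, from the left -/
theorem Pi.induction {C : ∀ (W : List A) (g : U P) (W' : List A), Pi W g W' → Prop}
    (h0 : ∀ W, C W 1 W (Pi.refl W))
    (h1 : ∀ (x : OE P) g W' (h : Pi x.tgt g W'), C x.tgt g W' h →
      C x.src (x.val * g) W' ((Pi.oe x).trans h))
    {W : List A} {g : U P} {W' : List A} (h : Pi W g W') : C W g W' h := by
  obtain ⟨L, hL, rfl⟩ := h
  induction L generalizing W with
  | nil => cases hL; exact h0 _
  | cons x L ih =>
    obtain ⟨rfl, h2⟩ := hL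
    exact h1 x _ _ ⟨L, h2, rfl⟩ (ih h2)

theorem wh_val (p q : List A) (x : OE P) : wh p q x.val = (x.w p q).val := by
  rcases x with ⟨a, r, s, c⟩
  cases s <;> simp [OE.w, wE]

theorem w_src (p q : List A) (x : OE P) : (x.w p q).src = p ++ (x.src ++ q) := by
  rcases x with ⟨a, r, s, c⟩
  cases s <;> simp [OE.w, OE.src, OE.top]

theorem w_tgt (p q : List A) (x : OE P) : (x.w p q).tgt = p ++ (x.tgt ++ q) := by
  rcases x with ⟨a, r, s, c⟩
  cases s <;> simp [OE.w, OE.tgt, OE.bot]

theorem Pi.wh (p q : List A) {W W' : List A} {g : U P} (h : Pi W g W') :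
    Pi (p ++ (W ++ q)) (wh p q g) (p ++ (W' ++ q)) := by
  induction h using Pi.induction with
  | h0 W => simpa using Pi.refl _
  | h1 x g W' _ ih =>
    rw [map_mul, wh_val]
    have := Pi.oe (x.w p q)
    rw [w_src, w_tgt] at this
    exact this.trans ih

theorem wh_wh (p q p' q' : List A) (g : U P) : wh p q (wh p' q' g) = wh (p ++ p') (q' ++ q) g := by
  have : (wh p q).comp (wh p' q') = wh (P := P) (p ++ p') (q' ++ q) := by
    apply PresentedGroup.ext
    intro e
    change (wh p q) ((wh p' q') (gen e)) = wh _ _ (gen e)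
    simp [wE]
  exact DFunLike.congr_fun this g

theorem wh_nil (g : U P) : wh [] [] g = g := by
  have : (wh [] []) = MonoidHom.id (U P) := by
    apply PresentedGroup.ext
    intro e
    change (wh [] []) (gen e) = gen e
    simp [wE]
  exact DFunLike.congr_fun this g

/-- The interchange law. -/
theorem interchange {p p' q q' : List A} {α β : U P} (hα : Pi p α p') (hβ : Pi q β q') :
    wh [] q α * wh p' [] β = wh p [] β * wh [] q' α := by
  induction hα using Pi.induction with
  | h0 W => simp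
  | h1 x α p' _ ih =>
    have key : ∀ {q q' : List A} {β : U P}, Pi q β q' →
        wh [] q x.val * wh x.tgt [] β = wh x.src [] β * wh [] q' x.val := by
      intro q q' β hβ
      induction hβ using Pi.induction with
      | h0 W => simp
      | h1 y β q' _ ih =>
        have e1 : wh [] y.src x.val * wh x.tgt [] y.val =
            wh x.src [] y.val * wh [] y.tgt x.val := by
          have h := osq x.a (x.c ++ y.a) y.c x.r y.r x.s y.s
          simp only [top_eq, bot_eq] at h
          simp only [wh_val, OE.w, OE.src, OE.tgt, List.nil_append, List.append_assoc,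
            List.append_nil] at h ⊢
          exact h
        rw [map_mul, ← mul_assoc, e1, mul_assoc, ih, map_mul, mul_assoc]
    rw [map_mul, mul_assoc, ih, ← mul_assoc, key hβ, map_mul, mul_assoc]

/-- product moves: `(a, c) → (a', c')` around a fixed middle word -/
def Mv (a m c : List A) (h : U P) (a' c' : List A) : Prop :=
  ∃ α β, Pi a α a' ∧ Pi c β c' ∧ h = wh [] (m ++ c) α * wh (a' ++ m) [] β

theorem Mv.refl (a m c : List A) : Mv a m c (1 : U P) a c :=
  ⟨1, 1, Pi.refl _, Pi.refl _, by simp⟩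

theorem interchange_m {a a' c c' : List A} (m : List A) {α β : U P} (hα : Pi a α a')
    (hβ : Pi c β c') :
    wh [] (m ++ c) α * wh (a' ++ m) [] β = wh (a ++ m) [] β * wh [] (m ++ c') α := by
  have h1 : Pi (m ++ c) (wh m [] β) (m ++ c') := by simpa using hβ.wh m []
  have := interchange hα h1
  simpa [wh_wh] using this

theorem Mv.trans {a m c a' c' a'' c'' : List A} {h h' : U P} (H : Mv a m c h a' c')
    (H' : Mv a' m c' h' a'' c'') : Mv a m c (h * h') a'' c'' := by
  obtain ⟨α, β, hα, hβ, rfl⟩ := H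
  obtain ⟨α', β', hα', hβ', rfl⟩ := H'
  refine ⟨α * α', β * β', hα.trans hα', hβ.trans hβ', ?_⟩
  rw [map_mul, map_mul]
  have := interchange_m m hα' hβ
  calc wh [] (m ++ c) α * wh (a' ++ m) [] β * (wh [] (m ++ c') α' * wh (a'' ++ m) [] β')
      = wh [] (m ++ c) α * (wh (a' ++ m) [] β * wh [] (m ++ c') α') * wh (a'' ++ m) [] β' := by
        group
    _ = wh [] (m ++ c) α * (wh [] (m ++ c) α' * wh (a'' ++ m) [] β) * wh (a'' ++ m) [] β' := by
        rw [this]
    _ = _ := by group

theorem Mv.symm {a m c a' c' : List A} {h : U P} (H : Mv a m c h a' c') :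
    Mv a' m c' h⁻¹ a c := by
  obtain ⟨α, β, hα, hβ, rfl⟩ := H
  refine ⟨α⁻¹, β⁻¹, hα.symm, hβ.symm, ?_⟩
  rw [interchange_m m hα hβ]
  simp

theorem Mv.pi {a m c a' c' : List A} {h : U P} (H : Mv a m c h a' c') :
    Pi (a ++ (m ++ c)) h (a' ++ (m ++ c')) := by
  obtain ⟨α, β, hα, hβ, rfl⟩ := H
  have h1 := hα.wh [] (m ++ c)
  have h2 := hβ.wh (a' ++ m) []
  simp only [List.nil_append, List.append_nil, List.append_assoc] at h1 h2
  exact h1.trans h2

/-- moves commute with crossing the edge -/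
theorem Mv.cross {a c a' c' : List A} (r : P.rels) {α β : U P} (hα : Pi a α a')
    (hβ : Pi c β c') :
    (wh [] (r.1.1 ++ c) α * wh (a' ++ r.1.1) [] β) * gen ⟨a', r, c'⟩ =
      gen ⟨a, r, c⟩ * (wh [] (r.1.2 ++ c) α * wh (a' ++ r.1.2) [] β) := by
  have e0 : Pi r.1.1 (gen (⟨[], r, []⟩ : Edge P)) r.1.2 := by
    have := Pi.gen (⟨[], r, []⟩ : Edge P)
    simpa [Edge.src, Edge.tgt] using this
  have i1 := congrArg (wh a' []) (interchange e0 hβ)
  have e1 : Pi (r.1.1 ++ c) (gen (⟨[], r, c⟩ : Edge P)) (r.1.2 ++ c) := by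
    have := Pi.gen (⟨[], r, c⟩ : Edge P)
    simpa [Edge.src, Edge.tgt] using this
  have i2 := interchange hα e1
  simp only [map_mul, wh_wh, wh_gen, wE, List.nil_append, List.append_nil] at i1 i2
  rw [mul_assoc, ← i1, ← mul_assoc, i2, mul_assoc]

end H540DG
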