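import Pool.Agent.H540R3.DG2

set_option autoImplicit false

namespace H540DG

variable {A : Type} {P : Pres A}

/-! ### positions -/

theorem th_gen_le (e : Edge P) {x : ℚ} (h : x ≤ e.a.length) : th (gen e) x = x := by
  rw [th_gen, pl, if_pos h]

theorem th_gen_ge (e : Edge P) {t : ℚ} (h : 0 ≤ t) :
    th (gen e) (e.a.length + e.r.1.2.length + t) = e.a.length + e.r.1.1.length + t := by
  have h1 : (0 : ℚ) < e.r.1.1.length := by exact_mod_cast lenpos_u e.r
  have h2 : (0 : ℚ) < e.r.1.2.length := by exact_mod_cast lenpos_v e.r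
  rw [th_gen, pl, if_neg (by intro h; linarith)]
  by_cases ht : t = 0
  · subst ht
    rw [if_pos (by simp)]
    field_simp
    ring
  · have : 0 < t := lt_of_le_of_ne h (Ne.symm ht)
    rw [if_neg (by intro h; linarith)]
    ring

theorem th_val_le (x : OE P) {t : ℚ} (h : t ≤ x.a.length) : th x.val t = t := by
  rcases x with ⟨a, r, s, c⟩
  cases s
  · simp only [val_f, map_inv]
    have := th_gen_le (⟨a, r, c⟩ : Edge P) h
    change (th (gen (⟨a, r, c⟩ : Edge P))).symm t = t
    rw [OrderIso.symm_apply_eq]
    exact this.symm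
  · exact th_gen_le (⟨a, r, c⟩ : Edge P) h

theorem th_val_ge (x : OE P) {t : ℚ} (h : 0 ≤ t) :
    th x.val (x.a.length + x.bot.length + t) = x.a.length + x.top.length + t := by
  rcases x with ⟨a, r, s, c⟩
  cases s
  · simp only [val_f, map_inv, bot_f, top_f]
    have := th_gen_ge (⟨a, r, c⟩ : Edge P) h
    simp only at this
    rw [← this]
    change (th _).symm _ = _
    simp
  · exact th_gen_ge (⟨a, r, c⟩ : Edge P) h

theorem th_val_top (x : OE P) :
    th x.val (x.a.length + x.bot.length) = x.a.length + x.top.length := by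
  have := th_val_ge x (t := 0) le_rfl
  simpa using this

/-- left whiskering acts trivially on the left part -/
theorem th_wh_le (b y : List A) (g : U P) {t : ℚ} (h : t ≤ b.length) : th (wh b y g) t = t := by
  induction g using U_induction with
  | h1 => simp
  | hm g e ih =>
    rw [map_mul, map_mul, RelIso.mul_apply, wh_gen, th_gen_le _ _, ih]
    simp only [wE, List.length_append]; push_cast; linarith [Nat.cast_nonneg (α := ℚ) e.a.length]
  | hi g e ih =>
    rw [map_mul, map_mul, RelIso.mul_apply]
    have := th_val_le (⟨b ++ e.a, e.r, false, e.c ++ y⟩ : OE P) (t := t)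
      (by simp only [List.length_append]; push_cast; linarith [Nat.cast_nonneg (α := ℚ) e.a.length])
    simp only [val_f] at this
    rw [map_inv, wh_gen, wE, this, ih]

/-- right whiskering does not change positions -/
theorem th_wh_right (y : List A) (g : U P) : th (wh [] y g) = th g := by
  have : th.comp (wh [] y) = th (P := P) := by
    apply PresentedGroup.ext
    intro e
    change th (wh [] y (gen e)) = th (gen e)
    ext t
    rw [wh_gen, th_gen, th_gen]
    simp [wE]
  exact DFunLike.congr_fun this g

theorem Pi.th {a a' : List A} {α : U P} (h : Pi a α a') {t : ℚ} (ht : 0 ≤ t) :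
    th α (a'.length + t) = a.length + t := by
  induction h using Pi.induction with
  | h0 W => simp
  | h1 x g W' _ ih =>
    rw [map_mul, RelIso.mul_apply, ih]
    have := th_val_ge x (t := x.c.length + t) (by positivity)
    simp only [OE.src, OE.tgt, List.length_append]
    push_cast
    rw [← add_assoc, add_assoc, add_assoc, add_assoc] at *
    convert this using 1
    ring_nf

/-! ### hyperplanes -/

/-- parallel lifts of edges -/
def Par (x y : U P × Edge P) : Prop :=
  x.2.r = y.2.r ∧ ∃ h, Mv x.2.a x.2.r.1.1 x.2.c h y.2.a y.2.c ∧ y.1 = x.1 * h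

theorem Par.refl (x : U P × Edge P) : Par x x := ⟨rfl, 1, Mv.refl _ _ _, by simp⟩

theorem Par.symm {x y : U P × Edge P} (h : Par x y) : Par y x := by
  obtain ⟨h1, g, h2, h3⟩ := h
  refine ⟨h1.symm, g⁻¹, ?_, by rw [h3]; group⟩
  rw [← h1]; exact h2.symm

theorem Par.trans {x y z : U P × Edge P} (h : Par x y) (h' : Par y z) : Par x z := by
  obtain ⟨h1, g, h2, h3⟩ := h
  obtain ⟨h1', g', h2', h3'⟩ := h'
  refine ⟨h1.trans h1', g * g', ?_, by rw [h3', h3]; group⟩
  rw [← h1] at h2'; exact h2.trans h2'

instance parSetoid (P : Pres A) : Setoid (U P × Edge P) :=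
  ⟨Par, Par.refl, Par.symm, Par.trans⟩

/-- hyperplanes of the universal cover -/
abbrev Hyp (P : Pres A) := Quotient (parSetoid P)

/-- the hyperplane of a lift of a positive edge -/
def hyp (g : U P) (e : Edge P) : Hyp P := Quotient.mk _ (g, e)

theorem hyp_eq {g g' : U P} {e e' : Edge P} : hyp g e = hyp g' e' ↔ Par (g, e) (g', e') :=
  Quotient.eq (r := parSetoid P)

theorem hyp_sq1 (g : U P) (a b c : List A) (r s : P.rels) :
    hyp g ⟨a, r, b ++ (s.1.1 ++ c)⟩ =
      hyp (g * gen ⟨a ++ (r.1.1 ++ b), s, c⟩) ⟨a, r, b ++ (s.1.2 ++ c)⟩ := by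
  rw [hyp_eq]
  refine ⟨rfl, gen ⟨a ++ (r.1.1 ++ b), s, c⟩, ⟨1, gen ⟨b, s, c⟩, Pi.refl _, ?_, ?_⟩, rfl⟩
  · exact Pi.gen (⟨b, s, c⟩ : Edge P)
  · simp [wE]

theorem hyp_sq2 (g : U P) (a b c : List A) (r s : P.rels) :
    hyp g ⟨a ++ (r.1.1 ++ b), s, c⟩ =
      hyp (g * gen ⟨a, r, b ++ (s.1.1 ++ c)⟩) ⟨a ++ (r.1.2 ++ b), s, c⟩ := by
  rw [hyp_eq]
  refine ⟨rfl, gen ⟨a, r, b ++ (s.1.1 ++ c)⟩, ⟨gen ⟨a, r, b⟩, 1, ?_, Pi.refl _, ?_⟩, rfl⟩
  · exact Pi.gen (⟨a, r, b⟩ : Edge P)
  · simp [wE]

open Classical in
/-- crossing numbers -/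
theorem exists_cross (H : Hyp P) :
    ∃ F : U P → ℤ, ∀ g e, F (g * gen e) = F g + if hyp g e = H then 1 else 0 := by
  obtain ⟨F, -, hF⟩ := integrate (P := P) (M := ℤ) (fun g e => if hyp g e = H then 1 else 0)
    (fun g a b c r s => by simp only [hyp_sq1 g a b c r s])
    (fun g a b c r s => by simp only [hyp_sq2 g a b c r s])
  exact ⟨F, hF⟩

open Classical in
/-- crossing number of a hyperplane -/
noncomputable def cr (H : Hyp P) : U P → ℤ := Classical.choose (exists_cross H)

open Classical in
theorem cr_gen (H : Hyp P) (g : U P) (e : Edge P) :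
    cr H (g * gen e) = cr H g + if hyp g e = H then 1 else 0 :=
  Classical.choose_spec (exists_cross H) g e

/-- hyperplane of an oriented edge based at `g` -/
def ohyp (g : U P) (x : OE P) : Hyp P := hyp (if x.s then g else g * (gen x.edge)⁻¹) x.edge

theorem cr_val_ne (H : Hyp P) (g : U P) (x : OE P) (h : ohyp g x ≠ H) :
    cr H (g * x.val) = cr H g := by
  rcases x with ⟨a, r, s, c⟩
  cases s
  · have := cr_gen H (g * (gen ⟨a, r, c⟩)⁻¹) ⟨a, r, c⟩
    rw [inv_mul_cancel_right, if_neg] at this
    · simp only [val_f]; rw [this]; simp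
    · exact h
  · have := cr_gen H g ⟨a, r, c⟩
    rw [if_neg] at this
    · simp only [val_t]; rw [this]; simp
    · exact h

theorem cr_val_eq (H : Hyp P) (g : U P) (x : OE P) (h : ohyp g x = H) :
    cr H (g * x.val) ≠ cr H g := by
  rcases x with ⟨a, r, s, c⟩
  cases s
  · have := cr_gen H (g * (gen ⟨a, r, c⟩)⁻¹) ⟨a, r, c⟩
    rw [inv_mul_cancel_right, if_pos] at this
    · simp only [val_f]; rw [this]; simp
    · exact h
  · have := cr_gen H g ⟨a, r, c⟩
    rw [if_pos] at this
    · simp only [val_t]; rw [this]; simp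
    · exact h

/-- list of hyperplanes crossed -/
def hys : U P → List (OE P) → List (Hyp P)
  | _, [] => []
  | g, x :: L => ohyp g x :: hys (g * x.val) L

theorem hys_append (g : U P) (L M : List (OE P)) :
    hys g (L ++ M) = hys g L ++ hys (g * pv L) M := by
  induction L generalizing g with
  | nil => simp [hys]
  | cons x L ih => simp [hys, ih, mul_assoc]

theorem hys_length (g : U P) (L : List (OE P)) : (hys g L).length = L.length := by
  induction L generalizing g with
  | nil => rfl
  | cons x L ih => simp [hys, ih]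

theorem cr_not_mem (H : Hyp P) (g : U P) (L : List (OE P)) (h : H ∉ hys g L) :
    cr H (g * pv L) = cr H g := by
  induction L generalizing g with
  | nil => simp
  | cons x L ih =>
    simp only [hys, List.mem_cons, not_or] at h
    rw [pv_cons, ← mul_assoc, ih _ h.2, cr_val_ne H g x (Ne.symm h.1)]

theorem cr_mem (H : Hyp P) (g : U P) (L : List (OE P)) (hn : (hys g L).Nodup)
    (h : H ∈ hys g L) : cr H (g * pv L) ≠ cr H g := by
  induction L generalizing g with
  | nil => simp [hys] at h
  | cons x L ih =>
    simp only [hys, List.nodup_cons] at hn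
    by_cases hx : ohyp g x = H
    · rw [pv_cons, ← mul_assoc, cr_not_mem H _ L (hx ▸ hn.1)]
      exact cr_val_eq H g x hx
    · simp only [hys, List.mem_cons] at h
      have h' := h.resolve_left (Ne.symm hx)
      rw [pv_cons, ← mul_assoc, ← cr_val_ne H g x hx]
      exact ih _ hn.2 h'

/-! ### intervals of hyperplanes -/

theorem Par.lo {g g' : U P} {e e' : Edge P} (h : Par (g, e) (g', e')) :
    th g' e'.a.length = th g e.a.length := by
  obtain ⟨hr, h, ⟨α, β, hα, hβ, rfl⟩, hg⟩ := h
  simp only at hr hα hβ hg
  rw [hg, map_mul, map_mul, RelIso.mul_apply, RelIso.mul_apply, th_wh_right, th_wh_le]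
  · have := hα.th (t := 0) le_rfl
    simp only [add_zero] at this
    rw [this]
  · simp only [List.length_append]; push_cast
    linarith [Nat.cast_nonneg (α := ℚ) e.r.1.1.length]

theorem Par.hi {g g' : U P} {e e' : Edge P} (h : Par (g, e) (g', e')) :
    th g' (e'.a.length + e'.r.1.1.length) = th g (e.a.length + e.r.1.1.length) := by
  obtain ⟨hr, h, ⟨α, β, hα, hβ, rfl⟩, hg⟩ := h
  simp only at hr hα hβ hg
  rw [hg, map_mul, map_mul, RelIso.mul_apply, RelIso.mul_apply, th_wh_right, th_wh_le]
  · have := hα.th (t := e'.r.1.1.length) (by positivity)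
    rw [this, hr]
  · simp only [List.length_append, hr]; push_cast
    exact le_rfl

/-- lower end of the interval of a hyperplane -/
def Hyp.lo (H : Hyp P) : ℚ :=
  Quotient.lift (fun x : U P × Edge P => th x.1 x.2.a.length)
    (fun _ _ h => (Par.lo h).symm) H

/-- upper end of the interval of a hyperplane -/
def Hyp.hi (H : Hyp P) : ℚ :=
  Quotient.lift (fun x : U P × Edge P => th x.1 (x.2.a.length + x.2.r.1.1.length))
    (fun _ _ h => (Par.hi h).symm) H

theorem lo_hyp (g : U P) (e : Edge P) : (hyp g e).lo = th g e.a.length := rfl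
theorem hi_hyp (g : U P) (e : Edge P) :
    (hyp g e).hi = th g (e.a.length + e.r.1.1.length) := rfl

theorem Hyp.lt (H : Hyp P) : H.lo < H.hi := by
  induction H using Quotient.inductionOn with
  | h x =>
    change th x.1 _ < th x.1 _
    rw [OrderIso.lt_iff_lt]
    have : (0 : ℚ) < x.2.r.1.1.length := by exact_mod_cast lenpos_u x.2.r
    linarith

theorem lo_ohyp (g : U P) (x : OE P) : (ohyp g x).lo = th g x.a.length := by
  rcases x with ⟨a, r, s, c⟩
  cases s
  · simp only [ohyp, OE.edge, lo_hyp]
    have := th_val_le (⟨a, r, false, c⟩ : OE P) (t := a.length) le_rfl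
    simp only [val_f] at this
    rw [if_neg (by simp), map_mul, RelIso.mul_apply, this]
  · rfl

theorem hi_ohyp (g : U P) (x : OE P) : (ohyp g x).hi = th g (x.a.length + x.top.length) := by
  rcases x with ⟨a, r, s, c⟩
  cases s
  · simp only [ohyp, OE.edge, hi_hyp]
    have := th_val_top (⟨a, r, false, c⟩ : OE P)
    simp only [val_f, bot_f, top_f] at this
    rw [if_neg (by simp), map_mul, RelIso.mul_apply, this]
    rfl
  · rfl

/-- hyperplanes crossed by a left move lie to the left -/
theorem cross_left (H : Hyp P) {a a' : List A} {α : U P} (h : Pi a α a') (y : List A) (g : U P)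
    (hF : cr H (g * wh [] y α) ≠ cr H g) : H.hi ≤ th g a.length := by
  induction h using Pi.induction generalizing g with
  | h0 W => simp at hF
  | h1 x α W' _ ih =>
    by_cases hx : ohyp g (x.w [] y) = H
    · rw [← hx, hi_ohyp]
      apply (th g).monotone
      have : (x.w [] y).top.length = x.top.length := rfl
      rw [this]
      simp only [OE.w, OE.src, List.nil_append, List.length_append]
      push_cast
      linarith [Nat.cast_nonneg (α := ℚ) x.c.length]
    · rw [map_mul, wh_val, ← mul_assoc, ← cr_val_ne H g _ hx] at hF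
      have := ih _ hF
      rw [map_mul, RelIso.mul_apply, ← wh_val, th_wh_right] at this
      have h2 := (Pi.oe x).th (t := 0) le_rfl
      simp only [add_zero] at h2
      rw [h2] at this
      exact this

/-- hyperplanes crossed by a right move lie to the right -/
theorem cross_right (H : Hyp P) (b : List A) (β : U P) (g : U P)
    (hF : cr H (g * wh b [] β) ≠ cr H g) : th g b.length ≤ H.lo := by
  induction β using U_induction with
  | h1 => simp at hF
  | hm β e ih =>
    by_cases h1 : cr H (g * wh b [] β) = cr H g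
    · by_cases hx : ohyp (g * wh b [] β) (⟨b ++ e.a, e.r, true, e.c ++ []⟩ : OE P) = H
      · rw [← hx, lo_ohyp, map_mul, RelIso.mul_apply]
        have h2 := th_wh_le b [] β (t := b.length) le_rfl
        conv_lhs => rw [← h2]
        apply (th g).monotone
        apply (th (wh b [] β)).monotone
        simp
      · exfalso
        apply hF
        rw [map_mul, wh_gen, wE, ← mul_assoc]
        have := cr_val_ne H _ _ hx
        simp only [val_t] at this
        rw [this, h1]
    · exact ih h1
  | hi β e ih =>
    by_cases h1 : cr H (g * wh b [] β) = cr H g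
    · by_cases hx : ohyp (g * wh b [] β) (⟨b ++ e.a, e.r, false, e.c ++ []⟩ : OE P) = H
      · rw [← hx, lo_ohyp, map_mul, RelIso.mul_apply]
        have h2 := th_wh_le b [] β (t := b.length) le_rfl
        conv_lhs => rw [← h2]
        apply (th g).monotone
        apply (th (wh b [] β)).monotone
        simp
      · exfalso
        apply hF
        rw [map_mul, map_inv, wh_gen, wE, ← mul_assoc]
        have := cr_val_ne H _ _ hx
        simp only [val_f] at this
        rw [this, h1]
    · exact ih h1

/-- hyperplanes crossed by a product move around a middle word -/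
theorem cross_Mv (H : Hyp P) {a m c a' c' : List A} {h : U P} (hm : Mv a m c h a' c') (g : U P)
    (hF : cr H (g * h) ≠ cr H g) :
    H.hi ≤ th g a.length ∨ th g (a.length + m.length) ≤ H.lo := by
  obtain ⟨α, β, hα, hβ, rfl⟩ := hm
  by_cases h1 : cr H (g * wh [] (m ++ c) α) = cr H g
  · right
    rw [← mul_assoc, ← h1] at hF
    have := cross_right H _ _ _ hF
    rw [map_mul, RelIso.mul_apply, th_wh_right] at this
    have h2 := hα.th (t := m.length) (by positivity)
    simp only [List.length_append] at this
    push_cast at this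
    rwa [h2] at this
  · left
    exact cross_left H hα _ g h1

end H540DG
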