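import Pool.Agent.H540R3.DG3

set_option autoImplicit false

namespace H540DG

variable {A : Type} {P : Pres A}

/-- all edges of `D` are disjoint from the interval `[lo, hi]` -/
def Disj (lo hi : ℚ) : (ℚ → ℚ) → List (OE P) → Prop
  | _, [] => True
  | φ, z :: D => (φ (z.a.length + z.top.length) ≤ lo ∨ hi ≤ φ z.a.length) ∧
      Disj lo hi (φ ∘ th z.val) D

/-- `x` and `y` are inverse to each other after commuting `x` past `D` -/
def Dip (φ : ℚ → ℚ) (x : OE P) (D : List (OE P)) (y : OE P) : Prop :=
  y.r = x.r ∧ y.s = !x.s ∧ φ (th x.val (th (pv D) y.a.length)) = φ x.a.length ∧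
    Disj (φ x.a.length) (φ (x.a.length + x.top.length)) (φ ∘ th x.val) D

theorem split_of_le {l1 l2 m1 m2 : List A} (h : l1 ++ l2 = m1 ++ m2)
    (hl : m1.length ≤ l1.length) : ∃ b, l1 = m1 ++ b ∧ m2 = b ++ l2 := by
  rw [List.append_eq_append_iff] at h
  rcases h with ⟨as, h1, h2⟩ | ⟨bs, h1, h2⟩
  · have : as = [] := by
      have := congrArg List.length h1
      simp at this
      apply List.eq_nil_of_length_eq_zero; omega
    subst this
    exact ⟨[], by simpa using h1.symm, by simpa using h2.symm⟩
  · exact ⟨bs, h1, h2⟩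

theorem top_bot_of {x y : OE P} (hr : y.r = x.r) (hs : y.s = !x.s) : y.top = x.bot := by
  rcases x with ⟨a, r, s, c⟩
  rcases y with ⟨a', r', s', c'⟩
  simp only at hr hs
  subst hr hs
  cases s <;> rfl

theorem th_val_a (x : OE P) : th x.val x.a.length = x.a.length := th_val_le x le_rfl

theorem dip_cancel (D : List (OE P)) : ∀ (φ : ℚ → ℚ) (_ : StrictMono φ) (x y : OE P)
    (W W' : List A), IsPath W (x :: (D ++ [y])) W' → Dip φ x D y →
    ∃ D', IsPath W D' W' ∧ D'.length = D.length ∧ pv D' = x.val * pv D * y.val := by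
  induction D with
  | nil =>
    intro φ hφ x y W W' hp hd
    obtain ⟨hr, hs, ha, -⟩ := hd
    obtain ⟨rfl, h1, h2⟩ := hp
    have h2 : y.tgt = W' := h2
    subst h2
    simp only [pv_nil, map_one, RelIso.one_apply] at ha
    have ha := hφ.injective ha
    rw [← th_val_a x] at ha
    have ha := (th x.val).injective ha
    have hlen : y.a.length = x.a.length := by exact_mod_cast ha
    have ht := top_bot_of hr hs
    unfold OE.tgt OE.src at h1
    rw [ht] at h1
    obtain ⟨e1, e2⟩ := List.append_inj h1 hlen.symm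
    have e3 := List.append_cancel_left e2
    have hy : y = x.inv := by
      apply OE.ext
      · exact e1.symm
      · exact hr
      · exact hs
      · exact e3.symm
    subst hy
    refine ⟨[], (inv_tgt x).symm, rfl, ?_⟩
    simp [inv_val]
  | cons z D ih =>
    intro φ hφ x y W W' hp hd
    obtain ⟨hr, hs, ha, hdz, hD⟩ := hd
    obtain ⟨rfl, h1, h2⟩ := hp
    rcases hdz with hz | hz
    · -- `z` is to the left of `x`
      have hz' : (z.a.length : ℚ) + z.top.length ≤ x.a.length := by
        have h3 : φ ((th x.val) (z.a.length + z.top.length)) ≤ φ (th x.val x.a.length) := by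
          rw [th_val_a]; exact hz
        have h4 := hφ.le_iff_le.1 h3
        exact (OrderIso.le_iff_le (th x.val)).1 h4
      have hz2 : (z.a ++ z.top).length ≤ x.a.length := by
        rw [List.length_append]; exact_mod_cast hz'
      have h3 : x.a ++ (x.bot ++ x.c) = (z.a ++ z.top) ++ z.c := by
        rw [List.append_assoc]; exact h1
      obtain ⟨b, e1, e2⟩ := split_of_le h3 hz2
      set z' : OE P := ⟨z.a, z.r, z.s, b ++ (x.top ++ x.c)⟩ with hz'def
      set x' : OE P := ⟨z.a ++ (z.bot ++ b), x.r, x.s, x.c⟩ with hx'def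
      have hzt : z'.top = z.top := rfl
      have hzb : z'.bot = z.bot := rfl
      have hxt : x'.top = x.top := rfl
      have hxb : x'.bot = x.bot := rfl
      have hsq : z'.val * x'.val = x.val * z.val := by
        have h := osq z.a b x.c z.r x.r z.s x.s
        simp only [top_eq, bot_eq] at h
        rw [hz'def, hx'def, h]
        congr 2
        · rcases x with ⟨xa, xr, xs, xc⟩
          simp only at e1
          rw [e1]
          simp [OE.top]
        · rcases z with ⟨za, zr, zs, zc⟩
          simp only at e2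
          rw [e2]
      have hsrc : x.src = z'.src := by
        change x.a ++ (x.top ++ x.c) = z.a ++ (z.top ++ (b ++ (x.top ++ x.c)))
        rw [e1]; simp only [List.append_assoc]
      have hmid : z'.tgt = x'.src := by
        change z.a ++ (z.bot ++ (b ++ (x.top ++ x.c))) = (z.a ++ (z.bot ++ b)) ++ (x.top ++ x.c)
        simp only [List.append_assoc]
      have htgt : x'.tgt = z.tgt := by
        change (z.a ++ (z.bot ++ b)) ++ (x.bot ++ x.c) = z.a ++ (z.bot ++ z.c)
        rw [e2]; simp only [List.append_assoc]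
      have hlo : th z'.val x'.a.length = x.a.length := by
        have := th_val_ge z' (t := b.length) (by positivity)
        rw [hzt, hzb] at this
        simp only [hx'def, hz'def, e1, List.length_append] at this ⊢
        push_cast at this ⊢
        rw [← add_assoc, this]
      have hhi : th z'.val (x'.a.length + x'.top.length) = x.a.length + x.top.length := by
        have := th_val_ge z' (t := b.length + x.top.length) (by positivity)
        have e6 : (x'.a.length : ℚ) + x'.top.length =
            z'.a.length + z'.bot.length + (b.length + x.top.length) := by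
          rw [hxt, hzb]
          change (((z.a ++ (z.bot ++ b)).length : ℕ) : ℚ) + _ = (z.a.length : ℚ) + _ + _
          simp only [List.length_append]
          push_cast
          ring
        rw [e6, this, hzt]
        change (z.a.length : ℚ) + _ + _ = _
        rw [e1]
        simp only [List.length_append]
        push_cast
        ring
      obtain ⟨D', hp', hl', hv'⟩ := ih (φ ∘ th z'.val) (hφ.comp (th z'.val).strictMono) x' y
        x'.src W' ⟨rfl, by rw [htgt]; exact h2⟩ (by
          refine ⟨hr, hs, ?_, ?_⟩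
          · simp only [Function.comp]
            rw [hlo, ← RelIso.mul_apply, ← RelIso.mul_apply, ← map_mul, ← map_mul,
              hsq, ← ha, pv_cons]
            simp only [map_mul, RelIso.mul_apply]
          · have h5 : (φ ∘ th z'.val) ∘ th x'.val = (φ ∘ th x.val) ∘ th z.val := by
              funext t
              simp only [Function.comp]
              rw [← RelIso.mul_apply, ← RelIso.mul_apply, ← map_mul, ← map_mul, hsq]
            rw [h5]
            simp only [Function.comp]
            rw [hlo, hhi]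
            exact hD)
      refine ⟨z' :: D', ⟨hsrc, by rw [hmid]; exact hp'⟩, by simp [hl'], ?_⟩
      rw [pv_cons, hv', pv_cons, ← mul_assoc, ← mul_assoc, ← mul_assoc, hsq]
    · -- `z` is to the right of `x`
      have hz' : (x.a.length : ℚ) + x.bot.length ≤ z.a.length := by
        have h3 : φ (th x.val (x.a.length + x.bot.length)) ≤ φ ((th x.val) z.a.length) := by
          rw [th_val_top]; exact hz
        have h4 := hφ.le_iff_le.1 h3
        exact (OrderIso.le_iff_le (th x.val)).1 h4
      have hz2 : (x.a ++ x.bot).length ≤ z.a.length := by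
        rw [List.length_append]; exact_mod_cast hz'
      have h3 : z.a ++ (z.top ++ z.c) = (x.a ++ x.bot) ++ x.c := by
        rw [List.append_assoc]; exact h1.symm
      obtain ⟨b, e1, e2⟩ := split_of_le h3 hz2
      set z' : OE P := ⟨x.a ++ (x.top ++ b), z.r, z.s, z.c⟩ with hz'def
      set x' : OE P := ⟨x.a, x.r, x.s, b ++ (z.bot ++ z.c)⟩ with hx'def
      have hzt : z'.top = z.top := rfl
      have hzb : z'.bot = z.bot := rfl
      have hxt : x'.top = x.top := rfl
      have hxb : x'.bot = x.bot := rfl
      have hsq : z'.val * x'.val = x.val * z.val := by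
        have h := osq x.a b z.c x.r z.r x.s z.s
        simp only [top_eq, bot_eq] at h
        rw [hz'def, hx'def, ← h]
        congr 2
        · rcases x with ⟨xa, xr, xs, xc⟩
          simp only at e2
          rw [e2]
        · rcases z with ⟨za, zr, zs, zc⟩
          simp only at e1
          rw [e1]
          simp [OE.bot]
      have hsrc : x.src = z'.src := by
        change x.a ++ (x.top ++ x.c) = (x.a ++ (x.top ++ b)) ++ (z.top ++ z.c)
        rw [e2]; simp only [List.append_assoc]
      have hmid : z'.tgt = x'.src := by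
        change (x.a ++ (x.top ++ b)) ++ (z.bot ++ z.c) = x.a ++ (x.top ++ (b ++ (z.bot ++ z.c)))
        simp only [List.append_assoc]
      have htgt : x'.tgt = z.tgt := by
        change x.a ++ (x.bot ++ (b ++ (z.bot ++ z.c))) = z.a ++ (z.bot ++ z.c)
        rw [e1]; simp only [List.append_assoc]
      have hlo : th z'.val x'.a.length = x.a.length := by
        apply th_val_le
        simp only [hx'def, hz'def, List.length_append]
        push_cast
        linarith [Nat.cast_nonneg (α := ℚ) x.top.length, Nat.cast_nonneg (α := ℚ) b.length]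
      have hhi : th z'.val (x'.a.length + x'.top.length) = x.a.length + x.top.length := by
        rw [hxt]
        apply th_val_le
        simp only [hz'def, List.length_append]
        push_cast
        linarith [Nat.cast_nonneg (α := ℚ) b.length]
      obtain ⟨D', hp', hl', hv'⟩ := ih (φ ∘ th z'.val) (hφ.comp (th z'.val).strictMono) x' y
        x'.src W' ⟨rfl, by rw [htgt]; exact h2⟩ (by
          refine ⟨hr, hs, ?_, ?_⟩
          · simp only [Function.comp]
            rw [hlo, ← RelIso.mul_apply, ← RelIso.mul_apply, ← map_mul, ← map_mul,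
              hsq, ← ha, pv_cons]
            simp only [map_mul, RelIso.mul_apply]
          · have h5 : (φ ∘ th z'.val) ∘ th x'.val = (φ ∘ th x.val) ∘ th z.val := by
              funext t
              simp only [Function.comp]
              rw [← RelIso.mul_apply, ← RelIso.mul_apply, ← map_mul, ← map_mul, hsq]
            rw [h5]
            simp only [Function.comp]
            rw [hlo, hhi]
            exact hD)
      refine ⟨z' :: D', ⟨hsrc, by rw [hmid]; exact hp'⟩, by simp [hl'], ?_⟩
      rw [pv_cons, hv', pv_cons, ← mul_assoc, ← mul_assoc, ← mul_assoc, hsq]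

/-! ### existence of dipoles -/

theorem mem_hys {H : Hyp P} (L : List (OE P)) : ∀ g, H ∈ hys g L →
    ∃ D y L2, L = D ++ y :: L2 ∧ ohyp (g * pv D) y = H ∧ H ∉ hys g D := by
  induction L with
  | nil => intro g h; simp [hys] at h
  | cons x L ih =>
    intro g h
    by_cases hx : ohyp g x = H
    · exact ⟨[], x, L, rfl, by simpa using hx, by simp [hys]⟩
    · simp only [hys, List.mem_cons] at h
      obtain ⟨D, y, L2, rfl, h1, h2⟩ := ih _ (h.resolve_left (Ne.symm hx))
      refine ⟨x :: D, y, L2, rfl, by simpa [mul_assoc] using h1, ?_⟩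
      simp only [hys, List.mem_cons, not_or]
      exact ⟨Ne.symm hx, h2⟩

theorem exists_innermost (L : List (OE P)) : ∀ g, ¬ (hys g L).Nodup →
    ∃ L1 x D y L2, L = L1 ++ x :: (D ++ y :: L2) ∧
      ohyp (g * pv L1 * x.val * pv D) y = ohyp (g * pv L1) x ∧
      (hys (g * pv L1) (x :: D)).Nodup := by
  induction L with
  | nil => intro g h; simp [hys] at h
  | cons x L ih =>
    intro g h
    by_cases hL : (hys (g * x.val) L).Nodup
    · simp only [hys, List.nodup_cons, not_and_or, not_not] at h
      have hx := h.resolve_right (fun h' => h' hL)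
      obtain ⟨D, y, L2, rfl, h1, h2⟩ := mem_hys L _ hx
      refine ⟨[], x, D, y, L2, rfl, by simpa using h1, ?_⟩
      simp only [hys, pv_nil, mul_one, List.nodup_cons]
      refine ⟨h2, ?_⟩
      rw [hys_append] at hL
      exact hL.of_append_left
    · obtain ⟨L1, x', D, y, L2, rfl, h1, h2⟩ := ih _ hL
      refine ⟨x :: L1, x', D, y, L2, rfl, ?_, ?_⟩
      · simpa [mul_assoc] using h1
      · simpa [mul_assoc] using h2

theorem par_cases {g h : U P} {x y : OE P} (H : ohyp h y = ohyp g x) :
    y.r = x.r ∧ ((y.s = x.s ∧ ∃ k, Mv x.a x.top x.c k y.a y.c ∧ h = g * k) ∨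
      (y.s = !x.s ∧ ∃ k, Mv x.a x.bot x.c k y.a y.c ∧ h = g * x.val * k)) := by
  have H' := H.symm
  unfold ohyp at H'
  rw [hyp_eq] at H'
  obtain ⟨hr, k, ⟨α, β, hα, hβ, hk⟩, hb⟩ := H'
  rcases x with ⟨a, r, s, c⟩
  rcases y with ⟨a', r', s', c'⟩
  simp only [OE.edge] at hr hα hβ hk hb
  subst hr
  refine ⟨rfl, ?_⟩
  have hcr := Mv.cross r hα hβ
  cases s <;> cases s' <;> simp only [Bool.false_eq_true, if_false, if_true] at hb
  · left
    refine ⟨rfl, wh [] (r.1.2 ++ c) α * wh (a' ++ r.1.2) [] β, ⟨α, β, hα, hβ, rfl⟩, ?_⟩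
    rw [mul_inv_eq_iff_eq_mul] at hb
    rw [hb, hk, mul_assoc, hcr]
    group
  · right
    refine ⟨rfl, _, ⟨α, β, hα, hβ, rfl⟩, ?_⟩
    rw [hb, hk]
    simp
  · right
    refine ⟨rfl, wh [] (r.1.2 ++ c) α * wh (a' ++ r.1.2) [] β, ⟨α, β, hα, hβ, rfl⟩, ?_⟩
    rw [mul_inv_eq_iff_eq_mul] at hb
    rw [hb, hk, mul_assoc, hcr]
    simp [mul_assoc]
  · left
    exact ⟨rfl, _, ⟨α, β, hα, hβ, rfl⟩, by rw [hb, hk]; rfl⟩

theorem disj_of_hys {lo hi : ℚ} (D : List (OE P)) : ∀ g : U P,
    (∀ K ∈ hys g D, K.hi ≤ lo ∨ hi ≤ K.lo) → Disj lo hi (th g) D := by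
  induction D with
  | nil => intro g _; trivial
  | cons z D ih =>
    intro g h
    refine ⟨?_, ?_⟩
    · have := h (ohyp g z) (by simp [hys])
      rw [lo_ohyp, hi_ohyp] at this
      exact this
    · have h1 : (th g : ℚ → ℚ) ∘ th z.val = th (g * z.val) := by
        funext t; simp
      rw [h1]
      exact ih _ (fun K hK => h K (by simp [hys, hK]))

theorem exists_dip (L : List (OE P)) (g : U P) (h : ¬ (hys g L).Nodup) :
    ∃ L1 x D y L2, L = L1 ++ x :: (D ++ y :: L2) ∧ Dip (th (g * pv L1)) x D y := by
  obtain ⟨L1, x, D, y, L2, hL, h1, h2⟩ := exists_innermost L g h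
  refine ⟨L1, x, D, y, L2, hL, ?_⟩
  set g0 := g * pv L1 with hg0
  obtain ⟨hr, hc⟩ := par_cases h1
  have hlo : (ohyp g0 x).lo = th g0 x.a.length := lo_ohyp g0 x
  have hhi : (ohyp g0 x).hi = th g0 (x.a.length + x.top.length) := hi_ohyp g0 x
  have hlt := (ohyp g0 x).lt
  rcases hc with ⟨hs, k, hk, hkk⟩ | ⟨hs, k, hk, hkk⟩
  · exfalso
    have h3 : cr (ohyp g0 x) (g0 * pv (x :: D)) ≠ cr (ohyp g0 x) g0 :=
      cr_mem _ _ _ h2 (by simp [hys])
    rw [pv_cons, ← mul_assoc, hkk] at h3
    have := cross_Mv _ hk _ h3
    rw [← hlo, ← hhi] at this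
    rcases this with h | h
    · exact absurd hlt (not_lt.2 h)
    · exact absurd hlt (not_lt.2 h)
  · refine ⟨hr, hs, ?_, ?_⟩
    · have h4 := congrArg Hyp.lo h1
      rw [hlo, lo_ohyp] at h4
      rw [← h4]
      simp
    · have h5 : (th g0 : ℚ → ℚ) ∘ th x.val = th (g0 * x.val) := by
        funext t; simp
      rw [h5]
      apply disj_of_hys
      intro K hK
      simp only [hys, List.nodup_cons] at h2
      have h6 : cr K (g0 * x.val * pv D) ≠ cr K (g0 * x.val) := cr_mem _ _ _ h2.2 hK
      rw [hkk] at h6
      have h7 := cross_Mv _ hk _ h6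
      rw [map_mul, RelIso.mul_apply, RelIso.mul_apply, th_val_a, th_val_top] at h7
      exact h7

theorem not_nodup_of_null {L : List (OE P)} (hL : L ≠ []) (hv : pv L = 1) (g : U P) :
    ¬ (hys g L).Nodup := by
  intro hn
  cases L with
  | nil => exact hL rfl
  | cons x L =>
    have := cr_mem (ohyp g x) g (x :: L) hn (by simp [hys])
    rw [hv, mul_one] at this
    exact this rfl

/-- a subpath forming a dipole can be shortened -/
theorem shorten {L1 L2 D : List (OE P)} {x y : OE P} {W W' : List A} {φ : ℚ → ℚ}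
    (hφ : StrictMono φ) (hp : IsPath W (L1 ++ x :: (D ++ y :: L2)) W') (hd : Dip φ x D y) :
    ∃ L', IsPath W L' W' ∧ L'.length < (L1 ++ x :: (D ++ y :: L2)).length ∧
      pv L' = pv (L1 ++ x :: (D ++ y :: L2)) := by
  obtain ⟨W1, hp1, hp2⟩ := hp.split
  have e : x :: (D ++ y :: L2) = (x :: (D ++ [y])) ++ L2 := by simp
  rw [e] at hp2
  obtain ⟨W2, hp3, hp4⟩ := hp2.split
  obtain ⟨D', h1, h2, h3⟩ := dip_cancel D φ hφ x y W1 W2 hp3 hd
  refine ⟨L1 ++ (D' ++ L2), hp1.append (h1.append hp4), ?_, ?_⟩
  · simp [h2]
  · simp [h3, mul_assoc]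

end H540DG
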