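import Pool.Agent.H540R3.DG4

set_option autoImplicit false

namespace H540DG

variable {A : Type} {P : Pres A}

/-! ### transport of dipoles under whiskering -/

theorem th_w_right (q : List A) (x : OE P) : th (x.w [] q).val = th x.val := by
  rw [← wh_val, th_wh_right]

theorem disj_w_right (q : List A) {lo hi : ℚ} (D : List (OE P)) : ∀ φ : ℚ → ℚ,
    Disj lo hi φ (D.map (OE.w [] q)) → Disj lo hi φ D := by
  induction D with
  | nil => intro φ _; trivial
  | cons z D ih =>
    intro φ h
    obtain ⟨h1, h2⟩ := h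
    refine ⟨h1, ?_⟩
    rw [th_w_right] at h2
    exact ih _ h2

theorem pv_map_w (p q : List A) (D : List (OE P)) : pv (D.map (OE.w p q)) = wh p q (pv D) := by
  induction D with
  | nil => simp
  | cons z D ih => simp [ih, wh_val]

theorem dip_w_right (q : List A) {φ : ℚ → ℚ} {x y : OE P} {D : List (OE P)}
    (h : Dip φ (x.w [] q) (D.map (OE.w [] q)) (y.w [] q)) : Dip φ x D y := by
  obtain ⟨h1, h2, h3, h4⟩ := h
  rw [th_w_right, pv_map_w, th_wh_right] at h3
  rw [th_w_right] at h4
  exact ⟨h1, h2, h3, disj_w_right q D _ h4⟩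

theorem pl_shift (m n k l : ℕ) (t : ℚ) : pl (m + n) k l (m + t) = m + pl n k l t := by
  unfold pl
  push_cast
  by_cases h1 : t ≤ n
  · rw [if_pos h1, if_pos (by linarith)]
  · rw [if_neg h1, if_neg (by intro h; apply h1; linarith)]
    by_cases h2 : t ≤ n + k
    · rw [if_pos h2, if_pos (by linarith)]
      ring
    · rw [if_neg h2, if_neg (by intro h; apply h2; linarith)]
      ring

theorem th_w_left (p : List A) (x : OE P) (t : ℚ) :
    th (x.w p []).val (p.length + t) = p.length + th x.val t := by
  rcases x with ⟨a, r, s, c⟩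
  have key : ∀ t : ℚ, th (gen (⟨p ++ a, r, c ++ []⟩ : Edge P)) (p.length + t) =
      p.length + th (gen (⟨a, r, c⟩ : Edge P)) t := by
    intro t
    rw [th_gen, th_gen]
    simp only [List.length_append]
    exact pl_shift _ _ _ _ _
  cases s
  · simp only [OE.w, val_f, map_inv]
    change (th (gen (⟨p ++ a, r, c ++ []⟩ : Edge P))).symm (p.length + t) =
      p.length + (th (gen (⟨a, r, c⟩ : Edge P))).symm t
    rw [OrderIso.symm_apply_eq, key, OrderIso.apply_symm_apply]
  · exact key t

/-- translation -/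
def tr (p : List A) (t : ℚ) : ℚ := p.length + t

theorem tr_mono (p : List A) : StrictMono (tr p) := by
  intro x y h; unfold tr; linarith

theorem tr_th (p : List A) (φ : ℚ → ℚ) (z : OE P) :
    (φ ∘ th (z.w p []).val) ∘ tr p = (φ ∘ tr p) ∘ th z.val := by
  funext t
  simp only [Function.comp, tr]
  rw [th_w_left]

theorem disj_w_left (p : List A) {lo hi : ℚ} (D : List (OE P)) : ∀ φ : ℚ → ℚ,
    Disj lo hi φ (D.map (OE.w p [])) → Disj lo hi (φ ∘ tr p) D := by
  induction D with
  | nil => intro φ _; trivial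
  | cons z D ih =>
    intro φ h
    obtain ⟨h1, h2⟩ := h
    refine ⟨?_, ?_⟩
    · have e : (z.w p []).top = z.top := rfl
      rw [e] at h1
      simp only [OE.w, List.length_append] at h1
      push_cast at h1
      simp only [Function.comp, tr]
      rw [add_assoc] at h1
      exact h1
    · have := ih _ h2
      rwa [tr_th] at this

theorem th_wh_left (p : List A) (D : List (OE P)) (t : ℚ) :
    th (wh p [] (pv D)) (p.length + t) = p.length + th (pv D) t := by
  induction D generalizing t with
  | nil => simp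
  | cons z D ih => rw [pv_cons, map_mul, map_mul, RelIso.mul_apply, ih, wh_val, th_w_left, map_mul,
      RelIso.mul_apply]

theorem dip_w_left (p : List A) {φ : ℚ → ℚ} {x y : OE P} {D : List (OE P)}
    (h : Dip φ (x.w p []) (D.map (OE.w p [])) (y.w p [])) : Dip (φ ∘ tr p) x D y := by
  obtain ⟨h1, h2, h3, h4⟩ := h
  refine ⟨h1, h2, ?_, ?_⟩
  · rw [pv_map_w] at h3
    have e1 : (((y.w p []).a.length : ℕ) : ℚ) = p.length + y.a.length := by
      simp [OE.w]
    have e2 : (((x.w p []).a.length : ℕ) : ℚ) = p.length + x.a.length := by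
      simp [OE.w]
    rw [e1, e2, th_wh_left, th_w_left] at h3
    exact h3
  · have e : (x.w p []).top = x.top := rfl
    have e2 : (((x.w p []).a.length : ℕ) : ℚ) = p.length + x.a.length := by
      simp [OE.w]
    rw [e, e2] at h4
    have := disj_w_left p D _ h4
    rw [tr_th] at this
    simp only [Function.comp, tr]
    rw [add_assoc] at this
    exact this

/-- minimal paths -/
theorem exists_min_path {W W' : List A} {g : U P} (h : Pi W g W') :
    ∃ L, IsPath W L W' ∧ pv L = g ∧ ∀ L', IsPath W L' W' → pv L' = g → L.length ≤ L'.length := by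
  classical
  obtain ⟨L, hL, hv⟩ := h
  have hex : ∃ n, ∃ L : List (OE P), IsPath W L W' ∧ pv L = g ∧ L.length = n :=
    ⟨_, L, hL, hv, rfl⟩
  obtain ⟨L0, h1, h2, h3⟩ := Nat.find_spec hex
  refine ⟨L0, h1, h2, ?_⟩
  intro L' h4 h5
  rw [h3]
  exact Nat.find_min' hex ⟨L', h4, h5, rfl⟩

theorem map_eq_append_cons {α β : Type*} {f : α → β} {l : List α} {l1 : List β} {x : β}
    {l2 : List β} (h : l.map f = l1 ++ x :: l2) :
    ∃ m1 y m2, l = m1 ++ y :: m2 ∧ m1.map f = l1 ∧ f y = x ∧ m2.map f = l2 := by
  obtain ⟨m1, m', rfl, h1, h2⟩ := List.map_eq_append_iff.1 h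
  obtain ⟨y, m2, rfl, h3, h4⟩ := List.map_eq_cons_iff.1 h2
  exact ⟨m1, y, m2, rfl, h1, h3, h4⟩

/-- **Product injectivity.** -/
theorem prod_inj {p p' q q' : List A} {α β : U P} (hα : Pi p α p') (hβ : Pi q β q')
    (h : wh [] q α * wh p' [] β = 1) : α = 1 ∧ β = 1 := by
  obtain ⟨L, hL, hLv, hLmin⟩ := exists_min_path hα
  obtain ⟨M, hM, hMv, hMmin⟩ := exists_min_path hβ
  by_cases hne : L.map (OE.w [] q) ++ M.map (OE.w p' []) = []
  · rw [List.append_eq_nil_iff, List.map_eq_nil_iff, List.map_eq_nil_iff] at hne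
    rw [hne.1] at hLv; rw [hne.2] at hMv
    exact ⟨hLv.symm, hMv.symm⟩
  exfalso
  have hv : pv (L.map (OE.w [] q) ++ M.map (OE.w p' [])) = 1 := by
    rw [pv_append, pv_map_w, pv_map_w, hLv, hMv, h]
  obtain ⟨L1, x, D, y, L2, hdec, hdip⟩ := exists_dip _ 1 (not_nodup_of_null hne hv 1)
  rw [one_mul] at hdip
  rw [List.append_eq_append_iff] at hdec
  rcases hdec with ⟨as, h1, h2⟩ | ⟨bs, h1, h2⟩
  · -- everything in the right part
    obtain ⟨M1, x', M2, rfl, e1, e2, e3⟩ := map_eq_append_cons h2
    obtain ⟨D', y', M3, rfl, e4, e5, e6⟩ := map_eq_append_cons e3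
    subst e2 e4 e5
    have := dip_w_left p' hdip
    obtain ⟨M', f1, f2, f3⟩ := shorten (((th (pv L1)).strictMono).comp (tr_mono p')) hM this
    have := hMmin M' f1 (f3.trans hMv)
    omega
  · rcases List.cons_eq_append_iff.1 h2 with ⟨rfl, h3⟩ | ⟨bs', rfl, h3⟩
    · -- everything in the right part
      obtain ⟨M1, x', M2, rfl, e1, e2, e3⟩ := map_eq_append_cons (l1 := []) h3
      obtain ⟨D', y', M3, rfl, e4, e5, e6⟩ := map_eq_append_cons e3
      subst e2 e4 e5
      have := dip_w_left p' hdip
      obtain ⟨M', f1, f2, f3⟩ := shorten (((th (pv L1)).strictMono).comp (tr_mono p')) hM this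
      have := hMmin M' f1 (f3.trans hMv)
      omega
    · -- `x` is in the left part
      obtain ⟨N1, x', N2, rfl, e1, e2, e3⟩ := map_eq_append_cons h1
      rw [List.append_eq_append_iff] at h3
      -- position of x
      obtain ⟨Wx, hp1, hp2⟩ := hL.split
      obtain ⟨rfl, hp3⟩ := hp2
      have hx : th (pv L1) x.a.length < p.length := by
        have g1 : th (pv L1) (x'.src.length + 0) = p.length + 0 := by
          rw [← e1, pv_map_w, th_wh_right]
          exact Pi.th ⟨N1, hp1, rfl⟩ le_rfl
        rw [add_zero, add_zero] at g1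
        rw [← g1, OrderIso.lt_iff_lt, ← e2]
        simp only [OE.w, OE.src, List.nil_append, List.length_append]
        have : (0 : ℚ) < x'.top.length := by exact_mod_cast top_pos x'
        push_cast
        linarith [Nat.cast_nonneg (α := ℚ) x'.c.length]
      have hcase : (∃ N3 y' N4, N2 = N3 ++ y' :: N4 ∧ N3.map (OE.w [] q) = D ∧ y'.w [] q = y) ∨
          (∃ M1 y' M2, M = M1 ++ y' :: M2 ∧ D = N2.map (OE.w [] q) ++ M1.map (OE.w p' []) ∧
            y'.w p' [] = y) := by
        rcases h3 with ⟨as, g1, g2⟩ | ⟨cs, g1, g2⟩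
        · -- bs' = D ++ as, y :: L2 = as ++ M.map
          rcases List.cons_eq_append_iff.1 g2 with ⟨rfl, g3⟩ | ⟨as', rfl, g3⟩
          · right
            obtain ⟨M1, y', M2, rfl, k1, k2, k3⟩ := map_eq_append_cons (l1 := []) g3
            rw [List.map_eq_nil_iff] at k1
            subst k1
            refine ⟨[], y', M2, rfl, ?_, k2⟩
            rw [e3, g1]; simp
          · left
            rw [g1] at e3
            obtain ⟨N3, y', N4, rfl, k1, k2, k3⟩ := map_eq_append_cons e3
            exact ⟨N3, y', N4, rfl, k1, k2⟩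
        · right
          obtain ⟨M1, y', M2, rfl, k1, k2, k3⟩ := map_eq_append_cons g2
          refine ⟨M1, y', M2, rfl, ?_, k2⟩
          rw [g1, e3, k1]
      rcases hcase with ⟨N3, y', N4, rfl, k1, k2⟩ | ⟨M1, y', M2, rfl, k1, k2⟩
      · -- both in the left part
        subst e2 k1 k2
        have := dip_w_right q hdip
        obtain ⟨M', f1, f2, f3⟩ := shorten ((th (pv L1)).strictMono) hL this
        have := hLmin M' f1 (f3.trans hLv)
        omega
      · -- `x` on the left and `y` on the right
        have hd := hdip.2.2.1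
        rw [← RelIso.mul_apply, ← RelIso.mul_apply, ← map_mul, ← map_mul] at hd
        have g2 : pv L1 * x.val * pv D = wh [] q α * wh p' [] (pv M1) := by
          rw [k1, ← e1, ← e2, pv_append, pv_map_w, pv_map_w, pv_map_w, ← wh_val, ← hLv, pv_append,
            pv_cons]
          simp only [map_mul, mul_assoc]
        rw [g2, map_mul, RelIso.mul_apply, th_wh_right] at hd
        have g3 : (p.length : ℚ) ≤ th α (th (wh p' [] (pv M1)) y.a.length) := by
          have g4 : th α (p'.length + 0) = p.length + 0 := hα.th le_rfl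
          rw [add_zero, add_zero] at g4
          rw [← g4]
          apply (th α).monotone
          have g5 := th_wh_le p' [] (pv M1) (t := p'.length) le_rfl
          conv_lhs => rw [← g5]
          apply (th _).monotone
          rw [← k2]
          simp [OE.w]
        rw [hd] at g3
        exact absurd hx (not_lt.2 g3)

theorem wh_right_inj {p p' : List A} (q : List A) {α : U P} (hα : Pi p α p')
    (h : wh [] q α = 1) : α = 1 :=
  (prod_inj hα (Pi.refl q) (by simpa using h)).1

theorem wh_left_inj {q q' : List A} (p : List A) {β : U P} (hβ : Pi q β q')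
    (h : wh p [] β = 1) : β = 1 :=
  (prod_inj (Pi.refl p) hβ (by simpa using h)).2

/-! ### torsion-freeness -/

theorem orderIso_torsion_free (f : ℚ ≃o ℚ) {n : ℕ} (hn : n ≠ 0) (h : f ^ n = 1) : f = 1 := by
  have key : ∀ (f : ℚ ≃o ℚ) (t : ℚ), t < f t → ∀ n : ℕ, n ≠ 0 → t < (f ^ n) t := by
    intro f t ht n hn
    induction n with
    | zero => exact absurd rfl hn
    | succ n ih =>
      by_cases h0 : n = 0
      · subst h0; simpa using ht
      · have := ih h0
        rw [pow_succ', RelIso.mul_apply]
        exact ht.trans (f.strictMono this)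
  ext t
  rcases lt_trichotomy (f t) t with h1 | h1 | h1
  · exfalso
    have h2 : t < f⁻¹ t := by
      change t < f.symm t
      rw [← f.lt_iff_lt, f.apply_symm_apply]
      exact h1
    have := key f⁻¹ t h2 n hn
    rw [inv_pow, h] at this
    simp at this
  · simpa using h1
  · exfalso
    have := key f t h1 n hn
    rw [h] at this
    simp at this

/-- repeated path -/
def rep (n : ℕ) (L : List (OE P)) : List (OE P) := (List.replicate n L).flatten

@[simp] theorem rep_zero (L : List (OE P)) : rep 0 L = [] := rfl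
theorem rep_succ (n : ℕ) (L : List (OE P)) : rep (n + 1) L = L ++ rep n L := by
  simp [rep, List.replicate_succ]

theorem pv_rep (n : ℕ) (L : List (OE P)) : pv (rep n L) = pv L ^ n := by
  induction n with
  | zero => simp
  | succ n ih => rw [rep_succ, pv_append, ih, pow_succ']

theorem isPath_rep (n : ℕ) {W : List A} {L : List (OE P)} (h : IsPath W L W) :
    IsPath W (rep n L) W := by
  induction n with
  | zero => rfl
  | succ n ih => rw [rep_succ]; exact h.append ih

theorem rep_split (n : ℕ) (L : List (OE P)) : ∀ (L1 : List (OE P)) (x : OE P)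
    (M : List (OE P)), rep n L = L1 ++ x :: M →
    ∃ k m B A, L = A ++ x :: B ∧ L1 = rep k L ++ A ∧ M = B ++ rep m L := by
  induction n with
  | zero => intro L1 x M h; simp [rep] at h
  | succ n ih =>
    intro L1 x M h
    rw [rep_succ, List.append_eq_append_iff] at h
    rcases h with ⟨as, h1, h2⟩ | ⟨bs, h1, h2⟩
    · obtain ⟨k, m, B, A, e1, e2, e3⟩ := ih as x M h2
      exact ⟨k + 1, m, B, A, e1, by rw [h1, e2, rep_succ, List.append_assoc], e3⟩
    · rcases List.cons_eq_append_iff.1 h2 with ⟨rfl, h3⟩ | ⟨bs', rfl, h3⟩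
      · obtain ⟨k, m, B, A, e1, e2, e3⟩ := ih [] x M h3
        refine ⟨k + 1, m, B, A, e1, ?_, e3⟩
        rw [rep_succ, List.append_assoc, ← e2, List.append_nil, h1, List.append_nil]
      · exact ⟨0, n, bs', L1, h1, by simp, h3⟩

/-- **Diagram groups are torsion-free.** -/
theorem torsion_free {W : List A} {g : U P} (hg : Pi W g W) {n : ℕ} (hn : n ≠ 0)
    (h : g ^ n = 1) : g = 1 := by
  classical
  by_contra hg1
  have hex : ∃ ℓ, ∃ (W' : List A) (L : List (OE P)) (γ : U P), IsPath W' L W' ∧
      pv L = γ⁻¹ * g * γ ∧ L.length = ℓ := by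
    obtain ⟨L, h1, h2⟩ := hg
    exact ⟨_, W, L, 1, h1, by simp [h2], rfl⟩
  obtain ⟨W', L, γ, hL, hv, hlen⟩ := Nat.find_spec hex
  have hmin : ∀ (W'' : List A) (L' : List (OE P)) (γ' : U P), IsPath W'' L' W'' →
      pv L' = γ'⁻¹ * g * γ' → L.length ≤ L'.length := by
    intro W'' L' γ' h1 h2
    rw [hlen]
    exact Nat.find_min' hex ⟨W'', L', γ', h1, h2, rfl⟩
  have hpow : pv L ^ n = 1 := by
    rw [hv]
    have : (γ⁻¹ * g * γ) ^ n = γ⁻¹ * g ^ n * γ := by
      have := conj_pow (a := γ⁻¹) (b := g) (i := n)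
      simpa using this
    rw [this, h]; simp
  have hth : th (pv L) = 1 := orderIso_torsion_free _ hn (by rw [← map_pow, hpow, map_one])
  have hLne : L ≠ [] := by
    intro h0
    rw [h0, pv_nil] at hv
    apply hg1
    have : g = γ * (γ⁻¹ * g * γ) * γ⁻¹ := by group
    rw [this, ← hv]; group
  have hRne : rep n L ≠ [] := by
    obtain ⟨m, rfl⟩ := Nat.exists_eq_succ_of_ne_zero hn
    rw [rep_succ]
    intro h0
    exact hLne (List.append_eq_nil_iff.1 h0).1
  obtain ⟨L1, x, D, y, L2, hdec, hdip⟩ := exists_dip (rep n L) 1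
    (not_nodup_of_null hRne (by rw [pv_rep, hpow]) 1)
  rw [one_mul] at hdip
  obtain ⟨k, m, B, A', hLA, hL1, hM⟩ := rep_split n L L1 x _ hdec
  -- the final contradiction when `x` occurs in `D` after a full turn
  have hfin : ∀ D2, D = B ++ (A' ++ x :: D2) → False := by
    intro D2 hD
    have hdj := hdip.2.2.2
    rw [hD] at hdj
    have aux : ∀ (E F : List (OE P)) (φ : ℚ → ℚ) (lo hi : ℚ), Disj lo hi φ (E ++ F) →
        Disj lo hi (φ ∘ th (pv E)) F := by
      intro E F
      induction E with
      | nil => intro φ lo hi h; simpa using h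
      | cons z E ih =>
        intro φ lo hi h
        have := ih _ _ _ h.2
        rw [pv_cons, map_mul]
        exact this
    have h1 := aux (B ++ A') (x :: D2) _ _ _ (by rw [List.append_assoc]; exact hdj)
    obtain ⟨h2, -⟩ := h1
    have h3 : th (x.val * pv (B ++ A')) = 1 := by
      have e : x.val * pv (B ++ A') = (pv A')⁻¹ * pv L * pv A' := by
        rw [hLA]; simp only [pv_append, pv_cons]; group
      rw [e, map_mul, map_mul, hth, map_inv]; group
    have h4 : ∀ t, th x.val (th (pv (B ++ A')) t) = t := by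
      intro t
      rw [← RelIso.mul_apply, ← map_mul, h3]; rfl
    simp only [Function.comp] at h2
    rw [h4, h4] at h2
    have h5 : th (pv L1) x.a.length < th (pv L1) (x.a.length + x.top.length) := by
      rw [OrderIso.lt_iff_lt]
      have : (0 : ℚ) < x.top.length := by exact_mod_cast top_pos x
      linarith
    rcases h2 with h2 | h2
    · exact absurd h5 (not_lt.2 h2)
    · exact absurd h5 (not_lt.2 h2)
  have hss : ∀ D3, D = D3 → y.s = !x.s := fun _ _ => hdip.2.1
  have hxy : y ≠ x := by
    intro h0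
    have := hdip.2.1
    rw [h0] at this
    cases hx : x.s <;> simp [hx] at this
  -- case analysis
  have hcases : (∃ B', B = D ++ y :: B') ∨ (∃ as, D = B ++ as ∧ rep m L = as ++ y :: L2) := by
    rw [List.append_eq_append_iff] at hM
    rcases hM with ⟨as, h1, h2⟩ | ⟨bs, h1, h2⟩
    · rcases List.cons_eq_append_iff.1 h2 with ⟨rfl, h3⟩ | ⟨as', rfl, h3⟩
      · right
        exact ⟨[], by rw [h1]; simp, by simpa using h3⟩
      · left; exact ⟨as', h1⟩
    · right; exact ⟨bs, h1, h2⟩
  rcases hcases with ⟨B', rfl⟩ | ⟨as, hD, hR⟩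
  · -- inside one copy
    rw [hLA] at hL
    obtain ⟨L', f1, f2, f3⟩ := shorten ((th (pv L1)).strictMono) hL hdip
    rw [← hLA] at f2 f3
    have := hmin W' L' γ f1 (by rw [f3, hv])
    omega
  · obtain ⟨k', m', B2, A2, e1, e2, e3⟩ := rep_split m L as y L2 hR
    rcases Nat.eq_zero_or_pos k' with hk | hk
    · subst hk
      simp only [rep_zero, List.nil_append] at e2
      subst e2
      have e4 : A' ++ x :: B = as ++ y :: B2 := by rw [← hLA, ← e1]
      rw [List.append_eq_append_iff] at e4
      rcases e4 with ⟨cs, g1, g2⟩ | ⟨cs, g1, g2⟩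
      · rcases List.cons_eq_append_iff.1 g2 with ⟨rfl, g3⟩ | ⟨cs', rfl, g3⟩
        · exact hxy (List.cons_eq_cons.1 g3).1
        · exact hfin cs' (by rw [hD, g1])
      · rcases List.cons_eq_append_iff.1 g2 with ⟨rfl, g3⟩ | ⟨cs', rfl, g3⟩
        · exact hxy (List.cons_eq_cons.1 g3).1.symm
        · -- rotation
          have hrot : ∃ W1, IsPath W1 (x :: (D ++ y :: cs')) W1 := by
            have e5 : L = (as ++ y :: cs') ++ x :: B := by rw [hLA, g1]
            rw [e5] at hL
            obtain ⟨W1, p1, p2⟩ := hL.split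
            refine ⟨W1, ?_⟩
            have := p2.append p1
            rw [hD]
            simpa using this
          obtain ⟨W1, hr⟩ := hrot
          obtain ⟨L', f1, f2, f3⟩ := shorten (L1 := []) ((th (pv L1)).strictMono) hr hdip
          simp only [List.nil_append] at f2 f3
          have e5 : L = (as ++ y :: cs') ++ x :: B := by rw [hLA, g1]
          have hl : (x :: (D ++ y :: cs')).length = L.length := by
            rw [e5, hD]; simp; omega
          have := hmin W1 L' (γ * pv (as ++ y :: cs')) f1 (by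
            rw [f3, mul_inv_rev]
            have e6 : (pv (as ++ y :: cs'))⁻¹ * γ⁻¹ * g * (γ * pv (as ++ y :: cs')) =
                (pv (as ++ y :: cs'))⁻¹ * (γ⁻¹ * g * γ) * pv (as ++ y :: cs') := by group
            rw [e6, ← hv, e5, hD]
            simp only [pv_append, pv_cons]
            group)
          omega
    · obtain ⟨k'', rfl⟩ := Nat.exists_eq_succ_of_ne_zero (Nat.pos_iff_ne_zero.1 hk)
      apply hfin (B ++ (rep k'' L ++ A2))
      rw [hD, e2, Nat.succ_eq_add_one, rep_succ, hLA]
      simp [List.append_assoc]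

end H540DG
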