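import Mathlib

set_option autoImplicit false

/-!
# Elementary group cohomology: vanishing criteria
-/

namespace H540DG

open CategoryTheory

variable {G : Type} [Group G] {M : Type} [AddCommGroup M]

/-- the inhomogeneous coboundary -/
def cobd (ρ : Representation ℤ G M) (n : ℕ) (f : (Fin n → G) → M) : (Fin (n + 1) → G) → M :=
  fun g => ρ (g 0) (f fun i => g i.succ) +
    ∑ j : Fin (n + 1), (-1 : ℤ) ^ ((j : ℕ) + 1) • f (Fin.contractNth j (· * ·) g)

/-- every `(n+1)`-cocycle is a coboundary -/
def VanRep (ρ : Representation ℤ G M) (n : ℕ) : Prop :=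
  ∀ f : (Fin (n + 1) → G) → M, cobd ρ (n + 1) f = 0 → ∃ h, cobd ρ n h = f

theorem cobd_eq (ρ : Representation ℤ G M) (n : ℕ) (f : (Fin n → G) → M) :
    cobd ρ n f = (inhomogeneousCochains.d (Rep.of ρ) n).hom f := by
  funext g
  rw [inhomogeneousCochains.d_hom_apply]
  rfl

theorem vanRep_iff (ρ : Representation ℤ G M) (n : ℕ) :
    VanRep ρ n ↔ Limits.IsZero (groupCohomology (Rep.of ρ) (n + 1)) := by
  have h1 := (groupCohomology.inhomogeneousCochains (Rep.of ρ)).exactAt_iff_isZero_homology
    (i := n + 1)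
  unfold groupCohomology
  rw [← h1, HomologicalComplex.exactAt_iff' _ n (n + 1) (n + 2) (by simp) (by simp),
    ShortComplex.moduleCat_exact_iff]
  have e1 : ((groupCohomology.inhomogeneousCochains (Rep.of ρ)).sc' n (n + 1) (n + 2)).g =
      inhomogeneousCochains.d (Rep.of ρ) (n + 1) :=
    groupCohomology.inhomogeneousCochains.d_def (A := Rep.of ρ) (n + 1)
  have e2 : ((groupCohomology.inhomogeneousCochains (Rep.of ρ)).sc' n (n + 1) (n + 2)).f =
      inhomogeneousCochains.d (Rep.of ρ) n :=
    groupCohomology.inhomogeneousCochains.d_def (A := Rep.of ρ) n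
  constructor
  · intro h f hf
    rw [e1] at hf
    obtain ⟨k, hk⟩ := h f ((cobd_eq ρ (n + 1) f).trans hf)
    refine ⟨k, ?_⟩
    rw [e2]
    exact (cobd_eq ρ n k).symm.trans hk
  · intro h f hf
    obtain ⟨k, hk⟩ := h f (by rw [e1]; exact (cobd_eq ρ (n + 1) f).symm.trans hf)
    refine ⟨k, ?_⟩
    rw [e2] at hk
    exact (cobd_eq ρ n k).trans hk

theorem cobd_cobd (ρ : Representation ℤ G M) (n : ℕ) (f : (Fin n → G) → M) :
    cobd ρ (n + 1) (cobd ρ n f) = 0 := by
  have h := groupCohomology.inhomogeneousCochains.d_comp_d (A := Rep.of ρ) (n := n)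
  have h2 := congrArg (fun z => z.hom f) h
  rw [cobd_eq, cobd_eq]
  exact h2

theorem cobd_map {N : Type} [AddCommGroup N] {ρ : Representation ℤ G M}
    {σ : Representation ℤ G N} (T : M →+ N) (hT : ∀ g m, T (ρ g m) = σ g (T m)) (n : ℕ)
    (f : (Fin n → G) → M) : cobd σ n (fun g => T (f g)) = fun g => T (cobd ρ n f g) := by
  funext g
  simp only [cobd, map_add, map_sum, map_zsmul, hT]

theorem cobd_sub (ρ : Representation ℤ G M) (n : ℕ) (f f' : (Fin n → G) → M) :
    cobd ρ n (fun g => f g - f' g) = fun g => cobd ρ n f g - cobd ρ n f' g := by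
  funext g
  simp only [cobd, map_sub, smul_sub, Finset.sum_sub_distrib]
  abel

/-- vanishing of `H^(n+1)` with all coefficients -/
def Van (G : Type) [Group G] (n : ℕ) : Prop :=
  ∀ (M : Type) [AddCommGroup M] (ρ : Representation ℤ G M), VanRep ρ n

theorem Van.congr {H : Type} [Group H] (e : G ≃* H) {n : ℕ} (h : Van G n) : Van H n := by
  intro M _ ρ f hf
  have hcomp : ∀ (n : ℕ) (f : (Fin n → H) → M),
      cobd (ρ.comp (e : G →* H)) n (fun g => f (e ∘ g)) = fun g => cobd ρ n f (e ∘ g) := by
    intro n f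
    funext g
    simp only [cobd]
    congr 1
    apply Finset.sum_congr rfl
    intro j _
    congr 2
    funext i
    simp only [Function.comp, Fin.contractNth]
    split_ifs <;> simp
  obtain ⟨k, hk⟩ := h M (ρ.comp (e : G →* H)) (fun g => f (e ∘ g)) (by
    rw [hcomp, hf]; rfl)
  refine ⟨fun g => k (e.symm ∘ g), ?_⟩
  have h2 := hcomp n (fun g => k (e.symm ∘ g))
  have h3 : (fun g : Fin n → G => k (e.symm ∘ (e ∘ g))) = k := by
    funext g
    congr 1
    funext i
    simp
  rw [h3, hk] at h2
  funext g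
  have h4 := congrFun h2 (e.symm ∘ g)
  have h5 : (e ∘ (e.symm ∘ g) : Fin (n + 1) → H) = g := by
    funext i
    simp
  simp only [h5] at h4
  exact h4.symm

theorem van_of_subsingleton [Subsingleton G] (n : ℕ) : Van G n := by
  intro M _ ρ
  rw [vanRep_iff]
  exact isZero_groupCohomology_succ_of_subsingleton _ _

/-- the representation on functions on a `G`-set -/
def funRep (ρ : Representation ℤ G M) (V : Type) [MulAction G V] : Representation ℤ G (V → M) where
  toFun g :=
    { toFun := fun F v => ρ g (F (g⁻¹ • v))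
      map_add' := fun F F' => by funext v; simp
      map_smul' := fun c F => by funext v; simp }
  map_one' := by ext F v; simp
  map_mul' g h := by ext F v; simp [mul_smul]

theorem funRep_apply (ρ : Representation ℤ G M) (V : Type) [MulAction G V] (g : G) (F : V → M)
    (v : V) : funRep ρ V g F v = ρ g (F (g⁻¹ • v)) := rfl

/-- restriction of a function to an orbit, as an element of the coinduced representation -/
def toCoind (ρ : Representation ℤ G M) {V : Type} [MulAction G V] (v : V) :
    (V → M) →+ Representation.coindV (MulAction.stabilizer G v).subtype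
      (ρ.comp (MulAction.stabilizer G v).subtype) where
  toFun F := ⟨fun g => ρ g (F (g⁻¹ • v)), by
    intro s g
    have hs : (s : G)⁻¹ • v = v := by
      rw [inv_smul_eq_iff]; exact s.2.symm
    simp [mul_smul, hs]⟩
  map_zero' := by ext g; simp
  map_add' F F' := by ext g; simp

theorem van_coind (ρ : Representation ℤ G M) (S : Subgroup G) {n : ℕ}
    (h : VanRep (ρ.comp S.subtype) n) :
    VanRep (Representation.coind S.subtype (ρ.comp S.subtype)) n := by
  rw [vanRep_iff] at h ⊢
  exact h.of_iso (groupCohomology.coindIso (Rep.of (ρ.comp S.subtype)) (n + 1))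

theorem van_fun (ρ : Representation ℤ G M) (V : Type) [MulAction G V] {n : ℕ}
    (h : ∀ v : V, VanRep (ρ.comp (MulAction.stabilizer G v).subtype) n) :
    VanRep (funRep ρ V) n := by
  classical
  intro f hf
  have heq : ∀ (v : V) (g : G) (F : V → M),
      toCoind ρ v (funRep ρ V g F) =
        Representation.coind (MulAction.stabilizer G v).subtype
          (ρ.comp (MulAction.stabilizer G v).subtype) g (toCoind ρ v F) := by
    intro v g F
    ext g'
    change ρ g' (ρ g (F (g⁻¹ • g'⁻¹ • v))) = ρ (g' * g) (F ((g' * g)⁻¹ • v))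
    rw [map_mul, mul_inv_rev, mul_smul]
    rfl
  have hk : ∀ v : V, ∃ k, cobd (Representation.coind (MulAction.stabilizer G v).subtype
          (ρ.comp (MulAction.stabilizer G v).subtype)) n k = fun g => toCoind ρ v (f g) := by
    intro v
    apply van_coind ρ _ (h v)
    rw [cobd_map (toCoind ρ v) (heq v), hf]
    funext g
    simp
  choose k hk using hk
  have hex : ∀ x : V, ∃ g : G, g • x = (Quotient.mk (MulAction.orbitRel G V) x).out := by
    intro x
    have : (Quotient.mk (MulAction.orbitRel G V) x).out ∈ MulAction.orbit G x := by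
      have := Quotient.mk_out (s := MulAction.orbitRel G V) x
      exact this
    exact this
  choose gx hgx using hex
  refine ⟨fun γ x => ρ (gx x)⁻¹ ((k (Quotient.mk (MulAction.orbitRel G V) x).out γ).1 (gx x)), ?_⟩
  set H : (Fin n → G) → (V → M) :=
    fun γ x => ρ (gx x)⁻¹ ((k (Quotient.mk (MulAction.orbitRel G V) x).out γ).1 (gx x)) with hH
  have hR : ∀ x : V, (fun γ => toCoind ρ (Quotient.mk (MulAction.orbitRel G V) x).out (H γ)) =
      k (Quotient.mk (MulAction.orbitRel G V) x).out := by
    intro x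
    funext γ
    set v := (Quotient.mk (MulAction.orbitRel G V) x).out with hv
    ext g
    change ρ g (ρ (gx (g⁻¹ • v))⁻¹ ((k (Quotient.mk (MulAction.orbitRel G V) (g⁻¹ • v)).out γ).1
      (gx (g⁻¹ • v)))) = (k v γ).1 g
    have hvv : (Quotient.mk (MulAction.orbitRel G V) (g⁻¹ • v)).out = v := by
      have : Quotient.mk (MulAction.orbitRel G V) (g⁻¹ • v) =
          Quotient.mk (MulAction.orbitRel G V) x := by
        have h1 : Quotient.mk (MulAction.orbitRel G V) (g⁻¹ • v) =
            Quotient.mk (MulAction.orbitRel G V) v := by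
          apply Quotient.sound
          exact ⟨g⁻¹, rfl⟩
        rw [h1, hv]
        exact Quotient.out_eq _
      rw [this]
    have hg' : gx (g⁻¹ • v) • (g⁻¹ • v) = v := by
      rw [hgx, hvv]
    have hcast : ∀ (y : V) (hy : y = v), (k y γ).1 (gx (g⁻¹ • v)) = (k v γ).1 (gx (g⁻¹ • v)) := by
      intro y hy; subst hy; rfl
    rw [hcast _ hvv]
    set g' := gx (g⁻¹ • v) with hg'def
    have hs : g' * g⁻¹ ∈ MulAction.stabilizer G v := by
      rw [MulAction.mem_stabilizer_iff, mul_smul]; exact hg'
    have h1 := (k v γ).2 ⟨g' * g⁻¹, hs⟩ g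
    simp only [Subgroup.subtype_apply, inv_mul_cancel_right, MonoidHom.coe_comp,
      Function.comp_apply] at h1
    rw [h1]
    rw [← Module.End.mul_apply, ← Module.End.mul_apply, ← map_mul, ← map_mul]
    have : g * g'⁻¹ * (g' * g⁻¹) = 1 := by group
    rw [this, map_one]
    rfl
  funext γ x
  have h1 : toCoind ρ (Quotient.mk (MulAction.orbitRel G V) x).out (cobd (funRep ρ V) n H γ) =
      toCoind ρ (Quotient.mk (MulAction.orbitRel G V) x).out (f γ) := by
    have h2 := cobd_map (toCoind ρ (Quotient.mk (MulAction.orbitRel G V) x).out)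
      (heq (Quotient.mk (MulAction.orbitRel G V) x).out) n H
    have h3 := congrFun h2 γ
    rw [← h3, hR x, hk]
  have h4 := congrFun (congrArg Subtype.val h1) (gx x)
  change ρ (gx x) (cobd (funRep ρ V) n H γ ((gx x)⁻¹ • _)) = ρ (gx x) (f γ ((gx x)⁻¹ • _)) at h4
  rw [← hgx, inv_smul_smul] at h4
  have h5 := congrArg (ρ (gx x)⁻¹) h4
  rw [← Module.End.mul_apply, ← Module.End.mul_apply, ← map_mul, inv_mul_cancel, map_one] at h5
  exact h5

/-- **Groups acting on trees**: the long exact sequence argument. -/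
theorem van_tree (V E : Type) [MulAction G V] [MulAction G E] [Nonempty V]
    (d0 d1 : E → V) (h0 : ∀ (g : G) e, d0 (g • e) = g • d0 e)
    (h1 : ∀ (g : G) e, d1 (g • e) = g • d1 e)
    (hconn : ∀ (M : Type) [AddCommGroup M] (F : V → M), (∀ e, F (d1 e) = F (d0 e)) →
      ∃ m, ∀ v, F v = m)
    (hsurj : ∀ (M : Type) [AddCommGroup M] (φ : E → M), ∃ F : V → M, ∀ e,
      F (d1 e) - F (d0 e) = φ e)
    {n : ℕ} (hV : ∀ v : V, Van (MulAction.stabilizer G v) (n + 1))
    (hE : ∀ e : E, Van (MulAction.stabilizer G e) n) : Van G (n + 1) := by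
  classical
  intro M _ ρ c hc
  -- constants
  let ι : M →+ (V → M) := { toFun := fun m _ => m, map_zero' := rfl, map_add' := fun _ _ => rfl }
  have hι : ∀ g m, ι (ρ g m) = funRep ρ V g (ι m) := by intro g m; rfl
  let δ : (V → M) →+ (E → M) :=
    { toFun := fun F e => F (d1 e) - F (d0 e)
      map_zero' := by funext e; simp
      map_add' := fun F F' => by funext e; simp only [Pi.add_apply]; abel }
  have hδ : ∀ g F, δ (funRep ρ V g F) = funRep ρ E g (δ F) := by
    intro g F
    funext e
    change ρ g (F (g⁻¹ • d1 e)) - ρ g (F (g⁻¹ • d0 e)) =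
      ρ g (F (d1 (g⁻¹ • e)) - F (d0 (g⁻¹ • e)))
    rw [h0, h1, map_sub]
  obtain ⟨h, hh⟩ := van_fun ρ V (fun v => hV v M _) (fun g => ι (c g)) (by
    rw [cobd_map ι hι, hc]; rfl)
  obtain ⟨j, hj⟩ := van_fun ρ E (fun e => hE e M _) (fun g => δ (h g)) (by
    rw [cobd_map δ hδ, hh]
    funext g e
    change c g - c g = 0
    simp)
  choose lift hlift using hsurj M
  let j' : (Fin n → G) → (V → M) := fun g => lift (j g)
  have hj' : ∀ g, δ (j' g) = j g := by intro g; funext e; exact hlift (j g) e
  have hh' : ∀ g, ∃ m, ∀ v, (h g - cobd (funRep ρ V) n j' g) v = m := by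
    intro g
    apply hconn M
    intro e
    have h2 := cobd_map δ hδ n j'
    have h3 : (fun g => δ (j' g)) = j := by funext g; exact hj' g
    rw [h3, hj] at h2
    have h4 := congrFun (congrFun h2 g) e
    simp only [δ, AddMonoidHom.coe_mk, ZeroHom.coe_mk] at h4
    simp only [Pi.sub_apply]
    rw [sub_eq_sub_iff_sub_eq_sub]
    exact h4
  choose b hb using hh'
  refine ⟨b, ?_⟩
  have h5 : (fun g => ι (b g)) = fun g => h g - cobd (funRep ρ V) n j' g := by
    funext g v
    exact (hb g v).symm
  have h6 := cobd_map ι hι (n + 1) b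
  rw [h5, cobd_sub, hh, cobd_cobd] at h6
  funext g
  have v : V := Classical.choice ‹_›
  have h7 := congrFun (congrFun h6 g) v
  have h8 : c g = cobd ρ (n + 1) b g := by
    simpa [ι] using h7
  exact h8.symm

end H540DG
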