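import Pool.Agent.H540R3.DG5
import Pool.Agent.H540R3.DG6

set_option autoImplicit false

namespace H540DG

variable {A : Type} {P : Pres A}

/-! ### words with trivial diagram group -/

/-- the diagram group over `W`, inside the universal group -/
def Dg (P : Pres A) (W : List A) : Subgroup (U P) where
  carrier := {g | Pi W g W}
  one_mem' := Pi.refl W
  mul_mem' := Pi.trans
  inv_mem' := Pi.symm

theorem mem_Dg {W : List A} {g : U P} : g ∈ Dg P W ↔ Pi W g W := Iff.rfl

/-- `W` has trivial diagram group -/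
def Tr (P : Pres A) (W : List A) : Prop := ∀ β : U P, Pi W β W → β = 1

theorem Tr.congr {W W' : List A} {g : U P} (h : Pi W g W') (ht : Tr P W) : Tr P W' := by
  intro β hβ
  have := ht _ ((h.trans hβ).trans h.symm)
  have e : β = g⁻¹ * (g * β * g⁻¹) * g := by group
  rw [e, this]; group

theorem Tr.right {p q : List A} (h : Tr P (p ++ q)) : Tr P q := by
  intro β hβ
  have := h _ (by simpa using hβ.wh p [])
  exact wh_left_inj p hβ this

theorem Tr.left {p q : List A} (h : Tr P (p ++ q)) : Tr P p := by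
  intro β hβ
  have := h _ (by simpa using hβ.wh [] q)
  exact wh_right_inj q hβ this

theorem src_ne_nil (x : OE P) : x.src ≠ [] := by
  intro h
  have := top_pos x
  simp [OE.src] at h
  rw [h.2.1] at this
  simp at this

theorem tr_nil : Tr P ([] : List A) := by
  rintro β ⟨L, hL, rfl⟩
  cases L with
  | nil => rfl
  | cons x L => exact absurd hL.1.symm (src_ne_nil x)

/-- the canonical splitting -/
theorem exists_split (W : List A) (h : ¬ Tr P W) :
    ∃ p x q, W = p ++ ([x] ++ q) ∧ Tr P q ∧ ¬ Tr P ([x] ++ q) := by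
  induction W with
  | nil => exact absurd tr_nil h
  | cons y W ih =>
    by_cases hW : Tr P W
    · exact ⟨[], y, W, rfl, hW, h⟩
    · obtain ⟨p, x, q, h1, h2, h3⟩ := ih hW
      exact ⟨y :: p, x, q, by rw [h1]; rfl, h2, h3⟩

theorem split_unique {p q p' q' : List A} {x x' : A} (h : p ++ ([x] ++ q) = p' ++ ([x'] ++ q'))
    (h1 : Tr P q) (h2 : ¬ Tr P ([x] ++ q)) (h1' : Tr P q') (h2' : ¬ Tr P ([x'] ++ q')) :
    p = p' ∧ x = x' ∧ q = q' := by
  have key : ∀ {p q p' q' : List A} {x x' : A}, p ++ ([x] ++ q) = p' ++ ([x'] ++ q') →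
      Tr P q' → ¬ Tr P ([x] ++ q) → ¬ p'.length < p.length := by
    intro p q p' q' x x' h h1' h2 hlt
    have h3 : p ++ ([x] ++ q) = (p' ++ [x']) ++ q' := by rw [h]; simp
    obtain ⟨b, e1, e2⟩ := split_of_le h3 (by simp; omega)
    rw [e2] at h1'
    exact h2 h1'.right
  have hlen : p.length = p'.length := by
    rcases lt_trichotomy p.length p'.length with hl | hl | hl
    · exact absurd hl (key h.symm h1 h2')
    · exact hl
    · exact absurd hl (key h h1' h2)
  obtain ⟨e1, e2⟩ := List.append_inj h hlen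
  simp only [List.cons_append, List.nil_append, List.cons.injEq] at e2
  exact ⟨e1, e2.1, e2.2⟩

/-! ### sets of lifts of product subcomplexes -/

/-- data of a family of middle words together with a condition -/
structure Fam (A : Type) where
  I : Type
  m : I → List A
  Q : I → List A → Prop

/-- points -/
def Pt (P : Pres A) (w : List A) (F : Fam A) : Type :=
  {x : U P × List A × F.I × List A // Pi w x.1 (x.2.1 ++ (F.m x.2.2.1 ++ x.2.2.2)) ∧
    F.Q x.2.2.1 x.2.2.2}

/-- moves -/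
def ptRel (w : List A) (F : Fam A) (x y : Pt P w F) : Prop :=
  x.1.2.2.1 = y.1.2.2.1 ∧ ∃ h, Mv x.1.2.1 (F.m x.1.2.2.1) x.1.2.2.2 h y.1.2.1 y.1.2.2.2 ∧
    y.1.1 = x.1.1 * h

instance ptSetoid (P : Pres A) (w : List A) (F : Fam A) : Setoid (Pt P w F) where
  r := ptRel w F
  iseqv := by
    refine ⟨?_, ?_, ?_⟩
    · intro x
      exact ⟨rfl, 1, Mv.refl _ _ _, by simp⟩
    · rintro x y ⟨h1, h, h2, h3⟩
      refine ⟨h1.symm, h⁻¹, ?_, by rw [h3]; group⟩
      rw [← h1]; exact h2.symm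
    · rintro x y z ⟨h1, h, h2, h3⟩ ⟨h1', h', h2', h3'⟩
      refine ⟨h1.trans h1', h * h', ?_, by rw [h3', h3]; group⟩
      rw [← h1] at h2'; exact h2.trans h2'

/-- classes of points -/
abbrev Cl (P : Pres A) (w : List A) (F : Fam A) := Quotient (ptSetoid P w F)

/-- constructor -/
def cl {w : List A} {F : Fam A} (g : U P) (p : List A) (i : F.I) (q : List A)
    (h : Pi w g (p ++ (F.m i ++ q))) (hQ : F.Q i q) : Cl P w F :=
  Quotient.mk _ ⟨(g, p, i, q), h, hQ⟩

theorem cl_eq {w : List A} {F : Fam A} {g g' : U P} {p p' : List A} {i : F.I} {q q' : List A}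
    {h : Pi w g (p ++ (F.m i ++ q))} {hQ : F.Q i q} {h' : Pi w g' (p' ++ (F.m i ++ q'))}
    {hQ' : F.Q i q'} (k : U P) (hk : Mv p (F.m i) q k p' q') (hg : g' = g * k) :
    cl (F := F) g p i q h hQ = cl g' p' i q' h' hQ' :=
  Quotient.sound ⟨rfl, k, hk, hg⟩

/-- action on points -/
def actPt {w : List A} {F : Fam A} (d : Dg P w) (x : Pt P w F) : Pt P w F :=
  ⟨(d.1 * x.1.1, x.1.2), by exact d.2.trans x.2.1, x.2.2⟩

instance clAction (w : List A) (F : Fam A) : MulAction (Dg P w) (Cl P w F) where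
  smul d := Quotient.map (actPt d) (by
    rintro x y ⟨h1, h, h2, h3⟩
    exact ⟨h1, h, h2, by simp only [actPt]; rw [h3, mul_assoc]⟩)
  one_smul c := by
    induction c using Quotient.inductionOn with
    | h x =>
      change Quotient.mk _ (actPt 1 x) = _
      congr 1
      apply Subtype.ext
      simp [actPt]
  mul_smul d d' c := by
    induction c using Quotient.inductionOn with
    | h x =>
      change Quotient.mk _ (actPt (d * d') x) = Quotient.mk _ (actPt d (actPt d' x))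
      congr 1
      apply Subtype.ext
      simp [actPt, mul_assoc]

theorem smul_cl {w : List A} {F : Fam A} (d : Dg P w) (g : U P) (p : List A) (i : F.I)
    (q : List A) (h : Pi w g (p ++ (F.m i ++ q))) (hQ : F.Q i q) :
    d • cl (F := F) g p i q h hQ = cl (d.1 * g) p i q (d.2.trans h) hQ := rfl

/-- the stabilizer of a class is the diagram group over the left part -/
theorem stab_van {w : List A} {F : Fam A} (hF : ∀ i q, F.Q i q → Tr P q) {n : ℕ}
    (hvan : ∀ (p : List A) (i : F.I) (q : List A) (g : U P), Pi w g (p ++ (F.m i ++ q)) →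
      F.Q i q → Van (Dg P p) n) (c : Cl P w F) :
    Van (MulAction.stabilizer (Dg P w) c) n := by
  induction c using Quotient.inductionOn with
  | h x =>
    obtain ⟨⟨g, p, i, q⟩, hx, hQ⟩ := x
    simp only at hx hQ
    have hpi : ∀ α : U P, Pi p α p → Pi w (g * wh [] (F.m i ++ q) α * g⁻¹) w := by
      intro α hα
      have h1 := hα.wh [] (F.m i ++ q)
      simp only [List.nil_append] at h1
      exact (hx.trans h1).trans hx.symm
    let φ : Dg P p →* MulAction.stabilizer (Dg P w)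
        (Quotient.mk (ptSetoid P w F) ⟨(g, p, i, q), hx, hQ⟩) :=
      { toFun := fun α => ⟨⟨g * wh [] (F.m i ++ q) α.1 * g⁻¹, hpi α.1 α.2⟩, by
          rw [MulAction.mem_stabilizer_iff]
          apply Quotient.sound
          refine ⟨rfl, wh [] (F.m i ++ q) α.1⁻¹, ⟨α.1⁻¹, 1, α.2.symm, Pi.refl _, ?_⟩, ?_⟩
          · simp [actPt]
          · simp [actPt]⟩
        map_one' := by
          apply Subtype.ext; apply Subtype.ext
          simp
        map_mul' := fun α β => by
          apply Subtype.ext; apply Subtype.ext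
          simp [mul_assoc] }
    have hinj : Function.Injective φ := by
      rw [injective_iff_map_eq_one]
      intro α hα
      have h1 := congrArg (fun z => z.1.1) hα
      simp only [φ, MonoidHom.coe_mk, OneHom.coe_mk, OneMemClass.coe_one] at h1
      have h2 : wh [] (F.m i ++ q) α.1 = 1 := by
        have : wh [] (F.m i ++ q) α.1 = g⁻¹ * (g * wh [] (F.m i ++ q) α.1 * g⁻¹) * g := by group
        rw [this, h1]; group
      apply Subtype.ext
      exact wh_right_inj _ α.2 h2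
    have hsurj : Function.Surjective φ := by
      rintro ⟨⟨d, hd⟩, hs⟩
      rw [MulAction.mem_stabilizer_iff] at hs
      obtain ⟨-, k, ⟨α, β, hα, hβ, hk⟩, hg⟩ := Quotient.exact hs.symm
      simp only [actPt] at hα hβ hk hg
      have hβ1 : β = 1 := hF i q hQ β hβ
      subst hβ1
      rw [map_one, mul_one] at hk
      refine ⟨⟨α, hα⟩, ?_⟩
      apply Subtype.ext; apply Subtype.ext
      change g * wh [] (F.m i ++ q) α * g⁻¹ = d
      rw [← hk, ← hg]; group
    exact (hvan p i q g hx hQ).congr (MulEquiv.ofBijective φ ⟨hinj, hsurj⟩)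

/-- vertices -/
def FV (P : Pres A) : Fam A := ⟨A, fun x => [x], fun x q => Tr P q ∧ ¬ Tr P ([x] ++ q)⟩
/-- edges -/
def FE (P : Pres A) : Fam A := ⟨P.rels, fun r => r.1.1, fun r q => Tr P q ∧ ¬ Tr P (r.1.1 ++ q)⟩

theorem not_tr_of_pi {w W : List A} {g : U P} (hw : ¬ Tr P w) (h : Pi w g W) : ¬ Tr P W :=
  fun h' => hw (h'.congr h.symm)

/-- the vertex of the tree determined by a vertex of the universal cover -/
noncomputable def vtx {w : List A} (hw : ¬ Tr P w) (g : U P) (W : List A) (h : Pi w g W) :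
    Cl P w (FV P) :=
  cl (F := FV P) g (exists_split W (not_tr_of_pi hw h)).choose
    (exists_split W (not_tr_of_pi hw h)).choose_spec.choose
    (exists_split W (not_tr_of_pi hw h)).choose_spec.choose_spec.choose
    (by
      have := (exists_split W (not_tr_of_pi hw h)).choose_spec.choose_spec.choose_spec.1
      rw [this] at h; exact h)
    (exists_split W (not_tr_of_pi hw h)).choose_spec.choose_spec.choose_spec.2

theorem vtx_eq {w : List A} (hw : ¬ Tr P w) (g : U P) (W : List A) (h : Pi w g W)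
    (p : List A) (x : A) (q : List A) (hW : W = p ++ ([x] ++ q))
    (hQ : Tr P q ∧ ¬ Tr P ([x] ++ q)) :
    vtx hw g W h = cl (F := FV P) g p x q (by rw [hW] at h; exact h) hQ := by
  have h1 := (exists_split W (not_tr_of_pi hw h)).choose_spec.choose_spec.choose_spec
  obtain ⟨e1, e2, e3⟩ := split_unique (h1.1.symm.trans hW) h1.2.1 h1.2.2 hQ.1 hQ.2
  unfold vtx
  congr 1

theorem smul_vtx {w : List A} (hw : ¬ Tr P w) (d : Dg P w) (g : U P) (W : List A)
    (h : Pi w g W) : d • vtx hw g W h = vtx hw (d.1 * g) W (d.2.trans h) := rfl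

/-- invariance of `vtx` under moves -/
theorem vtx_move {w : List A} (hw : ¬ Tr P w) (g : U P) {a m c a' c' : List A} {k : U P}
    (hk : Mv a m c k a' c') (hc : Tr P c) (hmc : ¬ Tr P (m ++ c))
    (h : Pi w g (a ++ (m ++ c))) (h' : Pi w (g * k) (a' ++ (m ++ c'))) :
    vtx hw g _ h = vtx hw (g * k) _ h' := by
  obtain ⟨α, β, hα, hβ, rfl⟩ := hk
  -- split `m ++ c`
  obtain ⟨s, x, t, h1, h2, h3⟩ := exists_split (m ++ c) hmc
  have hlt : s.length < m.length := by
    by_contra hcon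
    push Not at hcon
    obtain ⟨b, e1, e2⟩ := split_of_le h1.symm hcon
    apply h3
    apply Tr.right (p := b)
    rw [← e2]; exact hc
  have h4 : m ++ c = (s ++ [x]) ++ t := by rw [h1]; simp
  obtain ⟨m2, e1, e2⟩ := split_of_le h4 (by simp; omega)
  subst e1
  subst e2
  have hβ' : Pi (m2 ++ c) (wh m2 [] β) (m2 ++ c') := by simpa using hβ.wh m2 []
  have h2' : Tr P (m2 ++ c') := h2.congr hβ'
  have h3' : ¬ Tr P ([x] ++ (m2 ++ c')) := by
    intro hcon
    apply h3
    have : Pi ([x] ++ (m2 ++ c)) (wh [x] [] (wh m2 [] β)) ([x] ++ (m2 ++ c')) := by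
      simpa using hβ'.wh [x] []
    exact hcon.congr this.symm
  rw [vtx_eq hw g _ h (a ++ s) x (m2 ++ c) (by simp) ⟨h2, h3⟩,
    vtx_eq hw _ _ h' (a' ++ s) x (m2 ++ c') (by simp) ⟨h2', h3'⟩]
  refine cl_eq (F := FV P) _ ?_ rfl
  refine ⟨wh [] s α, wh m2 [] β, by simpa using hα.wh [] s, hβ', ?_⟩
  simp only [wh_wh, FV]
  simp

theorem vtx_cast {w : List A} (hw : ¬ Tr P w) {g g' : U P} {W W' : List A} (h : Pi w g W)
    (hg : g = g') (hW : W = W') (h' : Pi w g' W') : vtx hw g W h = vtx hw g' W' h' := by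
  subst hg; subst hW; rfl

/-- initial vertex of an edge of the tree -/
noncomputable def bd0 {w : List A} (hw : ¬ Tr P w) : Cl P w (FE P) → Cl P w (FV P) :=
  Quotient.lift (fun x => vtx hw x.1.1 _ x.2.1) (by
    rintro ⟨⟨g, a, r, c⟩, hx, hQ⟩ ⟨⟨g', a', r', c'⟩, hx', hQ'⟩ ⟨h1, k, hk, hg⟩
    simp only at h1 hk hg hx hx' hQ hQ'
    subst h1
    subst hg
    exact vtx_move hw g hk hQ.1 hQ.2 hx hx')

theorem pi_step {w : List A} {g : U P} {a c : List A} {r : P.rels}
    (h : Pi w g (a ++ (r.1.1 ++ c))) : Pi w (g * gen ⟨a, r, c⟩) (a ++ (r.1.2 ++ c)) :=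
  h.trans (Pi.gen (⟨a, r, c⟩ : Edge P))

theorem tr_uv {c : List A} {r : P.rels} : Tr P (r.1.1 ++ c) ↔ Tr P (r.1.2 ++ c) := by
  have : Pi (r.1.1 ++ c) (gen (⟨[], r, c⟩ : Edge P)) (r.1.2 ++ c) := by
    have := Pi.gen (⟨[], r, c⟩ : Edge P)
    simpa [Edge.src, Edge.tgt] using this
  exact ⟨fun h => h.congr this, fun h => h.congr this.symm⟩

/-- terminal vertex of an edge of the tree -/
noncomputable def bd1 {w : List A} (hw : ¬ Tr P w) : Cl P w (FE P) → Cl P w (FV P) :=
  Quotient.lift (fun x => vtx hw (x.1.1 * gen ⟨x.1.2.1, x.1.2.2.1, x.1.2.2.2⟩) _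
    (pi_step x.2.1)) (by
    rintro ⟨⟨g, a, r, c⟩, hx, hQ⟩ ⟨⟨g', a', r', c'⟩, hx', hQ'⟩ ⟨h1, k, hk, hg⟩
    simp only at h1 hk hg hx hx' hQ hQ'
    subst h1
    subst hg
    obtain ⟨α, β, hα, hβ, rfl⟩ := hk
    have hcr := Mv.cross r hα hβ
    change vtx hw (g * gen ⟨a, r, c⟩) _ _ =
      vtx hw (g * (wh [] (r.1.1 ++ c) α * wh (a' ++ r.1.1) [] β) * gen ⟨a', r, c'⟩) _ _
    have hQ2 : ¬ Tr P (r.1.2 ++ c) := fun h => hQ.2 (tr_uv.2 h)
    have hk' : Mv a r.1.2 c (wh [] (r.1.2 ++ c) α * wh (a' ++ r.1.2) [] β) a' c' :=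
      ⟨α, β, hα, hβ, rfl⟩
    have heq : g * (wh [] (r.1.1 ++ c) α * wh (a' ++ r.1.1) [] β) * gen ⟨a', r, c'⟩ =
        g * gen ⟨a, r, c⟩ * (wh [] (r.1.2 ++ c) α * wh (a' ++ r.1.2) [] β) := by
      rw [mul_assoc, hcr, mul_assoc]
    have hx2 : Pi w (g * gen ⟨a, r, c⟩) (a ++ (r.1.2 ++ c)) := pi_step hx
    have h3 := vtx_move hw (g * gen ⟨a, r, c⟩) hk' hQ.1 hQ2 hx2 (hx2.trans hk'.pi)
    rw [h3]
    exact vtx_cast hw _ heq.symm rfl _)

theorem bd0_smul {w : List A} (hw : ¬ Tr P w) (d : Dg P w) (e : Cl P w (FE P)) :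
    bd0 hw (d • e) = d • bd0 hw e := by
  induction e using Quotient.inductionOn with
  | h x => rfl

theorem bd1_smul {w : List A} (hw : ¬ Tr P w) (d : Dg P w) (e : Cl P w (FE P)) :
    bd1 hw (d • e) = d • bd1 hw e := by
  induction e using Quotient.inductionOn with
  | h x =>
    change vtx hw (d.1 * x.1.1 * gen ⟨x.1.2.1, x.1.2.2.1, x.1.2.2.2⟩)
      (x.1.2.1 ++ (x.1.2.2.1.1.2 ++ x.1.2.2.2)) (pi_step (d.2.trans x.2.1)) =
      d • vtx hw (x.1.1 * gen ⟨x.1.2.1, x.1.2.2.1, x.1.2.2.2⟩)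
      (x.1.2.1 ++ (x.1.2.2.1.1.2 ++ x.1.2.2.2)) (pi_step x.2.1)
    rw [smul_vtx]
    exact vtx_cast hw _ (mul_assoc _ _ _) rfl _

/-! ### connectedness and acyclicity -/

/-- edges which are not edges of the tree do not move the vertex -/
theorem vtx_gen {w : List A} (hw : ¬ Tr P w) (g : U P) (e : Edge P) (h : Pi w g e.src)
    (h' : Pi w (g * gen e) e.tgt) {M : Type} (F : Cl P w (FV P) → M)
    (hF : ∀ x, F (bd1 hw x) = F (bd0 hw x)) :
    F (vtx hw (g * gen e) _ h') = F (vtx hw g _ h) := by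
  obtain ⟨a, r, c⟩ := e
  by_cases hc : Tr P c
  · by_cases huc : Tr P (r.1.1 ++ c)
    · -- the special letter is in `a`
      have hns := not_tr_of_pi hw h
      obtain ⟨p, x, q, h1, h2, h3⟩ := exists_split _ hns
      simp only [Edge.src] at h1
      have hlt : (p ++ [x]).length ≤ a.length := by
        by_contra hcon
        push Not at hcon
        have h4 : p ++ ([x] ++ q) = a ++ (r.1.1 ++ c) := h1.symm
        obtain ⟨b, e1, e2⟩ := split_of_le h4 (by simp at hcon; omega)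
        apply h3
        apply Tr.right (p := b)
        rw [← e2]; exact huc
      have h4 : a ++ (r.1.1 ++ c) = (p ++ [x]) ++ q := by rw [h1]; simp
      obtain ⟨b, e1, e2⟩ := split_of_le h4 hlt
      subst e1
      subst e2
      have hβ : Pi (b ++ (r.1.1 ++ c)) (gen (⟨b, r, c⟩ : Edge P)) (b ++ (r.1.2 ++ c)) :=
        Pi.gen (⟨b, r, c⟩ : Edge P)
      have h2' := h2.congr hβ
      have h3' : ¬ Tr P ([x] ++ (b ++ (r.1.2 ++ c))) := by
        intro hcon
        apply h3
        have : Pi ([x] ++ (b ++ (r.1.1 ++ c))) (wh [x] [] (gen (⟨b, r, c⟩ : Edge P)))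
            ([x] ++ (b ++ (r.1.2 ++ c))) := by
          simpa using hβ.wh [x] []
        exact hcon.congr this.symm
      congr 1
      rw [vtx_eq hw _ _ h p x _ (by simp [Edge.src]) ⟨h2, h3⟩,
        vtx_eq hw _ _ h' p x _ (by simp [Edge.tgt]) ⟨h2', h3'⟩]
      symm
      refine cl_eq (F := FV P) _ ?_ rfl
      refine ⟨1, _, Pi.refl _, hβ, ?_⟩
      simp [wE, FV]
    · -- an edge of the tree
      exact hF (cl (F := FE P) g a r c h ⟨hc, huc⟩)
  · -- the special letter is in `c`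
    obtain ⟨s, x, q, h1, h2, h3⟩ := exists_split c hc
    subst h1
    congr 1
    rw [vtx_eq hw _ _ h (a ++ (r.1.1 ++ s)) x q (by simp [Edge.src]) ⟨h2, h3⟩,
      vtx_eq hw _ _ h' (a ++ (r.1.2 ++ s)) x q (by simp [Edge.tgt]) ⟨h2, h3⟩]
    symm
    refine cl_eq (F := FV P) _ ?_ rfl
    refine ⟨gen ⟨a, r, s⟩, 1, Pi.gen (⟨a, r, s⟩ : Edge P), Pi.refl _, ?_⟩
    simp [wE, FV]

theorem vtx_const {w : List A} (hw : ¬ Tr P w) {M : Type} (F : Cl P w (FV P) → M)
    (hF : ∀ x, F (bd1 hw x) = F (bd0 hw x)) (W' : List A) (L : List (OE P)) :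
    ∀ (g : U P) (W : List A) (hg : Pi w g W) (_ : IsPath W L W') (h' : Pi w (g * pv L) W'),
      F (vtx hw (g * pv L) W' h') = F (vtx hw g W hg) := by
  induction L with
  | nil =>
    intro g W hg hL h'
    have hL : W = W' := hL
    congr 1
    exact vtx_cast hw _ (by simp) hL.symm _
  | cons x L ih =>
    intro g W hg hL h'
    obtain ⟨rfl, hL⟩ := hL
    have h1 : Pi w (g * x.val) x.tgt := hg.trans (Pi.oe x)
    have h2 := ih (g * x.val) _ h1 hL (by simpa [mul_assoc] using h')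
    have h3 : F (vtx hw (g * x.val) x.tgt h1) = F (vtx hw g x.src hg) := by
      rcases x with ⟨a, r, s, c⟩
      cases s
      · have h4 := vtx_gen hw (g * (gen ⟨a, r, c⟩)⁻¹) ⟨a, r, c⟩ h1
          (by simpa [Edge.tgt, OE.src] using hg) F hF
        refine h4.symm.trans ?_
        congr 1
        exact vtx_cast hw _ (by simp) rfl _
      · exact vtx_gen hw g ⟨a, r, c⟩ hg h1 F hF
    rw [← h3, ← h2]
    congr 1
    exact vtx_cast hw _ (by simp [mul_assoc]) rfl _

theorem tree_conn {w : List A} (hw : ¬ Tr P w) {M : Type} (F : Cl P w (FV P) → M)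
    (hF : ∀ x, F (bd1 hw x) = F (bd0 hw x)) : ∃ m, ∀ v, F v = m := by
  refine ⟨F (vtx hw 1 w (Pi.refl w)), ?_⟩
  intro v
  induction v using Quotient.inductionOn with
  | h x =>
    obtain ⟨⟨g, p, y, q⟩, hx, hQ⟩ := x
    simp only at hx hQ
    obtain ⟨L, hL, rfl⟩ := hx
    have h1 := vtx_const hw F hF _ L 1 w (Pi.refl w) hL (by rw [one_mul]; exact ⟨L, hL, rfl⟩)
    rw [← h1]
    have h2 := vtx_eq hw (pv L) _ ⟨L, hL, rfl⟩ p y q rfl hQ
    have h3 := vtx_cast hw (g := 1 * pv L) (g' := pv L) (by rw [one_mul]; exact ⟨L, hL, rfl⟩)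
      (one_mul _) rfl ⟨L, hL, rfl⟩
    rw [h3]
    congr 1
    exact h2.symm

open Classical in
/-- the cochain on the universal cover determined by a function on the edges of the tree -/
noncomputable def coch {w : List A} {M : Type} [AddCommGroup M] (φ : Cl P w (FE P) → M) (g : U P)
    (e : Edge P) : M :=
  if h : Pi w g (e.a ++ (e.r.1.1 ++ e.c)) ∧ (Tr P e.c ∧ ¬ Tr P (e.r.1.1 ++ e.c)) then
    φ (cl (F := FE P) g e.a e.r e.c h.1 h.2) else 0

theorem coch_zero {w : List A} {M : Type} [AddCommGroup M] (φ : Cl P w (FE P) → M) (g : U P)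
    (e : Edge P) (h : ¬ Tr P e.c ∨ Tr P (e.r.1.1 ++ e.c)) : coch φ g e = 0 := by
  unfold coch
  rw [dif_neg]
  rintro ⟨-, h1, h2⟩
  rcases h with h | h
  · exact h h1
  · exact h2 h

theorem coch_move {w : List A} {M : Type} [AddCommGroup M] (φ : Cl P w (FE P) → M) (g : U P)
    {a c a' c' : List A} (r : P.rels) {k : U P} (hk : Mv a r.1.1 c k a' c') :
    coch φ g ⟨a, r, c⟩ = coch φ (g * k) ⟨a', r, c'⟩ := by
  have hpi := hk.pi
  have hc : Tr P c ↔ Tr P c' := by
    obtain ⟨α, β, hα, hβ, -⟩ := hk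
    exact ⟨fun h => h.congr hβ, fun h => h.congr hβ.symm⟩
  have huc : Tr P (r.1.1 ++ c) ↔ Tr P (r.1.1 ++ c') := by
    obtain ⟨α, β, hα, hβ, -⟩ := hk
    have : Pi (r.1.1 ++ c) (wh r.1.1 [] β) (r.1.1 ++ c') := by simpa using hβ.wh r.1.1 []
    exact ⟨fun h => h.congr this, fun h => h.congr this.symm⟩
  unfold coch
  by_cases h : Pi w g (a ++ (r.1.1 ++ c)) ∧ (Tr P c ∧ ¬ Tr P (r.1.1 ++ c))
  · have h' : Pi w (g * k) (a' ++ (r.1.1 ++ c')) ∧ (Tr P c' ∧ ¬ Tr P (r.1.1 ++ c')) :=
      ⟨h.1.trans hpi, hc.1 h.2.1, fun h3 => h.2.2 (huc.2 h3)⟩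
    rw [dif_pos h, dif_pos h']
    congr 1
    exact cl_eq (F := FE P) k hk rfl
  · have h' : ¬ (Pi w (g * k) (a' ++ (r.1.1 ++ c')) ∧ (Tr P c' ∧ ¬ Tr P (r.1.1 ++ c'))) := by
      rintro ⟨h1, h2, h3⟩
      apply h
      refine ⟨?_, hc.2 h2, fun h4 => h3 (huc.1 h4)⟩
      have := h1.trans hpi.symm
      simpa using this
    rw [dif_neg h, dif_neg h']

theorem tree_surj {w : List A} (hw : ¬ Tr P w) {M : Type} [AddCommGroup M]
    (φ : Cl P w (FE P) → M) : ∃ F : Cl P w (FV P) → M, ∀ e, F (bd1 hw e) - F (bd0 hw e) = φ e := by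
  obtain ⟨F, -, hF⟩ := integrate (P := P) (coch φ) (by
    intro g a b c r s
    apply coch_move
    refine ⟨1, gen ⟨b, s, c⟩, Pi.refl _, Pi.gen (⟨b, s, c⟩ : Edge P), ?_⟩
    simp [wE]) (by
    intro g a b c r s
    apply coch_move
    refine ⟨gen ⟨a, r, b⟩, 1, Pi.gen (⟨a, r, b⟩ : Edge P), Pi.refl _, ?_⟩
    simp [wE])
  have hval : ∀ (g : U P) (x : OE P), (¬ Tr P x.c ∨ Tr P (x.r.1.1 ++ x.c)) →
      F (g * x.val) = F g := by
    intro g x hx
    rcases x with ⟨a, r, s, c⟩
    cases s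
    · have h1 := hF (g * (gen ⟨a, r, c⟩)⁻¹) ⟨a, r, c⟩
      rw [coch_zero φ _ _ hx, inv_mul_cancel_right, add_zero] at h1
      exact h1.symm
    · have h1 := hF g ⟨a, r, c⟩
      rw [coch_zero φ _ _ hx, add_zero] at h1
      exact h1
  -- left moves
  have hleft : ∀ {p p' : List A} {α : U P}, Pi p α p' → ∀ (g : U P) (s : List A), ¬ Tr P s →
      F (g * wh [] s α) = F g := by
    intro p p' α hα
    induction hα using Pi.induction with
    | h0 W => intro g s _; simp
    | h1 x α W' _ ih =>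
      intro g s hs
      rw [map_mul, wh_val, ← mul_assoc, ih _ _ hs]
      apply hval
      left
      intro h
      exact hs (Tr.right h)
  -- right moves
  have hright : ∀ {q q' : List A} {β : U P}, Pi q β q' → ∀ (g : U P) (b : List A), Tr P q →
      F (g * wh b [] β) = F g := by
    intro q q' β hβ
    induction hβ using Pi.induction with
    | h0 W => intro g b _; simp
    | h1 x β W' hxx ih =>
      intro g b hs
      rw [map_mul, wh_val, ← mul_assoc, ih _ _ (hs.congr (Pi.oe x))]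
      apply hval
      right
      have h1 : Tr P (x.top ++ x.c) := Tr.right (p := x.a) hs
      rcases x with ⟨a, r, s, c⟩
      cases s
      · simpa [OE.w] using tr_uv.2 h1
      · simpa [OE.w] using h1
  let f : Cl P w (FV P) → M := Quotient.lift (fun x => F x.1.1) (by
    rintro ⟨⟨g, p, y, q⟩, hx, hQ⟩ ⟨⟨g', p', y', q'⟩, hx', hQ'⟩ ⟨h1, k, hk, hg⟩
    simp only at h1 hk hg hx hx' hQ hQ'
    subst h1
    subst hg
    obtain ⟨α, β, hα, hβ, rfl⟩ := hk
    simp only
    rw [← mul_assoc, hright hβ _ _ hQ.1]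
    exact (hleft hα g ((FV P).m y ++ q) hQ.2).symm)
  have hfv : ∀ (g : U P) (W : List A) (h : Pi w g W), f (vtx hw g W h) = F g := by
    intro g W h
    rfl
  refine ⟨f, ?_⟩
  intro e
  induction e using Quotient.inductionOn with
  | h x =>
    change F (x.1.1 * gen ⟨x.1.2.1, x.1.2.2.1, x.1.2.2.2⟩) - F x.1.1 = _
    rw [hF, add_sub_cancel_left]
    unfold coch
    rw [dif_pos ⟨x.2.1, x.2.2⟩]
    rfl

end H540DG
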