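import Pool.Agent.H540R3.DG6

set_option autoImplicit false

/-!
# Cohomological dimension is at least the algebraic dimension
-/

namespace H540DG

open CategoryTheory

/-- telescoping sum -/
theorem telescope (m : ℕ) : ∀ (T : Fin (m + 1) → ℤ),
      T 0 + ∑ j : Fin m, (-1 : ℤ) ^ ((j : ℕ) + 1) * (T j.castSucc + T j.succ) +
        (-1 : ℤ) ^ (m + 1) * T (Fin.last m) = 0 := by
  induction m with
  | zero => intro T; simp
  | succ m ih =>
    intro T
    have h := ih (fun i => T i.castSucc)
    rw [Fin.sum_univ_castSucc]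
    simp only [Fin.val_castSucc, Fin.val_last, Fin.succ_castSucc, Fin.succ_last] at h ⊢
    have e : T (Fin.castSucc 0) = T 0 := rfl
    rw [e] at h
    rw [pow_succ (-1 : ℤ) (m + 1)]
    linear_combination h

/-- product over a contracted tuple -/
theorem prod_contract {m : ℕ} (a b : Fin (m + 1) → ℤ) (j : Fin (m + 1)) :
    (∏ i : Fin (m + 1), if (i : ℕ) < j then a i else if (i : ℕ) = j then a i + b i else b i) =
      (∏ i : Fin (m + 1), if (i : ℕ) < (j.castSucc : Fin (m + 2)) then a i else b i) +
      (∏ i : Fin (m + 1), if (i : ℕ) < (j.succ : Fin (m + 2)) then a i else b i) := by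
  rw [← Finset.mul_prod_erase Finset.univ _ (Finset.mem_univ j),
    ← Finset.mul_prod_erase Finset.univ (fun i : Fin (m + 1) =>
      if (i : ℕ) < (j.castSucc : Fin (m + 2)) then a i else b i) (Finset.mem_univ j),
    ← Finset.mul_prod_erase Finset.univ (fun i : Fin (m + 1) =>
      if (i : ℕ) < (j.succ : Fin (m + 2)) then a i else b i) (Finset.mem_univ j)]
  have h1 : ∏ i ∈ Finset.univ.erase j, (if (i : ℕ) < j then a i else
      if (i : ℕ) = j then a i + b i else b i) =
      ∏ i ∈ Finset.univ.erase j, (if (i : ℕ) < j then a i else b i) := by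
    apply Finset.prod_congr rfl
    intro i hi
    have hne : (i : ℕ) ≠ j := fun h => (Finset.ne_of_mem_erase hi) (Fin.ext h)
    simp [hne]
  have h2 : ∏ i ∈ Finset.univ.erase j, (if (i : ℕ) < (j.succ : Fin (m + 2)) then a i else b i) =
      ∏ i ∈ Finset.univ.erase j, (if (i : ℕ) < j then a i else b i) := by
    apply Finset.prod_congr rfl
    intro i hi
    have hne : (i : ℕ) ≠ j := fun h => (Finset.ne_of_mem_erase hi) (Fin.ext h)
    simp only [Fin.val_succ]
    by_cases h : (i : ℕ) < j
    · rw [if_pos h, if_pos (by omega)]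
    · rw [if_neg h, if_neg (by omega)]
  rw [h1, h2]
  simp only [Fin.val_castSucc, Fin.val_succ, lt_self_iff_false, if_false, if_true,
    Nat.lt_succ_self]
  ring

section

variable {S : Type} [Group S] {m : ℕ} (χ : S ≃* Multiplicative (Fin (m + 1) → ℤ))

/-- the cocycle -/
def fcoc (g : Fin (m + 1) → S) : ℤ := ∏ i, (Multiplicative.toAdd (χ (g i))) i

theorem fcoc_cocycle : cobd (Representation.trivial ℤ S ℤ) (m + 1) (fcoc χ) = 0 := by
  funext g
  have hT := telescope (m + 1) (fun k => ∏ i : Fin (m + 1), if (i : ℕ) < k then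
    (Multiplicative.toAdd (χ (g i.castSucc))) i else (Multiplicative.toAdd (χ (g i.succ))) i)
  simp only [cobd, Representation.trivial_apply, Pi.zero_apply]
  rw [Fin.sum_univ_castSucc]
  have h1 : ∀ j : Fin (m + 1), fcoc χ (Fin.contractNth j.castSucc (· * ·) g) =
      (∏ i : Fin (m + 1), if (i : ℕ) < (j.castSucc : Fin (m + 2)) then
        (Multiplicative.toAdd (χ (g i.castSucc))) i else
          (Multiplicative.toAdd (χ (g i.succ))) i) +
      (∏ i : Fin (m + 1), if (i : ℕ) < (j.succ : Fin (m + 2)) then
        (Multiplicative.toAdd (χ (g i.castSucc))) i else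
          (Multiplicative.toAdd (χ (g i.succ))) i) := by
    intro j
    rw [← prod_contract]
    unfold fcoc
    apply Finset.prod_congr rfl
    intro i _
    unfold Fin.contractNth
    simp only [Fin.val_castSucc]
    split_ifs
    · rfl
    · simp
    · rfl
  have h2 : fcoc χ (Fin.contractNth (Fin.last (m + 1)) (· * ·) g) =
      ∏ i : Fin (m + 1), if (i : ℕ) < (Fin.last (m + 1) : Fin (m + 2)) then
        (Multiplicative.toAdd (χ (g i.castSucc))) i else
          (Multiplicative.toAdd (χ (g i.succ))) i := by
    unfold fcoc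
    apply Finset.prod_congr rfl
    intro i _
    unfold Fin.contractNth
    have hi : (i : ℕ) < (Fin.last (m + 1) : Fin (m + 2)) := i.2
    rw [if_pos hi, if_pos hi]
  have h3 : fcoc χ (fun i => g i.succ) = ∏ i : Fin (m + 1),
      if (i : ℕ) < (0 : Fin (m + 2)) then
        (Multiplicative.toAdd (χ (g i.castSucc))) i else
          (Multiplicative.toAdd (χ (g i.succ))) i := by
    unfold fcoc
    apply Finset.prod_congr rfl
    intro i _
    rw [if_neg (by simp)]
  rw [h3, h2]
  simp only [h1]
  simp only [smul_eq_mul, Fin.val_last, Fin.val_castSucc] at hT ⊢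
  rw [← add_assoc]
  exact hT

/-- the standard basis -/
noncomputable def bas (i : Fin (m + 1)) : S := χ.symm (Multiplicative.ofAdd (Pi.single i 1))

/-- antisymmetrisation -/
noncomputable def antis (F : (Fin (m + 1) → S) → ℤ) : ℤ :=
  ∑ σ : Equiv.Perm (Fin (m + 1)), ((Equiv.Perm.sign σ : ℤˣ) : ℤ) * F (fun i => bas χ (σ i))

theorem antis_fcoc : antis χ (fcoc χ) = 1 := by
  have h : (1 : Matrix (Fin (m + 1)) (Fin (m + 1)) ℤ).det = 1 := Matrix.det_one
  rw [Matrix.det_apply'] at h
  rw [← h]
  unfold antis fcoc bas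
  apply Finset.sum_congr rfl
  intro σ _
  congr 1
  apply Finset.prod_congr rfl
  intro i _
  simp [Matrix.one_apply, Pi.single_apply, eq_comm]

include χ in
theorem mul_comm_S (x y : S) : x * y = y * x := by
  apply χ.injective
  rw [map_mul, map_mul, mul_comm]

theorem antis_cobd (h : (Fin m → S) → ℤ) :
    antis χ (cobd (Representation.trivial ℤ S ℤ) m h) = 0 := by
  set X : ℤ := ∑ σ : Equiv.Perm (Fin (m + 1)), ((Equiv.Perm.sign σ : ℤˣ) : ℤ) *
    h (fun i => bas χ (σ i.castSucc)) with hX
  have hfirst : ∑ σ : Equiv.Perm (Fin (m + 1)), ((Equiv.Perm.sign σ : ℤˣ) : ℤ) *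
      h (fun i => bas χ (σ i.succ)) = (-1) ^ m * X := by
    rw [hX, Finset.mul_sum]
    conv_rhs => rw [← Equiv.sum_comp (Equiv.mulRight (finRotate (m + 1)))]
    apply Finset.sum_congr rfl
    intro σ _
    simp only [Equiv.coe_mulRight, Equiv.Perm.sign_mul, sign_finRotate, Equiv.Perm.mul_apply]
    have : ∀ i : Fin m, finRotate (m + 1) i.castSucc = i.succ := by
      intro i
      rw [finRotate_apply, Fin.coeSucc_eq_succ]
    simp only [this]
    push_cast
    have h1 : ((-1 : ℤ) ^ m) * (-1) ^ m = 1 := by
      rw [← mul_pow]; simp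
    linear_combination (-(((Equiv.Perm.sign σ : ℤˣ) : ℤ) * h (fun i => bas χ (σ i.succ)))) * h1
  have hmid : ∀ j : Fin m, ∑ σ : Equiv.Perm (Fin (m + 1)), ((Equiv.Perm.sign σ : ℤˣ) : ℤ) *
      h (Fin.contractNth j.castSucc (· * ·) (fun i => bas χ (σ i))) = 0 := by
    intro j
    set Y := ∑ σ : Equiv.Perm (Fin (m + 1)), ((Equiv.Perm.sign σ : ℤˣ) : ℤ) *
      h (Fin.contractNth j.castSucc (· * ·) (fun i => bas χ (σ i))) with hY
    have hneg : Y = -Y := by
      conv_lhs => rw [hY]
      rw [← Equiv.sum_comp (Equiv.mulRight (Equiv.swap j.castSucc j.succ)), hY,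
        ← Finset.sum_neg_distrib]
      apply Finset.sum_congr rfl
      intro σ _
      have hne : j.castSucc ≠ j.succ := (Fin.castSucc_lt_succ).ne
      simp only [Equiv.coe_mulRight, Equiv.Perm.sign_mul, Equiv.Perm.sign_swap hne,
        Equiv.Perm.mul_apply]
      have hc : Fin.contractNth j.castSucc (· * ·)
          (fun i => bas χ (σ (Equiv.swap j.castSucc j.succ i))) =
          Fin.contractNth j.castSucc (· * ·) (fun i => bas χ (σ i)) := by
        funext k
        unfold Fin.contractNth
        by_cases h1 : (k : ℕ) < (j.castSucc : Fin (m + 1))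
        · rw [if_pos h1, if_pos h1]
          beta_reduce
          rw [Equiv.swap_apply_of_ne_of_ne]
          · intro h2
            have := congrArg Fin.val h2
            simp only [Fin.val_castSucc] at this h1
            omega
          · intro h2
            have := congrArg Fin.val h2
            simp only [Fin.val_castSucc, Fin.val_succ] at this h1
            omega
        · rw [if_neg h1, if_neg h1]
          by_cases h2 : (k : ℕ) = (j.castSucc : Fin (m + 1))
          · rw [if_pos h2, if_pos h2]
            have hkj : k = j := Fin.ext h2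
            subst hkj
            beta_reduce
            rw [Equiv.swap_apply_left, Equiv.swap_apply_right]
            exact mul_comm_S χ _ _
          · rw [if_neg h2, if_neg h2]
            beta_reduce
            rw [Equiv.swap_apply_of_ne_of_ne]
            · intro h3
              have := congrArg Fin.val h3
              simp only [Fin.val_castSucc, Fin.val_succ] at this h1 h2
              omega
            · intro h3
              have := congrArg Fin.val h3
              simp only [Fin.val_castSucc, Fin.val_succ] at this h1 h2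
              omega
      rw [hc]
      push_cast
      ring
    linarith
  have hlast : ∑ σ : Equiv.Perm (Fin (m + 1)), ((Equiv.Perm.sign σ : ℤˣ) : ℤ) *
      h (Fin.contractNth (Fin.last m) (· * ·) (fun i => bas χ (σ i))) = X := by
    rw [hX]
    apply Finset.sum_congr rfl
    intro σ _
    congr 2
    funext i
    unfold Fin.contractNth
    have hi : (i : ℕ) < (Fin.last m : Fin (m + 1)) := i.2
    rw [if_pos hi]
  unfold antis
  simp only [cobd, Representation.trivial_apply, mul_add, Finset.sum_add_distrib]
  rw [hfirst]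
  have hsum : ∑ σ : Equiv.Perm (Fin (m + 1)), ((Equiv.Perm.sign σ : ℤˣ) : ℤ) *
      ∑ j : Fin (m + 1), (-1 : ℤ) ^ ((j : ℕ) + 1) •
        h (Fin.contractNth j (· * ·) (fun i => bas χ (σ i))) = (-1) ^ (m + 1) * X := by
    simp only [Finset.mul_sum]
    rw [Finset.sum_comm]
    have e1 : ∀ j : Fin (m + 1), ∑ σ : Equiv.Perm (Fin (m + 1)),
        ((Equiv.Perm.sign σ : ℤˣ) : ℤ) * ((-1 : ℤ) ^ ((j : ℕ) + 1) •
        h (Fin.contractNth j (· * ·) (fun i => bas χ (σ i)))) =
        (-1 : ℤ) ^ ((j : ℕ) + 1) * ∑ σ : Equiv.Perm (Fin (m + 1)),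
        ((Equiv.Perm.sign σ : ℤˣ) : ℤ) *
        h (Fin.contractNth j (· * ·) (fun i => bas χ (σ i))) := by
      intro j
      rw [Finset.mul_sum]
      apply Finset.sum_congr rfl
      intro σ _
      rw [smul_eq_mul]
      ring
    rw [Finset.sum_congr rfl (fun j _ => e1 j), Fin.sum_univ_castSucc]
    simp only [hmid, mul_zero, Finset.sum_const_zero, zero_add, hlast, Fin.val_last]
  rw [hsum]
  rw [pow_succ]
  ring

include χ in
/-- top cohomology of a free abelian group does not vanish -/
theorem not_vanRep_trivial : ¬ VanRep (Representation.trivial ℤ S ℤ) m := by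
  intro hv
  obtain ⟨h, hh⟩ := hv (fcoc χ) (fcoc_cocycle χ)
  have h1 := antis_cobd χ h
  rw [hh, antis_fcoc] at h1
  exact one_ne_zero h1

end

/-- groups containing `ℤ^(m+1)` have nontrivial cohomology in degree `m+1` -/
theorem exists_nontrivial_cohomology {G : Type} [Group G] {m : ℕ}
    (φ : Multiplicative (Fin (m + 1) → ℤ) →* G) (hφ : Function.Injective φ) :
    ∃ A : Rep.{0} ℤ G, Nontrivial (groupCohomology A (m + 1)) := by
  have χ : φ.range ≃* Multiplicative (Fin (m + 1) → ℤ) := (MonoidHom.ofInjective hφ).symm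
  refine ⟨Rep.coind φ.range.subtype (Rep.of (Representation.trivial ℤ φ.range ℤ)), ?_⟩
  by_contra hcon
  rw [not_nontrivial_iff_subsingleton] at hcon
  have h0 : Limits.IsZero (groupCohomology
      (Rep.coind φ.range.subtype (Rep.of (Representation.trivial ℤ φ.range ℤ))) (m + 1)) :=
    ModuleCat.isZero_of_subsingleton _
  have h1 := h0.of_iso (groupCohomology.coindIso
    (Rep.of (Representation.trivial ℤ φ.range ℤ)) (m + 1)).symm
  exact not_vanRep_trivial χ ((vanRep_iff _ _).2 h1)

end H540DG
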