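import Pool.Agent.H540R3.DG7
import Pool.Agent.H540R3.DG8

set_option autoImplicit false

namespace H540DG

variable {A : Type} {P : Pres A}

/-- all free abelian subgroups have rank at most `n` -/
def AdLE (G : Type) [Group G] (n : ℕ) : Prop :=
  ∀ m : ℕ, (∃ f : Multiplicative (Fin m → ℤ) →* G, Function.Injective f) → m ≤ n

/-- powers of commuting elements: adjoin one more generator -/
theorem extend_free {w p s : List A} {g : U P} (hg : Pi w g (p ++ s)) (hs : ¬ Tr P s) {m : ℕ}
    (h : ∃ f : Multiplicative (Fin m → ℤ) →* Dg P p, Function.Injective f) :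
    ∃ f : Multiplicative (Fin (m + 1) → ℤ) →* Dg P w, Function.Injective f := by
  obtain ⟨f, hf⟩ := h
  unfold Tr at hs
  push Not at hs
  obtain ⟨τ, hτ, hτ1⟩ := hs
  have hzp : ∀ n : ℤ, Pi s (τ ^ n) s := fun n => (Dg P s).zpow_mem (x := τ) hτ n
  have hz : ∀ n : ℤ, τ ^ n = 1 → n = 0 := by
    intro n hn
    by_contra h0
    apply hτ1
    rcases Int.natAbs_eq n with h1 | h1
    · rw [h1, zpow_natCast] at hn
      exact torsion_free hτ (by omega) hn
    · rw [h1, zpow_neg, zpow_natCast, inv_eq_one] at hn
      exact torsion_free hτ (by omega) hn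
  have hcomm : ∀ (α : Dg P p) (n : ℤ), wh [] s α.1 * wh p [] (τ ^ n) =
      wh p [] (τ ^ n) * wh [] s α.1 := fun α n => interchange α.2 (hzp n)
  let ft : Multiplicative (Fin (m + 1) → ℤ) → Dg P p := fun z =>
    f (Multiplicative.ofAdd (fun i => (Multiplicative.toAdd z) i.succ))
  have hft : ∀ z z', ft (z * z') = ft z * ft z' := by
    intro z z'
    simp only [ft]
    rw [← map_mul]
    rfl
  let F : Multiplicative (Fin (m + 1) → ℤ) →* Dg P w :=
    { toFun := fun z => ⟨g * (wh [] s (ft z).1 *
          wh p [] (τ ^ ((Multiplicative.toAdd z) 0))) * g⁻¹, by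
        have h1 := (ft z).2.wh [] s
        have h2 := (hzp ((Multiplicative.toAdd z) 0)).wh p []
        simp only [List.nil_append, List.append_nil] at h1 h2
        exact (hg.trans (h1.trans h2)).trans hg.symm⟩
      map_one' := by
        apply Subtype.ext
        have : ft 1 = 1 := by
          have := hft 1 1
          rw [mul_one] at this
          exact (left_eq_mul.1 this)
        simp [this]
      map_mul' := fun z z' => by
        apply Subtype.ext
        have h0 : (Multiplicative.toAdd (z * z')) 0 =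
          (Multiplicative.toAdd z) 0 + (Multiplicative.toAdd z') 0 := rfl
        simp only [hft, h0, zpow_add, map_mul, Subgroup.coe_mul]
        have h1 := hcomm (ft z') ((Multiplicative.toAdd z) 0)
        calc g * (wh [] s (ft z).1 * wh [] s (ft z').1 *
              (wh p [] (τ ^ (Multiplicative.toAdd z) 0) *
                wh p [] (τ ^ (Multiplicative.toAdd z') 0))) * g⁻¹
            = g * wh [] s (ft z).1 * (wh [] s (ft z').1 *
              wh p [] (τ ^ (Multiplicative.toAdd z) 0)) *
                wh p [] (τ ^ (Multiplicative.toAdd z') 0) * g⁻¹ := by group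
          _ = g * wh [] s (ft z).1 * (wh p [] (τ ^ (Multiplicative.toAdd z) 0) *
                wh [] s (ft z').1) * wh p [] (τ ^ (Multiplicative.toAdd z') 0) * g⁻¹ := by
              rw [h1]
          _ = _ := by group }
  refine ⟨F, ?_⟩
  rw [injective_iff_map_eq_one]
  intro z hz1
  have h1 : g * (wh [] s (ft z).1 * wh p [] (τ ^ ((Multiplicative.toAdd z) 0))) * g⁻¹ = 1 :=
    congrArg Subtype.val hz1
  have h2 : wh [] s (ft z).1 * wh p [] (τ ^ ((Multiplicative.toAdd z) 0)) = 1 := by
    have e : ∀ y : U P, y = g⁻¹ * (g * y * g⁻¹) * g := by intro y; group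
    rw [e (wh [] s (ft z).1 * wh p [] (τ ^ ((Multiplicative.toAdd z) 0))), h1]
    group
  obtain ⟨h3, h4⟩ := prod_inj (ft z).2 (hzp _) h2
  have h5 := hz _ h4
  have h6 : ft z = 1 := Subtype.ext h3
  have h7 := hf (h6.trans (map_one f).symm)
  apply Multiplicative.toAdd.injective
  funext i
  refine Fin.cases ?_ ?_ i
  · exact h5
  · intro j
    exact congrFun (congrArg Multiplicative.toAdd h7) j

theorem exists_free_one {w : List A} (hw : ¬ Tr P w) :
    ∃ f : Multiplicative (Fin 1 → ℤ) →* Dg P w, Function.Injective f := by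
  apply extend_free (p := []) (s := w) (g := 1) (Pi.refl w) hw
  refine ⟨1, ?_⟩
  intro a b _
  apply Multiplicative.toAdd.injective
  funext i
  exact i.elim0

/-- **Upper bound.** -/
theorem van_of_adLE (n : ℕ) : ∀ (w : List A), AdLE (Dg P w) n → ∀ k, n ≤ k → Van (Dg P w) k := by
  induction n with
  | zero =>
    intro w hw k _
    have : Tr P w := by
      by_contra h
      have := hw 1 (exists_free_one h)
      omega
    have : Subsingleton (Dg P w) := ⟨fun a b => by
      apply Subtype.ext
      rw [this _ a.2, this _ b.2]⟩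
    exact van_of_subsingleton k
  | succ n ih =>
    intro w hw k hk
    by_cases ht : Tr P w
    · have : Subsingleton (Dg P w) := ⟨fun a b => by
        apply Subtype.ext
        rw [ht _ a.2, ht _ b.2]⟩
      exact van_of_subsingleton k
    · obtain ⟨k, rfl⟩ : ∃ k', k = k' + 1 := ⟨k - 1, by omega⟩
      have : Nonempty (Cl P w (FV P)) := ⟨vtx ht 1 w (Pi.refl w)⟩
      refine van_tree (Cl P w (FV P)) (Cl P w (FE P)) (bd0 ht) (bd1 ht) (bd0_smul ht)
        (bd1_smul ht) (fun M _ F hF => tree_conn ht F hF) (fun M _ φ => tree_surj ht φ) ?_ ?_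
      · intro v
        apply stab_van (F := FV P) (fun x q hQ => hQ.1)
        intro p x q g hg hQ
        apply ih p _ _ (by omega)
        intro m hm
        have := hw (m + 1) (extend_free (s := (FV P).m x ++ q) hg hQ.2 hm)
        omega
      · intro e
        apply stab_van (F := FE P) (fun x q hQ => hQ.1)
        intro p r q g hg hQ
        apply ih p _ _ (by omega)
        intro m hm
        have := hw (m + 1) (extend_free (s := r.1.1 ++ q) hg hQ.2 hm)
        omega

theorem van_isZero {G : Type} [Group G] {k : ℕ} (h : Van G k) (V : Type) [AddCommGroup V]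
    [i2 : Module ℤ V] (ρ : Representation ℤ G V) :
    CategoryTheory.Limits.IsZero (groupCohomology (Rep.of ρ) (k + 1)) := by
  obtain rfl : i2 = AddCommGroup.toIntModule V := Subsingleton.elim _ _
  rw [← vanRep_iff]
  exact h V ρ

/-- The cohomological dimension of a group: the supremum of all `n` such that
`Hⁿ(G; M) ≠ 0` for some `ℤG`-module `M`. -/
noncomputable def cd (G : Type) [Group G] : ℕ∞ :=
  ⨆ n ∈ {n : ℕ | ∃ M : Rep.{0} ℤ G, Nontrivial (groupCohomology M n)}, (n : ℕ∞)

/-- The algebraic dimension of a group: the supremum of all `n` such that `G` contains a copy of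
`ℤⁿ`. -/
noncomputable def ad (G : Type) [Group G] : ℕ∞ :=
  ⨆ n ∈ {n : ℕ | ∃ f : Multiplicative (Fin n → ℤ) →* G, Function.Injective f}, (n : ℕ∞)

theorem ad_le_cd (G : Type) [Group G] : ad G ≤ cd G := by
  apply iSup₂_le
  rintro n ⟨f, hf⟩
  cases n with
  | zero => simp
  | succ m =>
    exact le_iSup₂_of_le (m + 1) (exists_nontrivial_cohomology f hf) le_rfl

theorem cd_le_ad (w : List A) : cd (Dg P w) ≤ ad (Dg P w) := by
  by_cases h : ad (Dg P w) = ⊤
  · rw [h]; exact le_top
  · obtain ⟨n, hn⟩ := ENat.ne_top_iff_exists.1 h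
    rw [← hn]
    have hle : AdLE (Dg P w) n := by
      intro m hm
      have : (m : ℕ∞) ≤ ad (Dg P w) := le_iSup₂_of_le m hm le_rfl
      rw [← hn] at this
      exact_mod_cast this
    apply iSup₂_le
    rintro k ⟨M, hM⟩
    by_contra hcon
    have hcon : n < k := by
      by_contra h'
      push Not at h'
      apply hcon
      exact_mod_cast h'
    obtain ⟨k, rfl⟩ : ∃ k', k = k' + 1 := ⟨k - 1, by omega⟩
    have h1 := @van_isZero (Dg P w) _ k (van_of_adLE n w hle k (by omega)) M.V M.hV1 M.hV2 M.ρ
    have h2 := ModuleCat.subsingleton_of_isZero h1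
    exact not_nontrivial_iff_subsingleton.2 h2 hM

theorem cd_eq_ad (w : List A) : cd (Dg P w) = ad (Dg P w) :=
  le_antisymm (cd_le_ad w) (ad_le_cd _)

end H540DG
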