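import Pool.Agent.H540R3.DG7

set_option autoImplicit false

/-!
# Essential hyperplanes
-/

namespace H540DG

variable {A : Type} {P : Pres A}

/-! ### action on hyperplanes -/

theorem Par.smul (z : U P) {x y : U P × Edge P} (h : Par x y) : Par (z * x.1, x.2) (z * y.1, y.2) := by
  obtain ⟨h1, k, h2, h3⟩ := h
  exact ⟨h1, k, h2, by simp only [h3, mul_assoc]⟩

/-- the action on hyperplanes -/
def act (z : U P) (K : Hyp P) : Hyp P :=
  Quotient.map (fun x : U P × Edge P => (z * x.1, x.2)) (fun _ _ h => Par.smul z h) K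

@[simp] theorem act_hyp (z g : U P) (e : Edge P) : act z (hyp g e) = hyp (z * g) e := rfl

theorem act_one (K : Hyp P) : act 1 K = K := by
  induction K using Quotient.inductionOn with
  | h x => change hyp (1 * x.1) x.2 = hyp x.1 x.2; rw [one_mul]

theorem act_mul (y z : U P) (K : Hyp P) : act (y * z) K = act y (act z K) := by
  induction K using Quotient.inductionOn with
  | h x => change hyp (y * z * x.1) x.2 = hyp (y * (z * x.1)) x.2; rw [mul_assoc]

theorem act_inj (z : U P) {K K' : Hyp P} (h : act z K = act z K') : K = K' := by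
  have := congrArg (act z⁻¹) h
  rwa [← act_mul, ← act_mul, inv_mul_cancel, act_one, act_one] at this

theorem act_lo (z : U P) (K : Hyp P) : (act z K).lo = th z K.lo := by
  induction K using Quotient.inductionOn with
  | h x =>
    change th (z * x.1) _ = th z (th x.1 _)
    rw [map_mul, RelIso.mul_apply]

theorem act_hi (z : U P) (K : Hyp P) : (act z K).hi = th z K.hi := by
  induction K using Quotient.inductionOn with
  | h x =>
    change th (z * x.1) _ = th z (th x.1 _)
    rw [map_mul, RelIso.mul_apply]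

theorem act_ohyp (z g : U P) (x : OE P) : act z (ohyp g x) = ohyp (z * g) x := by
  unfold ohyp
  rw [act_hyp]
  by_cases h : x.s
  · simp [h]
  · simp [h, mul_assoc]

theorem hys_act (z g : U P) (L : List (OE P)) : hys (z * g) L = (hys g L).map (act z) := by
  induction L generalizing g with
  | nil => rfl
  | cons x L ih => simp only [hys, List.map_cons, act_ohyp]; rw [mul_assoc, ih]

/-! ### crossing numbers are two-valued -/

open Classical in
theorem cr_unique {K : Hyp P} {f : U P → ℤ}
    (hf : ∀ g e, f (g * gen e) = f g + if hyp g e = K then 1 else 0) (y z : U P) :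
    f y - f z = cr K y - cr K z := by
  have key : ∀ h g, f (g * h) - cr K (g * h) = f g - cr K g := by
    intro h
    induction h using U_induction with
    | h1 => intro g; simp
    | hm h e ih =>
      intro g
      rw [← mul_assoc, hf, cr_gen, ← ih g]; ring
    | hi h e ih =>
      intro g
      rw [← ih g]
      have h1 := hf (g * h * (gen e)⁻¹) e
      have h2 := cr_gen K (g * h * (gen e)⁻¹) e
      rw [inv_mul_cancel_right] at h1 h2
      rw [h1, h2, ← mul_assoc]; ring
  have := key (z⁻¹ * y) z
  rw [mul_inv_cancel_left] at this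
  linarith

theorem cr_act (K : Hyp P) (x y z : U P) :
    cr (act x K) (x * y) - cr (act x K) (x * z) = cr K y - cr K z := by
  classical
  apply cr_unique (f := fun y => cr (act x K) (x * y))
  intro g e
  have h := cr_gen (act x K) (x * g) e
  have h2 : (hyp (x * g) e = act x K) ↔ (hyp g e = K) := by
    rw [← act_hyp]
    exact ⟨fun h => act_inj x h, fun h => by rw [h]⟩
  simp only [h2] at h
  rw [← mul_assoc, h]

/-- crossing numbers do not change under product moves around an adjacent edge -/
theorem cr_Mv {K : Hyp P} {g : U P} {a m c a' c' : List A} {k : U P} (hk : Mv a m c k a' c')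
    (h1 : K.lo = th g a.length) (h2 : K.hi = th g (a.length + m.length)) :
    cr K (g * k) = cr K g := by
  by_contra h
  have := cross_Mv K hk g h
  have h3 := K.lt
  rcases this with h | h
  · rw [← h1] at h; exact absurd h3 (not_lt.2 h)
  · rw [← h2] at h; exact absurd h3 (not_lt.2 h)

theorem cr_two (K : Hyp P) : ∃ c : ℤ, ∀ g, cr K g = c ∨ cr K g = c + 1 := by
  classical
  obtain ⟨⟨g0, e0⟩, rfl⟩ := Quotient.exists_rep K
  change ∃ c : ℤ, ∀ g, cr (hyp g0 e0) g = c ∨ cr (hyp g0 e0) g = c + 1
  set K := hyp g0 e0 with hK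
  have hs : ∀ g e, hyp g e = K → cr K g = cr K g0 := by
    intro g e h
    rw [hK] at h
    have h := h.symm
    rw [hyp_eq] at h
    obtain ⟨h1, k, h2, h3⟩ := h
    simp only at h1 h2 h3
    rw [h3]
    exact cr_Mv h2 (by rw [hK, lo_hyp]) (by rw [hK, hi_hyp])
  refine ⟨cr K g0, ?_⟩
  have key : ∀ h : U P, cr K (g0 * h) = cr K g0 ∨ cr K (g0 * h) = cr K g0 + 1 := by
    intro h
    induction h using U_induction with
    | h1 => left; simp
    | hm h e ih =>
      rw [← mul_assoc, cr_gen]
      by_cases hh : hyp (g0 * h) e = K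
      · rw [if_pos hh, hs _ _ hh]; right; rfl
      · rw [if_neg hh, add_zero]; exact ih
    | hi h e ih =>
      have h2 := cr_gen K (g0 * h * (gen e)⁻¹) e
      rw [inv_mul_cancel_right] at h2
      by_cases hh : hyp (g0 * h * (gen e)⁻¹) e = K
      · left; rw [← mul_assoc]; exact hs _ _ hh
      · rw [if_neg hh, add_zero] at h2
        rw [← mul_assoc, ← h2]; exact ih
  intro g
  have := key (g0⁻¹ * g)
  rwa [mul_inv_cancel_left] at this

theorem cr_third {K : Hyp P} {x y z : U P} (h1 : cr K x ≠ cr K y) (h2 : cr K y ≠ cr K z) :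
    cr K x = cr K z := by
  obtain ⟨c, hc⟩ := cr_two K
  rcases hc x with hx | hx <;> rcases hc y with hy | hy <;> rcases hc z with hz | hz <;> omega

/-- a stabilizing element does not change crossing numbers -/
theorem cr_fix {K : Hyp P} {z : U P} (h : act z K = K) (y : U P) : cr K (z * y) = cr K y := by
  obtain ⟨c, hc⟩ := cr_two K
  have h1 := cr_act K z y (z⁻¹ * y)
  have h2 := cr_act K z (z * y) y
  rw [h] at h1 h2
  rw [mul_inv_cancel_left] at h1
  rcases hc y with hx | hx <;> rcases hc (z * y) with hy | hy <;>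
    rcases hc (z * (z * y)) with hz | hz <;> omega

/-- `K` separates `y` and `z` -/
def sep (K : Hyp P) (y z : U P) : Prop := cr K y ≠ cr K z

theorem sep_act (K : Hyp P) (x y z : U P) : sep (act x K) (x * y) (x * z) ↔ sep K y z := by
  have := cr_act K x y z
  unfold sep
  constructor
  · intro h h'; apply h; omega
  · intro h h'; apply h; omega

theorem sep_symm {K : Hyp P} {y z : U P} (h : sep K y z) : sep K z y := fun h' => h h'.symm

theorem fin_sep (x h : U P) : Set.Finite {K : Hyp P | sep K x (x * h)} := by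
  classical
  induction h using U_induction with
  | h1 => simp [sep]
  | hm h e ih =>
    apply (ih.union (Set.finite_singleton (hyp (x * h) e))).subset
    intro K hK
    by_cases hh : hyp (x * h) e = K
    · right; exact hh.symm
    · left
      have := cr_gen K (x * h) e
      rw [if_neg hh, add_zero, mul_assoc] at this
      intro h'
      apply hK
      rw [h', this]
  | hi h e ih =>
    apply (ih.union (Set.finite_singleton (hyp (x * h * (gen e)⁻¹) e))).subset
    intro K hK
    by_cases hh : hyp (x * h * (gen e)⁻¹) e = K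
    · right; exact hh.symm
    · left
      have := cr_gen K (x * h * (gen e)⁻¹) e
      rw [if_neg hh, add_zero, inv_mul_cancel_right, mul_assoc] at this
      intro h'
      apply hK
      rw [h', this]

theorem fin_sep' (x y : U P) : Set.Finite {K : Hyp P | sep K x y} := by
  have := fin_sep x (x⁻¹ * y)
  rwa [mul_inv_cancel_left] at this

/-! ### essential hyperplanes -/

/-- `K` separates `bⁿ g` from `b⁻ⁿ g` for all large `n` -/
def Ess (b g : U P) (K : Hyp P) : Prop :=
  ∃ N : ℕ, ∀ n : ℕ, N ≤ n → sep K (b ^ (n : ℤ) * g) (b ^ (-(n : ℤ)) * g)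

theorem act_pow_fix {b : U P} {K : Hyp P} (h : act b K = K) (n : ℤ) : act (b ^ n) K = K := by
  have h1 : ∀ n : ℕ, act (b ^ n) K = K := by
    intro n
    induction n with
    | zero => simp [act_one]
    | succ n ih => rw [pow_succ, act_mul, h, ih]
  rcases n with n | n
  · simpa using h1 n
  · rw [zpow_negSucc]
    apply act_inj (b ^ (n + 1))
    rw [← act_mul, mul_inv_cancel, act_one, h1]

theorem ess_free {b g : U P} {K : Hyp P} (h : Ess b g K) {k : ℤ} (hk : k ≠ 0) :
    act (b ^ k) K ≠ K := by
  intro h1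
  obtain ⟨N, hN⟩ := h
  have key : ∀ j : ℤ, cr K (b ^ (k * j) * g) = cr K g := by
    intro j
    rw [zpow_mul]
    exact cr_fix (act_pow_fix h1 j) g
  have hn : N ≤ k.natAbs * N := Nat.le_mul_of_pos_left _ (Int.natAbs_pos.2 hk)
  apply hN _ hn
  have e1 : ∃ j : ℤ, ((k.natAbs * N : ℕ) : ℤ) = k * j := by
    rcases le_total 0 k with h | h
    · exact ⟨N, by push_cast; rw [abs_of_nonneg h]⟩
    · refine ⟨-N, ?_⟩
      push_cast
      rw [abs_of_nonpos h]; ring
  obtain ⟨j, hj⟩ := e1
  rw [hj, key, ← mul_neg, key]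

theorem ess_fin {b g : U P} {K : Hyp P} (h : Ess b g K) {S : Set (Hyp P)} (hS : S.Finite) :
    ∃ N : ℕ, ∀ m : ℤ, N ≤ m.natAbs → act (b ^ m) K ∉ S := by
  have hinj : Function.Injective (fun m : ℤ => act (b ^ m) K) := by
    intro m n hmn
    by_contra hne
    apply ess_free h (k := m - n) (sub_ne_zero.2 hne)
    simp only at hmn
    apply act_inj (b ^ n)
    rw [← act_mul, ← zpow_add]
    have : n + (m - n) = m := by ring
    rw [this]; exact hmn
  have hf := hS.preimage (f := fun m : ℤ => act (b ^ m) K) hinj.injOn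
  have hb := (hf.image Int.natAbs).bddAbove
  obtain ⟨N, hN⟩ := hb
  refine ⟨N + 1, ?_⟩
  intro m hm hmem
  have := hN (Set.mem_image_of_mem Int.natAbs (show m ∈ _ from hmem))
  omega

theorem ess_base {b g : U P} {K : Hyp P} (h : Ess b g K) (g' : U P) : Ess b g' K := by
  obtain ⟨N, hN⟩ := h
  obtain ⟨M, hM⟩ := ess_fin ⟨N, hN⟩ (fin_sep' g g')
  have key : ∀ m : ℤ, M ≤ m.natAbs → cr K (b ^ m * g) = cr K (b ^ m * g') := by
    intro m hm
    by_contra hne
    apply hM (-m) (by simpa using hm)
    change sep _ _ _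
    rw [← sep_act _ (b ^ m), ← act_mul, ← zpow_add, add_neg_cancel, zpow_zero, act_one]
    exact hne
  refine ⟨max N M, ?_⟩
  intro n hn
  have h1 := hN n (le_trans (le_max_left _ _) hn)
  have h2 := key n (by simpa using le_trans (le_max_right _ _) hn)
  have h3 := key (-(n : ℤ)) (by simpa using le_trans (le_max_right _ _) hn)
  unfold sep at h1 ⊢
  rwa [← h2, ← h3]

theorem ess_comm {b c g : U P} {K : Hyp P} (hc : c * b = b * c) (h : Ess b g K) :
    Ess b g (act c K) := by
  obtain ⟨N, hN⟩ := ess_base h (c⁻¹ * g)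
  refine ⟨N, ?_⟩
  intro n hn
  have h1 := hN n hn
  rw [← sep_act _ c] at h1
  have hcm : Commute c b := hc
  have e : ∀ m : ℤ, c * (b ^ m * (c⁻¹ * g)) = b ^ m * g := by
    intro m
    have := (hcm.zpow_right m).eq
    rw [← mul_assoc, this]
    group
  rwa [e, e] at h1

theorem ess_near {b g : U P} {K : Hyp P} (h : Ess b g K) :
    ∃ m : ℤ, sep (act (b ^ m) K) g (b * g) := by
  obtain ⟨N, hN⟩ := h
  have h1 := hN N le_rfl
  by_contra hcon
  push Not at hcon
  have h2 : ∀ m : ℤ, cr K (b ^ m * g) = cr K (b ^ (m + 1) * g) := by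
    intro m
    have := hcon (-m)
    rw [← sep_act _ (b ^ m), ← act_mul, ← zpow_add, add_neg_cancel, zpow_zero, act_one] at this
    unfold sep at this
    push Not at this
    rw [this, zpow_add, zpow_one, mul_assoc]
  apply h1
  have h3 : ∀ n : ℕ, cr K (b ^ (n : ℤ) * g) = cr K g := by
    intro n
    induction n with
    | zero => simp
    | succ n ih => push_cast; rw [← h2, ih]
  have h4 : ∀ n : ℕ, cr K (b ^ (-(n : ℤ)) * g) = cr K g := by
    intro n
    induction n with
    | zero => simp
    | succ n ih =>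
      have := h2 (-((n + 1 : ℕ) : ℤ))
      rw [this]
      have e : -((n + 1 : ℕ) : ℤ) + 1 = -(n : ℤ) := by push_cast; ring
      rw [e, ih]
  rw [h3, h4]

/-- **Pigeonhole.** -/
theorem ess_pigeon {b c g : U P} {K : Hyp P} (hc : c * b = b * c) (h : Ess b g K) :
    ∃ k : ℕ, 0 < k ∧ ∃ j : ℤ, act (c ^ k * b ^ j) K = K := by
  have h1 : ∀ n : ℕ, ∃ m : ℤ, act (b ^ m) (act (c ^ n) K) ∈ {K : Hyp P | sep K g (b * g)} := by
    intro n
    have hcn : c ^ n * b = b * c ^ n := ((show Commute c b from hc).pow_left n).eq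
    exact ess_near (ess_comm hcn h)
  choose m hm using h1
  have hfin := fin_sep' (P := P) g (b * g)
  obtain ⟨n, n', hne, heq⟩ : ∃ n n' : ℕ, n < n' ∧
      act (b ^ m n) (act (c ^ n) K) = act (b ^ m n') (act (c ^ n') K) := by
    haveI := hfin.to_subtype
    obtain ⟨x, y, hxy, he⟩ := Finite.exists_ne_map_eq_of_infinite
      (fun n : ℕ => (⟨_, hm n⟩ : {K : Hyp P | sep K g (b * g)}))
    have he := congrArg Subtype.val he
    simp only at he
    rcases lt_or_gt_of_ne hxy with h | h
    · exact ⟨x, y, h, he⟩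
    · exact ⟨y, x, h, he.symm⟩
  refine ⟨n' - n, by omega, m n' - m n, ?_⟩
  apply act_inj (b ^ m n * c ^ n)
  rw [← act_mul, ← act_mul] at heq
  rw [heq, ← act_mul]
  congr 1
  have hcm : Commute c b := hc
  have e1 : c ^ n' = c ^ n * c ^ (n' - n) := by rw [← pow_add]; congr 1; omega
  have e2 : b ^ m n' = b ^ m n * b ^ (m n' - m n) := by rw [← zpow_add]; congr 1; ring
  rw [e1, e2]
  have h3 : Commute (b ^ (m n' - m n)) (c ^ n * c ^ (n' - n)) := by
    rw [← pow_add]
    exact (hcm.symm.zpow_left _).pow_right _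
  calc b ^ m n * c ^ n * (c ^ (n' - n) * b ^ (m n' - m n))
      = b ^ m n * ((c ^ n * c ^ (n' - n)) * b ^ (m n' - m n)) := by group
    _ = b ^ m n * (b ^ (m n' - m n) * (c ^ n * c ^ (n' - n))) := by rw [h3.eq]
    _ = _ := by group

/-- an essential hyperplane of `b` is disjoint from a hyperplane stabilized by `b` -/
theorem ess_disj {b g : U P} {K K' : Hyp P} (h : Ess b g K) (h' : act b K' = K') :
    K.hi ≤ K'.lo ∨ K'.hi ≤ K.lo := by
  obtain ⟨⟨g', e'⟩, rfl⟩ := Quotient.exists_rep K'
  change act b (hyp g' e') = hyp g' e' at h'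
  change K.hi ≤ (hyp g' e').lo ∨ (hyp g' e').hi ≤ K.lo
  by_contra hcon
  obtain ⟨N, hN⟩ := ess_base h g'
  apply hN N le_rfl
  have key : ∀ n : ℤ, cr K (b ^ n * g') = cr K g' := by
    intro n
    have h1 := act_pow_fix h' n
    rw [act_hyp] at h1
    have h1 := h1.symm
    rw [hyp_eq] at h1
    obtain ⟨-, k, h2, h3⟩ := h1
    simp only at h2 h3
    rw [h3]
    by_contra h4
    apply hcon
    have := cross_Mv K h2 g' h4
    rw [lo_hyp, hi_hyp]
    exact this
  rw [key, key]

end H540DG
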