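import Pool.Agent.H540R3.DS1

set_option autoImplicit false

/-!
# Existence of essential hyperplanes
-/

namespace H540DG

variable {A : Type} {P : Pres A}

theorem min_nodup {W W' : List A} {L : List (OE P)} (hL : IsPath W L W')
    (hmin : ∀ L', IsPath W L' W' → pv L' = pv L → L.length ≤ L'.length) (g : U P) :
    (hys g L).Nodup := by
  by_contra h
  obtain ⟨L1, x, D, y, L2, hdec, hdip⟩ := exists_dip L g h
  rw [hdec] at hL
  obtain ⟨L', f1, f2, f3⟩ := shorten ((th (g * pv L1)).strictMono) hL hdip
  have := hmin L' f1 (by rw [f3, hdec])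
  rw [hdec] at this
  omega

theorem exists_nodup {W W' : List A} {h : U P} (hp : Pi W h W') :
    ∃ L, IsPath W L W' ∧ pv L = h ∧ ∀ g, (hys g L).Nodup := by
  obtain ⟨L, h1, h2, h3⟩ := exists_min_path hp
  exact ⟨L, h1, h2, fun g => min_nodup h1 (fun L' h4 h5 => h3 L' h4 (h5.trans h2)) g⟩

open Classical in
/-- the hyperplanes of type `Q` crossed by a path -/
noncomputable def fq (Q : Hyp P → Prop) (g : U P) (L : List (OE P)) : List (Hyp P) :=
  (hys g L).filter (fun K => decide (Q K))

theorem mem_fq {Q : Hyp P → Prop} {g : U P} {L : List (OE P)} {K : Hyp P} :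
    K ∈ fq Q g L ↔ K ∈ hys g L ∧ Q K := by
  simp [fq]

theorem fq_append (Q : Hyp P → Prop) (g : U P) (L M : List (OE P)) :
    fq Q g (L ++ M) = fq Q g L ++ fq Q (g * pv L) M := by
  simp [fq, hys_append]

theorem fq_cons_pos {Q : Hyp P → Prop} {g : U P} {x : OE P} (L : List (OE P))
    (h : Q (ohyp g x)) : fq Q g (x :: L) = ohyp g x :: fq Q (g * x.val) L := by
  simp [fq, hys, h]

theorem fq_cons_neg {Q : Hyp P → Prop} {g : U P} {x : OE P} (L : List (OE P))
    (h : ¬ Q (ohyp g x)) : fq Q g (x :: L) = fq Q (g * x.val) L := by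
  simp [fq, hys, h]

theorem fq_tail_nodup {Q : Hyp P → Prop} {g : U P} {x : OE P} {L : List (OE P)}
    (h : (fq Q g (x :: L)).Nodup) : (fq Q (g * x.val) L).Nodup := by
  by_cases hx : Q (ohyp g x)
  · rw [fq_cons_pos L hx] at h
    exact (List.nodup_cons.1 h).2
  · rwa [fq_cons_neg L hx] at h

theorem fq_act {Q : Hyp P → Prop} {c : U P} (hQ : ∀ K, Q (act c K) ↔ Q K) (g : U P)
    (L : List (OE P)) : fq Q (c * g) L = (fq Q g L).map (act c) := by
  unfold fq
  rw [hys_act, List.filter_map]
  congr 1
  apply List.filter_congr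
  intro K _
  simp [hQ]

theorem cr_fq {Q : Hyp P → Prop} {K : Hyp P} (hQ : Q K) (L : List (OE P)) :
    ∀ g, (fq Q g L).Nodup → K ∈ hys g L → cr K (g * pv L) ≠ cr K g := by
  induction L with
  | nil => intro g _ h; simp [hys] at h
  | cons x L ih =>
    intro g hn h
    by_cases hx : ohyp g x = K
    · have hnot : K ∉ hys (g * x.val) L := by
        intro hmem
        rw [fq_cons_pos L (hx ▸ hQ), List.nodup_cons] at hn
        apply hn.1
        rw [hx]
        exact mem_fq.2 ⟨hmem, hQ⟩
      rw [pv_cons, ← mul_assoc, cr_not_mem K _ L hnot]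
      exact cr_val_eq K g x hx
    · simp only [hys, List.mem_cons] at h
      have h' := h.resolve_left (Ne.symm hx)
      rw [pv_cons, ← mul_assoc, ← cr_val_ne K g x hx]
      exact ih _ (fq_tail_nodup hn) h'

theorem exists_innermostQ {Q : Hyp P → Prop} (L : List (OE P)) : ∀ g, ¬ (fq Q g L).Nodup →
    ∃ L1 x D y L2, L = L1 ++ x :: (D ++ y :: L2) ∧
      ohyp (g * pv L1 * x.val * pv D) y = ohyp (g * pv L1) x ∧ Q (ohyp (g * pv L1) x) ∧
      (fq Q (g * pv L1) (x :: D)).Nodup := by
  induction L with
  | nil => intro g h; simp [fq, hys] at h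
  | cons x L ih =>
    intro g h
    by_cases hL : (fq Q (g * x.val) L).Nodup
    · by_cases hx : Q (ohyp g x)
      · rw [fq_cons_pos L hx, List.nodup_cons, not_and_or, not_not] at h
        have hx' := h.resolve_right (fun h' => h' hL)
        obtain ⟨D, y, L2, rfl, h1, h2⟩ := mem_hys L _ (mem_fq.1 hx').1
        refine ⟨[], x, D, y, L2, rfl, by simpa using h1, by simpa using hx, ?_⟩
        simp only [pv_nil, mul_one]
        rw [fq_cons_pos D hx, List.nodup_cons]
        refine ⟨fun h3 => h2 (mem_fq.1 h3).1, ?_⟩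
        rw [fq_append] at hL
        exact hL.of_append_left
      · rw [fq_cons_neg L hx] at h
        exact absurd hL h
    · obtain ⟨L1, x', D, y, L2, rfl, h1, h2, h3⟩ := ih _ hL
      refine ⟨x :: L1, x', D, y, L2, rfl, ?_, ?_, ?_⟩
      · simpa [mul_assoc] using h1
      · simpa [mul_assoc] using h2
      · simpa [mul_assoc] using h3

theorem Q_pow {Q : Hyp P → Prop} {b : U P} (hQb : ∀ K, Q (act b K) ↔ Q K) (n : ℕ) (K : Hyp P) :
    Q (act (b ^ n) K) ↔ Q K := by
  induction n generalizing K with
  | zero => simp [act_one]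
  | succ n ih => rw [pow_succ, act_mul, ih, hQb]

theorem Q_zpow {Q : Hyp P → Prop} {b : U P} (hQb : ∀ K, Q (act b K) ↔ Q K) (n : ℤ) (K : Hyp P) :
    Q (act (b ^ n) K) ↔ Q K := by
  rcases n with n | n
  · simpa using Q_pow hQb n K
  · rw [zpow_negSucc]
    have := Q_pow hQb (n + 1) (act (b ^ (n + 1))⁻¹ K)
    rw [← act_mul, mul_inv_cancel, act_one] at this
    exact this.symm

/-- **Powers of a loop with few crossings are reduced.** -/
theorem rep_nodupQ {Q : Hyp P → Prop} {b g : U P} {W : List A} {L : List (OE P)}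
    (hL : IsPath W L W) (hv : pv L = g⁻¹ * b * g)
    (hQb : ∀ K, Q (act b K) ↔ Q K)
    (hov : ∀ K, Q K → ¬ ((act b K).hi ≤ K.lo ∨ K.hi ≤ (act b K).lo))
    (hmin : ∀ W' L' h, Pi W h W' → IsPath W' L' W' → pv L' = (g * h)⁻¹ * b * (g * h) →
      (fq Q g L).length ≤ (fq Q (g * h) L').length) (n : ℕ) :
    (fq Q g (rep n L)).Nodup := by
  classical
  by_contra hcon
  obtain ⟨L1, x, D, y, L2, hdec, hK, hQK, hnd⟩ := exists_innermostQ _ g hcon
  obtain ⟨k, m, B, A', hLA, hL1, hM⟩ := rep_split n L L1 x _ hdec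
  set η := g * pv L1 with hη
  have hbg : b * g = g * pv L := by rw [hv]; group
  have hbk : b ^ k * g = g * pv L ^ k := by
    clear hL1
    induction k with
    | zero => simp
    | succ k ih => rw [pow_succ', mul_assoc, ih, ← mul_assoc, hbg, mul_assoc, ← pow_succ']
  have hη2 : η = b ^ k * g * pv A' := by
    rw [hη, hL1, pv_append, pv_rep, hbk]; group
  have hloop : x.val * (pv B * pv A') = η⁻¹ * b * η := by
    have e1 : b * η = b ^ k * (b * g) * pv A' := by
      rw [hη2]
      have : b * b ^ k = b ^ k * b := (Commute.refl b).pow_right k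
      calc b * (b ^ k * g * pv A') = (b * b ^ k) * g * pv A' := by group
        _ = _ := by rw [this]; group
    rw [mul_assoc, e1, hbg, hη2]
    have e2 : pv L = pv A' * (x.val * pv B) := by rw [hLA]; simp
    rw [e2]; group
  set K := ohyp η x with hKdef
  have hlo : K.lo = th η x.a.length := lo_ohyp η x
  have hhi : K.hi = th η (x.a.length + x.top.length) := hi_ohyp η x
  obtain ⟨hr, hc⟩ := par_cases hK
  rcases hc with ⟨hs, k0, hk0, hkk⟩ | ⟨hs, k0, hk0, hkk⟩
  · have h3 := cr_fq hQK (x :: D) η hnd (by simp [hys, hKdef])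
    apply h3
    rw [pv_cons, ← mul_assoc, hkk]
    exact cr_Mv hk0 hlo hhi
  have hxy : y ≠ x := by
    intro h0
    rw [h0] at hs
    cases hx : x.s <;> simp [hx] at hs
  have hndD := fq_tail_nodup hnd
  have hlo2 : K.lo = th (η * x.val) x.a.length := by
    rw [map_mul, RelIso.mul_apply, th_val_a, hlo]
  have hhi2 : K.hi = th (η * x.val) (x.a.length + x.bot.length) := by
    rw [map_mul, RelIso.mul_apply, th_val_top, hhi]
  have hfin : ∀ D2, D = (B ++ A') ++ x :: D2 → False := by
    intro D2 hD
    have e1 : η * x.val * pv (B ++ A') = b * η := by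
      rw [mul_assoc, pv_append, hloop]; group
    have hmem : act b K ∈ hys (η * x.val) D := by
      rw [hD, hys_append, e1, hKdef, act_ohyp]
      simp [hys]
    have h3 := cr_fq ((hQb K).2 hQK) D _ hndD hmem
    rw [hkk] at h3
    have h4 := cross_Mv _ hk0 _ h3
    rw [← hlo2, ← hhi2] at h4
    exact hov K hQK h4
  have hR : ∃ R, B ++ A' = D ++ y :: R := by
    rcases m with _ | m
    · refine ⟨L2 ++ A', ?_⟩
      rw [rep_zero, List.append_nil] at hM
      rw [← hM]; simp
    · have e : D ++ y :: L2 = (B ++ A') ++ x :: (B ++ rep m L) := by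
        have e0 : B ++ (L ++ rep m L) = B ++ ((A' ++ x :: B) ++ rep m L) := by rw [← hLA]
        rw [hM, rep_succ, e0]
        simp [List.append_assoc]
      rw [List.append_eq_append_iff] at e
      rcases e with ⟨cs, g1, g2⟩ | ⟨cs, g1, g2⟩
      · rcases List.cons_eq_append_iff.1 g2 with ⟨rfl, g3⟩ | ⟨cs', rfl, g3⟩
        · exact absurd (List.cons_eq_cons.1 g3).1.symm hxy
        · exact ⟨cs', g1⟩
      · rcases List.cons_eq_append_iff.1 g2 with ⟨rfl, g3⟩ | ⟨cs', rfl, g3⟩
        · exact absurd (List.cons_eq_cons.1 g3).1 hxy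
        · exact absurd g1 (fun h => hfin cs' h)
  obtain ⟨R, hR⟩ := hR
  have hL' := hL
  rw [hLA] at hL'
  obtain ⟨W1, p1, p2⟩ := hL'.split
  have p3 : IsPath W1 ((x :: B) ++ A') W1 := p2.append p1
  have e3 : (x :: B) ++ A' = (x :: (D ++ [y])) ++ R := by
    rw [List.cons_append, hR]; simp
  have p4 := p3
  rw [e3] at p4
  obtain ⟨W2, p5, p6⟩ := p4.split
  obtain ⟨M, q1, q2, q3⟩ := exists_nodup (P := P) (W := W1) (W' := W2) ⟨_, p5, rfl⟩
  have e4 : pv (x :: (D ++ [y])) = x.val * pv D * y.val := by simp [mul_assoc]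
  rw [e4] at q2
  have e5 : x.val * (pv B * pv A') = pv M * pv R := by
    have := congrArg pv e3
    simp only [pv_append, pv_cons, pv_nil, mul_one] at this
    rw [q2, ← mul_assoc, this]; group
  have hmm := hmin W1 (M ++ R) (pv L1) ⟨L1, by rw [hL1]; exact (isPath_rep k hL).append p1, rfl⟩
    (q1.append p6) (by rw [pv_append, ← e5, hloop])
  rw [← hη, fq_append, List.length_append] at hmm
  -- rotation invariance
  have e6 : (fq Q g L).length = (fq Q η ((x :: B) ++ A')).length := by
    have f1 : (fq Q η ((x :: B) ++ A')).length =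
        (fq Q η (x :: B)).length + (fq Q (b ^ (k + 1) * g) A').length := by
      rw [fq_append, List.length_append]
      congr 3
      rw [hη2, pow_succ, mul_assoc (b ^ k) b g, hbg]
      conv_rhs => rw [hLA]
      simp [mul_assoc]
    have f2 : (fq Q g L).length = (fq Q g A').length + (fq Q (g * pv A') (x :: B)).length := by
      conv_lhs => rw [hLA]
      rw [fq_append, List.length_append]
    rw [f1, f2, fq_act (Q_pow hQb (k + 1)), List.length_map, hη2, mul_assoc (b ^ k) g,
      fq_act (Q_pow hQb k), List.length_map]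
    omega
  have e7 : (fq Q η ((x :: B) ++ A')).length =
      1 + (fq Q (η * x.val) D).length + 1 + (fq Q (η * pv M) R).length := by
    rw [List.cons_append, hR, fq_cons_pos _ hQK, List.length_cons, fq_append, List.length_append,
      fq_cons_pos _ (by rw [hK]; exact hQK), List.length_cons, q2]
    have : η * x.val * pv D * y.val = η * (x.val * pv D * y.val) := by group
    rw [this]; omega
  -- comparison
  have e8 : (fq Q η M).length ≤ (fq Q (η * x.val) D).length := by
    have hMn : (fq Q η M).Nodup := (q3 η).filter _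
    apply List.Subperm.length_le
    apply List.subperm_of_subset hMn
    intro K' hK'
    obtain ⟨h1, h2⟩ := mem_fq.1 hK'
    have h3 := cr_mem K' η M (q3 η) h1
    have h4 : K' ≠ K := by
      rintro rfl
      apply h3
      have g1 : cr (ohyp η x) (η * x.val) ≠ cr (ohyp η x) η := cr_val_eq _ η x rfl
      have g2 : cr (ohyp η x) (η * x.val * pv D) = cr (ohyp η x) (η * x.val) := by
        rw [hkk]; exact cr_Mv hk0 hlo2 hhi2
      have g3 : cr (ohyp η x) (η * x.val * pv D * y.val) ≠ cr (ohyp η x) (η * x.val * pv D) :=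
        cr_val_eq _ _ y hK
      rw [g2] at g3
      have := cr_third g3 g1
      rw [q2, ← this]
      congr 1; group
    refine mem_fq.2 ⟨?_, h2⟩
    by_contra h5
    apply h3
    have g1 := cr_val_ne K' η x (fun h => h4 h.symm)
    have g2 := cr_not_mem K' _ D h5
    have g3 := cr_val_ne K' (η * x.val * pv D) y (fun h => h4 (by rw [← h, hK]))
    rw [q2, ← g1, ← g2, ← g3]
    congr 1; group
  omega

theorem exists_minQ (Q : Hyp P → Prop) {w : List A} {b : U P} (hb : Pi w b w) :
    ∃ g W L, Pi w g W ∧ IsPath W L W ∧ pv L = g⁻¹ * b * g ∧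
      ∀ W' L' h, Pi W h W' → IsPath W' L' W' → pv L' = (g * h)⁻¹ * b * (g * h) →
      (fq Q g L).length ≤ (fq Q (g * h) L').length := by
  classical
  have hex : ∃ n, ∃ g W L, Pi w g W ∧ IsPath W L W ∧ pv L = g⁻¹ * b * g ∧
      (fq Q g L).length = n := by
    obtain ⟨L, h1, h2⟩ := hb
    exact ⟨_, 1, w, L, Pi.refl _, h1, by simp [h2], rfl⟩
  obtain ⟨g, W, L, h1, h2, h3, h4⟩ := Nat.find_spec hex
  refine ⟨g, W, L, h1, h2, h3, ?_⟩
  intro W' L' h g1 g2 g3
  rw [h4]
  exact Nat.find_min' hex ⟨g * h, W', L', h1.trans g1, g2, g3, rfl⟩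

theorem rep_add (m n : ℕ) (L : List (OE P)) : rep (m + n) L = rep m L ++ rep n L := by
  induction m with
  | zero => simp
  | succ m ih => rw [Nat.add_right_comm, rep_succ, ih, rep_succ, List.append_assoc]

theorem ess_of_nodup {Q : Hyp P → Prop} {b g : U P} {L : List (OE P)}
    (hv : pv L = g⁻¹ * b * g) (hQb : ∀ K, Q (act b K) ↔ Q K)
    (hn : ∀ n, (fq Q g (rep n L)).Nodup) {K : Hyp P} (hK : K ∈ hys g L) (hQ : Q K) :
    Ess b g K := by
  refine ⟨1, ?_⟩
  intro n hn1
  have e0 : pv (rep n L) = g⁻¹ * b ^ n * g := by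
    rw [pv_rep, hv]
    have := conj_pow (a := g⁻¹) (b := b) (i := n)
    simpa using this
  have e1 : (b ^ (-(n : ℤ)) * g) * pv (rep n L) = g := by
    rw [e0, zpow_neg, zpow_natCast]; group
  have e2 : (b ^ (-(n : ℤ)) * g) * pv (rep (n + n) L) = b ^ (n : ℤ) * g := by
    rw [rep_add, pv_append, ← mul_assoc, e1, e0, zpow_natCast]; group
  have h1 : (fq Q (b ^ (-(n : ℤ)) * g) (rep (n + n) L)).Nodup := by
    rw [fq_act (Q_zpow hQb _)]
    exact (hn (n + n)).map (fun _ _ h => act_inj _ h)
  have h2 : K ∈ hys (b ^ (-(n : ℤ)) * g) (rep (n + n) L) := by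
    rw [rep_add, hys_append, e1]
    apply List.mem_append_right
    obtain ⟨m, rfl⟩ : ∃ m, n = m + 1 := ⟨n - 1, by omega⟩
    rw [rep_succ, hys_append]
    exact List.mem_append_left _ hK
  have := cr_fq hQ _ _ h1 h2
  rw [e2] at this
  exact this

/-! ### letters over a cut -/

/-- the hyperplane `K` lies over the cut `S` -/
def Over (S : Set ℚ) (K : Hyp P) : Prop := K.lo ∈ S ∧ K.hi ∉ S

/-- lower sets -/
def Low (S : Set ℚ) : Prop := ∀ s t, s ≤ t → t ∈ S → s ∈ S

theorem letter_step {S : Set ℚ} (hS : Low S) {g : U P} {p q : List A} {x : A} {o : OE P}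
    (hsrc : o.src = p ++ x :: q) (h1 : th g p.length ∈ S) (h2 : th g (p.length + 1) ∉ S)
    (hno : ¬ Over S (ohyp g o)) :
    ∃ p1 q1, o.tgt = p1 ++ x :: q1 ∧ Mv p [x] q o.val p1 q1 ∧
      th (g * o.val) p1.length ∈ S ∧ th (g * o.val) (p1.length + 1) ∉ S := by
  unfold Over at hno
  rw [lo_ohyp, hi_ohyp] at hno
  by_cases hhi : th g (o.a.length + o.top.length) ∈ S
  · have hle : (o.a ++ o.top).length ≤ p.length := by
      by_contra hlt
      push Not at hlt
      apply h2
      refine hS _ _ ?_ hhi
      apply (th g).monotone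
      rw [List.length_append] at hlt
      have : p.length + 1 ≤ o.a.length + o.top.length := hlt
      exact_mod_cast this
    have h3 : p ++ x :: q = (o.a ++ o.top) ++ o.c := by
      rw [← hsrc, List.append_assoc]; rfl
    obtain ⟨bb, e1, e2⟩ := split_of_le h3 hle
    set o' : OE P := ⟨o.a, o.r, o.s, bb⟩ with ho'
    have ht : o'.top = o.top := rfl
    have hb : o'.bot = o.bot := rfl
    have hpi : Pi p o'.val (o.a ++ (o.bot ++ bb)) := by
      have := Pi.oe o'
      have e3 : o'.src = p := by
        rw [e1, List.append_assoc]; rfl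
      rw [e3] at this
      exact this
    have hval : o.val = wh [] (x :: q) o'.val := by
      rw [wh_val]
      congr 1
      rcases o with ⟨oa, orr, os, oc⟩
      simp only at e2
      simp [OE.w, ho', e2]
    have hpos : ∀ t : ℚ, 0 ≤ t → th (g * o.val) ((o.a ++ (o.bot ++ bb)).length + t) =
        th g (p.length + t) := by
      intro t ht0
      rw [map_mul, RelIso.mul_apply]
      congr 1
      have := th_val_ge o (t := bb.length + t) (by positivity)
      rw [e1]
      simp only [List.length_append]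
      push_cast
      have e4 : (o.a.length : ℚ) + (o.bot.length + bb.length) + t =
        o.a.length + o.bot.length + (bb.length + t) := by ring
      rw [e4, this]; ring
    refine ⟨o.a ++ (o.bot ++ bb), q, ?_, ⟨o'.val, 1, hpi, Pi.refl _, ?_⟩, ?_, ?_⟩
    · change o.a ++ (o.bot ++ o.c) = _
      rw [e2]; simp [List.append_assoc]
    · rw [map_one, mul_one]; exact hval
    · have := hpos 0 le_rfl
      rw [add_zero, add_zero] at this
      rw [this]; exact h1
    · rw [hpos 1 zero_le_one]; exact h2
  · have hlo : th g o.a.length ∉ S := fun h => hno ⟨h, hhi⟩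
    have hle : (p ++ [x]).length ≤ o.a.length := by
      by_contra hlt
      push Not at hlt
      apply hlo
      refine hS _ _ ?_ h1
      apply (th g).monotone
      rw [List.length_append, List.length_singleton] at hlt
      have : o.a.length ≤ p.length := by omega
      exact_mod_cast this
    have h3 : o.a ++ (o.top ++ o.c) = (p ++ [x]) ++ q := by
      have : o.a ++ (o.top ++ o.c) = p ++ x :: q := hsrc
      rw [this]; simp
    obtain ⟨bb, e1, e2⟩ := split_of_le h3 hle
    set o' : OE P := ⟨bb, o.r, o.s, o.c⟩ with ho'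
    have hpi : Pi q o'.val (bb ++ (o.bot ++ o.c)) := by
      have := Pi.oe o'
      have e3 : o'.src = q := by rw [e2]; rfl
      rw [e3] at this
      exact this
    have hval : o.val = wh (p ++ [x]) [] o'.val := by
      rw [wh_val]
      congr 1
      rcases o with ⟨oa, orr, os, oc⟩
      simp only at e1
      simp [OE.w, ho', e1]
    have hpos : ∀ t : ℚ, t ≤ 1 → th (g * o.val) (p.length + t) = th g (p.length + t) := by
      intro t ht0
      rw [map_mul, RelIso.mul_apply]
      congr 1
      apply th_val_le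
      rw [e1]
      simp only [List.length_append, List.length_singleton]
      push_cast
      linarith [Nat.cast_nonneg (α := ℚ) bb.length]
    refine ⟨p, bb ++ (o.bot ++ o.c), ?_, ⟨1, o'.val, Pi.refl _, hpi, ?_⟩, ?_, ?_⟩
    · change o.a ++ (o.bot ++ o.c) = _
      rw [e1]; simp [List.append_assoc]
    · rw [map_one, one_mul]; exact hval
    · have := hpos 0 zero_le_one
      rw [add_zero] at this
      rw [this]; exact h1
    · rw [hpos 1 le_rfl]; exact h2

theorem letter_path {S : Set ℚ} (hS : Low S) {W' : List A} {x : A} (L : List (OE P)) :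
    ∀ (g : U P) (p q : List A), IsPath (p ++ x :: q) L W' → (∀ K ∈ hys g L, ¬ Over S K) →
    th g p.length ∈ S → th g (p.length + 1) ∉ S →
    ∃ p1 q1, W' = p1 ++ x :: q1 ∧ Mv p [x] q (pv L) p1 q1 ∧
      th (g * pv L) p1.length ∈ S ∧ th (g * pv L) (p1.length + 1) ∉ S := by
  induction L with
  | nil =>
    intro g p q hL _ h1 h2
    refine ⟨p, q, hL.symm, Mv.refl _ _ _, by simpa using h1, by simpa using h2⟩
  | cons o L ih =>
    intro g p q hL hno h1 h2
    obtain ⟨hsrc, hL2⟩ := hL
    obtain ⟨p1, q1, e1, e2, e3, e4⟩ := letter_step hS hsrc.symm h1 h2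
      (hno _ (by simp [hys]))
    rw [e1] at hL2
    obtain ⟨p2, q2, f1, f2, f3, f4⟩ := ih (g * o.val) p1 q1 hL2
      (fun K hK => hno K (by simp [hys, hK])) e3 e4
    refine ⟨p2, q2, f1, ?_, ?_, ?_⟩
    · rw [pv_cons]; exact e2.trans f2
    · rw [pv_cons, ← mul_assoc]; exact f3
    · rw [pv_cons, ← mul_assoc]; exact f4

theorem idx_unique {S : Set ℚ} (hS : Low S) {g : U P} {m n : ℕ} (h1 : th g (m : ℚ) ∈ S)
    (h2 : th g ((m : ℚ) + 1) ∉ S) (h3 : th g (n : ℚ) ∈ S) (h4 : th g ((n : ℚ) + 1) ∉ S) :
    m = n := by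
  rcases lt_trichotomy m n with h | h | h
  · exfalso; apply h2; refine hS _ _ ?_ h3
    apply (th g).monotone; exact_mod_cast h
  · exact h
  · exfalso; apply h4; refine hS _ _ ?_ h1
    apply (th g).monotone; exact_mod_cast h

theorem split_at_idx : ∀ (W : List A) (j : ℕ), j < W.length →
    ∃ p x q, W = p ++ x :: q ∧ p.length = j
  | [], j, h => absurd h (by simp)
  | x :: W, 0, _ => ⟨[], x, W, rfl, rfl⟩
  | x :: W, j + 1, h => by
    obtain ⟨p, y, q, h1, h2⟩ := split_at_idx W j (by simpa using h)
    exact ⟨x :: p, y, q, by rw [h1]; rfl, by simp [h2]⟩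

theorem disc {f : ℕ → Prop} {n : ℕ} (h0 : f 0) (hn : ¬ f n) : ∃ j, j < n ∧ f j ∧ ¬ f (j + 1) := by
  by_contra hcon
  push Not at hcon
  apply hn
  have : ∀ m, m ≤ n → f m := by
    intro m
    induction m with
    | zero => intro _; exact h0
    | succ m ih => intro hm; exact hcon m (by omega) (ih (by omega))
  exact this n le_rfl

/-- a word has a letter over the cut -/
theorem exists_letter {S : Set ℚ} {g : U P} {a W c : List A} (h1 : th g a.length ∈ S)
    (h2 : th g (a.length + W.length) ∉ S) :
    ∃ p x q, W = p ++ x :: q ∧ th g (a ++ p).length ∈ S ∧ th g ((a ++ p).length + 1) ∉ S := by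
  obtain ⟨j, hj, h3, h4⟩ := disc (f := fun j => th g (a.length + j) ∈ S) (n := W.length)
    (by simpa using h1) h2
  obtain ⟨p, x, q, h5, h6⟩ := split_at_idx W j hj
  refine ⟨p, x, q, h5, ?_, ?_⟩
  · rw [List.length_append, h6]; push_cast; exact h3
  · rw [List.length_append, h6]
    push_cast at h4 ⊢
    rw [add_assoc]; exact h4

theorem th_nonpos (g : U P) {t : ℚ} (h : t ≤ 0) : th g t = t := by
  have := th_wh_le [] [] g (t := t) (by simpa using h)
  rwa [wh_nil] at this

theorem ohyp_rep {w : List A} {g : U P} {o : OE P} (h : Pi w g o.src) :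
    ∃ g' e, Pi w g' (Edge.src e) ∧ ohyp g o = hyp g' e := by
  rcases o with ⟨a, r, s, c⟩
  cases s
  · refine ⟨g * (gen ⟨a, r, c⟩)⁻¹, ⟨a, r, c⟩, ?_, rfl⟩
    have := h.trans (Pi.oe (⟨a, r, false, c⟩ : OE P))
    exact this
  · exact ⟨g, ⟨a, r, c⟩, h, rfl⟩

/-- **Existence of essential hyperplanes.** -/
theorem exists_ess {w : List A} {b : U P} (hb : Pi w b w) (hb1 : b ≠ 1) :
    ∃ S : Set ℚ, Low S ∧ (∀ c : U P, c * b = b * c → ∀ s, th c s ∈ S ↔ s ∈ S) ∧
      ∃ g e, Pi w g (Edge.src e) ∧ Ess b 1 (hyp g e) ∧ Over S (hyp g e) := by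
  classical
  have hfinish : ∀ {S : Set ℚ} {g : U P} {W : List A} {L : List (OE P)} {K : Hyp P},
      Pi w g W → IsPath W L W → K ∈ hys g L → Ess b g K → Over S K →
      ∃ g e, Pi w g (Edge.src e) ∧ Ess b 1 (hyp g e) ∧ Over S (hyp g e) := by
    intro S g W L K h1 h2 h3 h4 h5
    obtain ⟨D, y, L2, rfl, h6, -⟩ := mem_hys L g h3
    obtain ⟨W1, p1, p2⟩ := h2.split
    obtain ⟨g', e, f1, f2⟩ := ohyp_rep (w := w) (g := g * pv D) (o := y)
      (h1.trans ⟨D, by rw [← p2.1]; exact p1, rfl⟩)
    rw [h6] at f2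
    rw [f2] at h4 h5
    exact ⟨g', e, f1, ess_base h4 1, h5⟩
  by_cases hth : th b = 1
  · -- trivial action on positions
    obtain ⟨g, W, L, h1, h2, h3, h4⟩ := exists_minQ (fun _ : Hyp P => True) hb
    have hzb : ∀ m : ℤ, th (b ^ m) = 1 := by intro m; rw [map_zpow, hth, one_zpow]
    have hnod := rep_nodupQ h2 h3 (fun _ => Iff.rfl) (by
      intro K _ hcon
      rw [act_lo, act_hi, hth] at hcon
      have := K.lt
      simp only [RelIso.one_apply, or_self] at hcon
      exact absurd this (not_lt.2 hcon)) h4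
    have hLne : hys g L ≠ [] := by
      intro h0
      have : L = [] := by
        apply List.eq_nil_of_length_eq_zero
        rw [← hys_length g L, h0]; rfl
      rw [this, pv_nil] at h3
      apply hb1
      have e : b = g * (g⁻¹ * b * g) * g⁻¹ := by group
      rw [e, ← h3]; group
    obtain ⟨K0, hK0, hK0min⟩ := Set.exists_min_image {K | K ∈ hys g L} Hyp.lo
      (List.finite_toSet _) (List.exists_mem_of_ne_nil _ hLne)
    have hess : Ess b g K0 := ess_of_nodup h3 (fun _ => Iff.rfl) hnod hK0 trivial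
    have hle : ∀ c : U P, c * b = b * c → K0.lo ≤ th c K0.lo := by
      intro c hc
      obtain ⟨m, hm⟩ := ess_near (ess_comm hc hess)
      have hmem : act (b ^ m) (act c K0) ∈ hys g L := by
        by_contra hnot
        apply hm
        have e : b * g = g * pv L := by rw [h3]; group
        rw [e, cr_not_mem _ g L hnot]
      have := hK0min _ hmem
      rw [act_lo, act_lo, hzb] at this
      exact this
    refine ⟨Set.Iic K0.lo, fun s t h1 h2 => le_trans h1 h2, ?_, hfinish h1 h2 hK0 hess
      ⟨Set.mem_Iic.2 le_rfl, fun h => absurd K0.lt (not_lt.2 h)⟩⟩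
    intro c hc s
    have e1 := hle c hc
    have e2 := hle c⁻¹ (by
      have : Commute c b := hc
      exact this.inv_left.eq)
    have e3 : th c K0.lo = K0.lo := by
      apply le_antisymm _ e1
      have := (th c).monotone e2
      rwa [map_inv, ← RelIso.mul_apply, mul_inv_cancel, RelIso.one_apply] at this
    simp only [Set.mem_Iic]
    conv_lhs => rw [← e3]
    exact (th c).le_iff_le
  · -- nontrivial action on positions
    set S : Set ℚ := {s | ∀ t, t ≤ s → th b t = t} with hSdef
    have hS : Low S := fun s t h1 h2 u hu => h2 u (hu.trans h1)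
    have hinv1 : ∀ c : U P, c * b = b * c → ∀ s, s ∈ S → th c s ∈ S := by
      intro c hc s hs t ht
      have h1 : (th c)⁻¹ t ≤ s := by
        have : t = th c ((th c)⁻¹ t) := by
          rw [← RelIso.mul_apply, mul_inv_cancel, RelIso.one_apply]
        rw [this] at ht
        exact (th c).le_iff_le.1 ht
      have h2 := hs _ h1
      have h3 : th b (th c ((th c)⁻¹ t)) = th c (th b ((th c)⁻¹ t)) := by
        rw [← RelIso.mul_apply, ← map_mul, ← hc, map_mul, RelIso.mul_apply]
      rw [h2, ← RelIso.mul_apply (th c), mul_inv_cancel, RelIso.one_apply] at h3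
      exact h3
    have hinv : ∀ c : U P, c * b = b * c → ∀ s, th c s ∈ S ↔ s ∈ S := by
      intro c hc s
      refine ⟨fun h => ?_, hinv1 c hc s⟩
      have := hinv1 c⁻¹ (by
        have : Commute c b := hc
        exact this.inv_left.eq) _ h
      rwa [map_inv, ← RelIso.mul_apply, inv_mul_cancel, RelIso.one_apply] at this
    refine ⟨S, hS, hinv, ?_⟩
    obtain ⟨g, W, L, h1, h2, h3, h4⟩ := exists_minQ (Over S : Hyp P → Prop) hb
    have hQb : ∀ K : Hyp P, Over S (act b K) ↔ Over S K := by
      intro K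
      unfold Over
      rw [act_lo, act_hi, hinv b rfl, hinv b rfl]
    have hnod := rep_nodupQ h2 h3 hQb (by
      intro K hK hcon
      have hK' := (hQb K).2 hK
      rcases hcon with h | h
      · exact hK'.2 (hS _ _ h hK.1)
      · exact hK.2 (hS _ _ h hK'.1)) h4
    by_cases hex : ∃ K ∈ hys g L, Over S K
    · obtain ⟨K, hK, hov⟩ := hex
      exact hfinish h1 h2 hK (ess_of_nodup h3 hQb hnod hK hov) hov
    · exfalso
      push Not at hex
      have hw : (w.length : ℚ) ∉ S := by
        intro hw
        apply hth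
        ext t
        rcases le_total t w.length with h | h
        · exact hw t h
        · have := hb.th (t := t - w.length) (by linarith)
          simpa using this
      have g1 : th g (([] : List A).length : ℚ) ∈ S := by
        simp only [List.length_nil, Nat.cast_zero]
        rw [th_nonpos g le_rfl]
        intro t ht
        exact th_nonpos b ht
      have g2 : th g ((([] : List A).length : ℚ) + W.length) ∉ S := by
        simp only [List.length_nil, Nat.cast_zero, zero_add]
        have := h1.th (t := 0) le_rfl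
        simp only [add_zero] at this
        rw [this]; exact hw
      obtain ⟨p, x, q, rfl, g3, g4⟩ := exists_letter (c := []) g1 g2
      simp only [List.nil_append] at g3 g4
      obtain ⟨p1, q1, e1, e2, e3, e4⟩ := letter_path hS L g p q h2 hex g3 g4
      have hbg : g * pv L = b * g := by rw [h3]; group
      rw [hbg, map_mul, RelIso.mul_apply, hinv b rfl] at e3 e4
      have hlen := idx_unique hS g3 g4 e3 e4
      obtain ⟨e5, e6⟩ := List.append_inj e1 hlen
      subst e5
      have e7 := (List.cons_eq_cons.1 e6).2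
      subst e7
      obtain ⟨α, β, hα, hβ, hval⟩ := e2
      have key : ∀ s : ℚ, 0 ≤ s → s ≤ 1 → th b (th g (p.length + s)) = th g (p.length + s) := by
        intro s hs0 hs1
        have f1 := th_wh_le (p ++ [x]) [] β (t := p.length + s) (by
          simp only [List.length_append, List.length_singleton]; push_cast; linarith)
        rw [← RelIso.mul_apply, ← map_mul, ← hbg, map_mul, RelIso.mul_apply, hval, map_mul,
          RelIso.mul_apply, f1, th_wh_right, hα.th hs0]
      apply g4
      intro t ht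
      rcases le_total t (th g p.length) with h | h
      · exact g3 t h
      · set t' := (th g)⁻¹ t with ht'
        have e8 : t = th g t' := by
          rw [ht', ← RelIso.mul_apply, mul_inv_cancel, RelIso.one_apply]
        rw [e8] at h ht ⊢
        have e9 := (th g).le_iff_le.1 h
        have e10 := (th g).le_iff_le.1 ht
        have := key (t' - p.length) (by linarith) (by linarith)
        simpa using this

end H540DG
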