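import Pool.Agent.H540R3.DS2

set_option autoImplicit false

/-!
# Splittings of elements stabilizing a hyperplane
-/

namespace H540DG

variable {A : Type} {P : Pres A}

/-- elements moving only the left part -/
def LP (g : U P) (a m c : List A) (y : U P) : Prop :=
  ∃ α, Pi a α a ∧ y = g * wh [] (m ++ c) α * g⁻¹

/-- elements moving only the right part -/
def RP (g : U P) (a m c : List A) (y : U P) : Prop :=
  ∃ β, Pi c β c ∧ y = g * wh (a ++ m) [] β * g⁻¹

theorem LP.mul {g : U P} {a m c : List A} {y z : U P} (h : LP g a m c y) (h' : LP g a m c z) :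
    LP g a m c (y * z) := by
  obtain ⟨α, h1, rfl⟩ := h
  obtain ⟨β, h2, rfl⟩ := h'
  exact ⟨α * β, h1.trans h2, by rw [map_mul]; group⟩

theorem LP.inv {g : U P} {a m c : List A} {y : U P} (h : LP g a m c y) : LP g a m c y⁻¹ := by
  obtain ⟨α, h1, rfl⟩ := h
  exact ⟨α⁻¹, h1.symm, by rw [map_inv]; group⟩

theorem RP.mul {g : U P} {a m c : List A} {y z : U P} (h : RP g a m c y) (h' : RP g a m c z) :
    RP g a m c (y * z) := by
  obtain ⟨α, h1, rfl⟩ := h
  obtain ⟨β, h2, rfl⟩ := h'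
  exact ⟨α * β, h1.trans h2, by rw [map_mul]; group⟩

theorem RP.inv {g : U P} {a m c : List A} {y : U P} (h : RP g a m c y) : RP g a m c y⁻¹ := by
  obtain ⟨α, h1, rfl⟩ := h
  exact ⟨α⁻¹, h1.symm, by rw [map_inv]; group⟩

theorem LR_comm {g : U P} {a m c : List A} {y z : U P} (h : LP g a m c y) (h' : RP g a m c z) :
    y * z = z * y := by
  obtain ⟨α, h1, rfl⟩ := h
  obtain ⟨β, h2, rfl⟩ := h'
  have := interchange_m m h1 h2
  calc g * wh [] (m ++ c) α * g⁻¹ * (g * wh (a ++ m) [] β * g⁻¹)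
      = g * (wh [] (m ++ c) α * wh (a ++ m) [] β) * g⁻¹ := by group
    _ = g * (wh (a ++ m) [] β * wh [] (m ++ c) α) * g⁻¹ := by rw [this]
    _ = _ := by group

theorem LR_inj {g : U P} {a m c : List A} {y z : U P} (h : LP g a m c y) (h' : RP g a m c z)
    (h1 : y * z = 1) : y = 1 ∧ z = 1 := by
  obtain ⟨α, hα, rfl⟩ := h
  obtain ⟨β, hβ, rfl⟩ := h'
  have e1 : wh [] (m ++ c) α * wh a [] (wh m [] β) = 1 := by
    rw [wh_wh]
    have : g * wh [] (m ++ c) α * g⁻¹ * (g * wh (a ++ m) [] β * g⁻¹) =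
      g * (wh [] (m ++ c) α * wh (a ++ m) [] β) * g⁻¹ := by group
    rw [this] at h1
    have h2 : wh [] (m ++ c) α * wh (a ++ m) [] β = 1 := by
      calc _ = g⁻¹ * (g * (wh [] (m ++ c) α * wh (a ++ m) [] β) * g⁻¹) * g := by group
        _ = 1 := by rw [h1]; group
    simpa using h2
  have hβ' : Pi (m ++ c) (wh m [] β) (m ++ c) := by simpa using hβ.wh m []
  obtain ⟨e2, e3⟩ := prod_inj hα hβ' e1
  refine ⟨by rw [e2]; simp, ?_⟩
  have e4 : wh (a ++ m) [] β = wh a [] (wh m [] β) := by rw [wh_wh]; simp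
  rw [e4, e3]; simp

theorem LR_unique {g : U P} {a m c : List A} {y z y' z' : U P} (h1 : LP g a m c y)
    (h2 : RP g a m c z) (h3 : LP g a m c y') (h4 : RP g a m c z') (h : y * z = y' * z') :
    y = y' ∧ z = z' := by
  have := LR_inj (h3.inv.mul h1) (h2.mul h4.inv) (by
    calc y'⁻¹ * y * (z * z'⁻¹) = y'⁻¹ * (y * z) * z'⁻¹ := by group
      _ = 1 := by rw [h]; group)
  exact ⟨(inv_mul_eq_one.1 this.1).symm, mul_inv_eq_one.1 this.2⟩

theorem LP.move {g : U P} {a m c a' c' : List A} {y h : U P} (hy : LP g a m c y)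
    (hm : Mv a m c h a' c') : LP (g * h) a' m c' y := by
  obtain ⟨α, hα, rfl⟩ := hy
  obtain ⟨α0, β0, h1, h2, rfl⟩ := hm
  have h3 : Pi a' (α0⁻¹ * α * α0) a' := (h1.symm.trans hα).trans h1
  refine ⟨_, h3, ?_⟩
  have e := interchange_m m h3 h2
  calc g * wh [] (m ++ c) α * g⁻¹
      = g * wh [] (m ++ c) α0 * (wh [] (m ++ c) (α0⁻¹ * α * α0) * wh (a' ++ m) [] β0) *
          (wh (a' ++ m) [] β0)⁻¹ * (wh [] (m ++ c) α0)⁻¹ * g⁻¹ := by
        simp only [map_mul, map_inv]; group
    _ = g * wh [] (m ++ c) α0 * (wh (a' ++ m) [] β0 * wh [] (m ++ c') (α0⁻¹ * α * α0)) *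
          (wh (a' ++ m) [] β0)⁻¹ * (wh [] (m ++ c) α0)⁻¹ * g⁻¹ := by rw [e]
    _ = _ := by group

theorem RP.move {g : U P} {a m c a' c' : List A} {y h : U P} (hy : RP g a m c y)
    (hm : Mv a m c h a' c') : RP (g * h) a' m c' y := by
  obtain ⟨β, hβ, rfl⟩ := hy
  obtain ⟨α0, β0, h1, h2, rfl⟩ := hm
  have h3 : Pi c' (β0⁻¹ * β * β0) c' := (h2.symm.trans hβ).trans h2
  refine ⟨_, h3, ?_⟩
  have e := interchange_m m h1 h3
  have e2 := interchange_m m h1 h2
  calc g * wh (a ++ m) [] β * g⁻¹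
      = g * wh (a ++ m) [] β0 * (wh (a ++ m) [] (β0⁻¹ * β * β0) * wh [] (m ++ c') α0) *
          (wh [] (m ++ c') α0)⁻¹ * (wh (a ++ m) [] β0)⁻¹ * g⁻¹ := by
        simp only [map_mul, map_inv]; group
    _ = g * wh (a ++ m) [] β0 * (wh [] (m ++ c') α0 * wh (a' ++ m) [] (β0⁻¹ * β * β0)) *
          (wh [] (m ++ c') α0)⁻¹ * (wh (a ++ m) [] β0)⁻¹ * g⁻¹ := by rw [e]
    _ = g * (wh (a ++ m) [] β0 * wh [] (m ++ c') α0) * wh (a' ++ m) [] (β0⁻¹ * β * β0) *
          (wh (a ++ m) [] β0 * wh [] (m ++ c') α0)⁻¹ * g⁻¹ := by group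
    _ = _ := by rw [← e2]; group

theorem LP.mem {w : List A} {g : U P} {a m c : List A} {y : U P} (hg : Pi w g (a ++ (m ++ c)))
    (h : LP g a m c y) : Pi w y w := by
  obtain ⟨α, h1, rfl⟩ := h
  have := h1.wh [] (m ++ c)
  simp only [List.nil_append] at this
  exact (hg.trans this).trans hg.symm

theorem RP.mem {w : List A} {g : U P} {a m c : List A} {y : U P} (hg : Pi w g (a ++ (m ++ c)))
    (h : RP g a m c y) : Pi w y w := by
  obtain ⟨β, h1, rfl⟩ := h
  have := h1.wh (a ++ m) []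
  simp only [List.append_nil, List.append_assoc] at this
  exact (hg.trans this).trans hg.symm

/-- refinement of the middle word -/
theorem LP.refine {g : U P} {a m c p q : List A} {x : A} {y : U P} (h : LP g a m c y)
    (hm : m = p ++ x :: q) : LP g (a ++ p) [x] (q ++ c) y := by
  obtain ⟨α, h1, rfl⟩ := h
  refine ⟨wh [] p α, by simpa using h1.wh [] p, ?_⟩
  rw [wh_wh, hm]
  simp

theorem RP.refine {g : U P} {a m c p q : List A} {x : A} {y : U P} (h : RP g a m c y)
    (hm : m = p ++ x :: q) : RP g (a ++ p) [x] (q ++ c) y := by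
  obtain ⟨β, h1, rfl⟩ := h
  refine ⟨wh q [] β, by simpa using h1.wh q [], ?_⟩
  rw [wh_wh, hm]
  simp

/-- conjugation -/
theorem LP.conj {g : U P} {a m c : List A} {y : U P} (b : U P) (h : LP g a m c y) :
    LP (b * g) a m c (b * y * b⁻¹) := by
  obtain ⟨α, h1, rfl⟩ := h
  exact ⟨α, h1, by group⟩

theorem RP.conj {g : U P} {a m c : List A} {y : U P} (b : U P) (h : RP g a m c y) :
    RP (b * g) a m c (b * y * b⁻¹) := by
  obtain ⟨α, h1, rfl⟩ := h
  exact ⟨α, h1, by group⟩

theorem LP.cross {g : U P} {o : OE P} {y : U P} (h : LP g o.a o.top o.c y) :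
    LP (g * o.val) o.a o.bot o.c y := by
  obtain ⟨α, h1, rfl⟩ := h
  refine ⟨α, h1, ?_⟩
  have h2 : Pi (o.top ++ o.c) (⟨[], o.r, o.s, o.c⟩ : OE P).val (o.bot ++ o.c) :=
    Pi.oe (⟨[], o.r, o.s, o.c⟩ : OE P)
  have h3 := interchange h1 h2
  have h4 : wh o.a [] (⟨[], o.r, o.s, o.c⟩ : OE P).val = o.val := by
    rw [wh_val]; simp [OE.w]
  rw [h4] at h3
  calc g * wh [] (o.top ++ o.c) α * g⁻¹
      = g * (wh [] (o.top ++ o.c) α * o.val) * o.val⁻¹ * g⁻¹ := by group
    _ = _ := by rw [h3]; group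

theorem RP.cross {g : U P} {o : OE P} {y : U P} (h : RP g o.a o.top o.c y) :
    RP (g * o.val) o.a o.bot o.c y := by
  obtain ⟨β, h1, rfl⟩ := h
  refine ⟨β, h1, ?_⟩
  have h2 : Pi (o.a ++ o.top) (⟨o.a, o.r, o.s, []⟩ : OE P).val (o.a ++ o.bot) := by
    have := Pi.oe (⟨o.a, o.r, o.s, []⟩ : OE P)
    have e1 : (⟨o.a, o.r, o.s, []⟩ : OE P).src = o.a ++ o.top := by
      change o.a ++ (o.top ++ []) = _; simp
    have e2 : (⟨o.a, o.r, o.s, []⟩ : OE P).tgt = o.a ++ o.bot := by
      change o.a ++ (o.bot ++ []) = _; simp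
    rw [e1, e2] at this
    exact this
  have h3 := interchange h2 h1
  have h4 : wh [] o.c (⟨o.a, o.r, o.s, []⟩ : OE P).val = o.val := by
    rw [wh_val]; simp [OE.w]
  rw [h4] at h3
  calc g * wh (o.a ++ o.top) [] β * g⁻¹
      = g * (wh (o.a ++ o.top) [] β * o.val) * o.val⁻¹ * g⁻¹ := by group
    _ = _ := by rw [← h3]; group

/-- splitting of elements stabilizing a hyperplane -/
theorem stab_split {z g : U P} {e : Edge P} (h : act z (hyp g e) = hyp g e) :
    ∃ y y', LP g e.a e.r.1.1 e.c y ∧ RP g e.a e.r.1.1 e.c y' ∧ z = y * y' := by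
  rw [act_hyp] at h
  have h := h.symm
  rw [hyp_eq] at h
  obtain ⟨-, k, ⟨α, β, h1, h2, h3⟩, h4⟩ := h
  simp only at h1 h2 h3 h4
  refine ⟨_, _, ⟨α, h1, rfl⟩, ⟨β, h2, rfl⟩, ?_⟩
  have : z = z * g * g⁻¹ := by group
  rw [this, h4, h3]; group

theorem split_stab {g : U P} {e : Edge P} {y y' : U P} (h1 : LP g e.a e.r.1.1 e.c y)
    (h2 : RP g e.a e.r.1.1 e.c y') : act (y * y') (hyp g e) = hyp g e := by
  obtain ⟨α, h1, rfl⟩ := h1
  obtain ⟨β, h2, rfl⟩ := h2
  rw [act_hyp]
  symm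
  rw [hyp_eq]
  exact ⟨rfl, _, ⟨α, β, h1, h2, rfl⟩, by simp only; group⟩

theorem LP.stab {g : U P} {e : Edge P} {y : U P} (h1 : LP g e.a e.r.1.1 e.c y) :
    act y (hyp g e) = hyp g e := by
  have := split_stab h1 (y' := 1) ⟨1, Pi.refl _, by simp⟩
  simpa using this

theorem RP.stab {g : U P} {e : Edge P} {y : U P} (h1 : RP g e.a e.r.1.1 e.c y) :
    act y (hyp g e) = hyp g e := by
  have := split_stab (y := 1) ⟨1, Pi.refl _, by simp⟩ h1
  simpa using this

theorem cr_over {S : Set ℚ} (hS : Low S) {K : Hyp P} (hK : Over S K) {g k : U P} {p q p' q' : List A}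
    {x : A} (hm : Mv p [x] q k p' q') (h1 : th g p.length ∈ S) (h2 : th g (p.length + 1) ∉ S) :
    cr K (g * k) = cr K g := by
  by_contra h
  have := cross_Mv K hm g h
  rcases this with h3 | h3
  · exact hK.2 (hS _ _ h3 h1)
  · simp only [List.length_singleton, Nat.cast_one] at h3
    exact h2 (hS _ _ h3 hK.1)

theorem LR_mv {g z : U P} {p q : List A} {x : A} {y1 y2 : U P} (h1 : LP g p [x] q y1)
    (h2 : RP g p [x] q y2) (hz : z = y1 * y2) : ∃ k, Mv p [x] q k p q ∧ z * g = g * k := by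
  obtain ⟨α, h1, rfl⟩ := h1
  obtain ⟨β, h2, rfl⟩ := h2
  exact ⟨_, ⟨α, β, h1, h2, rfl⟩, by rw [hz]; group⟩

/-- **Uniqueness of splittings.** -/
theorem UL {S : Set ℚ} (hS : Low S) {z : U P} (hz : ∀ s, th z s ∈ S ↔ s ∈ S)
    (L : List (OE P)) : ∀ (g : U P) (p q p' q' : List A) (x x' : A), (hys g L).Nodup →
    IsPath (p ++ x :: q) L (p' ++ x' :: q') → th g p.length ∈ S → th g (p.length + 1) ∉ S →
    th (g * pv L) p'.length ∈ S → th (g * pv L) (p'.length + 1) ∉ S →
    ∀ y1 y2 y1' y2', LP g p [x] q y1 → RP g p [x] q y2 → z = y1 * y2 →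
    LP (g * pv L) p' [x'] q' y1' → RP (g * pv L) p' [x'] q' y2' → z = y1' * y2' → y1 = y1' := by
  induction L with
  | nil =>
    intro g p q p' q' x x' _ hL h1 h2 h3 h4 y1 y2 y1' y2' f1 f2 f3 f4 f5 f6
    simp only [pv_nil, mul_one] at h3 h4 f4 f5
    have hlen := idx_unique hS h1 h2 h3 h4
    obtain ⟨e5, e6⟩ := List.append_inj (show p ++ x :: q = p' ++ x' :: q' from hL) hlen
    obtain ⟨e7, e8⟩ := List.cons_eq_cons.1 e6
    subst e5 e7 e8
    exact (LR_unique f1 f2 f4 f5 (f3.symm.trans f6)).1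
  | cons o L ih =>
    intro g p q p' q' x x' hn hL h1 h2 h3 h4 y1 y2 y1' y2' f1 f2 f3 f4 f5 f6
    obtain ⟨hsrc, hL2⟩ := hL
    have hn2 : (hys (g * o.val) L).Nodup := by
      simp only [hys, List.nodup_cons] at hn; exact hn.2
    have epv : g * pv (o :: L) = g * o.val * pv L := by rw [pv_cons, mul_assoc]
    by_cases hov : Over S (ohyp g o)
    · obtain ⟨k1, hk1, hzg⟩ := LR_mv f1 f2 f3
      obtain ⟨k2, hk2, hzg'⟩ := LR_mv f4 f5 f6
      set K := ohyp g o with hK
      have hfix : act z K = K := by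
        by_contra hne
        have hov' : Over S (act z K) := by
          unfold Over; rw [act_lo, act_hi, hz, hz]; exact hov
        have a1 : cr (act z K) (z * g) = cr (act z K) g := by
          rw [hzg]; exact cr_over hS hov' hk1 h1 h2
        have a2 : cr (act z K) (z * (g * pv (o :: L))) = cr (act z K) (g * pv (o :: L)) := by
          rw [hzg']; exact cr_over hS hov' hk2 h3 h4
        have a3 := cr_mem K g (o :: L) hn (by simp [hys, hK])
        have a4 := cr_act K z g (g * pv (o :: L))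
        have a5 : act z K ∈ hys g (o :: L) := by
          by_contra hnot
          have := cr_not_mem _ g (o :: L) hnot
          rw [a1, a2] at a4
          apply a3; omega
        simp only [hys, List.mem_cons] at a5
        have a6 := a5.resolve_left hne
        obtain ⟨D, y, L2, hLD, b1, b2⟩ := mem_hys L _ a6
        have b3 : cr (act z K) (g * o.val * pv D) = cr (act z K) g := by
          rw [cr_not_mem _ _ D b2, cr_val_ne _ g o (fun h => hne h.symm)]
        have b4 : K ∉ hys (g * o.val) D := by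
          simp only [hys, List.nodup_cons] at hn
          intro hmem
          apply hn.1
          rw [hLD, hys_append]
          exact List.mem_append_left _ hmem
        have b5 : cr K (g * o.val * pv D) ≠ cr K g := by
          rw [cr_not_mem _ _ D b4]; exact cr_val_eq _ g o rfl
        have hKlo : K.lo = th g o.a.length := lo_ohyp g o
        have hKhi : K.hi = th g (o.a.length + o.top.length) := hi_ohyp g o
        have b6 : ohyp (g * o.val * pv D) y = ohyp (z * g) o := by rw [b1, hK, act_ohyp]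
        obtain ⟨-, hc⟩ := par_cases b6
        rcases hc with ⟨-, k, hk, hkk⟩ | ⟨-, k, hk, hkk⟩
        · apply b5
          rw [hkk]
          have c1 : cr K (z * g) = cr K g := by rw [hzg]; exact cr_over hS hov hk1 h1 h2
          rw [← c1]
          by_contra hcon
          rcases cross_Mv K hk _ hcon with h | h
          · rw [map_mul, RelIso.mul_apply, ← hKlo, ← act_lo] at h
            exact hov.2 (hS _ _ h hov'.1)
          · rw [map_mul, RelIso.mul_apply, ← hKhi, ← act_hi] at h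
            exact hov'.2 (hS _ _ h hov.1)
        · have c1 : cr (act z K) (g * o.val * pv D) = cr (act z K) (z * g * o.val) := by
            rw [hkk]
            apply cr_Mv hk
            · rw [act_lo, hKlo, map_mul, map_mul, RelIso.mul_apply, RelIso.mul_apply, th_val_a]
            · rw [act_hi, hKhi, map_mul, map_mul, RelIso.mul_apply, RelIso.mul_apply, th_val_top]
          have c2 := cr_val_eq (act z K) (z * g) o (by rw [hK, act_ohyp])
          apply c2
          rw [← c1, b3, a1]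
      -- splitting at the edge
      have d1 : ohyp (z * g) o = ohyp g o := by rw [← act_ohyp]; exact hfix
      obtain ⟨-, hc⟩ := par_cases d1
      rcases hc with ⟨-, k, ⟨α, β, g1, g2, g3⟩, hkk⟩ | ⟨hs, -⟩
      swap
      · exfalso; cases hx : o.s <;> simp [hx] at hs
      have Y1 : LP g o.a o.top o.c (g * wh [] (o.top ++ o.c) α * g⁻¹) := ⟨α, g1, rfl⟩
      have Y2 : RP g o.a o.top o.c (g * wh (o.a ++ o.top) [] β * g⁻¹) := ⟨β, g2, rfl⟩
      set y := g * wh [] (o.top ++ o.c) α * g⁻¹ with hy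
      set y' := g * wh (o.a ++ o.top) [] β * g⁻¹ with hy'
      have d2 : z = y * y' := by
        have : z = z * g * g⁻¹ := by group
        rw [this, hkk, g3, hy, hy']; group
      have hKlo : th g o.a.length ∈ S := by rw [← lo_ohyp]; exact hov.1
      have hKhi : th g (o.a.length + o.top.length) ∉ S := by rw [← hi_ohyp]; exact hov.2
      obtain ⟨p3, x3, q3, e1, e2, e3⟩ := exists_letter (c := []) hKlo hKhi
      have hlen := idx_unique hS h1 h2 e2 e3
      have e4 : p ++ x :: q = (o.a ++ p3) ++ x3 :: (q3 ++ o.c) := by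
        rw [hsrc]
        change o.a ++ (o.top ++ o.c) = _
        rw [e1]; simp
      obtain ⟨e5, e6⟩ := List.append_inj e4 hlen
      obtain ⟨e7, e8⟩ := List.cons_eq_cons.1 e6
      have Y3 := Y1.refine e1
      have Y4 := Y2.refine e1
      rw [← e5, ← e7, ← e8] at Y3 Y4
      have e9 := (LR_unique f1 f2 Y3 Y4 (f3.symm.trans d2)).1
      have Y5 := Y1.cross
      have Y6 := Y2.cross
      have hlo2 : th (g * o.val) o.a.length ∈ S := by
        rw [map_mul, RelIso.mul_apply, th_val_a]; exact hKlo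
      have hhi2 : th (g * o.val) (o.a.length + o.bot.length) ∉ S := by
        rw [map_mul, RelIso.mul_apply, th_val_top]; exact hKhi
      obtain ⟨p4, x4, q4, i1, i2, i3⟩ := exists_letter (c := []) hlo2 hhi2
      have Y7 := Y5.refine i1
      have Y8 := Y6.refine i1
      rw [e9]
      refine ih (g * o.val) (o.a ++ p4) (q4 ++ o.c) p' q' x4 x' hn2 ?_ i2 i3 ?_ ?_ y y' y1' y2'
        Y7 Y8 d2 ?_ ?_ f6
      · have : o.tgt = (o.a ++ p4) ++ x4 :: (q4 ++ o.c) := by
          change o.a ++ (o.bot ++ o.c) = _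
          rw [i1]; simp
        rw [← this]; exact hL2
      · rw [← epv]; exact h3
      · rw [← epv]; exact h4
      · rw [← epv]; exact f4
      · rw [← epv]; exact f5
    · obtain ⟨p1, q1, e1, e2, e3, e4⟩ := letter_step hS hsrc.symm h1 h2 hov
      rw [e1] at hL2
      refine ih (g * o.val) p1 q1 p' q' x x' hn2 hL2 e3 e4 ?_ ?_ y1 y2 y1' y2'
        (f1.move e2) (f2.move e2) f3 ?_ ?_ f6
      · rw [← epv]; exact h3
      · rw [← epv]; exact h4
      · rw [← epv]; exact f4
      · rw [← epv]; exact f5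

/-- the parts of a stabilizing element commuting with `b` commute with `b` -/
theorem SPL {S : Set ℚ} (hS : Low S) {w : List A} {z b g : U P} {e : Edge P}
    (hz : ∀ s, th z s ∈ S ↔ s ∈ S) (hbS : ∀ s, th b s ∈ S ↔ s ∈ S) (hb : Pi w b w)
    (hg : Pi w g e.src) (hov : Over S (hyp g e)) (hzb : z * b = b * z) {y y' : U P}
    (h1 : LP g e.a e.r.1.1 e.c y) (h2 : RP g e.a e.r.1.1 e.c y') (h3 : z = y * y') :
    y * b = b * y ∧ y' * b = b * y' := by
  have key : y = b * y * b⁻¹ := by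
    obtain ⟨p, x, q, e1, e2, e3⟩ := exists_letter (S := S) (g := g) (a := e.a) (W := e.r.1.1)
      (c := []) (by rw [← lo_hyp]; exact hov.1) (by rw [← hi_hyp]; exact hov.2)
    have hsrc : e.src = (e.a ++ p) ++ x :: (q ++ e.c) := by
      change e.a ++ (e.r.1.1 ++ e.c) = _
      rw [e1]; simp
    rw [hsrc] at hg
    obtain ⟨L, f1, f2, f3⟩ := exists_nodup ((hg.symm.trans hb).trans hg)
    have f4 : g * pv L = b * g := by rw [f2]; group
    have f5 : ∀ s, th (b * g) s ∈ S ↔ th g s ∈ S := by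
      intro s; rw [map_mul, RelIso.mul_apply, hbS]
    refine UL hS hz L g (e.a ++ p) (q ++ e.c) (e.a ++ p) (q ++ e.c) x x (f3 g) f1 e2 e3 ?_ ?_
      y y' (b * y * b⁻¹) (b * y' * b⁻¹) (h1.refine e1) (h2.refine e1) h3 ?_ ?_ ?_
    · rw [f4, f5]; exact e2
    · rw [f4, f5]; exact e3
    · rw [f4]; exact (h1.refine e1).conj b
    · rw [f4]; exact (h2.refine e1).conj b
    · have : b * y * b⁻¹ * (b * y' * b⁻¹) = b * (y * y') * b⁻¹ := by group
      rw [this, ← h3, ← hzb]; group
  have k1 : y * b = b * y := by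
    conv_lhs => rw [key]
    group
  refine ⟨k1, ?_⟩
  have : y' = y⁻¹ * z := by rw [h3]; group
  have c1 : Commute y b := k1
  have c2 : Commute z b := hzb
  rw [this]
  exact (c1.inv_left.mul_left c2).eq

/-- commuting stabilizing elements have commuting parts -/
theorem COM {g : U P} {a m c : List A} {z z' y y' u u' : U P} (h1 : LP g a m c y)
    (h2 : RP g a m c y') (h3 : z = y * y') (h4 : LP g a m c u) (h5 : RP g a m c u')
    (h6 : z' = u * u') (h : z * z' = z' * z) : y * z' = z' * y ∧ y' * z' = z' * y' := by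
  have c1 : Commute y y' := LR_comm h1 h2
  have c2 : Commute y u' := LR_comm h1 h5
  have c3 : Commute u y' := LR_comm h4 h2
  have c4 : Commute u u' := LR_comm h4 h5
  have e1 : (y * u) * (y' * u') = (u * y) * (u' * y') := by
    calc (y * u) * (y' * u') = y * (u * y') * u' := by group
      _ = y * (y' * u) * u' := by rw [c3.eq]
      _ = z * z' := by rw [h3, h6]; group
      _ = z' * z := h
      _ = u * (u' * y) * y' := by rw [h3, h6]; group
      _ = u * (y * u') * y' := by rw [c2.eq]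
      _ = _ := by group
  obtain ⟨e2, e3⟩ := LR_unique (h1.mul h4) (h2.mul h5) (h4.mul h1) (h5.mul h2) e1
  have c5 : Commute y u := e2
  have c6 : Commute y' u' := e3
  rw [h6]
  exact ⟨(c5.mul_right c2).eq, (c3.symm.mul_right c6).eq⟩

theorem LM {g z y y' : U P} {e : Edge P} {K : Hyp P} (hK : Ess z 1 K)
    (hle : K.hi ≤ (hyp g e).lo) (h2 : RP g e.a e.r.1.1 e.c y') (h3 : z = y * y') : y ≠ 1 := by
  rintro rfl
  obtain ⟨β, h4, rfl⟩ := h2
  rw [one_mul] at h3
  obtain ⟨N, hN⟩ := ess_base hK g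
  have key : ∀ n : ℤ, cr K (z ^ n * g) = cr K g := by
    intro n
    have e1 : z ^ n * g = g * wh (e.a ++ e.r.1.1) [] (β ^ n) := by
      rw [h3, conj_zpow, map_zpow]; group
    rw [e1]
    by_contra hcon
    have := cross_right K _ _ g hcon
    rw [lo_hyp] at hle
    have h5 := K.lt
    have h6 : th g e.a.length ≤ th g (e.a ++ e.r.1.1).length := by
      apply (th g).monotone
      rw [List.length_append]; push_cast
      linarith [Nat.cast_nonneg (α := ℚ) e.r.1.1.length]
    linarith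
  apply hN N le_rfl
  rw [key, key]

theorem RM {g z y y' : U P} {e : Edge P} {K : Hyp P} (hK : Ess z 1 K)
    (hle : (hyp g e).hi ≤ K.lo) (h1 : LP g e.a e.r.1.1 e.c y) (h3 : z = y * y') : y' ≠ 1 := by
  rintro rfl
  obtain ⟨α, h4, rfl⟩ := h1
  rw [mul_one] at h3
  obtain ⟨N, hN⟩ := ess_base hK g
  have h4' : ∀ n : ℤ, Pi e.a (α ^ n) e.a := by
    intro n
    have h5 : α ∈ Dg P e.a := h4
    exact (Dg P e.a).zpow_mem h5 n
  have key : ∀ n : ℤ, cr K (z ^ n * g) = cr K g := by
    intro n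
    have e1 : z ^ n * g = g * wh [] (e.r.1.1 ++ e.c) (α ^ n) := by
      rw [h3, conj_zpow, map_zpow]; group
    rw [e1]
    by_contra hcon
    have := cross_left K (h4' n) _ g hcon
    have h5 := K.lt
    have h6 := (hyp g e).lt
    rw [lo_hyp] at h6
    linarith
  apply hN N le_rfl
  rw [key, key]

theorem ess_prod {bl bm : U P} {K : Hyp P} (hc : bl * bm = bm * bl) (h : Ess bl 1 K)
    (hf : act bm K = K) {k : ℕ} (hk : 0 < k) (j : ℤ) : Ess (bl ^ k * bm ^ j) 1 K := by
  obtain ⟨N, hN⟩ := h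
  refine ⟨N, ?_⟩
  intro n hn
  have hcm : Commute bl bm := hc
  have key : ∀ m : ℤ, cr K ((bl ^ k * bm ^ j) ^ m * 1) = cr K (bl ^ ((k : ℤ) * m) * 1) := by
    intro m
    have h1 : Commute (bl ^ k) (bm ^ j) := (hcm.pow_left k).zpow_right j
    rw [h1.mul_zpow, (h1.zpow_zpow m m).eq, ← zpow_mul bm, mul_assoc, ← zpow_natCast, ← zpow_mul]
    exact cr_fix (act_pow_fix hf _) _
  unfold sep
  rw [key, key]
  have h2 := hN (k * n) (hn.trans (Nat.le_mul_of_pos_left _ hk))
  unfold sep at h2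
  push_cast at h2
  rw [mul_neg]
  exact h2

/-- a common stabilizing element -/
theorem pair_lemma {bl bm : U P} {Kl Km : Hyp P} (hc : bl * bm = bm * bl) (hl : Ess bl 1 Kl)
    (hm : Ess bm 1 Km) (h : act bl Km = Km ∨ act bm Kl = Kl) :
    ∃ k : ℕ, 0 < k ∧ ∃ j : ℤ, act (bl ^ k * bm ^ j) Km = Km ∧ Ess (bl ^ k * bm ^ j) 1 Kl := by
  rcases h with h | h
  · exact ⟨1, one_pos, 0, by simpa using h, by simpa using hl⟩
  · obtain ⟨k, hk, j, hj⟩ := ess_pigeon hc hm
    exact ⟨k, hk, j, hj, ess_prod hc hl h hk j⟩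

end H540DG
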