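import Pool.Agent.H540R3.DS3
import Pool.Agent.H599R3.Fr

set_option autoImplicit false

/-!
# Groups with three commuting free factors linked by an exponent sum
-/

namespace H540DG

open Pool.Agent.H599R3

section free
variable {X : Type}

theorem fg_pow {a b : FreeGroup X} {k : ℕ} (hk : k ≠ 0) (h : a * b ^ k = b ^ k * a) :
    a * b = b * a := by
  have h1 : (a * b * a⁻¹) ^ k = b ^ k := by
    rw [conj_pow, h]; group
  have h2 : a * b * a⁻¹ = b := IsMulTorsionFree.pow_left_injective hk h1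
  rw [← mul_inv_eq_iff_eq_mul]; exact h2

theorem fg_zpow {a b : FreeGroup X} {k : ℤ} (hk : k ≠ 0) (h : a * b ^ k = b ^ k * a) :
    a * b = b * a := by
  rcases k with k | k
  · apply fg_pow (k := k) (by rintro rfl; exact hk rfl)
    simpa using h
  · apply fg_pow (k := k + 1) (by omega)
    rw [zpow_negSucc] at h
    have : Commute a (b ^ (k + 1))⁻¹ := h
    have := this.inv_right
    rw [inv_inv] at this
    exact this.eq

theorem fg_trans {a b c : FreeGroup X} (ha : a ≠ 1) (h1 : a * b = b * a) (h2 : a * c = c * a) :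
    b * c = c * b := by
  obtain ⟨z, m, n, hm, hn⟩ := comm_free a b h1
  have hm0 : m ≠ 0 := by
    rintro rfl
    exact ha (by rw [hm, zpow_zero])
  have h3 : c * z = z * c := by
    apply fg_zpow hm0
    rw [← hm]; exact h2.symm
  have h4 : Commute c (z ^ n) := (show Commute c z from h3).zpow_right n
  rw [hn]; exact h4.eq.symm

theorem fg_ab {β y : FreeGroup X} {ab : FreeGroup X →* Multiplicative ℤ} (hβ : β ≠ 1)
    (h1 : ab β = 1) (h2 : β * y = y * β) : ab y = 1 := by
  obtain ⟨z, m, n, hm, hn⟩ := comm_free β y h2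
  have hm0 : m ≠ 0 := by
    rintro rfl
    exact hβ (by rw [hm, zpow_zero])
  have h3 : ab z = 1 := by
    rw [hm, map_zpow] at h1
    have h4 : m * Multiplicative.toAdd (ab z) = 0 := by
      have := congrArg Multiplicative.toAdd h1
      simpa using this
    rcases mul_eq_zero.1 h4 with h5 | h5
    · exact absurd h5 hm0
    · exact h5
  rw [hn, map_zpow, h3, one_zpow]

end free

/-- the data of the group -/
structure Linked (H : Type) [Group H] (I X : Type) where
  π : I → H →* FreeGroup X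
  inj : ∀ d, (∀ i, π i d = 1) → d = 1
  s : Bool → FreeGroup X
  ne : s false * s true ≠ s true * s false
  ν : Bool → I → H
  νs : ∀ t i, π i (ν t i) = s t
  νn : ∀ t i j, j ≠ i → π j (ν t i) = 1
  ab : FreeGroup X →* Multiplicative ℤ
  abs : ∀ t, ab (s t) = 1
  x : FreeGroup X
  abx : ab x ≠ 1
  link : ∀ l r, l ≠ r → ∃ d, π l d = x ∧ π r d = x⁻¹ ∧ ∀ j, j ≠ l → j ≠ r → π j d = 1
  sum : ∀ l m r, l ≠ m → m ≠ r → l ≠ r → ∀ d, (∀ j, j ≠ l → j ≠ m → j ≠ r → π j d = 1) →
    ab (π l d) * ab (π m d) * ab (π r d) = 1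

variable {H : Type} [Group H] {I X : Type} (D : Linked H I X)

namespace Linked

include D in
theorem ext {d d' : H} (h : ∀ i, D.π i d = D.π i d') : d = d' := by
  rw [← mul_inv_eq_one]
  apply D.inj
  intro i
  rw [map_mul, map_inv, h, mul_inv_cancel]

/-- supported at one place -/
def Supp (i : I) (d : H) : Prop := ∀ j, j ≠ i → D.π j d = 1

theorem supp_comm {i j : I} (hij : i ≠ j) {d d' : H} (h : D.Supp i d) (h' : D.Supp j d') :
    d * d' = d' * d := by
  apply D.ext
  intro k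
  rw [map_mul, map_mul]
  by_cases hk : k = i
  · rw [h' k (by rw [hk]; exact hij)]; simp
  · rw [h k hk]; simp

theorem supp_ne {i : I} {d : H} (h : D.Supp i d) (hd : d ≠ 1) : D.π i d ≠ 1 := by
  intro h1
  apply hd
  apply D.inj
  intro j
  by_cases hj : j = i
  · rw [hj, h1]
  · exact h j hj

/-- an element commuting with powers of the two test elements is trivial there -/
theorem test {j : I} {p : H} (h : ∀ t, ∃ k : ℕ, k ≠ 0 ∧ p * D.ν t j ^ k = D.ν t j ^ k * p) :
    D.π j p = 1 := by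
  by_contra hne
  have h1 : ∀ t, D.π j p * D.s t = D.s t * D.π j p := by
    intro t
    obtain ⟨k, hk, h2⟩ := h t
    apply fg_pow hk
    have := congrArg (D.π j) h2
    rw [map_mul, map_mul, map_pow, D.νs] at this
    exact this
  exact D.ne (fg_trans hne (h1 false) (h1 true))

end Linked

variable {A : Type} {P : Pres A}

/-- The final contradiction. -/
theorem final (D : Linked H I X) {v : List A} (u : H →* U P) (hu : Function.Injective u)
    (hr : ∀ y, Pi v y v ↔ ∃ d, u d = y) {l m r : I} (hlm : l ≠ m) (hmr : m ≠ r) (hlr : l ≠ r)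
    {bl bm br : H} (sl : D.Supp l bl) (sm : D.Supp m bm) (sr : D.Supp r br)
    (nl : bl ≠ 1) (nm : bm ≠ 1) (nr : br ≠ 1)
    (al : D.ab (D.π l bl) = 1) (am : D.ab (D.π m bm) = 1) (ar : D.ab (D.π r br) = 1)
    {S : Set ℚ} (hS : Low S) (hinv : ∀ c : U P, c * u bm = u bm * c → ∀ s, th c s ∈ S ↔ s ∈ S)
    {g : U P} {e : Edge P} (hg : Pi v g e.src) (hov : Over S (hyp g e))
    (hem : Ess (u bm) 1 (hyp g e)) {Kl Kr : Hyp P} (hel : Ess (u bl) 1 Kl)
    (her : Ess (u br) 1 Kr) (hll : Kl.hi ≤ (hyp g e).lo) (hrr : (hyp g e).hi ≤ Kr.lo)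
    (hl2 : act (u bl) (hyp g e) = hyp g e ∨ act (u bm) Kl = Kl)
    (hr2 : act (u br) (hyp g e) = hyp g e ∨ act (u bm) Kr = Kr) : False := by
  have cu : ∀ {c d : H}, c * d = d * c → u c * u d = u d * u c := by
    intro c d h; rw [← map_mul, h, map_mul]
  -- parts
  have parts : ∀ z : H, z * bm = bm * z → act (u z) (hyp g e) = hyp g e →
      ∃ y y' : H, LP g e.a e.r.1.1 e.c (u y) ∧ RP g e.a e.r.1.1 e.c (u y') ∧ z = y * y' ∧
        y * bm = bm * y ∧ y' * bm = bm * y' := by
    intro z hz hact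
    obtain ⟨Y, Y', h1, h2, h3⟩ := stab_split hact
    obtain ⟨y, rfl⟩ := (hr Y).1 (h1.mem (w := v) hg)
    obtain ⟨y', rfl⟩ := (hr Y').1 (h2.mem (w := v) hg)
    have hb : Pi v (u bm) v := (hr _).2 ⟨bm, rfl⟩
    obtain ⟨h4, h5⟩ := SPL hS (hinv _ (cu hz)) (hinv _ rfl) hb hg hov (cu hz) h1 h2 h3
    refine ⟨y, y', h1, h2, hu (by rw [h3, map_mul]), hu ?_, hu ?_⟩
    · rw [map_mul, map_mul]; exact h4
    · rw [map_mul, map_mul]; exact h5
  -- pigeonhole
  have pig : ∀ c : H, c * bm = bm * c → ∃ k : ℕ, 0 < k ∧ ∃ j : ℤ,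
      act (u (c ^ k * bm ^ j)) (hyp g e) = hyp g e := by
    intro c hc
    obtain ⟨k, hk, j, hj⟩ := ess_pigeon (cu hc) hem
    exact ⟨k, hk, j, by rw [map_mul, map_pow, map_zpow]; exact hj⟩
  have cb : ∀ {c : H} (k : ℕ) (j : ℤ), c * bm = bm * c →
      (c ^ k * bm ^ j) * bm = bm * (c ^ k * bm ^ j) := by
    intro c k j hc
    have h1 : Commute c bm := hc
    exact ((h1.pow_left k).mul_left ((Commute.refl bm).zpow_left j)).eq
  have comm_parts : ∀ {z z' y y' : H}, z * z' = z' * z → z' * bm = bm * z' →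
      act (u z') (hyp g e) = hyp g e → LP g e.a e.r.1.1 e.c (u y) →
      RP g e.a e.r.1.1 e.c (u y') → z = y * y' → y * z' = z' * y ∧ y' * z' = z' * y' := by
    intro z z' y y' h1 h2 h3 h4 h5 h6
    obtain ⟨x, x', f1, f2, f3, -, -⟩ := parts z' h2 h3
    have := COM h4 h5 (by rw [h6, map_mul]) f1 f2 (by rw [f3, map_mul]) (cu h1)
    constructor
    · apply hu; rw [map_mul, map_mul]; exact this.1
    · apply hu; rw [map_mul, map_mul]; exact this.2
  have νsupp : ∀ t i, D.Supp i (D.ν t i) := fun t i j hj => D.νn t i j hj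
  -- a test lemma
  have tst : ∀ {z y y' : H} {j : I}, z * bm = bm * z → act (u z) (hyp g e) = hyp g e → j ≠ m →
      (∀ t, z * D.ν t j = D.ν t j * z) → LP g e.a e.r.1.1 e.c (u y) →
      RP g e.a e.r.1.1 e.c (u y') → z = y * y' → y * bm = bm * y → y' * bm = bm * y' →
      D.π j y = 1 ∧ D.π j y' = 1 := by
    intro z y y' j h1 h2 hjm h3 h4 h5 h6 h7 h8
    have key : ∀ t, ∃ k : ℕ, k ≠ 0 ∧ y * D.ν t j ^ k = D.ν t j ^ k * y ∧
        y' * D.ν t j ^ k = D.ν t j ^ k * y' := by
      intro t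
      have c0 : D.ν t j * bm = bm * D.ν t j := D.supp_comm hjm (νsupp t j) sm
      obtain ⟨k, hk, i, hi⟩ := pig (D.ν t j) c0
      have c1 : z * (D.ν t j ^ k * bm ^ i) = (D.ν t j ^ k * bm ^ i) * z := by
        have e1 : Commute z (D.ν t j) := h3 t
        have e2 : Commute z bm := h1
        exact ((e1.pow_right k).mul_right (e2.zpow_right i)).eq
      obtain ⟨c2, c3⟩ := comm_parts c1 (cb k i c0) hi h4 h5 h6
      refine ⟨k, by omega, ?_, ?_⟩
      · have e1 : Commute y (D.ν t j ^ k * bm ^ i) := c2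
        have e2 : Commute y bm := h7
        have e3 := e1.mul_right (e2.zpow_right i).inv_right
        rw [mul_inv_cancel_right] at e3
        exact e3.eq
      · have e1 : Commute y' (D.ν t j ^ k * bm ^ i) := c3
        have e2 : Commute y' bm := h8
        have e3 := e1.mul_right (e2.zpow_right i).inv_right
        rw [mul_inv_cancel_right] at e3
        exact e3.eq
    constructor
    · apply D.test
      intro t
      obtain ⟨k, hk, h9, -⟩ := key t
      exact ⟨k, hk, h9⟩
    · apply D.test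
      intro t
      obtain ⟨k, hk, -, h9⟩ := key t
      exact ⟨k, hk, h9⟩
  -- an element supported at `m` and stabilizing the hyperplane is trivial
  have only_m : ∀ {p : H}, p * bm = bm * p → act (u p) (hyp g e) = hyp g e → D.Supp m p →
      p = 1 := by
    intro p h1 h2 h3
    by_contra hne
    have hpm := D.supp_ne h3 hne
    have hbm := D.supp_ne sm nm
    obtain ⟨z, a, b, ha, hb⟩ := comm_free (D.π m p) (D.π m bm) (by
      rw [← map_mul, h1, map_mul])
    have ha0 : a ≠ 0 := by rintro rfl; exact hpm (by rw [ha, zpow_zero])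
    have h4 : p ^ b = bm ^ a := by
      apply D.ext
      intro i
      rw [map_zpow, map_zpow]
      by_cases hi : i = m
      · rw [hi, ha, hb, ← zpow_mul, ← zpow_mul, mul_comm]
      · rw [h3 i hi, sm i hi, one_zpow, one_zpow]
    apply ess_free hem ha0
    rw [← map_zpow, ← h4, map_zpow]
    exact act_pow_fix h2 b
  -- general analysis of one side
  have side : ∀ {i : I} {b : H}, i ≠ m → D.Supp i b → ∀ {z y y' : H} {k : ℕ} {j : ℤ}, 0 < k →
      z = b ^ k * bm ^ j → act (u z) (hyp g e) = hyp g e → LP g e.a e.r.1.1 e.c (u y) →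
      RP g e.a e.r.1.1 e.c (u y') → z = y * y' → y * bm = bm * y → y' * bm = bm * y' →
      (y ≠ 1 → D.π i y ≠ 1 ∧ D.π i y * D.π i b = D.π i b * D.π i y) ∧
      (y' ≠ 1 → D.π i y' ≠ 1 ∧ D.π i y' * D.π i b = D.π i b * D.π i y') := by
    intro i b him sb z y y' k j hk hz hact h4 h5 h6 h7 h8
    have cbm : b * bm = bm * b := D.supp_comm him sb sm
    have czm : z * bm = bm * z := by rw [hz]; exact cb k j cbm
    have hothers : ∀ n, n ≠ i → n ≠ m → D.π n y = 1 ∧ D.π n y' = 1 := by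
      intro n hni hnm
      refine tst czm hact hnm ?_ h4 h5 h6 h7 h8
      intro t
      have e1 : Commute b (D.ν t n) := D.supp_comm (Ne.symm hni) sb (νsupp t n)
      have e2 : Commute bm (D.ν t n) := D.supp_comm (Ne.symm hnm) sm (νsupp t n)
      rw [hz]
      exact ((e1.pow_left k).mul_left (e2.zpow_left j)).eq
    have cyy : y * y' = y' * y := by
      apply hu; rw [map_mul, map_mul]; exact LR_comm h4 h5
    have gen : ∀ {p : H}, p * z = z * p → p * bm = bm * p →
        D.π i p * D.π i b = D.π i b * D.π i p := by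
      intro p hp1 hp2
      apply fg_pow (k := k) (by omega)
      have e1 : Commute p z := hp1
      have e2 : Commute p bm := hp2
      have e3 := e1.mul_right (e2.zpow_right j).inv_right
      rw [hz, mul_inv_cancel_right] at e3
      have := congrArg (D.π i) e3.eq
      rwa [map_mul, map_mul, map_pow] at this
    constructor
    · intro hy
      refine ⟨?_, gen (by rw [h6]; exact ((Commute.refl y).mul_right cyy).eq) h7⟩
      intro h9
      apply hy
      refine only_m h7 h4.stab ?_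
      intro n hn
      by_cases hni : n = i
      · rw [hni]; exact h9
      · exact (hothers n hni hn).1
    · intro hy
      have cyy' : Commute y' y := cyy.symm
      refine ⟨?_, gen (by rw [h6]; exact (cyy'.mul_right (Commute.refl y')).eq) h8⟩
      intro h9
      apply hy
      refine only_m h8 h5.stab ?_
      intro n hn
      by_cases hni : n = i
      · rw [hni]; exact h9
      · exact (hothers n hni hn).2
  -- left element
  obtain ⟨k1, hk1, j1, hz1, hE1⟩ := pair_lemma (cu (D.supp_comm hlm sl sm)) hel hem hl2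
  rw [← map_pow, ← map_zpow, ← map_mul] at hz1 hE1
  obtain ⟨p, p', P1, P2, P3, P4, P5⟩ := parts _ (cb k1 j1 (D.supp_comm hlm sl sm)) hz1
  have hp : p ≠ 1 := by
    intro h0
    apply LM hE1 hll P2 (by rw [P3, map_mul])
    rw [h0, map_one]
  obtain ⟨p1, p2⟩ := (side hlm sl hk1 rfl hz1 P1 P2 P3 P4 P5).1 hp
  -- right element
  obtain ⟨k2, hk2, j2, hz2, hE2⟩ := pair_lemma (cu (D.supp_comm hmr.symm sr sm)) her hem hr2
  rw [← map_pow, ← map_zpow, ← map_mul] at hz2 hE2
  obtain ⟨q', q, Q1, Q2, Q3, Q4, Q5⟩ := parts _ (cb k2 j2 (D.supp_comm hmr.symm sr sm)) hz2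
  have hq : q ≠ 1 := by
    intro h0
    apply RM hE2 hrr Q1 (by rw [Q3, map_mul])
    rw [h0, map_one]
  obtain ⟨q1, q2⟩ := (side hmr.symm sr hk2 rfl hz2 Q1 Q2 Q3 Q4 Q5).2 hq
  -- the linking element
  obtain ⟨h, hx1, hx2, hx3⟩ := D.link l r hlr
  have hhm : D.π m h = 1 := hx3 m hlm.symm hmr
  have chm : h * bm = bm * h := by
    apply D.ext
    intro i
    rw [map_mul, map_mul]
    by_cases hi : i = m
    · rw [hi, hhm]; simp
    · rw [sm i hi]; simp
  obtain ⟨k3, hk3, j3, hz3⟩ := pig h chm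
  obtain ⟨y, y', Y1, Y2, Y3, Y4, Y5⟩ := parts _ (cb k3 j3 chm) hz3
  have c1 : p * y' = y' * p := by
    apply hu; rw [map_mul, map_mul]; exact LR_comm P1 Y2
  have c2 : y * q = q * y := by
    apply hu; rw [map_mul, map_mul]; exact LR_comm Y1 Q2
  have a1 : D.ab (D.π l y') = 1 := by
    apply fg_ab (D.supp_ne sl nl) al
    apply fg_trans p1 p2
    rw [← map_mul, c1, map_mul]
  have a2 : D.ab (D.π r y) = 1 := by
    apply fg_ab (D.supp_ne sr nr) ar
    apply fg_trans q1 q2
    rw [← map_mul, ← c2, map_mul]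
  have a3 : D.ab (D.π m y) = 1 := by
    apply fg_ab (D.supp_ne sm nm) am
    rw [← map_mul, ← Y4, map_mul]
  have a4 : D.ab (D.π l y) = 1 := by
    have := D.sum l m r hlm hmr hlr y (by
      intro j h1 h2 h3
      refine (tst (cb k3 j3 chm) hz3 h2 ?_ Y1 Y2 Y3 Y4 Y5).1
      intro t
      have e1 : Commute h (D.ν t j) := by
        apply D.ext
        intro i
        rw [map_mul, map_mul]
        by_cases hi : i = j
        · rw [hi, hx3 j h1 h3]; simp
        · rw [D.νn t j i hi]; simp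
      have e2 : Commute bm (D.ν t j) := D.supp_comm (Ne.symm h2) sm (νsupp t j)
      exact ((e1.pow_left k3).mul_left (e2.zpow_left j3)).eq)
    rw [a2, a3] at this
    simpa using this
  have a5 := congrArg (fun d => D.ab (D.π l d)) Y3
  simp only [map_mul, map_pow, map_zpow] at a5
  rw [hx1, sm l hlm, a1, a4, map_one, one_zpow, mul_one, mul_one] at a5
  apply D.abx
  have a6 : (k3 : ℤ) * Multiplicative.toAdd (D.ab D.x) = 0 := by
    have := congrArg Multiplicative.toAdd a5
    simpa using this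
  rcases mul_eq_zero.1 a6 with h5 | h5
  · exfalso; have : k3 = 0 := by exact_mod_cast h5
    omega
  · exact h5

/-- an element supported at one place together with an essential hyperplane -/
structure Dat (D : Linked H I X) (v : List A) (u : H →* U P) (i : I) where
  b : H
  supp : D.Supp i b
  ne : b ≠ 1
  ab1 : D.ab (D.π i b) = 1
  S : Set ℚ
  hS : Low S
  hinv : ∀ c : U P, c * u b = u b * c → ∀ s, th c s ∈ S ↔ s ∈ S
  g : U P
  e : Edge P
  hg : Pi v g e.src
  hov : Over S (hyp g e)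
  hess : Ess (u b) 1 (hyp g e)

/-- the hyperplane -/
def Dat.K {D : Linked H I X} {v : List A} {u : H →* U P} {i : I} (d : Dat D v u i) : Hyp P :=
  hyp d.g d.e

theorem exists_dat (D : Linked H I X) {v : List A} {u : H →* U P} (hu : Function.Injective u)
    (hr : ∀ y, Pi v y v ↔ ∃ d, u d = y) {i : I} {b : H} (h1 : D.Supp i b) (h2 : b ≠ 1)
    (h3 : D.ab (D.π i b) = 1) : ∃ d : Dat D v u i, d.b = b := by
  obtain ⟨S, hS, hinv, g, e, hg, hess, hov⟩ := exists_ess (w := v) (b := u b)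
    ((hr _).2 ⟨b, rfl⟩) (fun h => h2 (hu (h.trans (map_one u).symm)))
  exact ⟨⟨b, h1, h2, h3, S, hS, hinv, g, e, hg, hov, hess⟩, rfl⟩

theorem final' (D : Linked H I X) {v : List A} (u : H →* U P) (hu : Function.Injective u)
    (hr : ∀ y, Pi v y v ↔ ∃ d, u d = y) {l m r : I} (hlm : l ≠ m) (hmr : m ≠ r) (hlr : l ≠ r)
    (dl : Dat D v u l) (dm : Dat D v u m) (dr : Dat D v u r)
    (hll : dl.K.hi ≤ dm.K.lo) (hrr : dm.K.hi ≤ dr.K.lo)
    (hl2 : act (u dl.b) dm.K = dm.K ∨ act (u dm.b) dl.K = dl.K)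
    (hr2 : act (u dr.b) dm.K = dm.K ∨ act (u dm.b) dr.K = dr.K) : False :=
  final D u hu hr hlm hmr hlr dl.supp dm.supp dr.supp dl.ne dm.ne dr.ne dl.ab1 dm.ab1 dr.ab1
    dm.hS dm.hinv dm.hg dm.hov dm.hess dl.hess dr.hess hll hrr hl2 hr2

theorem comm_stab {Y Y' b : U P} {K : Hyp P} {j j' : ℤ} (h1 : Y * b = b * Y)
    (h2 : Y' * b = b * Y') (h3 : act (Y * b ^ j) K = K) (h4 : act (Y' * b ^ j') K = K) :
    act (Y * Y' * Y⁻¹ * Y'⁻¹) K = K := by
  have c1 : Commute Y b := h1
  have c2 : Commute Y' b := h2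
  have e : Y * Y' * Y⁻¹ * Y'⁻¹ = (Y * b ^ j) * (Y' * b ^ j') * (Y * b ^ j)⁻¹ *
      (Y' * b ^ j')⁻¹ := by
    have d1 : Commute (b ^ j) Y' := (c2.zpow_right j).symm
    have d2 : Commute (b ^ j') Y := (c1.zpow_right j').symm
    have d3 : Commute (b ^ j) (b ^ j') := (Commute.refl b).zpow_zpow j j'
    have d4 : Commute (b ^ j) Y := (c1.zpow_right j).symm
    have f1 : (Y * b ^ j) * (Y' * b ^ j') = (Y * Y') * (b ^ j * b ^ j') := by
      calc _ = Y * (b ^ j * Y') * b ^ j' := by group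
        _ = Y * (Y' * b ^ j) * b ^ j' := by rw [d1.eq]
        _ = _ := by group
    have f2 : (Y' * b ^ j') * (Y * b ^ j) = (Y' * Y) * (b ^ j * b ^ j') := by
      calc _ = Y' * (b ^ j' * Y) * b ^ j := by group
        _ = Y' * (Y * b ^ j') * b ^ j := by rw [d2.eq]
        _ = Y' * Y * (b ^ j' * b ^ j) := by group
        _ = _ := by rw [d3.eq]
    calc Y * Y' * Y⁻¹ * Y'⁻¹ = ((Y * Y') * (b ^ j * b ^ j')) * ((Y' * Y) * (b ^ j * b ^ j'))⁻¹ := by
          group
      _ = ((Y * b ^ j) * (Y' * b ^ j')) * ((Y' * b ^ j') * (Y * b ^ j))⁻¹ := by rw [f1, f2]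
      _ = _ := by group
  have hi : ∀ {z : U P}, act z K = K → act z⁻¹ K = K := by
    intro z hz
    apply act_inj z
    rw [← act_mul, mul_inv_cancel, act_one, hz]
  rw [e, act_mul, act_mul, act_mul, hi h4, hi h3, h4, h3]

theorem raise {Y b : U P} {K : Hyp P} {k : ℕ} {j : ℤ} (h1 : Y * b = b * Y)
    (h3 : act (Y ^ k * b ^ j) K = K) (n : ℕ) : act (Y ^ (k * n) * b ^ (j * n)) K = K := by
  have c1 : Commute Y b := h1
  have c2 : Commute (Y ^ k) (b ^ j) := (c1.pow_left k).zpow_right j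
  have := act_pow_fix h3 n
  rw [zpow_natCast, c2.mul_pow, ← pow_mul, ← zpow_natCast (b ^ j), ← zpow_mul] at this
  exact this

theorem raise' {Y b : U P} {K : Hyp P} {k : ℕ} {j : ℤ} (h1 : Y * b = b * Y)
    (h3 : act (Y ^ k * b ^ j) K = K) (n : ℕ) : act (Y ^ (n * k) * b ^ (j * n)) K = K := by
  rw [mul_comm n k]; exact raise h1 h3 n

/-- **Linked groups are not diagram groups.** -/
theorem not_dg (D : Linked H I X) {i0 i1 i2 : I} (h01 : i0 ≠ i1) (h02 : i0 ≠ i2) (h12 : i1 ≠ i2)
    {v : List A} (u : H →* U P) (hu : Function.Injective u)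
    (hr : ∀ y, Pi v y v ↔ ∃ d, u d = y) : False := by
  have cu : ∀ {c d : H}, c * d = d * c → u c * u d = u d * u c := by
    intro c d h; rw [← map_mul, h, map_mul]
  have νsupp : ∀ t i, D.Supp i (D.ν t i) := fun t i j hj => D.νn t i j hj
  have sne : ∀ t, D.s t ≠ 1 := by
    intro t h
    apply D.ne
    cases t
    · rw [h]; simp
    · rw [h]; simp
  have hcomm : ∀ (i : I) (k k' : ℕ), 0 < k → 0 < k' →
      D.Supp i (D.ν false i ^ k * D.ν true i ^ k' * (D.ν false i ^ k)⁻¹ * (D.ν true i ^ k')⁻¹) ∧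
      (D.ν false i ^ k * D.ν true i ^ k' * (D.ν false i ^ k)⁻¹ * (D.ν true i ^ k')⁻¹) ≠ 1 ∧
      D.ab (D.π i (D.ν false i ^ k * D.ν true i ^ k' * (D.ν false i ^ k)⁻¹ *
        (D.ν true i ^ k')⁻¹)) = 1 := by
    intro i k k' hk hk'
    refine ⟨?_, ?_, ?_⟩
    · intro j hj
      simp only [map_mul, map_inv, map_pow, D.νn _ i j hj]
      simp
    · intro h
      have h1 := congrArg (D.π i) h
      simp only [map_mul, map_inv, map_pow, D.νs, map_one] at h1
      have h2 : D.s false ^ k * D.s true ^ k' = D.s true ^ k' * D.s false ^ k := by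
        rw [mul_inv_eq_one, mul_inv_eq_iff_eq_mul] at h1; exact h1
      have h3 := fg_pow (by omega) h2
      have h4 := fg_pow (by omega) h3.symm
      exact D.ne h4.symm
    · simp only [map_mul, map_inv, map_pow, D.νs, D.abs]
      simp
  -- first element
  obtain ⟨d0, e0⟩ := exists_dat D hu hr (i := i0) (b := D.ν false i0) (νsupp _ _) (by
    intro h
    have := congrArg (D.π i0) h
    rw [D.νs, map_one] at this
    exact sne _ this) (by rw [D.νs]; exact D.abs _)
  -- second element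
  have c10 : ∀ t, D.ν t i1 * d0.b = d0.b * D.ν t i1 :=
    fun t => D.supp_comm h01.symm (νsupp t i1) d0.supp
  obtain ⟨k, hk, j, hj⟩ := ess_pigeon (cu (c10 false)) d0.hess
  obtain ⟨k', hk', j', hj'⟩ := ess_pigeon (cu (c10 true)) d0.hess
  obtain ⟨f1, f2, f3⟩ := hcomm i1 k k' hk hk'
  obtain ⟨d1, e1⟩ := exists_dat D hu hr f1 f2 f3
  have A10 : act (u d1.b) d0.K = d0.K := by
    rw [e1]
    simp only [map_mul, map_inv, map_pow]
    exact comm_stab (show Commute _ _ from (Commute.pow_left (cu (c10 false)) k)).eq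
      (show Commute _ _ from (Commute.pow_left (cu (c10 true)) k')).eq hj hj'
  -- third element
  have c20 : ∀ t, D.ν t i2 * d0.b = d0.b * D.ν t i2 :=
    fun t => D.supp_comm h02.symm (νsupp t i2) d0.supp
  have c21 : ∀ t, D.ν t i2 * d1.b = d1.b * D.ν t i2 :=
    fun t => D.supp_comm h12.symm (νsupp t i2) d1.supp
  obtain ⟨a, ha, p, hp⟩ := ess_pigeon (cu (c20 false)) d0.hess
  obtain ⟨a', ha', p', hp'⟩ := ess_pigeon (cu (c20 true)) d0.hess
  obtain ⟨b, hb, q, hq⟩ := ess_pigeon (cu (c21 false)) d1.hess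
  obtain ⟨b', hb', q', hq'⟩ := ess_pigeon (cu (c21 true)) d1.hess
  obtain ⟨g1, g2, g3⟩ := hcomm i2 (a * b) (a' * b') (Nat.mul_pos ha hb) (Nat.mul_pos ha' hb')
  obtain ⟨d2, e2⟩ := exists_dat D hu hr g1 g2 g3
  have A20 : act (u d2.b) d0.K = d0.K := by
    rw [e2]
    simp only [map_mul, map_inv, map_pow]
    exact comm_stab (show Commute _ _ from (Commute.pow_left (cu (c20 false)) _)).eq
      (show Commute _ _ from (Commute.pow_left (cu (c20 true)) _)).eq
      (raise (cu (c20 false)) hp b) (raise (cu (c20 true)) hp' b')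
  have A21 : act (u d2.b) d1.K = d1.K := by
    rw [e2]
    simp only [map_mul, map_inv, map_pow]
    exact comm_stab (show Commute _ _ from (Commute.pow_left (cu (c21 false)) _)).eq
      (show Commute _ _ from (Commute.pow_left (cu (c21 true)) _)).eq
      (raise' (cu (c21 false)) hq a) (raise' (cu (c21 true)) hq' a')
  have r01 : d1.K.hi ≤ d0.K.lo ∨ d0.K.hi ≤ d1.K.lo := ess_disj d1.hess A10
  have r02 : d2.K.hi ≤ d0.K.lo ∨ d0.K.hi ≤ d2.K.lo := ess_disj d2.hess A20
  have r12 : d2.K.hi ≤ d1.K.lo ∨ d1.K.hi ≤ d2.K.lo := ess_disj d2.hess A21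
  rcases r01 with r01 | r01 <;> rcases r02 with r02 | r02 <;> rcases r12 with r12 | r12
  · exact final' D u hu hr h12.symm h01.symm h02.symm d2 d1 d0 r12 r01 (Or.inl A21) (Or.inr A10)
  · exact final' D u hu hr h12 h02.symm h01.symm d1 d2 d0 r12 r02 (Or.inr A21) (Or.inr A20)
  · exact final' D u hu hr h01.symm h02 h12 d1 d0 d2 r01 r02 (Or.inl A10) (Or.inl A20)
  · exact final' D u hu hr h01.symm h02 h12 d1 d0 d2 r01 r02 (Or.inl A10) (Or.inl A20)
  · exact final' D u hu hr h02.symm h01 h12.symm d2 d0 d1 r02 r01 (Or.inl A20) (Or.inl A10)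
  · exact final' D u hu hr h01 h12 h02 d0 d1 d2 r01 r12 (Or.inr A10) (Or.inl A21)
  · exact final' D u hu hr h02 h12.symm h01 d0 d2 d1 r02 r12 (Or.inr A20) (Or.inr A21)
  · exact final' D u hu hr h01 h12 h02 d0 d1 d2 r01 r12 (Or.inr A10) (Or.inl A21)

end H540DG
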