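import Pool.Agent.H540R3.DS4
import Pool.Agent.H540R3.DG10

set_option autoImplicit false

/-!
# A wreath product as a diagram group
-/

namespace H540DG

/-- letters -/
inductive Lt | x | y | p (i : Fin 4)
  deriving DecidableEq

/-- the defining relations `x = x p₀`, `y = p₀ y`, `pᵢ = pⱼ` (`i < j`) -/
def R8 : Set (List Lt × List Lt) :=
  {r | r = ([Lt.x], [Lt.x, Lt.p 0]) ∨ r = ([Lt.y], [Lt.p 0, Lt.y]) ∨
    ∃ i j : Fin 4, i < j ∧ r = ([Lt.p i], [Lt.p j])}

/-- the presentation -/
def P8 : Pres Lt where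
  rels := R8
  ne := by
    rintro r (rfl | rfl | ⟨i, j, -, rfl⟩) <;> simp

/-- relations -/
def rX : P8.rels := ⟨([Lt.x], [Lt.x, Lt.p 0]), Or.inl rfl⟩
/-- relations -/
def rY : P8.rels := ⟨([Lt.y], [Lt.p 0, Lt.y]), Or.inr (Or.inl rfl)⟩
/-- relations -/
def rP (i j : Fin 4) (h : i < j) : P8.rels := ⟨([Lt.p i], [Lt.p j]), Or.inr (Or.inr ⟨i, j, h, rfl⟩)⟩

/-- index set of the free group -/
abbrev X8 : Type := {e : Fin 4 × Fin 4 // 1 ≤ e.1 ∧ e.1 < e.2}
/-- the free group -/
abbrev B8 : Type := FreeGroup X8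

/-- labels -/
def lab (i j : Fin 4) : B8 := if h : 1 ≤ i ∧ i < j then FreeGroup.of ⟨(i, j), h⟩ else 1

theorem lab_zero (j : Fin 4) : lab 0 j = 1 := by
  unfold lab; rw [dif_neg]; intro h; exact absurd h.1 (by decide)

theorem lab_of (e : X8) : lab e.1.1 e.1.2 = FreeGroup.of e := by
  unfold lab; rw [dif_pos e.2]

/-- tails -/
def tail (u : List (Fin 4)) : List Lt := u.map Lt.p ++ [Lt.y]
/-- words of the component -/
def Wd (u : List (Fin 4)) : List Lt := Lt.x :: tail u

/-- basic elements -/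
def gX : U P8 := gen ⟨[], rX, []⟩
/-- basic elements -/
def gY : U P8 := gen ⟨[], rY, []⟩
/-- basic elements -/
def eps (i j : Fin 4) (h : i < j) : U P8 := gen ⟨[], rP i j h, []⟩
/-- basic elements -/
def sg (i : Fin 4) : U P8 := if h : 0 < i then eps 0 i h else 1

theorem pi_gX : Pi (P := P8) [Lt.x] gX [Lt.x, Lt.p 0] := Pi.gen (⟨[], rX, []⟩ : Edge P8)
theorem pi_gY : Pi (P := P8) [Lt.y] gY [Lt.p 0, Lt.y] := Pi.gen (⟨[], rY, []⟩ : Edge P8)
theorem pi_eps (i j : Fin 4) (h : i < j) : Pi (P := P8) [Lt.p i] (eps i j h) [Lt.p j] :=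
  Pi.gen (⟨[], rP i j h, []⟩ : Edge P8)
theorem pi_sg (i : Fin 4) : Pi (P := P8) [Lt.p 0] (sg i) [Lt.p i] := by
  unfold sg
  by_cases h : 0 < i
  · rw [dif_pos h]; exact pi_eps 0 i h
  · have : i = 0 := by
      rcases Fin.eq_zero_or_eq_succ i with h1 | ⟨j, rfl⟩
      · exact h1
      · exact absurd (Fin.succ_pos j) h
    rw [dif_neg h, this]
    exact Pi.refl _

/-- insertion of a letter next to `x` -/
def al (i : Fin 4) : U P8 := gX * wh [Lt.x] [] (sg i)

theorem pi_al (i : Fin 4) : Pi (P := P8) [Lt.x] (al i) [Lt.x, Lt.p i] :=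
  pi_gX.trans (by simpa using (pi_sg i).wh [Lt.x] [])

/-- the canonical paths -/
def eu : List (Fin 4) → U P8
  | [] => 1
  | i :: u => eu u * wh [] (tail u) (al i)

theorem eu_cons (i : Fin 4) (u : List (Fin 4)) :
    eu (i :: u) = eu u * wh [] (tail u) (al i) := rfl

theorem pi_eu (u : List (Fin 4)) : Pi (P := P8) (Wd []) (eu u) (Wd u) := by
  induction u with
  | nil => exact Pi.refl _
  | cons i u ih =>
    refine ih.trans ?_
    have := (pi_al i).wh [] (tail u)
    simpa [Wd, tail] using this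

/-- loops at `p₀` -/
noncomputable def lam : B8 →* U P8 :=
  FreeGroup.lift (fun e => sg e.1.1 * eps e.1.1 e.1.2 e.2.2 * (sg e.1.2)⁻¹)

theorem pi_lam (β : B8) : Pi (P := P8) [Lt.p 0] (lam β) [Lt.p 0] := by
  have h : ∀ e : X8, Pi (P := P8) [Lt.p 0] (lam (FreeGroup.of e)) [Lt.p 0] := by
    intro e
    unfold lam
    rw [FreeGroup.lift_apply_of]
    exact ((pi_sg _).trans (pi_eps _ _ _)).trans (pi_sg _).symm
  induction β using FreeGroup.induction_on with
  | C1 => rw [map_one]; exact Pi.refl _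
  | of e => exact h e
  | inv_of e _ => rw [map_inv]; exact (h e).symm
  | mul a b h1 h2 => rw [map_mul]; exact h1.trans h2

/-- loops at `x` -/
noncomputable def chi : B8 →* U P8 :=
  (MulAut.conj gX).toMonoidHom.comp ((wh [Lt.x] []).comp lam)

theorem chi_apply (β : B8) : chi β = gX * wh [Lt.x] [] (lam β) * gX⁻¹ := rfl

theorem pi_chi (β : B8) : Pi (P := P8) [Lt.x] (chi β) [Lt.x] := by
  rw [chi_apply]
  exact (pi_gX.trans (by simpa using (pi_lam β).wh [Lt.x] [])).trans pi_gX.symm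

/-- transported loops -/
noncomputable def Au (u : List (Fin 4)) (β : B8) : U P8 :=
  eu u * wh [] (tail u) (chi β) * (eu u)⁻¹

theorem Au_mul (u : List (Fin 4)) (β γ : B8) : Au u (β * γ) = Au u β * Au u γ := by
  unfold Au; rw [map_mul, map_mul]; group

theorem Au_one (u : List (Fin 4)) : Au u 1 = 1 := by
  unfold Au; rw [map_one, map_one]; group

theorem Au_inv (u : List (Fin 4)) (β : B8) : Au u β⁻¹ = (Au u β)⁻¹ := by
  rw [eq_inv_iff_mul_eq_one, ← Au_mul, inv_mul_cancel, Au_one]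

theorem int_x {u u' : List (Fin 4)} {τ : U P8} (hτ : Pi (tail u) τ (tail u')) (i : Fin 4) :
    wh [] (tail u) (al i) * wh [Lt.x, Lt.p i] [] τ =
      wh [Lt.x] [] τ * wh [] (tail u') (al i) := interchange (pi_al i) hτ

theorem int_chi {u u' : List (Fin 4)} {τ : U P8} (hτ : Pi (tail u) τ (tail u')) (β : B8) :
    wh [] (tail u) (chi β) * wh [Lt.x] [] τ =
      wh [Lt.x] [] τ * wh [] (tail u') (chi β) := interchange (pi_chi β) hτ

/-- the shift -/
def TT : U P8 := wh [] [Lt.y] gX * (wh [Lt.x] [] gY)⁻¹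

theorem sg_zero : sg 0 = 1 := by unfold sg; rw [dif_neg (lt_irrefl _)]

/-- right insertion -/
def tY (u : List (Fin 4)) : U P8 := wh (u.map Lt.p) [] gY

theorem pi_tY (u : List (Fin 4)) : Pi (P := P8) (tail u) (tY u) (tail (u ++ [0])) := by
  have := pi_gY.wh (u.map Lt.p) []
  simpa [tail, tY] using this

theorem G3 (u : List (Fin 4)) : eu u * wh [Lt.x] [] (tY u) = TT⁻¹ * eu (u ++ [0]) := by
  induction u with
  | nil =>
    have h1 : eu [0] = wh [] [Lt.y] gX := by
      simp [eu, al, sg_zero, tail]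
    have h2 : wh [Lt.x] [] (tY []) = wh [Lt.x] [] gY := by simp [tY, wh_wh]
    rw [List.nil_append, h1, h2]
    unfold eu TT
    group
  | cons i u ih =>
    have h1 : wh [Lt.x] [] (tY (i :: u)) = wh [Lt.x, Lt.p i] [] (tY u) := by
      simp [tY, wh_wh]
    rw [h1, List.cons_append, eu_cons, eu_cons, mul_assoc, int_x (pi_tY u), ← mul_assoc, ih,
      mul_assoc]

theorem G4a (i j : Fin 4) (h : i < j) : al i * wh [Lt.x] [] (eps i j h) = chi (lab i j) * al j := by
  rw [chi_apply]
  unfold al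
  have key : sg i * eps i j h = lam (lab i j) * sg j := by
    by_cases hi : i = 0
    · subst hi
      rw [lab_zero, map_one, sg_zero, one_mul, one_mul]
      unfold sg
      rw [dif_pos h]
    · have h1 : 1 ≤ i := by
        rcases Fin.eq_zero_or_eq_succ i with h2 | ⟨k, rfl⟩
        · exact absurd h2 hi
        · exact Fin.one_le_of_ne_zero hi
      have h2 : lab i j = FreeGroup.of (⟨(i, j), h1, h⟩ : X8) := by
        unfold lab; rw [dif_pos ⟨h1, h⟩]
      rw [h2]
      unfold lam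
      rw [FreeGroup.lift_apply_of]
      simp
  calc gX * wh [Lt.x] [] (sg i) * wh [Lt.x] [] (eps i j h)
      = gX * wh [Lt.x] [] (sg i * eps i j h) := by rw [map_mul]; group
    _ = _ := by rw [key, map_mul]; group

theorem G4 (u1 : List (Fin 4)) (i j : Fin 4) (h : i < j) (u2 : List (Fin 4)) :
    eu (u1 ++ i :: u2) * wh (Lt.x :: u1.map Lt.p) (tail u2) (eps i j h) =
      Au u2 (lab i j) * eu (u1 ++ j :: u2) := by
  induction u1 with
  | nil =>
    simp only [List.map_nil, List.nil_append]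
    unfold Au
    change eu u2 * wh [] (tail u2) (al i) * _ = _ * (eu u2 * wh [] (tail u2) (al j))
    have h1 : wh [Lt.x] (tail u2) (eps i j h) = wh [] (tail u2) (wh [Lt.x] [] (eps i j h)) := by
      simp [wh_wh]
    rw [h1, mul_assoc, ← map_mul, G4a, map_mul]
    group
  | cons k u1 ih =>
    have hτ : Pi (P := P8) (tail (u1 ++ i :: u2)) (wh (u1.map Lt.p) (tail u2) (eps i j h))
        (tail (u1 ++ j :: u2)) := by
      have := (pi_eps i j h).wh (u1.map Lt.p) (tail u2)
      simpa [tail] using this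
    have h1 : wh (Lt.x :: (k :: u1).map Lt.p) (tail u2) (eps i j h) =
        wh [Lt.x, Lt.p k] [] (wh (u1.map Lt.p) (tail u2) (eps i j h)) := by
      simp [wh_wh]
    have h2 : wh (Lt.x :: u1.map Lt.p) (tail u2) (eps i j h) =
        wh [Lt.x] [] (wh (u1.map Lt.p) (tail u2) (eps i j h)) := by
      simp [wh_wh]
    rw [h1]
    change eu (u1 ++ i :: u2) * wh [] (tail (u1 ++ i :: u2)) (al k) * _ =
      Au u2 (lab i j) * (eu (u1 ++ j :: u2) * wh [] (tail (u1 ++ j :: u2)) (al k))
    rw [mul_assoc, int_x hτ, ← mul_assoc, ← h2, ih, mul_assoc]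

theorem G6 (u : List (Fin 4)) (β : B8) : Au (u ++ [0]) β = TT * Au u β * TT⁻¹ := by
  have h1 : eu (u ++ [0]) = TT * eu u * wh [Lt.x] [] (tY u) := by
    rw [mul_assoc, G3]; group
  unfold Au
  have h2 := int_chi (pi_tY u) β
  calc eu (u ++ [0]) * wh [] (tail (u ++ [0])) (chi β) * (eu (u ++ [0]))⁻¹
      = TT * eu u * (wh [Lt.x] [] (tY u) * wh [] (tail (u ++ [0])) (chi β)) *
          (wh [Lt.x] [] (tY u))⁻¹ * (eu u)⁻¹ * TT⁻¹ := by rw [h1]; group
    _ = _ := by rw [← h2]; group

theorem G7a (u1 : List (Fin 4)) (i : Fin 4) (u2 : List (Fin 4)) (β : B8) :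
    Au (u1 ++ i :: u2) β = Au (u1 ++ 0 :: u2) β := by
  by_cases hi : 0 < i
  · have h1 := G4 u1 0 i hi u2
    rw [lab_zero, Au_one, one_mul] at h1
    have hτ : Pi (P := P8) (tail (u1 ++ 0 :: u2)) (wh (u1.map Lt.p) (tail u2) (eps 0 i hi))
        (tail (u1 ++ i :: u2)) := by
      have := (pi_eps 0 i hi).wh (u1.map Lt.p) (tail u2)
      simpa [tail] using this
    have h2 : wh (Lt.x :: u1.map Lt.p) (tail u2) (eps 0 i hi) =
        wh [Lt.x] [] (wh (u1.map Lt.p) (tail u2) (eps 0 i hi)) := by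
      simp [wh_wh]
    have h3 := int_chi hτ β
    unfold Au
    rw [← h1, h2]
    calc _ = eu (u1 ++ 0 :: u2) * (wh [Lt.x] [] (wh (u1.map Lt.p) (tail u2) (eps 0 i hi)) *
          wh [] (tail (u1 ++ i :: u2)) (chi β)) *
          (wh [Lt.x] [] (wh (u1.map Lt.p) (tail u2) (eps 0 i hi)))⁻¹ *
          (eu (u1 ++ 0 :: u2))⁻¹ := by group
      _ = _ := by rw [← h3]; group
  · have : i = 0 := by
      rcases Fin.eq_zero_or_eq_succ i with h1 | ⟨j, rfl⟩
      · exact h1
      · exact absurd (Fin.succ_pos j) hi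
    rw [this]

/-- the basic loop -/
noncomputable def A0 (β : B8) : U P8 := Au [] β

theorem G7b (n : ℕ) : ∀ (u : List (Fin 4)), u.length = n → ∀ β, Au u β = TT ^ n * A0 β * (TT ^ n)⁻¹ := by
  induction n with
  | zero =>
    intro u hu β
    rw [List.eq_nil_of_length_eq_zero hu]
    unfold A0; simp
  | succ n ih =>
    intro u hu β
    rcases List.eq_nil_or_concat u with rfl | ⟨u', i, rfl⟩
    · simp at hu
    · rw [List.concat_eq_append] at hu ⊢
      have h1 : u'.length = n := by simpa using hu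
      have h2 := G7a u' i [] β
      rw [h2, G6, ih u' h1, pow_succ']
      group

/-- the coordinates -/
noncomputable def Ak (k : ℤ) (β : B8) : U P8 := TT ^ k * A0 β * (TT ^ k)⁻¹

theorem Ak_mul (k : ℤ) (β γ : B8) : Ak k (β * γ) = Ak k β * Ak k γ := by
  unfold Ak A0; rw [Au_mul]; group

theorem Ak_one (k : ℤ) : Ak k 1 = 1 := by
  unfold Ak A0; rw [Au_one]; group

theorem Ak_inv (k : ℤ) (β : B8) : Ak k β⁻¹ = (Ak k β)⁻¹ := by
  rw [eq_inv_iff_mul_eq_one, ← Ak_mul, inv_mul_cancel, Ak_one]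

theorem Au_Ak (u : List (Fin 4)) (β : B8) : Au u β = Ak u.length β := by
  rw [G7b _ u rfl]
  unfold Ak
  rw [zpow_natCast]

theorem G8 (u1 u2 : List (Fin 4)) (β : B8) :
    eu (u1 ++ 0 :: u2) * wh (Lt.x :: u1.map Lt.p) (tail u2) (lam β) * (eu (u1 ++ 0 :: u2))⁻¹ =
      Au u2 β := by
  have hs : ∀ i, eu (u1 ++ 0 :: u2) * wh (Lt.x :: u1.map Lt.p) (tail u2) (sg i) =
      eu (u1 ++ i :: u2) := by
    intro i
    by_cases hi : 0 < i
    · have h1 := G4 u1 0 i hi u2
      rw [lab_zero, Au_one, one_mul] at h1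
      have h2 : sg i = eps 0 i hi := by unfold sg; rw [dif_pos hi]
      rw [h2]; exact h1
    · have : i = 0 := by
        rcases Fin.eq_zero_or_eq_succ i with h1 | ⟨j, rfl⟩
        · exact h1
        · exact absurd (Fin.succ_pos j) hi
      rw [this, sg_zero, map_one, mul_one]
  have key : ∀ e : X8, eu (u1 ++ 0 :: u2) * wh (Lt.x :: u1.map Lt.p) (tail u2)
      (lam (FreeGroup.of e)) * (eu (u1 ++ 0 :: u2))⁻¹ = Au u2 (FreeGroup.of e) := by
    intro e
    have h1 := G4 u1 e.1.1 e.1.2 e.2.2 u2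
    rw [lab_of, ← hs e.1.1, ← hs e.1.2] at h1
    unfold lam
    rw [FreeGroup.lift_apply_of, map_mul, map_mul, map_inv]
    calc _ = (eu (u1 ++ 0 :: u2) * wh (Lt.x :: u1.map Lt.p) (tail u2) (sg e.1.1) *
          wh (Lt.x :: u1.map Lt.p) (tail u2) (eps e.1.1 e.1.2 e.2.2)) *
          (wh (Lt.x :: u1.map Lt.p) (tail u2) (sg e.1.2))⁻¹ * (eu (u1 ++ 0 :: u2))⁻¹ := by group
      _ = _ := by rw [h1]; group
  induction β using FreeGroup.induction_on with
  | C1 => rw [map_one, map_one, Au_one]; group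
  | of e => exact key e
  | inv_of e _ =>
    rw [map_inv, map_inv, Au_inv, ← key e]; group
  | mul a b h1 h2 =>
    rw [map_mul, map_mul, Au_mul, ← h1, ← h2]; group

theorem Ak_comm_lt {k l : ℤ} (h : k < l) (β γ : B8) : Ak k β * Ak l γ = Ak l γ * Ak k β := by
  obtain ⟨n, rfl⟩ : ∃ n : ℕ, l = k + (n + 1) := ⟨(l - k - 1).toNat, by omega⟩
  -- at level `0` and `n + 1`
  have base : A0 β * Ak (n + 1) γ = Ak (n + 1) γ * A0 β := by
    set u1 : List (Fin 4) := List.replicate n 0 with hu1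
    have h1 := G8 u1 [] β
    have h2 := Au_Ak (u1 ++ [0]) γ
    have h3 : (u1 ++ [(0 : Fin 4)]).length = n + 1 := by simp [hu1]
    rw [h3] at h2
    push_cast at h2
    rw [← h2]
    unfold A0
    rw [← h1]
    have hτ : Pi (P := P8) (tail (u1 ++ [0])) (wh (u1.map Lt.p) (tail []) (lam β))
        (tail (u1 ++ [0])) := by
      have := (pi_lam β).wh (u1.map Lt.p) (tail [])
      simpa [tail] using this
    have h4 : wh (Lt.x :: u1.map Lt.p) (tail []) (lam β) =
        wh [Lt.x] [] (wh (u1.map Lt.p) (tail []) (lam β)) := by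
      simp [wh_wh]
    have h5 := int_chi hτ γ
    rw [h4]
    unfold Au
    calc _ = eu (u1 ++ [0]) * (wh [Lt.x] [] (wh (u1.map Lt.p) (tail []) (lam β)) *
          wh [] (tail (u1 ++ [0])) (chi γ)) * (eu (u1 ++ [0]))⁻¹ := by group
      _ = _ := by rw [← h5]; group
  have e1 : Ak (k + (n + 1)) γ = TT ^ k * Ak (n + 1) γ * (TT ^ k)⁻¹ := by
    unfold Ak; rw [zpow_add]; group
  rw [e1]
  unfold Ak at base ⊢
  calc _ = TT ^ k * (A0 β * (TT ^ ((n : ℤ) + 1) * A0 γ * (TT ^ ((n : ℤ) + 1))⁻¹)) * (TT ^ k)⁻¹ := by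
        group
    _ = _ := by rw [base]; group

theorem Ak_comm {k l : ℤ} (h : k ≠ l) (β γ : B8) : Ak k β * Ak l γ = Ak l γ * Ak k β := by
  rcases lt_or_gt_of_ne h with h | h
  · exact Ak_comm_lt h β γ
  · exact (Ak_comm_lt h γ β).symm

/-! ### lists -/

/-- product of a list -/
noncomputable def pA (l : List (ℤ × B8)) : U P8 := (l.map (fun z => Ak z.1 z.2)).prod

/-- coordinate of a list -/
def coord (l : List (ℤ × B8)) (k : ℤ) : B8 :=
  ((l.filter (fun z => decide (z.1 = k))).map (fun z => z.2)).prod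

theorem pA_nil : pA [] = 1 := rfl
theorem pA_cons (z : ℤ × B8) (l : List (ℤ × B8)) : pA (z :: l) = Ak z.1 z.2 * pA l := by
  simp [pA]
theorem pA_append (l l' : List (ℤ × B8)) : pA (l ++ l') = pA l * pA l' := by
  simp [pA]

theorem pA_split (l : List (ℤ × B8)) (k : ℤ) :
    pA l = Ak k (coord l k) * pA (l.filter (fun z => !decide (z.1 = k))) := by
  induction l with
  | nil => simp [pA, coord, Ak_one]
  | cons z l ih =>
    by_cases h : z.1 = k
    · have h1 : coord (z :: l) k = z.2 * coord l k := by simp [coord, h]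
      have h2 : (z :: l).filter (fun z => !decide (z.1 = k)) =
          l.filter (fun z => !decide (z.1 = k)) := by simp [h]
      rw [pA_cons, h1, h2, Ak_mul, ih, h, mul_assoc]
    · have h1 : coord (z :: l) k = coord l k := by simp [coord, h]
      have h2 : (z :: l).filter (fun z => !decide (z.1 = k)) =
          z :: l.filter (fun z => !decide (z.1 = k)) := by simp [h]
      rw [pA_cons, h1, h2, pA_cons, ih, ← mul_assoc, Ak_comm h, mul_assoc]

theorem coord_filter (l : List (ℤ × B8)) (k j : ℤ) :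
    coord (l.filter (fun z => !decide (z.1 = k))) j = if j = k then 1 else coord l j := by
  induction l with
  | nil => simp [coord]
  | cons z l ih =>
    by_cases h : z.1 = k
    · have h2 : (z :: l).filter (fun z => !decide (z.1 = k)) =
          l.filter (fun z => !decide (z.1 = k)) := by simp [h]
      rw [h2, ih]
      by_cases hj : j = k
      · rw [if_pos hj, if_pos hj]
      · rw [if_neg hj, if_neg hj]
        have : z.1 ≠ j := by rw [h]; exact Ne.symm hj
        simp [coord, this]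
    · have h2 : (z :: l).filter (fun z => !decide (z.1 = k)) =
          z :: l.filter (fun z => !decide (z.1 = k)) := by simp [h]
      rw [h2]
      have h3 : ∀ l : List (ℤ × B8), coord (z :: l) j = (if z.1 = j then z.2 else 1) * coord l j := by
        intro l
        by_cases hz : z.1 = j
        · simp [coord, hz]
        · simp [coord, hz]
      rw [h3, h3, ih]
      by_cases hj : j = k
      · rw [if_pos hj, if_pos hj]
        have : z.1 ≠ j := by rw [hj]; exact h
        rw [if_neg this, one_mul]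
      · rw [if_neg hj, if_neg hj]

theorem pA_trivial (n : ℕ) : ∀ l : List (ℤ × B8), l.length ≤ n → (∀ k, coord l k = 1) →
    pA l = 1 := by
  induction n with
  | zero =>
    intro l hl _
    rw [List.eq_nil_of_length_eq_zero (Nat.le_zero.1 hl)]; rfl
  | succ n ih =>
    intro l hl hc
    rcases l with _ | ⟨z, l⟩
    · rfl
    · rw [pA_split (z :: l) z.1, hc, Ak_one, one_mul]
      apply ih
      · have h2 : (z :: l).filter (fun w => !decide (w.1 = z.1)) =
          l.filter (fun w => !decide (w.1 = z.1)) := by simp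
        rw [h2]
        have := List.length_filter_le (fun w => !decide (w.1 = z.1)) l
        simp only [List.length_cons] at hl
        omega
      · intro k
        rw [coord_filter, hc]; simp

end H540DG
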