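import Pool.Agent.H540R3.DS5

set_option autoImplicit false

/-!
# Generation and coordinates
-/

namespace H540DG

/-! ### words of the component -/

theorem D1 {a c : List Lt} {u : List (Fin 4)} (h : a ++ Lt.x :: c = Wd u) : a = [] ∧ c = tail u := by
  rcases a with _ | ⟨b, a⟩
  · simpa [Wd] using h
  · exfalso
    simp only [Wd, List.cons_append, List.cons.injEq] at h
    have h1 : Lt.x ∈ tail u := by rw [← h.2]; simp
    simp [tail] at h1

theorem D2 {a c : List Lt} {u : List (Fin 4)} (h : a ++ Lt.y :: c = Wd u) :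
    c = [] ∧ a = Lt.x :: u.map Lt.p := by
  rcases List.eq_nil_or_concat c with rfl | ⟨c, d, rfl⟩
  · refine ⟨rfl, ?_⟩
    have h1 : a ++ [Lt.y] = (Lt.x :: u.map Lt.p) ++ [Lt.y] := by rw [h]; simp [Wd, tail]
    exact (List.append_inj' h1 rfl).1
  · exfalso
    have h1 : (a ++ Lt.y :: c) ++ [d] = (Lt.x :: u.map Lt.p) ++ [Lt.y] := by
      simpa [Wd, tail] using h
    have h2 := (List.append_inj' h1 rfl).1
    have h3 : Lt.y ∈ Lt.x :: u.map Lt.p := by rw [← h2]; simp
    simp at h3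

theorem D3' : ∀ (u : List (Fin 4)) (a c : List Lt) (i : Fin 4), a ++ Lt.p i :: c = tail u →
    ∃ u1 u2, u = u1 ++ i :: u2 ∧ a = u1.map Lt.p ∧ c = tail u2
  | [], a, c, i, h => by
    exfalso
    rcases a with _ | ⟨b, a⟩
    · simp [tail] at h
    · simp [tail] at h
  | k :: u, a, c, i, h => by
    rcases a with _ | ⟨b, a⟩
    · have h1 : Lt.p i = Lt.p k ∧ c = tail u := by simpa [tail] using h
      obtain ⟨h2, h3⟩ := h1
      injection h2 with h2
      exact ⟨[], u, by rw [h2]; rfl, rfl, h3⟩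
    · have h1 : b = Lt.p k ∧ a ++ Lt.p i :: c = tail u := by simpa [tail] using h
      obtain ⟨u1, u2, h2, h3, h4⟩ := D3' u a c i h1.2
      exact ⟨k :: u1, u2, by rw [h2]; rfl, by rw [h1.1, h3]; rfl, h4⟩

theorem D3 {a c : List Lt} {u : List (Fin 4)} {i : Fin 4} (h : a ++ Lt.p i :: c = Wd u) :
    ∃ u1 u2, u = u1 ++ i :: u2 ∧ a = Lt.x :: u1.map Lt.p ∧ c = tail u2 := by
  rcases a with _ | ⟨b, a⟩
  · simp [Wd] at h
  · have h1 : b = Lt.x ∧ a ++ Lt.p i :: c = tail u := by simpa [Wd] using h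
    obtain ⟨u1, u2, h2, h3, h4⟩ := D3' u a c i h1.2
    exact ⟨u1, u2, h2, by rw [h1.1, h3], h4⟩

theorem Wd_inj {u u' : List (Fin 4)} (h : Wd u = Wd u') : u = u' := by
  have h1 : u.map Lt.p = u'.map Lt.p := by simpa [Wd, tail] using h
  exact List.map_injective_iff.2 (fun i j h => by injection h) h1

/-! ### generation -/

/-- the subgroup generated by the basic loops -/
noncomputable def NN : Subgroup (U P8) := Subgroup.closure ({TT} ∪ Set.range A0)

theorem TT_mem : TT ∈ NN := Subgroup.subset_closure (Or.inl rfl)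
theorem A0_mem (β : B8) : A0 β ∈ NN := Subgroup.subset_closure (Or.inr ⟨β, rfl⟩)
theorem Ak_mem (k : ℤ) (β : B8) : Ak k β ∈ NN :=
  NN.mul_mem (NN.mul_mem (NN.zpow_mem TT_mem k) (A0_mem β)) (NN.inv_mem (NN.zpow_mem TT_mem k))
theorem Au_mem (u : List (Fin 4)) (β : B8) : Au u β ∈ NN := by rw [Au_Ak]; exact Ak_mem _ _

theorem gen_X (u : List (Fin 4)) : (gen (⟨[], rX, tail u⟩ : Edge P8)) = wh [] (tail u) gX := by
  simp [gX, wE]
theorem gen_Y (u : List (Fin 4)) :
    (gen (⟨Lt.x :: u.map Lt.p, rY, []⟩ : Edge P8)) = wh [Lt.x] [] (tY u) := by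
  simp [gY, tY, wE]
theorem gen_P (u1 u2 : List (Fin 4)) (i j : Fin 4) (h : i < j) :
    (gen (⟨Lt.x :: u1.map Lt.p, rP i j h, tail u2⟩ : Edge P8)) =
      wh (Lt.x :: u1.map Lt.p) (tail u2) (eps i j h) := by
  simp [eps, wE]

theorem edge_NN (E : Edge P8) (h : (∃ u, E.src = Wd u) ∨ ∃ u, E.tgt = Wd u) :
    ∃ u u', E.src = Wd u ∧ E.tgt = Wd u' ∧ eu u * gen E * (eu u')⁻¹ ∈ NN := by
  obtain ⟨a, ⟨r, hr⟩, c⟩ := E
  rcases hr with rfl | rfl | ⟨i, j, hij, rfl⟩
  · have key : ∃ u, a = [] ∧ c = tail u := by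
      rcases h with ⟨u, h⟩ | ⟨u, h⟩
      · have h1 : a ++ Lt.x :: c = Wd u := h
        exact ⟨u, D1 h1⟩
      · have h1 : a ++ Lt.x :: (Lt.p 0 :: c) = Wd u := h
        obtain ⟨h2, h3⟩ := D1 h1
        obtain ⟨u1, u2, h4, h5, h6⟩ := D3' u [] c 0 h3
        exact ⟨u2, h2, h6⟩
    obtain ⟨u, rfl, rfl⟩ := key
    refine ⟨u, 0 :: u, rfl, rfl, ?_⟩
    have h1 : (gen (⟨[], ⟨([Lt.x], [Lt.x, Lt.p 0]), Or.inl rfl⟩, tail u⟩ : Edge P8)) =
      wh [] (tail u) gX := gen_X u
    have h2 : al 0 = gX := by unfold al; rw [sg_zero, map_one, mul_one]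
    rw [h1, eu_cons, h2, mul_inv_cancel]
    exact NN.one_mem
  · have key : ∃ u : List (Fin 4), c = [] ∧ a = Lt.x :: u.map Lt.p := by
      rcases h with ⟨u, h⟩ | ⟨u, h⟩
      · have h1 : a ++ Lt.y :: c = Wd u := h
        exact ⟨u, D2 h1⟩
      · have h1 : (a ++ [Lt.p 0]) ++ Lt.y :: c = Wd u := by
          rw [← h]; simp [Edge.tgt]
        obtain ⟨h2, h3⟩ := D2 h1
        rcases List.eq_nil_or_concat u with rfl | ⟨u', i, rfl⟩
        · exfalso
          have h4 : a ++ [Lt.p 0] = [] ++ [Lt.x] := by simpa using h3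
          have h5 := (List.append_inj' h4 rfl).2
          simp at h5
        · refine ⟨u', h2, ?_⟩
          have h4 : a ++ [Lt.p 0] = (Lt.x :: u'.map Lt.p) ++ [Lt.p i] := by simpa using h3
          exact (List.append_inj' h4 rfl).1
    obtain ⟨u, rfl, rfl⟩ := key
    refine ⟨u, u ++ [0], ?_, ?_, ?_⟩
    · simp [Edge.src, Wd, tail]
    · simp [Edge.tgt, Wd, tail]
    · have h1 : (gen (⟨Lt.x :: u.map Lt.p, ⟨([Lt.y], [Lt.p 0, Lt.y]), Or.inr (Or.inl rfl)⟩, []⟩ :
        Edge P8)) = wh [Lt.x] [] (tY u) := gen_Y u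
      rw [h1, G3, mul_inv_cancel_right]
      exact NN.inv_mem TT_mem
  · have key : ∃ u1 u2 : List (Fin 4), a = Lt.x :: u1.map Lt.p ∧ c = tail u2 := by
      rcases h with ⟨u, h⟩ | ⟨u, h⟩
      · have h1 : a ++ Lt.p i :: c = Wd u := h
        obtain ⟨u1, u2, -, h2, h3⟩ := D3 h1
        exact ⟨u1, u2, h2, h3⟩
      · have h1 : a ++ Lt.p j :: c = Wd u := h
        obtain ⟨u1, u2, -, h2, h3⟩ := D3 h1
        exact ⟨u1, u2, h2, h3⟩
    obtain ⟨u1, u2, rfl, rfl⟩ := key
    refine ⟨u1 ++ i :: u2, u1 ++ j :: u2, ?_, ?_, ?_⟩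
    · simp [Edge.src, Wd, tail]
    · simp [Edge.tgt, Wd, tail]
    · have h1 : (gen (⟨Lt.x :: u1.map Lt.p, ⟨([Lt.p i], [Lt.p j]), Or.inr (Or.inr ⟨i, j, hij, rfl⟩)⟩,
        tail u2⟩ : Edge P8)) = wh (Lt.x :: u1.map Lt.p) (tail u2) (eps i j hij) := gen_P u1 u2 i j hij
      rw [h1, G4, mul_inv_cancel_right]
      exact Au_mem _ _

theorem path_NN {W W' : List Lt} {g : U P8} (h : Pi W g W') : ∀ u, W = Wd u →
    ∃ u', W' = Wd u' ∧ eu u * g * (eu u')⁻¹ ∈ NN := by
  induction h using Pi.induction with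
  | h0 W => intro u hu; exact ⟨u, hu, by rw [mul_one, mul_inv_cancel]; exact NN.one_mem⟩
  | h1 o g W' _ ih =>
    intro u hu
    have key : ∃ u1, o.tgt = Wd u1 ∧ eu u * o.val * (eu u1)⁻¹ ∈ NN := by
      rcases o with ⟨a, r, s, c⟩
      cases s
      · obtain ⟨u1, u2, h1, h2, h3⟩ := edge_NN ⟨a, r, c⟩ (Or.inr ⟨u, hu⟩)
        have h4 : u2 = u := Wd_inj (h2.symm.trans hu)
        subst h4
        refine ⟨u1, h1, ?_⟩
        rw [val_f]
        have := NN.inv_mem h3
        have e : (eu u1 * gen ⟨a, r, c⟩ * (eu u2)⁻¹)⁻¹ = eu u2 * (gen ⟨a, r, c⟩)⁻¹ * (eu u1)⁻¹ := by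
          group
        rwa [e] at this
      · obtain ⟨u1, u2, h1, h2, h3⟩ := edge_NN ⟨a, r, c⟩ (Or.inl ⟨u, hu⟩)
        have h4 : u1 = u := Wd_inj (h1.symm.trans hu)
        subst h4
        exact ⟨u2, h2, h3⟩
    obtain ⟨u1, h1, h2⟩ := key
    obtain ⟨u2, h3, h4⟩ := ih u1 h1
    refine ⟨u2, h3, ?_⟩
    have := NN.mul_mem h2 h4
    have e : eu u * o.val * (eu u1)⁻¹ * (eu u1 * g * (eu u2)⁻¹) = eu u * (o.val * g) * (eu u2)⁻¹ := by
      group
    rwa [e] at this

theorem Dg_NN {g : U P8} (h : Pi (Wd []) g (Wd [])) : g ∈ NN := by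
  obtain ⟨u', h1, h2⟩ := path_NN h [] rfl
  have h3 := Wd_inj h1
  subst h3
  simpa [eu] using h2

theorem Ak_shift (m k : ℤ) (β : B8) : TT ^ m * Ak k β * (TT ^ m)⁻¹ = Ak (k + m) β := by
  unfold Ak
  rw [add_comm k m, zpow_add]; group

theorem pA_shift (m : ℤ) (l : List (ℤ × B8)) :
    TT ^ m * pA l * (TT ^ m)⁻¹ = pA (l.map (fun z => (z.1 + m, z.2))) := by
  induction l with
  | nil => simp [pA]
  | cons z l ih =>
    rw [List.map_cons, pA_cons, pA_cons, ← ih, ← Ak_shift]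
    group

theorem pA_inv (l : List (ℤ × B8)) : ∃ l', (pA l)⁻¹ = pA l' := by
  induction l with
  | nil => exact ⟨[], by simp [pA]⟩
  | cons z l ih =>
    obtain ⟨l', h⟩ := ih
    refine ⟨l' ++ [(z.1, z.2⁻¹)], ?_⟩
    rw [pA_cons, mul_inv_rev, h, pA_append, pA_cons, Ak_inv, pA_nil, mul_one]

theorem NN_form {g : U P8} (h : g ∈ NN) : ∃ (n : ℤ) (l : List (ℤ × B8)), g = TT ^ n * pA l := by
  unfold NN at h
  induction h using Subgroup.closure_induction with
  | mem x hx =>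
    rcases hx with rfl | ⟨β, rfl⟩
    · exact ⟨1, [], by simp [pA]⟩
    · exact ⟨0, [(0, β)], by simp [pA, Ak]⟩
  | one => exact ⟨0, [], by simp [pA]⟩
  | mul x y _ _ hx hy =>
    obtain ⟨n, l, rfl⟩ := hx
    obtain ⟨m, l', rfl⟩ := hy
    refine ⟨n + m, (l.map (fun z => (z.1 + -m, z.2))) ++ l', ?_⟩
    rw [pA_append, ← pA_shift, zpow_add, zpow_neg]
    group
  | inv x _ hx =>
    obtain ⟨n, l, rfl⟩ := hx
    obtain ⟨l', h⟩ := pA_inv l
    refine ⟨-n, (l'.map (fun z => (z.1 + n, z.2))), ?_⟩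
    rw [← pA_shift, mul_inv_rev, h, zpow_neg]
    group

/-! ### coordinates -/

/-- labels of relations -/
def labR (r : P8.rels) : B8 :=
  match r.1 with
  | ([Lt.p i], [Lt.p j]) => lab i j
  | _ => 1

theorem labR_X : labR rX = 1 := rfl
theorem labR_Y : labR rY = 1 := rfl
theorem labR_P (i j : Fin 4) (h : i < j) : labR (rP i j h) = lab i j := rfl

/-- permutations attached to edges -/
def phiE (e : Edge P8) : Equiv.Perm (ℚ × B8) where
  toFun z := (th (gen e) z.1, (if z.1 = e.a.length then labR e.r else 1) * z.2)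
  invFun z := ((th (gen e)).symm z.1,
    (if (th (gen e)).symm z.1 = e.a.length then labR e.r else 1)⁻¹ * z.2)
  left_inv z := by
    refine Prod.ext (by simp) ?_
    simp only [OrderIso.symm_apply_apply]
    by_cases h : z.1 = e.a.length <;> simp [h]
  right_inv z := by simp

theorem phiE_compat : SqCompat phiE := by
  intro a b c r s
  ext1 z
  simp only [Equiv.Perm.mul_apply, phiE, Equiv.coe_fn_mk]
  have hv : (0 : ℚ) < r.1.2.length := by exact_mod_cast lenpos_v r
  have i1 : th (gen (⟨a ++ (r.1.2 ++ b), s, c⟩ : Edge P8)) z.1 = a.length ↔ z.1 = a.length := by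
    have h := th_gen_le (⟨a ++ (r.1.2 ++ b), s, c⟩ : Edge P8) (x := a.length) (by
      simp only [List.length_append]; push_cast
      linarith [Nat.cast_nonneg (α := ℚ) b.length])
    conv_lhs => rw [← h]
    exact (th _).injective.eq_iff
  have i2 : th (gen (⟨a, r, b ++ (s.1.2 ++ c)⟩ : Edge P8)) z.1 = (a ++ (r.1.1 ++ b)).length ↔
      z.1 = (a ++ (r.1.2 ++ b)).length := by
    have h := th_gen_ge (⟨a, r, b ++ (s.1.2 ++ c)⟩ : Edge P8) (t := b.length) (by positivity)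
    simp only at h
    have e1 : (((a ++ (r.1.1 ++ b)).length : ℕ) : ℚ) = a.length + r.1.1.length + b.length := by
      simp only [List.length_append]; push_cast; ring
    have e2 : (((a ++ (r.1.2 ++ b)).length : ℕ) : ℚ) = a.length + r.1.2.length + b.length := by
      simp only [List.length_append]; push_cast; ring
    rw [e1, e2, ← h]
    exact (th _).injective.eq_iff
  have i3 : ¬ (z.1 = a.length ∧ z.1 = (a ++ (r.1.2 ++ b)).length) := by
    rintro ⟨h1, h2⟩
    rw [h1] at h2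
    simp only [List.length_append] at h2
    push_cast at h2
    linarith [Nat.cast_nonneg (α := ℚ) b.length]
  refine Prod.ext ?_ ?_
  · simp only
    rw [← RelIso.mul_apply, ← RelIso.mul_apply, ← map_mul, ← map_mul, gen_sq]
  · simp only
    rw [if_congr i1 rfl rfl, if_congr i2 rfl rfl]
    by_cases h1 : z.1 = a.length
    · have h2 : z.1 ≠ (a ++ (r.1.2 ++ b)).length := fun h => i3 ⟨h1, h⟩
      rw [if_pos h1, if_neg h2]; simp
    · rw [if_neg h1]; simp

/-- the representation -/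
def Phi : U P8 →* Equiv.Perm (ℚ × B8) := liftU phiE phiE_compat

/-- coordinates -/
def Fv (g : U P8) (s : ℚ) : B8 := (Phi g (s, 1)).2

theorem Phi_gen (e : Edge P8) : Phi (gen e) = phiE e := liftU_gen _ _ _

theorem Phi_apply (g : U P8) : ∀ (s : ℚ) (β : B8), Phi g (s, β) = (th g s, Fv g s * β) := by
  unfold Fv
  induction g using U_induction with
  | h1 => intro s β; simp
  | hm g e ih =>
    intro s β
    have h1 : ∀ β, Phi (g * gen e) (s, β) = Phi g (th (gen e) s,
        (if s = e.a.length then labR e.r else 1) * β) := by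
      intro β
      rw [map_mul, Equiv.Perm.mul_apply, Phi_gen]; rfl
    rw [h1, h1, ih _ (_ * β), ih _ (_ * 1), map_mul, RelIso.mul_apply]
    simp [mul_assoc]
  | hi g e ih =>
    intro s β
    have h1 : ∀ β, Phi (g * (gen e)⁻¹) (s, β) = Phi g ((th (gen e)).symm s,
        (if (th (gen e)).symm s = e.a.length then labR e.r else 1)⁻¹ * β) := by
      intro β
      rw [map_mul, map_inv, Equiv.Perm.mul_apply, Phi_gen]; rfl
    rw [h1, h1, ih _ (_ * β), ih _ (_ * 1), map_mul, RelIso.mul_apply, map_inv]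
    have e1 : (th (gen e))⁻¹ s = (th (gen e)).symm s := rfl
    rw [e1]
    simp [mul_assoc]

theorem Fv_mul (g h : U P8) (s : ℚ) : Fv (g * h) s = Fv g (th h s) * Fv h s := by
  have h1 : Phi (g * h) (s, 1) = Phi g (Phi h (s, 1)) := by
    rw [map_mul, Equiv.Perm.mul_apply]
  have h2 := congrArg Prod.snd h1
  rw [Phi_apply h, Phi_apply g, Phi_apply (g * h)] at h2
  simpa using h2

theorem Fv_one (s : ℚ) : Fv 1 s = 1 := by unfold Fv; simp

theorem Fv_gen (e : Edge P8) (s : ℚ) : Fv (gen e) s = if s = e.a.length then labR e.r else 1 := by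
  unfold Fv
  rw [Phi_gen]
  simp [phiE]

theorem Fv_inv (g : U P8) (s : ℚ) : Fv g⁻¹ s = (Fv g (th g⁻¹ s))⁻¹ := by
  have := Fv_mul g g⁻¹ s
  rw [mul_inv_cancel, Fv_one] at this
  exact (inv_eq_of_mul_eq_one_right this.symm).symm

/-- elements with trivial coordinates -/
def K1 : Subgroup (U P8) where
  carrier := {g | ∀ s, Fv g s = 1}
  one_mem' := Fv_one
  mul_mem' := by intro a b ha hb s; rw [Fv_mul, ha, hb, mul_one]
  inv_mem' := by intro a ha s; rw [Fv_inv, ha, inv_one]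

/-- position of the first coordinate -/
def c0 : U P8 := wh [] [Lt.y] gX

theorem c0_gen : c0 = gen (⟨[], rX, [Lt.y]⟩ : Edge P8) := by simp [c0, gX, wE]

theorem c0_K1 : c0 ∈ K1 := by
  intro s; rw [c0_gen, Fv_gen]; simp [labR_X]

theorem TT_K1 : TT ∈ K1 := by
  have h2 : wh [Lt.x] [] gY = gen (⟨[Lt.x], rY, []⟩ : Edge P8) := by simp [gY, wE]
  refine K1.mul_mem c0_K1 (K1.inv_mem ?_)
  rw [h2]
  intro s; rw [Fv_gen]; simp [labR_Y]

theorem th_P (i j : Fin 4) (h : i < j) (a c : List Lt) :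
    th (gen (⟨a, rP i j h, c⟩ : Edge P8)) = 1 := by
  ext t
  rw [th_gen, RelIso.one_apply]
  have e1 : (rP i j h).1.1.length = 1 := rfl
  have e2 : (rP i j h).1.2.length = 1 := rfl
  simp only [e1, e2]
  unfold pl
  split_ifs <;> simp

theorem mu_th (β : B8) : th (wh [Lt.x] [Lt.y] (lam β)) = 1 := by
  have hs : ∀ i, th (wh [Lt.x] [Lt.y] (sg i)) = 1 := by
    intro i
    unfold sg
    by_cases h : 0 < i
    · rw [dif_pos h]; unfold eps; rw [wh_gen]; exact th_P _ _ h _ _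
    · rw [dif_neg h]; simp
  have he : ∀ i j h, th (wh [Lt.x] [Lt.y] (eps i j h)) = 1 := by
    intro i j h
    unfold eps; rw [wh_gen]; exact th_P _ _ h _ _
  induction β using FreeGroup.induction_on with
  | C1 => simp
  | of e => unfold lam; rw [FreeGroup.lift_apply_of]; simp [hs, he]
  | inv_of e ih => rw [map_inv, map_inv, map_inv, ih, inv_one]
  | mul a b h1 h2 => rw [map_mul, map_mul, map_mul, h1, h2, mul_one]

theorem mu_Fv (β : B8) (s : ℚ) : Fv (wh [Lt.x] [Lt.y] (lam β)) s = if s = 1 then β else 1 := by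
  have he : ∀ i j h s, Fv (wh [Lt.x] [Lt.y] (eps i j h)) s = if s = 1 then lab i j else 1 := by
    intro i j h s
    unfold eps; rw [wh_gen, Fv_gen]
    simp [wE, labR_P]
  have hs : ∀ i s, Fv (wh [Lt.x] [Lt.y] (sg i)) s = 1 := by
    intro i s
    unfold sg
    by_cases h : 0 < i
    · rw [dif_pos h, he, lab_zero]; simp
    · rw [dif_neg h]; simp [Fv_one]
  have hsi : ∀ i s, Fv (wh [Lt.x] [Lt.y] (sg i))⁻¹ s = 1 := by
    intro i s; rw [Fv_inv, hs, inv_one]
  induction β using FreeGroup.induction_on with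
  | C1 => simp [Fv_one]
  | of e =>
    unfold lam; rw [FreeGroup.lift_apply_of, map_mul, map_mul, map_inv]
    have hst : ∀ i s, th ((wh [Lt.x] [Lt.y] (sg i))⁻¹) s = s := by
      intro i s
      have : th (wh [Lt.x] [Lt.y] (sg i)) = 1 := by
        unfold sg
        by_cases h : 0 < i
        · rw [dif_pos h]; unfold eps; rw [wh_gen]; exact th_P _ _ h _ _
        · rw [dif_neg h]; simp
      rw [map_inv, this]; simp
    rw [Fv_mul, Fv_mul, hs, hsi, he, hst, lab_of]
    simp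
  | inv_of e ih =>
    have h3 : th ((wh [Lt.x] [Lt.y]) (lam (FreeGroup.of e)))⁻¹ = 1 := by
      rw [map_inv, mu_th, inv_one]
    rw [map_inv lam, map_inv (wh [Lt.x] [Lt.y]), Fv_inv, h3, RelIso.one_apply, ih]
    split_ifs <;> simp
  | mul a b h1 h2 =>
    rw [map_mul, map_mul, Fv_mul, mu_th, RelIso.one_apply, h1, h2]
    split_ifs <;> simp

theorem A0_eq (β : B8) : A0 β = c0 * wh [Lt.x] [Lt.y] (lam β) * c0⁻¹ := by
  unfold A0 Au c0
  rw [chi_apply]
  simp [eu, tail, wh_wh]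

theorem Ak_th (k : ℤ) (β : B8) : th (Ak k β) = 1 := by
  unfold Ak
  rw [A0_eq]
  simp only [map_mul, map_inv, mu_th]
  group

theorem Ak_Fv (k : ℤ) (β : B8) (s : ℚ) :
    Fv (Ak k β) s = if th ((TT ^ k * c0)⁻¹) s = 1 then β else 1 := by
  have h1 : TT ^ k * c0 ∈ K1 := K1.mul_mem (K1.zpow_mem TT_K1 k) c0_K1
  have h2 : Ak k β = (TT ^ k * c0) * wh [Lt.x] [Lt.y] (lam β) * (TT ^ k * c0)⁻¹ := by
    unfold Ak; rw [A0_eq]; group
  rw [h2, Fv_mul, Fv_mul, h1, (K1.inv_mem h1) s, mu_Fv]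
  simp

/-- the coordinate points -/
def pt (k : ℤ) : ℚ := th (TT ^ k * c0) 1

theorem zpow_move' (f : ℚ ≃o ℚ) {x : ℚ} (h : f x < x) {n : ℤ} (hn : (f ^ n) x = x) : n = 0 := by
  have key : ∀ n : ℕ, n ≠ 0 → (f ^ n) x < x := by
    intro n hn
    induction n with
    | zero => exact absurd rfl hn
    | succ n ih =>
      by_cases h0 : n = 0
      · subst h0; simpa using h
      · rw [pow_succ', RelIso.mul_apply]
        exact (f.strictMono (ih h0)).trans h
  by_contra h0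
  rcases n with n | n
  · have : n ≠ 0 := fun h1 => h0 (by simp [h1])
    have h2 := key n this
    simp only [Int.ofNat_eq_natCast, zpow_natCast] at hn
    rw [hn] at h2
    exact lt_irrefl _ h2
  · have h2 := key (n + 1) (Nat.succ_ne_zero n)
    rw [zpow_negSucc] at hn
    have hn' : (f ^ (n + 1)).symm x = x := hn
    rw [OrderIso.symm_apply_eq] at hn'
    rw [← hn'] at h2
    exact lt_irrefl _ h2

theorem th_c0 {t : ℚ} (h0 : 0 < t) (h2 : t ≤ 2) : th c0 t = t / 2 := by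
  rw [c0_gen, th_gen]
  have e1 : rX.1.1.length = 1 := rfl
  have e2 : rX.1.2.length = 2 := rfl
  simp only [e1, e2, List.length_nil]
  unfold pl
  rw [if_neg (by push_cast; linarith), if_pos (by push_cast; linarith)]
  push_cast; ring

theorem pt_ne {j k : ℤ} : th ((TT ^ k * c0)⁻¹) (pt j) = 1 ↔ j = k := by
  constructor
  · intro h
    unfold pt at h
    have h1 : th (TT ^ k * c0) (th ((TT ^ k * c0)⁻¹) (th (TT ^ j * c0) 1)) =
        th (TT ^ k * c0) 1 := by rw [h]
    rw [← RelIso.mul_apply, ← map_mul, mul_inv_cancel, map_one (th (P := P8)), RelIso.one_apply, map_mul,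
      map_mul, RelIso.mul_apply, RelIso.mul_apply, th_c0 one_pos (by norm_num)] at h1
    have h2 : (th TT ^ (j - k)) (1 / 2) = 1 / 2 := by
      have h3 := congrArg (fun s => (th (TT ^ k))⁻¹ s) h1
      rw [← RelIso.mul_apply, ← RelIso.mul_apply, inv_mul_cancel, RelIso.one_apply, map_zpow,
        map_zpow, ← zpow_neg, ← zpow_add] at h3
      rw [sub_eq_neg_add]; exact h3
    have h4 : th TT (1 / 2) < 1 / 2 := by
      unfold TT
      have h5 : th ((wh [Lt.x] [] gY)⁻¹) (1 / 2) = 1 / 2 := by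
        have h6 : th (wh [Lt.x] [] gY) (1 / 2) = 1 / 2 := by
          apply th_wh_le
          simp; norm_num
        rw [map_inv]
        change (th (wh [Lt.x] [] gY)).symm (1 / 2) = 1 / 2
        rw [OrderIso.symm_apply_eq, h6]
      rw [map_mul, RelIso.mul_apply, h5]
      change th c0 (1 / 2) < 1 / 2
      rw [th_c0 (by norm_num) (by norm_num)]
      norm_num
    have h5 := zpow_move' (th TT) h4 h2
    omega
  · rintro rfl
    unfold pt
    rw [← RelIso.mul_apply, ← map_mul, inv_mul_cancel, map_one (th (P := P8)), RelIso.one_apply]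

theorem Ak_pt (k : ℤ) (β : B8) (j : ℤ) : Fv (Ak k β) (pt j) = if j = k then β else 1 := by
  rw [Ak_Fv]
  by_cases h : j = k
  · rw [if_pos h, if_pos (pt_ne.2 h)]
  · rw [if_neg h, if_neg (fun h' => h (pt_ne.1 h'))]

theorem pA_th (l : List (ℤ × B8)) : th (pA l) = 1 := by
  induction l with
  | nil => simp [pA]
  | cons z l ih => rw [pA_cons, map_mul, Ak_th, ih, mul_one]

theorem pA_pt (l : List (ℤ × B8)) (j : ℤ) : Fv (pA l) (pt j) = coord l j := by
  induction l with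
  | nil => simp [pA, coord, Fv_one]
  | cons z l ih =>
    rw [pA_cons, Fv_mul, pA_th, RelIso.one_apply, ih, Ak_pt]
    by_cases h : j = z.1
    · simp [coord, h]
    · have : z.1 ≠ j := fun h' => h h'.symm
      simp [coord, h, this]

end H540DG
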