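import Pool.Agent.H599R3.Ex2
import Pool.Agent.H540R3.DG5

set_option autoImplicit false

/-!
# A diagram group without Thompson's group which is neither linear nor residually finite
-/

namespace H540FL

open Pool.Agent.H599R3

/-- defining relations of Thompson's group `F` -/
def thompsonRels : Set (FreeGroup ℕ) :=
  {r | ∃ k n : ℕ, k < n ∧
    r = (FreeGroup.of k)⁻¹ * FreeGroup.of n * FreeGroup.of k * (FreeGroup.of (n + 1))⁻¹}

/-- Thompson's group `F = ⟨x₀, x₁, … | xₖ⁻¹ xₙ xₖ = xₙ₊₁ (k < n)⟩` -/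
abbrev ThompsonF : Type := PresentedGroup thompsonRels

/-- generators of `F` -/
def tx (n : ℕ) : ThompsonF := PresentedGroup.of n

theorem tx_rel {k n : ℕ} (h : k < n) : (tx k)⁻¹ * tx n * tx k = tx (n + 1) := by
  rw [← mul_inv_eq_one]
  have := PresentedGroup.one_of_mem (rels := thompsonRels)
    (x := (FreeGroup.of k)⁻¹ * FreeGroup.of n * FreeGroup.of k * (FreeGroup.of (n + 1))⁻¹)
    ⟨k, n, h, rfl⟩
  simpa [tx, PresentedGroup.of] using this

/-- commuting elements -/
def tc (i : ℕ) : ThompsonF := tx i * (tx (i + 1))⁻¹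

theorem tc_tx {i n : ℕ} (h : i + 2 ≤ n) : tc i * tx n = tx n * tc i := by
  have h1 := tx_rel (k := i + 1) (n := n) (by omega)
  have h2 := tx_rel (k := i) (n := n) (by omega)
  unfold tc
  rw [← h1] at h2
  have h3 : tx n * (tx i * (tx (i + 1))⁻¹) = tx i * ((tx i)⁻¹ * tx n * tx i) * (tx (i + 1))⁻¹ := by
    group
  rw [h3, h2]
  group

theorem tc_comm {i j : ℕ} (h : i + 2 ≤ j) : tc i * tc j = tc j * tc i := by
  have h1 := tc_tx (i := i) (n := j) h
  have h2 := tc_tx (i := i) (n := j + 1) (by omega)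
  have h3 : Commute (tc i) (tc j) := by
    change Commute (tc i) (tx j * (tx (j + 1))⁻¹)
    exact Commute.mul_right h1 (Commute.inv_right h2)
  exact h3

open H540DG in
/-- piecewise linear representation of `F` -/
def tpl : ThompsonF →* (ℚ ≃o ℚ) :=
  PresentedGroup.toGroup (f := fun n => plIso n 2 1 (by norm_num) (by norm_num)) (by
    rintro r ⟨k, n, hkn, rfl⟩
    obtain ⟨m, rfl⟩ : ∃ m, n = k + (1 + m) := ⟨n - k - 1, by omega⟩
    simp only [map_mul, map_inv, FreeGroup.lift_apply_of]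
    rw [mul_inv_eq_one, mul_assoc, inv_mul_eq_iff_eq_mul]
    ext x
    simp only [RelIso.mul_apply, plIso_apply]
    have := pl_comm k 1 2 m 1 2 (by norm_num) (by norm_num) (by norm_num) (by norm_num) x
    have e : k + (1 + m) + 1 = k + (2 + m) := by omega
    rw [e]
    exact this.symm)

open H540DG in
theorem tpl_tx (n : ℕ) (x : ℚ) : tpl (tx n) x = pl n 2 1 x := by
  unfold tpl tx
  rw [PresentedGroup.toGroup.of]
  rfl

open H540DG in
theorem tpl_tx_inv (n : ℕ) (x : ℚ) : tpl (tx n)⁻¹ x = pl n 1 2 x := by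
  rw [map_inv]
  change (tpl (tx n)).symm x = _
  rw [OrderIso.symm_apply_eq, tpl_tx, pl_inv n 1 2 (by norm_num) (by norm_num)]

open H540DG in
theorem tpl_tc_le {i : ℕ} {x : ℚ} (h : x ≤ i) : tpl (tc i) x = x := by
  unfold tc
  rw [map_mul, RelIso.mul_apply, tpl_tx_inv]
  have h1 : pl (i + 1) 1 2 x = x := by
    unfold pl; rw [if_pos]; push_cast; linarith
  rw [h1, tpl_tx]
  unfold pl; rw [if_pos h]

open H540DG in
theorem tpl_tc_ge {i : ℕ} {x : ℚ} (h : (i : ℚ) + 2 ≤ x) : tpl (tc i) x = x := by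
  unfold tc
  rw [map_mul, RelIso.mul_apply, tpl_tx_inv]
  have h1 : pl (i + 1) 1 2 x = x + 1 := by
    unfold pl
    push_cast
    rw [if_neg (by linarith)]
    by_cases h2 : x ≤ (i : ℚ) + 1 + 1
    · rw [if_pos h2]; have : x = i + 2 := by linarith
      rw [this]; ring
    · rw [if_neg h2]; ring
  rw [h1, tpl_tx]
  unfold pl
  push_cast
  rw [if_neg (by linarith), if_neg (by linarith)]
  ring

open H540DG in
theorem tpl_tc_mid (i : ℕ) : tpl (tc i) ((i : ℚ) + 1) < (i : ℚ) + 1 := by
  unfold tc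
  rw [map_mul, RelIso.mul_apply, tpl_tx_inv]
  have h1 : pl (i + 1) 1 2 ((i : ℚ) + 1) = (i : ℚ) + 1 := by
    unfold pl; rw [if_pos]; push_cast; linarith
  rw [h1, tpl_tx]
  unfold pl
  push_cast
  rw [if_neg (by linarith), if_pos (by linarith)]
  linarith

theorem zpow_fix (f : ℚ ≃o ℚ) {x : ℚ} (h : f x = x) (n : ℤ) : (f ^ n) x = x := by
  have hn : ∀ n : ℕ, (f ^ n) x = x := by
    intro n
    induction n with
    | zero => simp
    | succ n ih => rw [pow_succ, RelIso.mul_apply, h, ih]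
  rcases n with n | n
  · simpa using hn n
  · rw [zpow_negSucc]
    change (f ^ (n + 1)).symm x = x
    rw [OrderIso.symm_apply_eq, hn]

theorem zpow_move (f : ℚ ≃o ℚ) {x : ℚ} (h : f x < x) {n : ℤ} (hn : (f ^ n) x = x) : n = 0 := by
  have key : ∀ n : ℕ, n ≠ 0 → (f ^ n) x < x := by
    intro n hn
    induction n with
    | zero => exact absurd rfl hn
    | succ n ih =>
      by_cases h0 : n = 0
      · subst h0; simpa using h
      · rw [pow_succ', RelIso.mul_apply]
        exact (f.strictMono (ih h0)).trans h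
  by_contra h0
  rcases n with n | n
  · have : n ≠ 0 := fun h1 => h0 (by simp [h1])
    have h2 := key n this
    simp only [Int.ofNat_eq_natCast, zpow_natCast] at hn
    rw [hn] at h2
    exact lt_irrefl _ h2
  · have h2 := key (n + 1) (Nat.succ_ne_zero n)
    rw [zpow_negSucc] at hn
    have hn' : (f ^ (n + 1)).symm x = x := hn
    rw [OrderIso.symm_apply_eq] at hn'
    rw [← hn'] at h2
    exact lt_irrefl _ h2

/-- independence -/
theorem tc_indep {a b c : ℤ} (h : tc 0 ^ a * tc 2 ^ b * tc 4 ^ c = 1) : a = 0 ∧ b = 0 ∧ c = 0 := by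
  have h1 : ∀ x : ℚ, (tpl (tc 0) ^ a) ((tpl (tc 2) ^ b) ((tpl (tc 4) ^ c) x)) = x := by
    intro x
    have := congrArg (fun z => tpl z x) h
    simpa [map_mul, map_zpow, RelIso.mul_apply] using this
  refine ⟨?_, ?_, ?_⟩
  · have h2 := h1 ((0 : ℕ) + 1)
    rw [zpow_fix _ (tpl_tc_le (i := 4) (by norm_num)), zpow_fix _ (tpl_tc_le (i := 2) (by norm_num))]
      at h2
    exact zpow_move _ (tpl_tc_mid 0) h2
  · have h2 := h1 ((2 : ℕ) + 1)
    rw [zpow_fix _ (tpl_tc_le (i := 4) (by norm_num))] at h2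
    have h3 : (tpl (tc 2) ^ b) ((2 : ℕ) + 1) = (2 : ℕ) + 1 := by
      have h4 := congrArg (fun z => (tpl (tc 0) ^ a).symm z) h2
      simp only [OrderIso.symm_apply_apply] at h4
      have h5 : (tpl (tc 0) ^ a) ((2 : ℕ) + 1) = (2 : ℕ) + 1 :=
        zpow_fix _ (tpl_tc_ge (i := 0) (by norm_num)) a
      rw [h4, OrderIso.symm_apply_eq, h5]
    exact zpow_move _ (tpl_tc_mid 2) h3
  · have h2 := h1 ((4 : ℕ) + 1)
    have h5 : (tpl (tc 0) ^ a) ((4 : ℕ) + 1) = (4 : ℕ) + 1 :=
      zpow_fix _ (tpl_tc_ge (i := 0) (by norm_num)) a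
    have h6 : (tpl (tc 2) ^ b) ((4 : ℕ) + 1) = (4 : ℕ) + 1 :=
      zpow_fix _ (tpl_tc_ge (i := 2) (by norm_num)) b
    have h4 := congrArg (fun z => (tpl (tc 2) ^ b).symm ((tpl (tc 0) ^ a).symm z)) h2
    simp only [OrderIso.symm_apply_apply] at h4
    have h7 : (tpl (tc 4) ^ c) ((4 : ℕ) + 1) = (4 : ℕ) + 1 := by
      rw [h4]
      rw [OrderIso.symm_apply_eq, OrderIso.symm_apply_eq, h6, h5]
    exact zpow_move _ (tpl_tc_mid 4) h7

/-- two commuting elements have a nontrivial relation in a free quotient -/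
theorem rel_of_comm {G α : Type} [Group G] (π : G →* FreeGroup α) {x y : G} (h : x * y = y * x) :
    ∃ a b : ℤ, (a ≠ 0 ∨ b ≠ 0) ∧ π (x ^ a * y ^ b) = 1 := by
  obtain ⟨z, m, n, hm, hn⟩ := comm_free (π x) (π y) (by rw [← map_mul, h, map_mul])
  by_cases h0 : n ≠ 0 ∨ m ≠ 0
  · refine ⟨n, -m, ?_, ?_⟩
    · rcases h0 with h0 | h0
      · exact Or.inl h0
      · right; simpa using h0
    · rw [map_mul, map_zpow, map_zpow, hm, hn, ← zpow_mul, ← zpow_mul, ← zpow_add]
      have : m * n + n * -m = 0 := by ring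
      rw [this, zpow_zero]
  · push Not at h0
    refine ⟨1, 0, Or.inl one_ne_zero, ?_⟩
    rw [zpow_one, zpow_zero, mul_one, hm, h0.2, zpow_zero]

theorem gg_rel {s1 s2 : GG} (h1 : s1.right = 1) (h2 : s2.right = 1) (h : s1 * s2 = s2 * s1) :
    ∃ k l : ℤ, (k ≠ 0 ∨ l ≠ 0) ∧ s1 ^ k * s2 ^ l = 1 := by
  have e1 : s1 = SemidirectProduct.inl s1.left := by
    apply SemidirectProduct.ext
    · simp
    · simpa using h1
  have e2 : s2 = SemidirectProduct.inl s2.left := by
    apply SemidirectProduct.ext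
    · simp
    · simpa using h2
  have hc : s1.left * s2.left = s2.left * s1.left := by
    apply SemidirectProduct.inl_injective (φ := aho)
    rw [map_mul, map_mul, ← e1, ← e2, h]
  obtain ⟨k, l, hkl, hr⟩ := rel_of_comm (MonoidHom.id (FreeGroup Om)) hc
  refine ⟨k, l, hkl, ?_⟩
  rw [e1, e2, ← map_zpow, ← map_zpow, ← map_mul]
  have hr' : s1.left ^ k * s2.left ^ l = 1 := hr
  rw [hr', map_one]

/-- Thompson's group does not embed -/
theorem no_F (φ : ThompsonF →* DD) : ¬ Function.Injective φ := by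
  intro hφ
  let j : ThompsonF →* GG := LL.comp φ
  have hj : Function.Injective j := LL_inj.comp hφ
  let π : GG →* FreeGroup Bool := SemidirectProduct.rightHom
  have c02 : tc 0 * tc 2 = tc 2 * tc 0 := tc_comm (by norm_num)
  have c24 : tc 2 * tc 4 = tc 4 * tc 2 := tc_comm (by norm_num)
  have c04 : tc 0 * tc 4 = tc 4 * tc 0 := tc_comm (by norm_num)
  have C02 : Commute (tc 0) (tc 2) := c02
  have C24 : Commute (tc 2) (tc 4) := c24
  have C04 : Commute (tc 0) (tc 4) := c04
  obtain ⟨a, b, hab, hr⟩ := rel_of_comm (π.comp j) c02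
  by_cases ha : a = 0
  · have hb : b ≠ 0 := by
      rcases hab with h | h
      · exact absurd ha h
      · exact h
    subst ha
    obtain ⟨a', c', hac, hr'⟩ := rel_of_comm (π.comp j) c04
    have hcc : Commute (tc 0 ^ (0 : ℤ) * tc 2 ^ b) (tc 0 ^ a' * tc 4 ^ c') := by
      rw [zpow_zero, one_mul]
      exact Commute.mul_right ((C02.symm.zpow_zpow _ _)) (C24.zpow_zpow _ _)
    obtain ⟨k, l, hkl, hrel⟩ := gg_rel (s1 := j (tc 0 ^ (0 : ℤ) * tc 2 ^ b))
      (s2 := j (tc 0 ^ a' * tc 4 ^ c')) hr hr' (by rw [← map_mul, hcc.eq, map_mul])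
    rw [← map_zpow, ← map_zpow, ← map_mul] at hrel
    have h1 := hj (hrel.trans (map_one j).symm)
    have h2 : tc 0 ^ (a' * l) * tc 2 ^ (b * k) * tc 4 ^ (c' * l) = 1 := by
      rw [← h1, zpow_zero, one_mul, (C04.zpow_zpow a' c').mul_zpow, ← zpow_mul, ← zpow_mul,
        ← zpow_mul, ← mul_assoc, (C02.zpow_zpow (a' * l) (b * k)).eq]
    obtain ⟨e1, e2, e3⟩ := tc_indep h2
    have hk : k = 0 := by
      rcases mul_eq_zero.1 e2 with h | h
      · exact absurd h hb
      · exact h
    have hl : l ≠ 0 := by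
      rcases hkl with h | h
      · exact absurd hk h
      · exact h
    rcases hac with h | h
    · exact (mul_ne_zero h hl) e1
    · exact (mul_ne_zero h hl) e3
  · obtain ⟨b', c', hbc, hr'⟩ := rel_of_comm (π.comp j) c24
    have hcc : Commute (tc 0 ^ a * tc 2 ^ b) (tc 2 ^ b' * tc 4 ^ c') := by
      apply Commute.mul_left
      · exact Commute.mul_right (C02.zpow_zpow _ _) (C04.zpow_zpow _ _)
      · exact Commute.mul_right ((Commute.refl _).zpow_zpow _ _) (C24.zpow_zpow _ _)
    obtain ⟨k, l, hkl, hrel⟩ := gg_rel (s1 := j (tc 0 ^ a * tc 2 ^ b))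
      (s2 := j (tc 2 ^ b' * tc 4 ^ c')) hr hr' (by rw [← map_mul, hcc.eq, map_mul])
    rw [← map_zpow, ← map_zpow, ← map_mul] at hrel
    have h1 := hj (hrel.trans (map_one j).symm)
    have h2 : tc 0 ^ (a * k) * tc 2 ^ (b * k + b' * l) * tc 4 ^ (c' * l) = 1 := by
      rw [← h1, (C02.zpow_zpow a b).mul_zpow, (C24.zpow_zpow b' c').mul_zpow, ← zpow_mul,
        ← zpow_mul, ← zpow_mul, ← zpow_mul, zpow_add]
      simp only [mul_assoc]
    obtain ⟨e1, e2, e3⟩ := tc_indep h2
    have hk : k = 0 := by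
      rcases mul_eq_zero.1 e1 with h | h
      · exact absurd h ha
      · exact h
    have hl : l ≠ 0 := by
      rcases hkl with h | h
      · exact absurd hk h
      · exact h
    rw [hk, mul_zero, zero_add] at e2
    rcases hbc with h | h
    · exact (mul_ne_zero h hl) e2
    · exact (mul_ne_zero h hl) e3

/-- the special elements -/
noncomputable def et : DD := rho0 false
/-- the special elements -/
noncomputable def eu : DD := rho0 true * et⁻¹ * et⁻¹

theorem eu_comm (n : ℕ) : eu * (et⁻¹ ^ n * lam0 0 * et ^ n) = (et⁻¹ ^ n * lam0 0 * et ^ n) * eu := by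
  have h1 : ∀ n, lam0 (n + 1) = et⁻¹ * lam0 n * et := by
    intro n
    have := lam_rho false n
    rw [mul_assoc, et, this, inv_mul_cancel_left]
    rfl
  have h2 : ∀ n : ℕ, lam0 n = et⁻¹ ^ n * lam0 0 * et ^ n := by
    intro n
    induction n with
    | zero => simp
    | succ n ih =>
      rw [h1, ih, pow_succ', pow_succ]
      simp only [mul_assoc]
  rw [← h2]
  have h4 := lam_rho true n
  have h5 : lam0 (n + 2) = et⁻¹ * et⁻¹ * lam0 n * et * et := by
    rw [h1 (n + 1), h1 n]; group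
  have h6 : lam0 (n + amt true) = lam0 (n + 2) := rfl
  rw [h6, h5] at h4
  have h7 : lam0 n * eu = lam0 n * rho0 true * et⁻¹ * et⁻¹ := by rw [eu]; group
  rw [h7, h4, eu]
  group

theorem eu_not_comm : eu * (et * lam0 0 * et⁻¹) ≠ (et * lam0 0 * et⁻¹) * eu := by
  intro h9
  have h10 := congrArg LL h9
  rw [eu, et] at h10
  simp only [map_mul, map_inv, LL_rho, LL_lam] at h10
  set g : F2 := FreeGroup.of true * (FreeGroup.of false)⁻¹ * (FreeGroup.of false)⁻¹ with hg
  have h11 : rr false * ell 0 * (rr false)⁻¹ =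
      SemidirectProduct.inl (FreeGroup.of (om (FreeGroup.of false) 0)) := by
    unfold rr ell
    rw [gg_conj, smul_om, mul_one, mul_inv_cancel_right]
  have h12 : rr true * (rr false)⁻¹ * (rr false)⁻¹ = (SemidirectProduct.inr g : GG) := by
    unfold rr
    rw [hg, map_mul, map_mul, map_inv]
  rw [h11, h12, gg_conj, smul_om] at h10
  have h13 := mul_right_cancel h10
  have h14 := FreeGroup.of_injective (SemidirectProduct.inl_injective h13)
  have h15 := congrArg inva h14
  rw [inva_om, inva_om, hg] at h15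
  simp only [map_mul, map_inv, Equiv.Perm.mul_apply] at h15
  unfold tau at h15
  simp only [FreeGroup.lift_apply_of] at h15
  norm_num [Equiv.Perm.inv_def] at h15

/-- not residually finite -/
theorem not_rf : ¬ Group.ResiduallyFinite DD := by
  intro h
  rw [Group.residuallyFinite_iff_forall_finiteIndexNormalSubgroup] at h
  apply eu_not_comm
  apply rfin_half (G := DD) ?_ eu (lam0 0) et eu_comm
  intro g hg
  by_contra hcon
  apply hg
  apply h
  intro N
  by_contra hN
  apply hcon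
  refine ⟨DD ⧸ N.toSubgroup, inferInstance, ?_, QuotientGroup.mk' N.toSubgroup, ?_⟩
  · exact Subgroup.finite_quotient_of_finiteIndex
  · intro h1
    apply hN
    exact (QuotientGroup.eq_one_iff g).1 h1

/-- commuting with half an orbit in finite dimension -/
theorem lin_half {K E : Type*} [Field K] [Ring E] [Algebra K E] [FiniteDimensional K E]
    (u l : E) (t : Eˣ)
    (hc : ∀ n : ℕ, u * ((↑(t⁻¹ ^ n) : E) * l * (↑(t ^ n) : E)) =
      ((↑(t⁻¹ ^ n) : E) * l * (↑(t ^ n) : E)) * u) :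
    u * ((t : E) * l * (↑t⁻¹ : E)) = ((t : E) * l * (↑t⁻¹ : E)) * u := by
  let c : E →ₗ[K] E := (LinearMap.mulRight K (t : E)).comp (LinearMap.mulLeft K (↑t⁻¹ : E))
  have hcv : ∀ x, c x = (↑t⁻¹ : E) * x * (t : E) := fun x => rfl
  let V : Submodule K E := Submodule.span K (Set.range fun n : ℕ => (c ^ n) l)
  have hcn : ∀ n : ℕ, (c ^ n) l = (↑(t⁻¹ ^ n) : E) * l * (↑(t ^ n) : E) := by
    intro n
    induction n with
    | zero => simp
    | succ n ih =>
      rw [pow_succ', Module.End.mul_apply, ih, hcv, pow_succ' t⁻¹, pow_succ t]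
      push_cast
      simp only [mul_assoc]
  have hV : ∀ x ∈ V, c x ∈ V := by
    intro x hx
    have : V ≤ V.comap c := by
      apply Submodule.span_le.2
      rintro _ ⟨n, rfl⟩
      apply Submodule.subset_span
      exact ⟨n + 1, by simp only [pow_succ', Module.End.mul_apply]⟩
    exact this hx
  have hinj : Function.Injective (c.restrict hV) := by
    intro x y hxy
    apply Subtype.ext
    have h1 : c x.1 = c y.1 := congrArg Subtype.val hxy
    rw [hcv, hcv] at h1
    have h2 := congrArg (fun z => (t : E) * z * (↑t⁻¹ : E)) h1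
    simpa [mul_assoc] using h2
  have hsurj := LinearMap.surjective_of_injective hinj
  have hl : l ∈ V := Submodule.subset_span ⟨0, by simp⟩
  obtain ⟨y, hy⟩ := hsurj ⟨l, hl⟩
  have h1 : c y.1 = l := congrArg Subtype.val hy
  rw [hcv] at h1
  have h2 : (t : E) * l * (↑t⁻¹ : E) = y.1 := by
    rw [← h1]; simp [mul_assoc]
  rw [h2]
  -- elements of `V` commute with `u`
  have h3 : V ≤ LinearMap.ker (LinearMap.mulLeft K u - LinearMap.mulRight K u) := by
    apply Submodule.span_le.2
    rintro _ ⟨n, rfl⟩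
    simp only [SetLike.mem_coe, LinearMap.mem_ker, LinearMap.sub_apply, LinearMap.mulLeft_apply,
      LinearMap.mulRight_apply]
    rw [hcn, hc, sub_self]
  have h4 := h3 y.2
  simp only [LinearMap.mem_ker, LinearMap.sub_apply, LinearMap.mulLeft_apply,
      LinearMap.mulRight_apply] at h4
  exact sub_eq_zero.1 h4

/-- not linear -/
theorem not_linear {n : ℕ} {K : Type*} [Field K] (φ : DD →* Matrix.GeneralLinearGroup (Fin n) K) :
    ¬ Function.Injective φ := by
  intro hφ
  apply eu_not_comm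
  apply hφ
  apply Units.ext
  have h := lin_half (K := K) (E := Matrix (Fin n) (Fin n) K) (φ eu : Matrix (Fin n) (Fin n) K)
    (φ (lam0 0) : Matrix (Fin n) (Fin n) K) (φ et) (by
      intro m
      have h1 := congrArg (fun z => ((φ z : Matrix.GeneralLinearGroup (Fin n) K) :
        Matrix (Fin n) (Fin n) K)) (eu_comm m)
      simpa only [map_mul, map_pow, map_inv, Units.val_mul] using h1)
  simpa only [map_mul, map_inv, Units.val_mul] using h

end H540FL
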