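import Mathlib
import Pool.Agent.Helper677.FreeRTFN

set_option autoImplicit false

/-!
# Free groups are cyclic subgroup separable
-/

namespace Pool.Agent.H540R3

open Pool.Agent.Helper677.RTFN

/-- Commuting elements of a free group are powers of a common element
(after Helper889 / helper189). -/
theorem exists_root {G : Type} [Group G] [IsFreeGroup G] {b c : G} (h : Commute b c) :
    ∃ r : G, ∃ i j : ℤ, b = r ^ i ∧ c = r ^ j := by
  let H : Subgroup G := Subgroup.closure {b, c}
  have hb : b ∈ H := Subgroup.subset_closure (by simp)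
  have hc : c ∈ H := Subgroup.subset_closure (by simp)
  have hcomm : ∀ x ∈ ({b, c} : Set G), ∀ y ∈ ({b, c} : Set G), x * y = y * x := by
    rintro x (rfl | rfl) y (rfl | rfl)
    · rfl
    · exact h
    · exact h.symm
    · rfl
  have hH : ∀ x y : H, x * y = y * x := by
    intro x y
    have := (Subgroup.isMulCommutative_closure hcomm).is_comm.comm x y
    exact this
  let Y := IsFreeGroup.Generators H
  let e : H ≃* FreeGroup Y := IsFreeGroup.toFreeGroup H
  have hsub : Subsingleton Y := by
    constructor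
    intro x y
    by_contra hxy
    have h1 : (FreeGroup.of x : FreeGroup Y) * FreeGroup.of y
        = FreeGroup.of y * FreeGroup.of x := by
      apply e.symm.injective
      rw [map_mul, map_mul, hH]
    classical
    have h2 := congrArg FreeGroup.toWord h1
    simp only [FreeGroup.toWord_mul, FreeGroup.toWord_of] at h2
    have h3 : FreeGroup.reduce ([(x, true)] ++ [(y, true)]) = [(x, true), (y, true)] := by
      simp [FreeGroup.reduce, hxy]
    have h4 : FreeGroup.reduce ([(y, true)] ++ [(x, true)]) = [(y, true), (x, true)] := by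
      simp [FreeGroup.reduce]
    rw [h3, h4] at h2
    simp at h2
    exact hxy h2.1
  have hcyc : ∃ r : FreeGroup Y, ∀ z : FreeGroup Y, ∃ i : ℤ, z = r ^ i := by
    rcases isEmpty_or_nonempty Y with hY | ⟨⟨y⟩⟩
    · exact ⟨1, fun z => ⟨0, Subsingleton.elim _ _⟩⟩
    · refine ⟨FreeGroup.of y, fun z => ?_⟩
      have hz : z ∈ Subgroup.closure (Set.range (FreeGroup.of : Y → FreeGroup Y)) := by
        rw [FreeGroup.closure_range_of]; trivial
      have hr : Set.range (FreeGroup.of : Y → FreeGroup Y) = {FreeGroup.of y} := by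
        ext w
        constructor
        · rintro ⟨y', rfl⟩
          rw [Subsingleton.elim y' y]; rfl
        · rintro rfl
          exact ⟨y, rfl⟩
      rw [hr] at hz
      obtain ⟨i, hi⟩ := Subgroup.mem_closure_singleton.1 hz
      exact ⟨i, hi.symm⟩
  obtain ⟨r, hr⟩ := hcyc
  obtain ⟨i, hi⟩ := hr (e ⟨b, hb⟩)
  obtain ⟨j, hj⟩ := hr (e ⟨c, hc⟩)
  refine ⟨((e.symm r : H) : G), i, j, ?_, ?_⟩
  · have : (⟨b, hb⟩ : H) = (e.symm r) ^ i := by
      apply e.injective
      rw [hi, map_zpow, e.apply_symm_apply]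
    have h2 := congrArg (fun x : H => (x : G)) this
    simpa using h2
  · have : (⟨c, hc⟩ : H) = (e.symm r) ^ j := by
      apply e.injective
      rw [hj, map_zpow, e.apply_symm_apply]
    have h2 := congrArg (fun x : H => (x : G)) this
    simpa using h2

/-- In a free group every nontrivial element has, in some finite quotient, order divisible by a
given positive integer. -/
theorem exists_order {α : Type} [DecidableEq α] (w : FreeGroup α) (hw : w ≠ 1) (k : ℕ)
    (hk : 0 < k) :
    ∃ (Q : Type) (_ : Group Q) (_ : Finite Q) (θ : FreeGroup α →* Q), k ∣ orderOf (θ w) := by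
  obtain ⟨m, φ, hφ⟩ := free_rtfn w hw
  set X : Matrix (Fin m) (Fin m) ℤ := ((φ w : (Matrix (Fin m) (Fin m) ℤ)ˣ) :
    Matrix (Fin m) (Fin m) ℤ) with hX
  have hX1 : X ≠ 1 := by
    intro h
    apply hφ
    apply Subtype.ext
    apply Units.ext
    exact h
  -- the depth of X - 1
  have hex : ∃ p, X - 1 ∉ J m (p + 1) := by
    by_contra hcon
    push Not at hcon
    have h2 := J_top (J_anti (Nat.le_succ m) (hcon m))
    exact hX1 (sub_eq_zero.1 h2)
  classical
  obtain ⟨p, hp, hpmin⟩ : ∃ p, X - 1 ∉ J m (p + 1) ∧ ∀ q < p, X - 1 ∈ J m (q + 1) :=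
    ⟨Nat.find hex, Nat.find_spec hex, fun q hq => by
      have := Nat.find_min hex hq
      push Not at this
      exact this⟩
  have hp1 : 1 ≤ p := by
    rcases Nat.eq_zero_or_pos p with h | h
    · exfalso
      subst h
      exact hp (φ w).2.1
    · exact h
  have hXp : X - 1 ∈ J m p := by
    have := hpmin (p - 1) (by omega)
    rwa [Nat.sub_add_cancel hp1] at this
  rw [mem_J] at hp
  push Not at hp
  obtain ⟨a, b, hab, hd⟩ := hp
  set d : ℤ := (X - 1) a b with hd'
  have hpow : ∀ j : ℕ, (X ^ j - 1) a b = j * d := by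
    intro j
    have h1 := pow_aux hp1 hXp j a b hab
    rw [Matrix.sub_apply, Matrix.smul_apply, sub_eq_zero, nsmul_eq_mul] at h1
    exact h1
  set n : ℕ := k * d.natAbs with hn
  have hn0 : n ≠ 0 := Nat.mul_ne_zero hk.ne' (Int.natAbs_ne_zero.2 hd)
  have : NeZero n := ⟨hn0⟩
  let ρ : Matrix (Fin m) (Fin m) ℤ →+* Matrix (Fin m) (Fin m) (ZMod n) :=
    (Int.castRingHom (ZMod n)).mapMatrix
  let θ : FreeGroup α →* (Matrix (Fin m) (Fin m) (ZMod n))ˣ :=
    (Units.map ρ.toMonoidHom).comp ((U m 1).subtype.comp φ)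
  refine ⟨(Matrix (Fin m) (Fin m) (ZMod n))ˣ, inferInstance, inferInstance, θ, ?_⟩
  set j := orderOf (θ w) with hj
  have h1 : θ w ^ j = 1 := pow_orderOf_eq_one _
  have h2 : ρ (X ^ j) = 1 := by
    have := congrArg (fun u : (Matrix (Fin m) (Fin m) (ZMod n))ˣ =>
      (u : Matrix (Fin m) (Fin m) (ZMod n))) h1
    simpa [θ] using this
  have h3 : ((((X ^ j - 1) a b : ℤ)) : ZMod n) = 0 := by
    have h4 : ρ (X ^ j - 1) = 0 := by rw [map_sub, h2, map_one, sub_self]
    have h5 := congrFun (congrFun h4 a) b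
    simpa [ρ] using h5
  rw [hpow, ZMod.intCast_zmod_eq_zero_iff_dvd] at h3
  have h4 : ((k : ℤ) * d) ∣ (j : ℤ) * d := by
    rw [← Int.natAbs_dvd_natAbs]
    have h5 := Int.natAbs_dvd_natAbs.2 h3
    simpa only [hn, Nat.cast_mul, Int.natAbs_mul, Int.natAbs_natCast] using h5
  exact Int.natCast_dvd_natCast.1 (Int.dvd_of_mul_dvd_mul_right hd h4)

/-- Free groups are cyclic subgroup separable. -/
theorem free_css {α : Type} [DecidableEq α] (g h : FreeGroup α) (hh : h ∉ Subgroup.zpowers g) :
    ∃ (Q : Type) (_ : Group Q) (_ : Finite Q) (θ : FreeGroup α →* Q),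
      θ h ∉ Subgroup.zpowers (θ g) := by
  by_cases hc : Commute g h
  · obtain ⟨u, i, j, rfl, rfl⟩ := exists_root hc
    have hu : u ≠ 1 := by
      rintro rfl
      apply hh
      simp
    by_cases hi : i = 0
    · subst hi
      have hj : j ≠ 0 := by
        rintro rfl
        apply hh
        simp
      obtain ⟨Q, _, _, θ, hθ⟩ := exists_order u hu (j.natAbs + 1) (by omega)
      refine ⟨Q, inferInstance, inferInstance, θ, fun hcon => ?_⟩
      have h1 : (θ u) ^ j = 1 := by simpa using hcon
      have h2 := orderOf_dvd_iff_zpow_eq_one.2 h1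
      have h3 : j.natAbs + 1 ∣ j.natAbs :=
        hθ.trans (by simpa using Int.natAbs_dvd_natAbs.2 h2)
      have h4 := Nat.le_of_dvd (Int.natAbs_pos.2 hj) h3
      omega
    · obtain ⟨Q, _, _, θ, hθ⟩ := exists_order u hu i.natAbs (Int.natAbs_pos.2 hi)
      refine ⟨Q, inferInstance, inferInstance, θ, fun hcon => ?_⟩
      obtain ⟨s, hs⟩ := Subgroup.mem_zpowers_iff.1 hcon
      rw [map_zpow, map_zpow, ← zpow_mul] at hs
      have h1 : (θ u) ^ (j - i * s) = 1 := by rw [zpow_sub, hs, mul_inv_cancel]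
      have h2 := orderOf_dvd_iff_zpow_eq_one.2 h1
      have h3 : i ∣ j - i * s := by
        have h4 : (i.natAbs : ℤ) ∣ j - i * s := (Int.natCast_dvd_natCast.2 hθ).trans h2
        exact Int.natAbs_dvd.1 h4
      have h4 : i ∣ j := by
        have := dvd_add h3 (Dvd.intro s rfl)
        simpa using this
      obtain ⟨q, rfl⟩ := h4
      apply hh
      rw [zpow_mul]
      exact Subgroup.zpow_mem _ (Subgroup.mem_zpowers _) _
  · have hne : g * h * g⁻¹ * h⁻¹ ≠ 1 := by
      intro h1
      apply hc
      have h2 := mul_inv_eq_one.1 h1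
      exact mul_inv_eq_iff_eq_mul.1 h2
    obtain ⟨Q, _, _, θ, hθ⟩ := exists_order _ hne 2 (by norm_num)
    refine ⟨Q, inferInstance, inferInstance, θ, fun hcon => ?_⟩
    obtain ⟨s, hs⟩ := Subgroup.mem_zpowers_iff.1 hcon
    have h1 : θ (g * h * g⁻¹ * h⁻¹) = 1 := by
      simp only [map_mul, map_inv, ← hs]
      group
    rw [h1, orderOf_one] at hθ
    omega

end Pool.Agent.H540R3
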