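import Mathlib
import Pool.Agent.H540R3.FreeCSS

set_option autoImplicit false

/-!
# Gersten's free-by-cyclic group
-/

namespace Pool.Agent.H540R3.Ger

/-- The free group of rank three. -/
abbrev F : Type := FreeGroup (Fin 3)

/-- The letter `a`. -/
abbrev a : F := FreeGroup.of 0

/-- The infinite cyclic group. -/
abbrev Z : Type := Multiplicative ℤ

/-- The automorphism `a ↦ a`, `b ↦ a b`, `c ↦ a a c`. -/
def φ : MulAut F :=
  MonoidHom.toMulEquiv
    (FreeGroup.lift ![FreeGroup.of 0, FreeGroup.of 0 * FreeGroup.of 1,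
      FreeGroup.of 0 * FreeGroup.of 0 * FreeGroup.of 2])
    (FreeGroup.lift ![FreeGroup.of 0, (FreeGroup.of 0)⁻¹ * FreeGroup.of 1,
      (FreeGroup.of 0)⁻¹ * (FreeGroup.of 0)⁻¹ * FreeGroup.of 2])
    (by ext i; fin_cases i <;> simp [mul_assoc])
    (by ext i; fin_cases i <;> simp [mul_assoc])

@[simp] lemma φ_zero : φ (FreeGroup.of 0) = FreeGroup.of 0 := by simp [φ]
@[simp] lemma φ_one : φ (FreeGroup.of 1) = FreeGroup.of 0 * FreeGroup.of 1 := by simp [φ]
@[simp] lemma φ_two : φ (FreeGroup.of 2) = FreeGroup.of 0 * FreeGroup.of 0 * FreeGroup.of 2 := by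
  simp [φ]

/-- The action of the cyclic group. -/
def ψ : Z →* MulAut F := zpowersHom _ φ

lemma ψ_apply (n : Z) : ψ n = φ ^ (Multiplicative.toAdd n) := by simp [ψ]

/-- The group `F ⋊ ℤ`. -/
abbrev G : Type := F ⋊[ψ] Z

lemma φ_zpow_a (n : ℤ) : (φ ^ n) a = a := by
  induction n with
  | zero => simp
  | succ n ih => rw [zpow_add_one, MulAut.mul_apply, φ_zero, ih]
  | pred n ih =>
    rw [zpow_sub_one, MulAut.mul_apply]
    have : φ⁻¹ a = a := by rw [MulAut.inv_apply, MulEquiv.symm_apply_eq, φ_zero]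
    rw [this, ih]

lemma ψ_a (n : Z) : ψ n a = a := by rw [ψ_apply, φ_zpow_a]

lemma ψ_zpow_a (n : Z) (i : ℤ) : ψ n (a ^ i) = a ^ i := by rw [map_zpow, ψ_a]

/-- Letters other than `a` are multiplied on the left by powers of `a`. -/
lemma φ_zpow_letter (k : Fin 3) (hk : k ≠ 0) (n : ℤ) :
    ∃ i : ℤ, (φ ^ n) (FreeGroup.of k) = a ^ i * FreeGroup.of k := by
  have h1 : ∃ j : ℤ, φ (FreeGroup.of k) = a ^ j * FreeGroup.of k := by
    fin_cases k
    · exact absurd rfl hk
    · exact ⟨1, by simp⟩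
    · exact ⟨2, by simp [zpow_ofNat, pow_two]⟩
  obtain ⟨j, hj⟩ := h1
  have h2 : φ⁻¹ (FreeGroup.of k) = a ^ (-j) * FreeGroup.of k := by
    have h3 : (φ⁻¹) (a ^ j) = a ^ j := by
      rw [MulAut.inv_apply, MulEquiv.symm_apply_eq, map_zpow, φ_zero]
    have h4 : φ⁻¹ (φ (FreeGroup.of k)) = FreeGroup.of k := by simp
    rw [hj, map_mul, h3] at h4
    rw [zpow_neg, eq_inv_mul_iff_mul_eq, h4]
  induction n with
  | zero => exact ⟨0, by simp⟩
  | succ n ih =>
    obtain ⟨i, hi⟩ := ih
    refine ⟨j + i, ?_⟩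
    rw [zpow_add_one, MulAut.mul_apply, hj, map_mul, map_zpow, φ_zpow_a, hi, ← mul_assoc, ← zpow_add]
  | pred n ih =>
    obtain ⟨i, hi⟩ := ih
    refine ⟨-j + i, ?_⟩
    rw [zpow_sub_one, MulAut.mul_apply, h2, map_mul, map_zpow, φ_zpow_a, hi, ← mul_assoc,
      ← zpow_add]

lemma ψ_letter (k : Fin 3) (hk : k ≠ 0) (n : Z) :
    ∃ i : ℤ, ψ n (FreeGroup.of k) = a ^ i * FreeGroup.of k := by
  rw [ψ_apply]; exact φ_zpow_letter k hk _

/-- The vertex group `⟨a, t⟩`. -/
def H : Subgroup G where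
  carrier := {g | g.left ∈ Subgroup.zpowers a}
  one_mem' := by
    change (1 : G).left ∈ Subgroup.zpowers a
    exact Subgroup.one_mem _
  mul_mem' := by
    rintro x y hx ⟨i, hi⟩
    change (x * y).left ∈ Subgroup.zpowers a
    rw [SemidirectProduct.mul_left]
    refine Subgroup.mul_mem _ hx ?_
    have : y.left = a ^ i := hi.symm
    rw [this, ψ_zpow_a]
    exact ⟨i, rfl⟩
  inv_mem' := by
    rintro x ⟨i, hi⟩
    change (x⁻¹).left ∈ Subgroup.zpowers a
    rw [SemidirectProduct.inv_left]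
    have : x.left = a ^ i := hi.symm
    rw [this, ← zpow_neg, ψ_zpow_a]
    exact ⟨-i, rfl⟩

lemma mem_H {g : G} : g ∈ H ↔ g.left ∈ Subgroup.zpowers a := Iff.rfl

/-- Vertices of the tree. -/
abbrev V : Type := G ⧸ H

/-- The vertex of an element of the free group. -/
def vt (f : F) : V := ((SemidirectProduct.inl f : G) : G ⧸ H)

lemma mk_eq (g : G) : ((g : G) : G ⧸ H) = vt g.left := by
  unfold vt
  rw [QuotientGroup.eq]
  rw [mem_H]
  simp only [SemidirectProduct.mul_left, SemidirectProduct.inv_left, SemidirectProduct.left_inl,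
    SemidirectProduct.inv_right]
  rw [← map_mul, inv_mul_cancel, map_one]
  exact Subgroup.one_mem _

lemma exists_vt (v : V) : ∃ f, v = vt f := by
  induction v using QuotientGroup.induction_on with
  | H g => exact ⟨g.left, mk_eq g⟩

lemma vt_eq {f f' : F} : vt f = vt f' ↔ f⁻¹ * f' ∈ Subgroup.zpowers a := by
  unfold vt
  rw [QuotientGroup.eq, mem_H, ← map_inv, ← map_mul, SemidirectProduct.left_inl]

lemma vt_mul_a (f : F) (i : ℤ) : vt (f * a ^ i) = vt f := by
  rw [eq_comm, vt_eq, inv_mul_cancel_left]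
  exact ⟨i, rfl⟩

lemma smul_vt (g : G) (f : F) : g • vt f = vt (g.left * ψ g.right f) := by
  have h : g • vt f = (((g * SemidirectProduct.inl f : G)) : G ⧸ H) := rfl
  rw [h, mk_eq, SemidirectProduct.mul_left, SemidirectProduct.left_inl]

/-- Dropping the leading letters `a`. -/
def strip (L : List (Fin 3 × Bool)) : List (Fin 3 × Bool) := L.dropWhile (fun x => decide (x.1 = 0))

lemma strip_cons_zero (x : Fin 3 × Bool) (hx : x.1 = 0) (L : List (Fin 3 × Bool)) :
    strip (x :: L) = strip L := by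
  simp [strip, hx]

lemma strip_cons_ne (x : Fin 3 × Bool) (hx : x.1 ≠ 0) (L : List (Fin 3 × Bool)) :
    strip (x :: L) = x :: L := by
  simp [strip, hx]

lemma strip_length (L : List (Fin 3 × Bool)) : (strip L).length ≤ L.length :=
  (List.dropWhile_sublist _).length_le

/-- Left multiplication by a letter, on reduced words. -/
lemma toWord_cons (x : Fin 3 × Bool) (f : F) :
    (FreeGroup.mk [x] * f).toWord = FreeGroup.reduce (x :: f.toWord) := by
  conv_lhs => rw [← FreeGroup.mk_toWord (x := f)]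
  rw [FreeGroup.mul_mk, FreeGroup.toWord_mk]
  rfl

lemma reduce_cons_word (x : Fin 3 × Bool) (f : F) :
    FreeGroup.reduce (x :: f.toWord) = x :: f.toWord ∨
      ∃ L, f.toWord = (x.1, !x.2) :: L ∧ FreeGroup.reduce (x :: f.toWord) = L := by
  rw [FreeGroup.reduce.cons, FreeGroup.reduce_toWord]
  cases h : f.toWord with
  | nil => left; rfl
  | cons hd tl =>
    by_cases h1 : x.1 = hd.1 ∧ x.2 = !hd.2
    · right
      refine ⟨tl, ?_, ?_⟩
      · obtain ⟨h2, h3⟩ := h1
        congr 1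
        ext1
        · exact h2.symm
        · rw [h3]; simp
      · simp [h1]
    · left
      simp only [h1, if_false]

/-- The stripped word of `f⁻¹`. -/
def sw (f : F) : List (Fin 3 × Bool) := strip (f⁻¹).toWord

lemma sw_letter (f : F) (e : Bool) : sw (f * (FreeGroup.mk [((0 : Fin 3), e)])⁻¹) = sw f := by
  unfold sw
  rw [mul_inv_rev, inv_inv, toWord_cons]
  rcases reduce_cons_word ((0 : Fin 3), e) f⁻¹ with h | ⟨L, h1, h2⟩
  · rw [h, strip_cons_zero _ rfl]
  · rw [h2, h1, strip_cons_zero _ rfl]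

lemma sw_mul_a (f : F) : sw (f * a) = sw f := by
  have h := sw_letter f false
  have h2 : (FreeGroup.mk [((0 : Fin 3), false)])⁻¹ = a := by
    rw [FreeGroup.inv_mk]; rfl
  rwa [h2] at h

lemma sw_mul_a_inv (f : F) : sw (f * a⁻¹) = sw f := by
  have h := sw_mul_a (f * a⁻¹)
  rw [inv_mul_cancel_right] at h
  exact h.symm

lemma sw_mul_zpow (f : F) (i : ℤ) : sw (f * a ^ i) = sw f := by
  induction i with
  | zero => simp
  | succ n ih => rw [zpow_add_one, ← mul_assoc, sw_mul_a, ih]
  | pred n ih => rw [zpow_sub_one, ← mul_assoc, sw_mul_a_inv, ih]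

/-- The stripped word of a vertex. -/
noncomputable def sv (v : V) : List (Fin 3 × Bool) := sw (exists_vt v).choose

lemma sv_vt (f : F) : sv (vt f) = sw f := by
  unfold sv
  have h := (exists_vt (vt f)).choose_spec
  rw [vt_eq] at h
  obtain ⟨i, hi⟩ := h
  have h2 : (exists_vt (vt f)).choose = f * a ^ i := by
    change a ^ i = _ at hi
    rw [hi, mul_inv_cancel_left]
  rw [h2, sw_mul_zpow]

/-- Every group element is recovered from its stripped word up to powers of `a`. -/
lemma vt_sw (f : F) : vt (FreeGroup.mk (sw f))⁻¹ = vt f := by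
  have key : ∀ L : List (Fin 3 × Bool), ∃ i : ℤ, FreeGroup.mk L = a ^ i * FreeGroup.mk (strip L) := by
    intro L
    induction L with
    | nil => exact ⟨0, by simp [strip]⟩
    | cons x L ih =>
      by_cases hx : x.1 = 0
      · obtain ⟨i, hi⟩ := ih
        rw [strip_cons_zero x hx]
        have h1 : FreeGroup.mk (x :: L) = FreeGroup.mk [x] * FreeGroup.mk L := by
          rw [FreeGroup.mul_mk]; rfl
        obtain ⟨k, e⟩ := x
        simp only at hx
        subst hx
        rw [h1, hi]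
        cases e
        · refine ⟨-1 + i, ?_⟩
          have h2 : FreeGroup.mk [((0 : Fin 3), false)] = a ^ (-1 : ℤ) := by
            rw [zpow_neg_one]; rfl
          rw [h2, ← mul_assoc, ← zpow_add]
        · refine ⟨1 + i, ?_⟩
          have h2 : FreeGroup.mk [((0 : Fin 3), true)] = a ^ (1 : ℤ) := by
            rw [zpow_one]; rfl
          rw [h2, ← mul_assoc, ← zpow_add]
      · exact ⟨0, by rw [strip_cons_ne x hx]; simp⟩
  obtain ⟨i, hi⟩ := key (f⁻¹).toWord
  rw [FreeGroup.mk_toWord] at hi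
  have h1 : f = (FreeGroup.mk (sw f))⁻¹ * a ^ (-i) := by
    have h2 := congrArg (fun x => x⁻¹) hi
    simp only [inv_inv, mul_inv_rev] at h2
    rw [zpow_neg]
    exact h2
  conv_rhs => rw [h1]
  rw [vt_mul_a]

end Pool.Agent.H540R3.Ger
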