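import Mathlib
import Pool.Agent.H540R3.Ger

set_option autoImplicit false

/-!
# Gersten's group is cyclic subgroup separable
-/

namespace Pool.Agent.H540R3.Ger

/-- The intersection of the kernels of all homomorphisms to `Q`. -/
def core (Q : Type) [Group Q] : Subgroup F := ⨅ θ : F →* Q, θ.ker

lemma mem_core {Q : Type} [Group Q] {f : F} : f ∈ core Q ↔ ∀ θ : F →* Q, θ f = 1 := by
  simp [core, Subgroup.mem_iInf, MonoidHom.mem_ker]

lemma core_finiteIndex (Q : Type) [Group Q] [Finite Q] : (core Q).FiniteIndex := by
  have : Finite (F →* Q) := Finite.of_equiv _ (FreeGroup.lift (α := Fin 3) (β := Q))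
  exact Subgroup.finiteIndex_iInf (fun θ => Subgroup.finiteIndex_ker θ)

lemma core_ψ {Q : Type} [Group Q] (n : Z) {f : F} (hf : f ∈ core Q) : ψ n f ∈ core Q := by
  rw [mem_core] at hf ⊢
  intro θ
  exact hf (θ.comp (ψ n).toMonoidHom)

/-- The subgroup `core ⋊ ℤ`. -/
def K1 (Q : Type) [Group Q] : Subgroup G where
  carrier := {g | g.left ∈ core Q}
  one_mem' := by
    change (1 : G).left ∈ core Q
    exact Subgroup.one_mem _
  mul_mem' := by
    intro x y hx hy
    change (x * y).left ∈ core Q
    rw [SemidirectProduct.mul_left]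
    exact Subgroup.mul_mem _ hx (core_ψ _ hy)
  inv_mem' := by
    intro x hx
    change (x⁻¹).left ∈ core Q
    rw [SemidirectProduct.inv_left]
    exact core_ψ _ (Subgroup.inv_mem _ hx)

lemma mem_K1 {Q : Type} [Group Q] {g : G} : g ∈ K1 Q ↔ g.left ∈ core Q := Iff.rfl

lemma K1_finiteIndex (Q : Type) [Group Q] [Finite Q] : (K1 Q).FiniteIndex := by
  have h := core_finiteIndex Q
  have : Finite (F ⧸ core Q) := inferInstance
  let m : F ⧸ core Q → G ⧸ K1 Q := Quotient.lift
    (fun f => ((SemidirectProduct.inl f : G) : G ⧸ K1 Q)) (by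
      intro x y hxy
      rw [QuotientGroup.eq, mem_K1, ← map_inv, ← map_mul, SemidirectProduct.left_inl]
      exact QuotientGroup.leftRel_apply.1 hxy)
  have hm : Function.Surjective m := by
    intro q
    induction q using QuotientGroup.induction_on with
    | H g =>
      refine ⟨(g.left : F ⧸ core Q), ?_⟩
      change ((SemidirectProduct.inl g.left : G) : G ⧸ K1 Q) = _
      rw [QuotientGroup.eq, mem_K1]
      simp only [SemidirectProduct.mul_left, SemidirectProduct.inv_left, SemidirectProduct.left_inl,
        SemidirectProduct.inv_right]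
      rw [← map_mul, inv_mul_cancel, map_one]
      exact Subgroup.one_mem _
  have : Finite (G ⧸ K1 Q) := Finite.of_surjective m hm
  exact Subgroup.finiteIndex_of_finite_quotient

/-- Reduction of the `ℤ` coordinate modulo `M`. -/
def χ (M : ℕ) : G →* Multiplicative (ZMod M) :=
  (AddMonoidHom.toMultiplicative (Int.castAddHom (ZMod M))).comp SemidirectProduct.rightHom

lemma mem_ker_χ {M : ℕ} {g : G} : g ∈ (χ M).ker ↔ (M : ℤ) ∣ Multiplicative.toAdd g.right := by
  rw [MonoidHom.mem_ker, ← ZMod.intCast_zmod_eq_zero_iff_dvd]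
  rfl

theorem css (g h : G) (hh : h ∉ Subgroup.zpowers g) :
    ∃ K : Subgroup G, K.FiniteIndex ∧ Subgroup.zpowers g ≤ K ∧ h ∉ K := by
  set k : ℤ := Multiplicative.toAdd g.right with hk
  set r : ℤ := Multiplicative.toAdd h.right with hr
  have rpow : ∀ (x : G) (i : ℤ), Multiplicative.toAdd (x ^ i).right =
      i * Multiplicative.toAdd x.right := by
    intro x i
    have h1 : (SemidirectProduct.rightHom (x ^ i) : Z) = (SemidirectProduct.rightHom x) ^ i :=
      map_zpow _ _ _
    have h2 := congrArg Multiplicative.toAdd h1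
    rw [toAdd_zpow, smul_eq_mul] at h2
    exact h2
  have rmul : ∀ x y : G, Multiplicative.toAdd (x * y).right =
      Multiplicative.toAdd x.right + Multiplicative.toAdd y.right := by
    intro x y; rfl
  by_cases hkr : k ∣ r
  · obtain ⟨j, hj⟩ := hkr
    set f : G := h * g ^ (-j) with hf
    have hfr : f.right = 1 := by
      apply Multiplicative.toAdd.injective
      rw [hf, rmul, rpow, ← hr, ← hk, hj]
      change k * j + -j * k = 0
      ring
    have hf1 : f = SemidirectProduct.inl f.left := by
      apply SemidirectProduct.ext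
      · simp
      · simpa using hfr
    by_cases hk0 : k = 0
    · -- both elements lie in the free group
      have hg1 : g = SemidirectProduct.inl g.left := by
        apply SemidirectProduct.ext
        · simp
        · apply Multiplicative.toAdd.injective
          rw [← hk, hk0]
          simp
      have hh1 : h = SemidirectProduct.inl h.left := by
        apply SemidirectProduct.ext
        · simp
        · apply Multiplicative.toAdd.injective
          rw [← hr, hj, hk0]
          simp
      have hnot : h.left ∉ Subgroup.zpowers g.left := by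
        rintro ⟨i, hi⟩
        apply hh
        refine ⟨i, ?_⟩
        change g ^ i = h
        rw [hg1, hh1, ← map_zpow]
        congr 1
      obtain ⟨Q, _, _, θ, hθ⟩ := free_css _ _ hnot
      have hK1 := K1_finiteIndex Q
      refine ⟨Subgroup.zpowers g ⊔ (K1 Q).normalCore,
        Subgroup.finiteIndex_of_le (le_sup_right : (K1 Q).normalCore ≤ _), le_sup_left, ?_⟩
      intro hmem
      rw [Subgroup.mem_sup_of_normal_right] at hmem
      obtain ⟨x, ⟨i, hi⟩, l, hl, hxl⟩ := hmem
      change g ^ i = x at hi
      have hl1 : l ∈ K1 Q := Subgroup.normalCore_le _ hl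
      have hl2 : l = SemidirectProduct.inl (g.left ^ (-i) * h.left) := by
        have : l = x⁻¹ * h := by rw [← hxl]; group
        rw [this, ← hi]
        conv_lhs => rw [hg1, hh1]
        rw [← map_zpow, ← map_inv, ← map_mul]
        congr 2
        simp
      rw [hl2, mem_K1, SemidirectProduct.left_inl, mem_core] at hl1
      have h3 := hl1 θ
      apply hθ
      refine ⟨i, ?_⟩
      change (θ g.left) ^ i = _
      rw [map_mul, map_zpow, zpow_neg, inv_mul_eq_one] at h3
      exact h3
    · -- `g` is not in the free group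
      have hf2 : f.left ≠ 1 := by
        intro h1
        rw [h1, map_one] at hf1
        apply hh
        refine ⟨j, ?_⟩
        change g ^ j = h
        rw [hf, zpow_neg, mul_inv_eq_one] at hf1
        exact hf1.symm
      have hnot : f.left ∉ Subgroup.zpowers (1 : F) := by
        simpa using hf2
      obtain ⟨Q, _, _, θ, hθ⟩ := free_css _ _ hnot
      have hθ1 : θ f.left ≠ 1 := by
        intro h1
        apply hθ
        rw [h1]
        exact Subgroup.one_mem _
      have hK1 := K1_finiteIndex Q
      set L1 := (K1 Q).normalCore with hL1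
      set e := L1.index with he
      have he0 : e ≠ 0 := Subgroup.FiniteIndex.index_ne_zero
      have hge : g ^ e ∈ L1 := Subgroup.pow_index_mem L1 g
      set M : ℕ := k.natAbs * e with hM
      have hM0 : M ≠ 0 := Nat.mul_ne_zero (Int.natAbs_ne_zero.2 hk0) he0
      have : NeZero M := ⟨hM0⟩
      have : Finite (Multiplicative (ZMod M)) := inferInstanceAs (Finite (ZMod M))
      have hfi : (χ M).ker.FiniteIndex := Subgroup.finiteIndex_ker _
      refine ⟨Subgroup.zpowers g ⊔ (L1 ⊓ (χ M).ker),
        Subgroup.finiteIndex_of_le (le_sup_right : L1 ⊓ (χ M).ker ≤ _), le_sup_left, ?_⟩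
      intro hmem
      rw [Subgroup.mem_sup_of_normal_right] at hmem
      obtain ⟨x, ⟨i, hi⟩, l, ⟨hl, hl'⟩, hxl⟩ := hmem
      change g ^ i = x at hi
      have hl'' := mem_ker_χ.1 hl'
      have h4 : ∃ s : ℤ, Multiplicative.toAdd l.right = k * e * s := by
        obtain ⟨s, hs⟩ := hl''
        rcases Int.natAbs_eq k with h5 | h5
        · refine ⟨s, ?_⟩
          rw [hs, hM]; push_cast
          rw [← Int.natCast_natAbs, ← h5]
        · refine ⟨-s, ?_⟩
          rw [hs, hM]; push_cast
          rw [← Int.natCast_natAbs]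
          conv_rhs => rw [h5]
          ring
      obtain ⟨s, hs⟩ := h4
      have h5 : r = i * k + k * e * s := by
        rw [hr, ← hxl, rmul, ← hi, rpow, hs]
      have h6 : j = i + e * s := by
        rw [hj] at h5
        have h7 : k * j = k * (i + e * s) := by rw [h5]; ring
        exact mul_left_cancel₀ hk0 h7
      have h7 : f ∈ L1 := by
        have h8 : f = (g ^ i * l * (g ^ i)⁻¹) * ((g ^ e) ^ s)⁻¹ := by
          rw [hf, ← hxl, ← hi, h6, neg_add, zpow_add, ← zpow_natCast g e, ← zpow_mul,
            ← zpow_neg, ← zpow_neg]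
          group
        rw [h8]
        exact Subgroup.mul_mem _ ((inferInstance : L1.Normal).conj_mem _ hl _)
          (Subgroup.inv_mem _ (Subgroup.zpow_mem _ hge _))
      have h9 : f ∈ K1 Q := Subgroup.normalCore_le _ h7
      have h8 : f.left ∈ core Q := h9
      exact hθ1 (mem_core.1 h8 θ)
  · -- separated by the `ℤ` coordinate
    by_cases hk0 : k = 0
    · have hr0 : r ≠ 0 := by
        intro h1
        apply hkr
        rw [h1]
        exact dvd_zero _
      set M : ℕ := 2 * r.natAbs with hM
      have hM0 : M ≠ 0 := Nat.mul_ne_zero (by norm_num) (Int.natAbs_ne_zero.2 hr0)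
      have : NeZero M := ⟨hM0⟩
      have : Finite (Multiplicative (ZMod M)) := inferInstanceAs (Finite (ZMod M))
      refine ⟨(χ M).ker, Subgroup.finiteIndex_ker _, ?_, ?_⟩
      · rw [Subgroup.zpowers_le, mem_ker_χ, ← hk, hk0]
        exact dvd_zero _
      · rw [mem_ker_χ, ← hr, ← Int.natAbs_dvd_natAbs, Int.natAbs_natCast]
        intro h1
        have h2 := Nat.le_of_dvd (Int.natAbs_pos.2 hr0) h1
        have h3 := Int.natAbs_pos.2 hr0
        omega
    · set M : ℕ := k.natAbs with hM
      have hM0 : M ≠ 0 := Int.natAbs_ne_zero.2 hk0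
      have : NeZero M := ⟨hM0⟩
      have : Finite (Multiplicative (ZMod M)) := inferInstanceAs (Finite (ZMod M))
      refine ⟨(χ M).ker, Subgroup.finiteIndex_ker _, ?_, ?_⟩
      · rw [Subgroup.zpowers_le, mem_ker_χ, ← hk, hM, Int.natAbs_dvd]
      · rw [mem_ker_χ, ← hr, hM, Int.natAbs_dvd]
        exact hkr

end Pool.Agent.H540R3.Ger
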