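import Mathlib
import Pool.Agent.H540R3.Ger

set_option autoImplicit false

/-!
# The tree of Gersten's group
-/

namespace Pool.Agent.H540R3.Ger

section LevelTree

/-! The following criterion is taken from `Helper270/HNN.lean`. -/

variable {V : Type} {T : SimpleGraph V} {par : V → V} {o : V}

/-- Descendants of `v` with respect to a parent function. -/
inductive Desc (par : V → V) (o v : V) : V → Prop
  | refl : Desc par o v v
  | step (w : V) : w ≠ o → Desc par o v (par w) → Desc par o v w

theorem Desc.le {lev : V → ℕ} (hlev : ∀ v, v ≠ o → lev (par v) < lev v) {v w : V}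
    (h : Desc par o v w) : lev v ≤ lev w := by
  induction h with
  | refl => exact le_rfl
  | step w hw _ ih => exact ih.trans (hlev w hw).le

theorem isTree_of_parent (lev : V → ℕ) (hpar : ∀ v, v ≠ o → T.Adj v (par v))
    (hlev : ∀ v, v ≠ o → lev (par v) < lev v)
    (hadj : ∀ u v, T.Adj u v → (u ≠ o ∧ par u = v) ∨ (v ≠ o ∧ par v = u)) : T.IsTree := by
  constructor
  · have h : ∀ (n : ℕ) (v : V), lev v ≤ n → T.Reachable v o := by
      intro n
      induction n with
      | zero =>
        intro v hv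
        by_cases hvo : v = o
        · rw [hvo]
        · have := hlev v hvo; omega
      | succ n ih =>
        intro v hv
        by_cases hvo : v = o
        · rw [hvo]
        · have := hlev v hvo
          exact (hpar v hvo).reachable.trans (ih _ (by omega))
    exact (SimpleGraph.connected_iff _).mpr
      ⟨fun u v => (h _ u le_rfl).trans (h _ v le_rfl).symm, ⟨o⟩⟩
  · have key : ∀ v, v ≠ o → ¬ (T \ SimpleGraph.fromEdgeSet {s(v, par v)}).Reachable v (par v) := by
      intro v hv hr
      have hinv : ∀ w, (T \ SimpleGraph.fromEdgeSet {s(v, par v)}).Reachable v w →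
          Desc par o v w := by
        intro w hw
        rw [SimpleGraph.reachable_iff_reflTransGen] at hw
        induction hw with
        | refl => exact Desc.refl
        | tail _ hbc ih =>
          rename_i a b _
          rw [SimpleGraph.sdiff_adj, SimpleGraph.fromEdgeSet_adj] at hbc
          obtain ⟨h1, h2⟩ := hbc
          rcases hadj a b h1 with ⟨_, h3⟩ | ⟨h3, h4⟩
          · cases ih with
            | refl =>
              exfalso
              apply h2
              rw [← h3]
              exact ⟨rfl, (hpar v hv).ne⟩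
            | step _ _ h5 => rwa [h3] at h5
          · exact Desc.step b h3 (by rw [h4]; exact ih)
      have h1 := (hinv _ hr).le hlev
      have h2 := hlev v hv
      omega
    rw [SimpleGraph.isAcyclic_iff_forall_adj_isBridge]
    intro u v huv
    rw [SimpleGraph.isBridge_iff]
    rcases hadj u v huv with ⟨hu, h⟩ | ⟨hv, h⟩
    · rw [← h]; exact key u hu
    · rw [← h]
      intro hr
      apply key v hv
      rw [Sym2.eq_swap]
      exact hr.symm

end LevelTree

/-- The level of an element: the exponent sum of the letters other than `a`. -/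
def ex : F →* Multiplicative ℤ :=
  FreeGroup.lift ![1, Multiplicative.ofAdd 1, Multiplicative.ofAdd 1]

lemma ex_a : ex a = 1 := by simp [ex]

lemma ex_letter (k : Fin 3) (hk : k ≠ 0) : ex (FreeGroup.of k) = Multiplicative.ofAdd 1 := by
  fin_cases k
  · exact absurd rfl hk
  · simp [ex]
  · simp [ex]

lemma ex_φ (f : F) : ex (φ f) = ex f := by
  have : ex.comp φ.toMonoidHom = ex := by
    ext i
    fin_cases i <;> simp [ex]
  exact DFunLike.congr_fun this f

lemma ex_ψ (n : Z) (f : F) : ex (ψ n f) = ex f := by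
  rw [ψ_apply]
  generalize Multiplicative.toAdd n = m
  induction m generalizing f with
  | zero => simp
  | succ m ih => rw [zpow_add_one, MulAut.mul_apply, ih, ex_φ]
  | pred m ih =>
    rw [zpow_sub_one, MulAut.mul_apply, ih]
    have h := ex_φ (φ⁻¹ f)
    rw [MulAut.apply_inv_self] at h
    exact h.symm

lemma ex_eq_of_vt {f f' : F} (h : vt f = vt f') : ex f = ex f' := by
  rw [vt_eq] at h
  obtain ⟨i, hi⟩ := h
  change a ^ i = f⁻¹ * f' at hi
  have : f' = f * a ^ i := by rw [hi, mul_inv_cancel_left]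
  rw [this, map_mul, map_zpow, ex_a, one_zpow, mul_one]

/-- The tree. -/
def T : SimpleGraph V where
  Adj u v := ∃ (f : F) (k : Fin 3), k ≠ 0 ∧
    ((u = vt f ∧ v = vt (f * FreeGroup.of k)) ∨ (v = vt f ∧ u = vt (f * FreeGroup.of k)))
  symm := ⟨fun u v ⟨f, k, hk, h⟩ => ⟨f, k, hk, h.symm⟩⟩
  loopless := ⟨by
    rintro u ⟨f, k, hk, h⟩
    have h1 : vt f = vt (f * FreeGroup.of k) := by
      rcases h with ⟨h1, h2⟩ | ⟨h1, h2⟩
      · rw [← h1, ← h2]
      · rw [← h1, ← h2]
    have h2 := ex_eq_of_vt h1
    rw [map_mul, ex_letter k hk] at h2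
    have h3 := congrArg Multiplicative.toAdd h2
    rw [toAdd_mul, toAdd_ofAdd] at h3
    omega⟩

lemma adj_vt (f : F) (k : Fin 3) (hk : k ≠ 0) : T.Adj (vt f) (vt (f * FreeGroup.of k)) :=
  ⟨f, k, hk, Or.inl ⟨rfl, rfl⟩⟩

lemma mk_true (k : Fin 3) : FreeGroup.mk [(k, true)] = FreeGroup.of k := rfl

lemma mk_false (k : Fin 3) : FreeGroup.mk [(k, false)] = (FreeGroup.of k)⁻¹ := rfl

/-- The parent of a vertex. -/
noncomputable def par (v : V) : V := vt (FreeGroup.mk (sv v).tail)⁻¹

lemma vt_sv (v : V) : vt (FreeGroup.mk (sv v))⁻¹ = v := by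
  obtain ⟨f, rfl⟩ := exists_vt v
  rw [sv_vt, vt_sw]

lemma sv_ne (v : V) (hv : v ≠ vt 1) : sv v ≠ [] := by
  intro h
  apply hv
  rw [← vt_sv v, h]
  congr 1

lemma sv_one : sv (vt 1) = [] := by
  rw [sv_vt]
  simp [sw, strip]

lemma strip_head (L : List (Fin 3 × Bool)) (x : Fin 3 × Bool) (M : List (Fin 3 × Bool))
    (h : strip L = x :: M) : x.1 ≠ 0 := by
  induction L with
  | nil => simp [strip] at h
  | cons y L ih =>
    by_cases hy : y.1 = 0
    · rw [strip_cons_zero y hy] at h
      exact ih h
    · rw [strip_cons_ne y hy] at h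
      have : y = x := (List.cons.inj h).1
      rwa [← this]

lemma edge_cases (f : F) (k : Fin 3) (hk : k ≠ 0) :
    (vt f ≠ vt 1 ∧ par (vt f) = vt (f * FreeGroup.of k)) ∨
    (vt (f * FreeGroup.of k) ≠ vt 1 ∧ par (vt (f * FreeGroup.of k)) = vt f) := by
  have hw : ((f * FreeGroup.of k)⁻¹).toWord = FreeGroup.reduce ((k, false) :: (f⁻¹).toWord) := by
    rw [mul_inv_rev, ← mk_false, toWord_cons]
  rcases reduce_cons_word ((k, false)) f⁻¹ with h | ⟨L, h1, h2⟩
  · right
    have h3 : sv (vt (f * FreeGroup.of k)) = (k, false) :: (f⁻¹).toWord := by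
      rw [sv_vt, sw, hw, h, strip_cons_ne _ hk]
    constructor
    · intro h4
      rw [h4, sv_one] at h3
      exact absurd h3 (List.cons_ne_nil _ _).symm
    · rw [par, h3, List.tail_cons, FreeGroup.mk_toWord, inv_inv]
  · left
    have h3 : sv (vt f) = (k, true) :: L := by
      rw [sv_vt, sw, h1, strip_cons_ne]
      · rfl
      · exact hk
    constructor
    · intro h4
      rw [h4, sv_one] at h3
      exact absurd h3 (List.cons_ne_nil _ _).symm
    · rw [par, h3, List.tail_cons]
      have h4 : FreeGroup.mk L = (f * FreeGroup.of k)⁻¹ := by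
        rw [← FreeGroup.mk_toWord (x := (f * FreeGroup.of k)⁻¹), hw, h2]
      rw [h4, inv_inv]

theorem isTree : T.IsTree := by
  refine isTree_of_parent (par := par) (o := vt 1) (fun v => (sv v).length) ?_ ?_ ?_
  · intro v hv
    obtain ⟨x, L, hL⟩ := List.exists_cons_of_ne_nil (sv_ne v hv)
    have hx : x.1 ≠ 0 := by
      obtain ⟨f, rfl⟩ := exists_vt v
      rw [sv_vt, sw] at hL
      exact strip_head _ _ _ hL
    have h1 : v = vt ((FreeGroup.mk L)⁻¹ * (FreeGroup.mk [x])⁻¹) := by
      conv_lhs => rw [← vt_sv v, hL]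
      rw [← mul_inv_rev, FreeGroup.mul_mk]
      rfl
    have h2 : par v = vt (FreeGroup.mk L)⁻¹ := by rw [par, hL, List.tail_cons]
    rw [h2]
    obtain ⟨k, e⟩ := x
    cases e
    · rw [mk_false, inv_inv] at h1
      rw [h1]
      exact (adj_vt _ k hx).symm
    · rw [mk_true] at h1
      rw [h1]
      have := adj_vt ((FreeGroup.mk L)⁻¹ * (FreeGroup.of k)⁻¹) k hx
      rwa [inv_mul_cancel_right] at this
  · intro v hv
    have h0 := sv_ne v hv
    change (sv (par v)).length < (sv v).length
    rw [par, sv_vt, sw, inv_inv, FreeGroup.toWord_mk]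
    have h1 := strip_length (FreeGroup.reduce (sv v).tail)
    have h2 := (FreeGroup.reduce.red (L := (sv v).tail)).length_le
    have h3 : (sv v).tail.length < (sv v).length := by
      rw [List.length_tail]
      have := List.length_pos_iff.2 h0
      omega
    omega
  · rintro u v ⟨f, k, hk, ⟨rfl, rfl⟩ | ⟨rfl, rfl⟩⟩
    · exact edge_cases f k hk
    · exact (edge_cases f k hk).symm

lemma adj_smul (g : G) (u v : V) (h : T.Adj u v) : T.Adj (g • u) (g • v) := by
  have key : ∀ (f : F) (k : Fin 3), k ≠ 0 →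
      T.Adj (g • vt f) (g • vt (f * FreeGroup.of k)) := by
    intro f k hk
    rw [smul_vt, smul_vt, map_mul]
    obtain ⟨i, hi⟩ := ψ_letter k hk g.right
    rw [hi]
    have h1 := adj_vt (g.left * ψ g.right f * a ^ i) k hk
    rw [vt_mul_a] at h1
    rwa [← mul_assoc, ← mul_assoc]
  obtain ⟨f, k, hk, ⟨rfl, rfl⟩ | ⟨rfl, rfl⟩⟩ := h
  · exact key f k hk
  · exact (key f k hk).symm

lemma no_inv (g : G) (u v : V) (h : T.Adj u v) : ¬ (g • u = v ∧ g • v = u) := by
  rintro ⟨h1, h2⟩
  have key : ∀ (f : F) (k : Fin 3), k ≠ 0 → g • vt f = vt (f * FreeGroup.of k) →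
      g • vt (f * FreeGroup.of k) = vt f → False := by
    intro f k hk h3 h4
    rw [smul_vt] at h3 h4
    have h5 := ex_eq_of_vt h3
    have h6 := ex_eq_of_vt h4
    rw [map_mul, map_mul, ex_ψ, ex_letter k hk] at h5
    rw [map_mul, ex_ψ, map_mul, ex_letter k hk] at h6
    have h7 := congrArg Multiplicative.toAdd h5
    have h8 := congrArg Multiplicative.toAdd h6
    simp only [toAdd_mul, toAdd_ofAdd] at h7 h8
    omega
  obtain ⟨f, k, hk, ⟨rfl, rfl⟩ | ⟨rfl, rfl⟩⟩ := h
  · exact key f k hk h1 h2
  · exact key f k hk h2 h1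

lemma exists_smul (v : V) : ∃ g : G, g • v = vt 1 := by
  obtain ⟨f, rfl⟩ := exists_vt v
  refine ⟨SemidirectProduct.inl f⁻¹, ?_⟩
  rw [smul_vt]
  simp

lemma edge_orbits : ∃ E : Finset (V × V), ∀ u v : V, T.Adj u v → ∃ g : G, (g • u, g • v) ∈ E := by
  classical
  refine ⟨Finset.univ.image (fun k : Fin 3 => (vt 1, vt (FreeGroup.of k))) ∪
    Finset.univ.image (fun k : Fin 3 => (vt (FreeGroup.of k), vt 1)), ?_⟩
  rintro u v ⟨f, k, hk, h⟩
  refine ⟨SemidirectProduct.inl f⁻¹, ?_⟩
  have h1 : (SemidirectProduct.inl f⁻¹ : G) • vt f = vt 1 := by rw [smul_vt]; simp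
  have h2 : (SemidirectProduct.inl f⁻¹ : G) • vt (f * FreeGroup.of k) = vt (FreeGroup.of k) := by
    rw [smul_vt]; simp
  rcases h with ⟨rfl, rfl⟩ | ⟨rfl, rfl⟩
  · rw [h1, h2]
    simp
  · rw [h1, h2]
    simp

/-- The vertex group is free abelian of rank two. -/
noncomputable def Hiso : Multiplicative (Fin 2 → ℤ) ≃* H :=
  MulEquiv.ofBijective
    ({ toFun := fun v => ⟨⟨a ^ (Multiplicative.toAdd v 0), Multiplicative.ofAdd (Multiplicative.toAdd v 1)⟩,
          ⟨_, rfl⟩⟩
       map_one' := by
          apply Subtype.ext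
          apply SemidirectProduct.ext <;> simp
       map_mul' := by
          intro x y
          apply Subtype.ext
          apply SemidirectProduct.ext
          · simp only [Subgroup.coe_mul, SemidirectProduct.mul_left]
            rw [ψ_zpow_a, ← zpow_add]
            rfl
          · rfl } : Multiplicative (Fin 2 → ℤ) →* H)
    (by
      constructor
      · intro x y hxy
        have h1 := congrArg (fun z : H => (z : G).left) hxy
        have h2 := congrArg (fun z : H => (z : G).right) hxy
        simp only [MonoidHom.coe_mk, OneHom.coe_mk] at h1 h2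
        have h3 : Multiplicative.toAdd x 0 = Multiplicative.toAdd y 0 := by
          have h4 := congrArg (FreeGroup.lift (fun _ : Fin 3 => Multiplicative.ofAdd (1 : ℤ))) h1
          simp only [map_zpow, FreeGroup.lift_apply_of] at h4
          have h5 := congrArg Multiplicative.toAdd h4
          simpa using h5
        have h4 : Multiplicative.toAdd x 1 = Multiplicative.toAdd y 1 := h2
        apply Multiplicative.toAdd.injective
        funext i
        fin_cases i
        · exact h3
        · exact h4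
      · rintro ⟨⟨f, n⟩, ⟨i, hi⟩⟩
        refine ⟨Multiplicative.ofAdd ![i, Multiplicative.toAdd n], ?_⟩
        apply Subtype.ext
        apply SemidirectProduct.ext
        · exact hi
        · rfl)

lemma stab_one : MulAction.stabilizer G (vt 1) = H := by
  have h : vt 1 = (((1 : G) : G) : G ⧸ H) := by rw [vt, map_one]
  rw [h]
  exact MulAction.stabilizer_quotient H

lemma vertex_stab (v : V) :
    ∃ n : ℕ, Nonempty (↥(MulAction.stabilizer G v) ≃* Multiplicative (Fin n → ℤ)) := by
  obtain ⟨g, hg⟩ := exists_smul v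
  refine ⟨2, ⟨?_⟩⟩
  have e1 : ↥(MulAction.stabilizer G v) ≃* ↥(MulAction.stabilizer G (vt 1)) :=
    MulAction.stabilizerEquivStabilizer hg.symm
  exact e1.trans ((MulEquiv.subgroupCongr stab_one).trans Hiso.symm)

lemma no_comm (k : Fin 3) (hk : k ≠ 0) (i j : ℤ)
    (h : a ^ i * FreeGroup.of k = FreeGroup.of k * a ^ j) : i = 0 := by
  have h1 : i = j := by
    have h2 := congrArg (FreeGroup.lift (fun _ : Fin 3 => Multiplicative.ofAdd (1 : ℤ))) h
    simp only [map_mul, map_zpow, FreeGroup.lift_apply_of] at h2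
    have h3 := congrArg Multiplicative.toAdd h2
    simp only [toAdd_mul, toAdd_zpow, toAdd_ofAdd, smul_eq_mul, mul_one] at h3
    omega
  subst h1
  let d : F →* Equiv.Perm ℤ :=
    FreeGroup.lift (fun x : Fin 3 => if x = 0 then Equiv.addRight 1 else Equiv.neg ℤ)
  have h2 := congrArg d h
  have hd0 : d a = Equiv.addRight 1 := by simp [d]
  have hdk : d (FreeGroup.of k) = Equiv.neg ℤ := by simp [d, hk]
  rw [map_mul, map_mul, map_zpow, hd0, hdk] at h2
  have h4 : ∀ m x : ℤ, ((Equiv.addRight (1 : ℤ)) ^ m : Equiv.Perm ℤ) x = x + m := by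
    intro m
    induction m with
    | zero => intro x; simp
    | succ m ih =>
      intro x
      rw [zpow_add_one, Equiv.Perm.mul_apply, ih, Equiv.coe_addRight]
      ring
    | pred m ih =>
      intro x
      rw [zpow_sub_one, Equiv.Perm.mul_apply, ih]
      have : (Equiv.addRight (1 : ℤ))⁻¹ x = x - 1 := by
        rw [Equiv.Perm.inv_eq_iff_eq, Equiv.coe_addRight]
        ring
      rw [this]
      ring
  have h3 := DFunLike.congr_fun h2 0
  rw [Equiv.Perm.mul_apply, Equiv.Perm.mul_apply, h4, h4] at h3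
  simp at h3
  omega

lemma edge_stab (u v : V) (h : T.Adj u v) :
    IsCyclic ↥(MulAction.stabilizer G u ⊓ MulAction.stabilizer G v) := by
  have key : ∀ (f : F) (k : Fin 3), k ≠ 0 → ∀ g : G, g • vt f = vt f →
      g • vt (f * FreeGroup.of k) = vt (f * FreeGroup.of k) → g.right = 1 → g = 1 := by
    intro f k hk g h1 h2 h3
    rw [smul_vt, h3, map_one, MulAut.one_apply, eq_comm, vt_eq] at h1
    rw [smul_vt, h3, map_one, MulAut.one_apply, eq_comm, vt_eq] at h2
    obtain ⟨i, hi⟩ := h1
    obtain ⟨j, hj⟩ := h2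
    change a ^ i = _ at hi
    change a ^ j = _ at hj
    have h4 : a ^ i * FreeGroup.of k = FreeGroup.of k * a ^ j := by
      rw [hi, hj]; group
    have h5 := no_comm k hk i j h4
    subst h5
    rw [zpow_zero, eq_comm, inv_mul_eq_one] at hi
    apply SemidirectProduct.ext
    · have h6 : f = g.left * f := hi
      have h7 : g.left = 1 := by
        have := congrArg (· * f⁻¹) h6
        simpa using this.symm
      exact h7
    · exact h3
  let ρ : ↥(MulAction.stabilizer G u ⊓ MulAction.stabilizer G v) →* Multiplicative ℤ :=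
    (SemidirectProduct.rightHom : G →* Z).comp (Subgroup.subtype _)
  have hinj : Function.Injective ρ := by
    rw [injective_iff_map_eq_one]
    rintro ⟨g, hg1, hg2⟩ hg
    have hg1' : g • u = u := hg1
    have hg2' : g • v = v := hg2
    have hg' : g.right = 1 := hg
    apply Subtype.ext
    change g = 1
    obtain ⟨f, k, hk, ⟨rfl, rfl⟩ | ⟨rfl, rfl⟩⟩ := h
    · exact key f k hk g hg1' hg2' hg'
    · exact key f k hk g hg2' hg1' hg'
  exact isCyclic_of_injective ρ hinj

end Pool.Agent.H540R3.Ger
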