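import Mathlib

set_option autoImplicit false

/-!
# The parallelogram obstruction to virtual retractions
-/

namespace Pool.Agent.H540R3

open Finset

/-- The parallelogram identity: if `t` is conjugate to `a⁻¹ t` and to `a⁻² t`, where `a` and `t`
commute, then `a` is killed by every homomorphism from a finite index subgroup to `ℤ`. -/
theorem no_vrc {G : Type} [Group G] (A T B C : G) (hAT : A * T = T * A)
    (hB : B * T * B⁻¹ = A⁻¹ * T) (hC : C * T * C⁻¹ = (A⁻¹) ^ 2 * T)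
    (K : Subgroup G) (hK : K.FiniteIndex) (hA : A ∈ K) (f : K →* Multiplicative ℤ) :
    f ⟨A, hA⟩ = 1 := by
  classical
  set N : Subgroup G := K.normalCore with hN
  have hNK : N ≤ K := Subgroup.normalCore_le K
  have hNfin : N.FiniteIndex := inferInstance
  have hNn : N.Normal := inferInstance
  set m := N.index with hm
  have hm0 : m ≠ 0 := hNfin.index_ne_zero
  have hpow : ∀ g x : G, g * x ^ m * g⁻¹ ∈ K := by
    intro g x
    exact hNK (hNn.conj_mem _ (Subgroup.pow_index_mem N x) g)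
  let F : G → G → ℤ := fun x g => Multiplicative.toAdd (f ⟨g * x ^ m * g⁻¹, hpow g x⟩)
  have hinv : ∀ x g n : G, n ∈ N → F x (g * n) = F x g := by
    intro x g n hn
    have h1 : g * n * g⁻¹ ∈ K := hNK (hNn.conj_mem _ hn g)
    have h2 : (⟨(g * n) * x ^ m * (g * n)⁻¹, hpow _ _⟩ : K) =
        ⟨g * n * g⁻¹, h1⟩ * ⟨g * x ^ m * g⁻¹, hpow _ _⟩ * ⟨g * n * g⁻¹, h1⟩⁻¹ := by
      apply Subtype.ext
      simp only [Subgroup.coe_mul, InvMemClass.coe_inv]
      group
    change Multiplicative.toAdd (f _) = Multiplicative.toAdd (f _)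
    rw [h2, f.map_mul, f.map_mul, f.map_inv, mul_comm (f ⟨g * n * g⁻¹, h1⟩), mul_assoc,
      mul_inv_cancel, mul_one]
  have : Fintype (G ⧸ N) := Fintype.ofFinite _
  let α : G ⧸ N → ℤ := fun q => F A q.out
  let τ : G ⧸ N → ℤ := fun q => F T q.out
  have hout : ∀ x g : G, F x (Quotient.out (g : G ⧸ N)) = F x g := by
    intro x g
    obtain ⟨n, hn⟩ := QuotientGroup.mk_out_eq_mul N g
    rw [hn]
    exact hinv x g _ n.2
  have hα : ∀ g : G, α (g : G ⧸ N) = F A g := fun g => hout A g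
  have hτ : ∀ g : G, τ (g : G ⧸ N) = F T g := fun g => hout T g
  have hcomm : ∀ j : ℕ, ((A⁻¹) ^ j * T) ^ m = ((A ^ m)⁻¹) ^ j * T ^ m := by
    intro j
    have h1 : Commute ((A⁻¹) ^ j) T := by
      have : Commute A T := hAT
      exact this.inv_left.pow_left j
    rw [h1.mul_pow]
    congr 1
    rw [← pow_mul, mul_comm j m, pow_mul, inv_pow]
  have key : ∀ (j : ℕ) (D : G), D * T * D⁻¹ = (A⁻¹) ^ j * T → ∀ g : G,
      F T (g * D) = F T g - j * F A g := by
    intro j D hD g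
    have h2 : (⟨(g * D) * T ^ m * (g * D)⁻¹, hpow _ _⟩ : K) =
        (⟨g * A ^ m * g⁻¹, hpow _ _⟩⁻¹) ^ j * ⟨g * T ^ m * g⁻¹, hpow _ _⟩ := by
      apply Subtype.ext
      simp only [Subgroup.coe_mul, InvMemClass.coe_inv, SubmonoidClass.coe_pow]
      have h3 : (g * D) * T ^ m * (g * D)⁻¹ = g * (D * T * D⁻¹) ^ m * g⁻¹ := by
        rw [conj_pow]; group
      rw [h3, hD, hcomm]
      have h4 : (g * A ^ m * g⁻¹)⁻¹ = g * (A ^ m)⁻¹ * g⁻¹ := by group
      rw [h4, conj_pow]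
      group
    change Multiplicative.toAdd (f _) = Multiplicative.toAdd (f _) -
      j * Multiplicative.toAdd (f _)
    rw [h2, map_mul, map_pow, map_inv, toAdd_mul, toAdd_pow, toAdd_inv]
    simp only [nsmul_eq_mul]
    ring
  have hsum : ∀ (j : ℕ) (D : G), D * T * D⁻¹ = (A⁻¹) ^ j * T →
      ∑ q : G ⧸ N, (τ q - j * α q) ^ 2 = ∑ q : G ⧸ N, τ q ^ 2 := by
    intro j D hD
    refine Fintype.sum_equiv (Equiv.mulRight (D : G ⧸ N)) _ _ ?_
    intro q
    induction q using QuotientGroup.induction_on with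
    | H g =>
      change _ = τ ((g : G ⧸ N) * (D : G ⧸ N)) ^ 2
      rw [← QuotientGroup.mk_mul, hτ, hτ, hα, key j D hD]
  have s1 := hsum 1 B (by rw [pow_one]; exact hB)
  have s2 := hsum 2 C hC
  have e1 : ∀ j : ℕ, ∑ q : G ⧸ N, (τ q - j * α q) ^ 2 =
      ∑ q : G ⧸ N, τ q ^ 2 - 2 * j * ∑ q : G ⧸ N, τ q * α q + j ^ 2 * ∑ q : G ⧸ N, α q ^ 2 := by
    intro j
    rw [Finset.mul_sum, Finset.mul_sum, ← Finset.sum_sub_distrib, ← Finset.sum_add_distrib]
    refine Finset.sum_congr rfl fun q _ => ?_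
    ring
  rw [e1] at s1 s2
  push_cast at s1 s2
  have h0 : ∑ q : G ⧸ N, α q ^ 2 = 0 := by linarith
  have h1 : α ((1 : G) : G ⧸ N) ^ 2 = 0 :=
    (Finset.sum_eq_zero_iff_of_nonneg (fun q _ => sq_nonneg (α q))).1 h0 _ (Finset.mem_univ _)
  have h2 : F A 1 = 0 := by
    rw [← hα]
    exact pow_eq_zero_iff (two_ne_zero) |>.1 h1
  have h3 : (⟨1 * A ^ m * 1⁻¹, hpow 1 A⟩ : K) = ⟨A, hA⟩ ^ m := by
    apply Subtype.ext
    simp
  change Multiplicative.toAdd (f ⟨1 * A ^ m * 1⁻¹, hpow 1 A⟩) = 0 at h2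
  rw [h3, map_pow, toAdd_pow, nsmul_eq_mul] at h2
  have h4 : Multiplicative.toAdd (f ⟨A, hA⟩) = 0 := by
    rcases mul_eq_zero.1 h2 with h | h
    · exact absurd (by exact_mod_cast h) hm0
    · exact h
  exact Multiplicative.toAdd.injective (by rw [h4]; rfl)

end Pool.Agent.H540R3
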